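import Mathlib
import Pool.Agent.Work.MP_b62148_ag.HS
import Pool.Agent.Work.MP_b62148_ag.ExistLine

/-!
Module M11 of the quintic theorem: a smooth form of degree five in at least three variables is
irreducible.
-/

namespace Pool.Agent.Work.PD5

open MvPolynomial

variable {k : Type*} [Field k] {σ : Type*} [Fintype σ]

omit [Fintype σ] in
/-- a factor of a non zero homogeneous polynomial with non zero constant coefficient is a unit -/
theorem isUnit_of_coeff_ne_zero {F a b : MvPolynomial σ k} {n : ℕ} (hF : F.IsHomogeneous n)
    (hF0 : F ≠ 0) (hab : F = a * b) (ha : coeff 0 a ≠ 0) : IsUnit a := by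
  classical
  have ha0 : a ≠ 0 := fun h => by simp [h] at ha
  have hb0 : b ≠ 0 := fun h => hF0 (by rw [hab, h, mul_zero])
  -- all monomials of `b` have degree at least `n`
  have hsupp : ∀ d < n, ∀ m : σ →₀ ℕ, m.degree = d → coeff m b = 0 := by
    intro d
    induction d using Nat.strong_induction_on with
    | _ d ih =>
      intro hd m hm
      have h1 : coeff m F = 0 := hF.coeff_eq_zero (by rw [hm]; exact hd.ne)
      rw [hab, coeff_mul] at h1
      rw [Finset.sum_eq_single (0, m)] at h1
      · exact (mul_eq_zero.mp h1).resolve_left ha
      · rintro ⟨u, v⟩ huv hne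
        have huv : u + v = m := Finset.HasAntidiagonal.mem_antidiagonal.mp huv
        have hu : u ≠ 0 := by
          rintro rfl
          apply hne
          rw [zero_add] at huv
          rw [huv]
        have hdeg : u.degree + v.degree = d := by
          rw [← hm, ← huv, map_add]
        have hu1 : 0 < u.degree := by
          rw [Nat.pos_iff_ne_zero]
          intro h0
          exact hu (Finsupp.degree_eq_zero_iff u |>.mp h0)
        rw [ih v.degree (by omega) (by omega) v rfl, mul_zero]
      · intro h2
        exact absurd (Finset.HasAntidiagonal.mem_antidiagonal.mpr (zero_add m)) h2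
  obtain ⟨m, hm⟩ := ne_zero_iff.mp hb0
  have hmn : n ≤ m.degree := by
    by_contra hcon
    exact hm (hsupp _ (by omega) m rfl)
  have h2 : n ≤ totalDegree b := by
    refine hmn.trans ?_
    exact le_totalDegree (mem_support_iff.mpr hm)
  have h4 : totalDegree F ≤ n := hF.totalDegree_le
  rw [hab, totalDegree_mul_of_isDomain ha0 hb0] at h4
  rw [isUnit_iff_totalDegree_of_isReduced]
  exact ⟨ha.isUnit, by omega⟩

theorem irreducible_of_smooth (F : MvPolynomial σ k) (hF : F.IsHomogeneous 5)
    (hs : PD.SmoothForm F) (hcard : 3 ≤ Fintype.card σ) : Irreducible F := by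
  classical
  have hne : Nonempty σ := Fintype.card_pos_iff.mp (by omega)
  have hF0 : F ≠ 0 := by
    rintro rfl
    have := hs (fun _ => 1) (fun i => by simp)
    have h1 := congrFun this (Classical.arbitrary σ)
    simp at h1
  have hc0 : coeff 0 F = 0 := hF.coeff_eq_zero (by simp)
  refine ⟨?_, ?_⟩
  · intro hu
    rw [isUnit_iff_totalDegree_of_isReduced, hc0] at hu
    exact not_isUnit_zero hu.1
  · intro a b hab
    by_cases ha : coeff 0 a = 0
    · by_cases hb : coeff 0 b = 0
      · exfalso
        let e : σ ≃ Fin (Fintype.card σ) := Fintype.equivFin σ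
        let Kb := AlgebraicClosure k
        let G : Fin 2 → MvPolynomial (Fin (Fintype.card σ)) Kb :=
          ![rename e (map (algebraMap k Kb) a), rename e (map (algebraMap k Kb) b)]
        have hval : ∀ (p : MvPolynomial σ k) (x : Fin (Fintype.card σ) → Kb),
            eval x (rename e (map (algebraMap k Kb) p)) = aeval (x ∘ e) p := by
          intro p x
          rw [eval_rename, eval_map, aeval_def]
        have hz : ∀ p : MvPolynomial σ k, coeff 0 p = 0 → aeval (0 : σ → Kb) p = 0 := by
          intro p hp
          rw [aeval_zero, ← constantCoeff_eq] at *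
          rw [hp, map_zero]
        obtain ⟨x, hx0, hx⟩ := PD.exists_common_zero (m := 2) (by omega) G (by
          intro i
          fin_cases i
          · show eval 0 (rename e (map (algebraMap k Kb) a)) = 0
            rw [hval]
            exact hz a ha
          · show eval 0 (rename e (map (algebraMap k Kb) b)) = 0
            rw [hval]
            exact hz b hb)
        have hxa : aeval (x ∘ e) a = 0 := by
          rw [← hval]; exact hx 0
        have hxb : aeval (x ∘ e) b = 0 := by
          rw [← hval]; exact hx 1
        have h1 := hs (x ∘ e) (fun i => by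
          rw [hab, pderiv_mul, map_add, map_mul, map_mul, hxa, hxb, zero_mul, mul_zero, add_zero])
        apply hx0
        funext i
        have h2 := congrFun h1 (e.symm i)
        simpa using h2
      · right
        exact isUnit_of_coeff_ne_zero hF hF0 (by rw [hab, mul_comm]) hb
    · left
      exact isUnit_of_coeff_ne_zero hF hF0 hab ha

theorem smooth_map {L : Type*} [Field L] [Algebra k L] (F : MvPolynomial σ k)
    (hs : PD.SmoothForm F) : PD.SmoothForm (map (algebraMap k L) F) := by
  intro x hx
  refine PD.SmoothForm.ext hs x fun i => ?_
  have h1 := hx i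
  rw [pderiv_map, aeval_map_algebraMap] at h1
  exact h1

end Pool.Agent.Work.PD5
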