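import Mathlib

/-!
The symmetric 5-linear form of a quintic form (polarisation), over every algebra.
-/

namespace Pool.Agent.Work.PD5

open MvPolynomial

/-- a symmetric tensor of order five with coefficients in `k` -/
structure Ten (k : Type*) (σ : Type*) where
  a : σ → σ → σ → σ → σ → k
  s12 : ∀ i j l m n, a i j l m n = a j i l m n
  s23 : ∀ i j l m n, a i j l m n = a i l j m n
  s34 : ∀ i j l m n, a i j l m n = a i j m l n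
  s45 : ∀ i j l m n, a i j l m n = a i j l n m

section Basic

variable {k : Type*} [Field k] {σ : Type*} [Fintype σ] (T : Ten k σ)
variable {R : Type*} [CommRing R] [Algebra k R]

/-- the value of the 5-linear form -/
noncomputable def Phi (v₁ v₂ v₃ v₄ v₅ : σ → R) : R :=
  ∑ i, ∑ j, ∑ l, ∑ m, ∑ n, algebraMap k R (T.a i j l m n) * (v₁ i * v₂ j * v₃ l * v₄ m * v₅ n)

theorem Phi_s12 (v₁ v₂ v₃ v₄ v₅ : σ → R) : Phi T v₁ v₂ v₃ v₄ v₅ = Phi T v₂ v₁ v₃ v₄ v₅ := by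
  unfold Phi
  rw [Finset.sum_comm]
  refine Finset.sum_congr rfl fun i _ => Finset.sum_congr rfl fun j _ =>
    Finset.sum_congr rfl fun l _ => Finset.sum_congr rfl fun m _ => Finset.sum_congr rfl fun n _ => ?_
  rw [T.s12]; ring

theorem Phi_s23 (v₁ v₂ v₃ v₄ v₅ : σ → R) : Phi T v₁ v₂ v₃ v₄ v₅ = Phi T v₁ v₃ v₂ v₄ v₅ := by
  unfold Phi
  refine Finset.sum_congr rfl fun i _ => ?_
  rw [Finset.sum_comm]
  refine Finset.sum_congr rfl fun j _ =>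
    Finset.sum_congr rfl fun l _ => Finset.sum_congr rfl fun m _ => Finset.sum_congr rfl fun n _ => ?_
  rw [T.s23]; ring

theorem Phi_s34 (v₁ v₂ v₃ v₄ v₅ : σ → R) : Phi T v₁ v₂ v₃ v₄ v₅ = Phi T v₁ v₂ v₄ v₃ v₅ := by
  unfold Phi
  refine Finset.sum_congr rfl fun i _ => Finset.sum_congr rfl fun j _ => ?_
  rw [Finset.sum_comm]
  refine Finset.sum_congr rfl fun l _ => Finset.sum_congr rfl fun m _ =>
    Finset.sum_congr rfl fun n _ => ?_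
  rw [T.s34]; ring

theorem Phi_s45 (v₁ v₂ v₃ v₄ v₅ : σ → R) : Phi T v₁ v₂ v₃ v₄ v₅ = Phi T v₁ v₂ v₃ v₅ v₄ := by
  unfold Phi
  refine Finset.sum_congr rfl fun i _ => Finset.sum_congr rfl fun j _ =>
    Finset.sum_congr rfl fun l _ => ?_
  rw [Finset.sum_comm]
  refine Finset.sum_congr rfl fun m _ => Finset.sum_congr rfl fun n _ => ?_
  rw [T.s45]; ring

theorem Phi_add1 (u v v₂ v₃ v₄ v₅ : σ → R) :
    Phi T (u + v) v₂ v₃ v₄ v₅ = Phi T u v₂ v₃ v₄ v₅ + Phi T v v₂ v₃ v₄ v₅ := by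
  unfold Phi
  simp only [← Finset.sum_add_distrib, Pi.add_apply]
  refine Finset.sum_congr rfl fun i _ => Finset.sum_congr rfl fun j _ =>
    Finset.sum_congr rfl fun l _ => Finset.sum_congr rfl fun m _ => Finset.sum_congr rfl fun n _ => ?_
  ring

theorem Phi_smul1 (r : R) (v v₂ v₃ v₄ v₅ : σ → R) :
    Phi T (r • v) v₂ v₃ v₄ v₅ = r * Phi T v v₂ v₃ v₄ v₅ := by
  unfold Phi
  simp only [Finset.mul_sum, Pi.smul_apply, smul_eq_mul]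
  refine Finset.sum_congr rfl fun i _ => Finset.sum_congr rfl fun j _ =>
    Finset.sum_congr rfl fun l _ => Finset.sum_congr rfl fun m _ => Finset.sum_congr rfl fun n _ => ?_
  ring

theorem Phi_add2 (u v v₁ v₃ v₄ v₅ : σ → R) :
    Phi T v₁ (u + v) v₃ v₄ v₅ = Phi T v₁ u v₃ v₄ v₅ + Phi T v₁ v v₃ v₄ v₅ := by
  rw [Phi_s12, Phi_add1, Phi_s12 T u, Phi_s12 T v]

theorem Phi_add3 (u v v₁ v₂ v₄ v₅ : σ → R) :
    Phi T v₁ v₂ (u + v) v₄ v₅ = Phi T v₁ v₂ u v₄ v₅ + Phi T v₁ v₂ v v₄ v₅ := by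
  rw [Phi_s23, Phi_add2, Phi_s23 T v₁ u, Phi_s23 T v₁ v]

theorem Phi_add4 (u v v₁ v₂ v₃ v₅ : σ → R) :
    Phi T v₁ v₂ v₃ (u + v) v₅ = Phi T v₁ v₂ v₃ u v₅ + Phi T v₁ v₂ v₃ v v₅ := by
  rw [Phi_s34, Phi_add3, Phi_s34 T v₁ v₂ u, Phi_s34 T v₁ v₂ v]

theorem Phi_add5 (u v v₁ v₂ v₃ v₄ : σ → R) :
    Phi T v₁ v₂ v₃ v₄ (u + v) = Phi T v₁ v₂ v₃ v₄ u + Phi T v₁ v₂ v₃ v₄ v := by
  rw [Phi_s45, Phi_add4, Phi_s45 T v₁ v₂ v₃ u, Phi_s45 T v₁ v₂ v₃ v]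

theorem Phi_smul2 (r : R) (v v₁ v₃ v₄ v₅ : σ → R) :
    Phi T v₁ (r • v) v₃ v₄ v₅ = r * Phi T v₁ v v₃ v₄ v₅ := by
  rw [Phi_s12, Phi_smul1, Phi_s12 T v]

theorem Phi_smul3 (r : R) (v v₁ v₂ v₄ v₅ : σ → R) :
    Phi T v₁ v₂ (r • v) v₄ v₅ = r * Phi T v₁ v₂ v v₄ v₅ := by
  rw [Phi_s23, Phi_smul2, Phi_s23 T v₁ v]

theorem Phi_smul4 (r : R) (v v₁ v₂ v₃ v₅ : σ → R) :
    Phi T v₁ v₂ v₃ (r • v) v₅ = r * Phi T v₁ v₂ v₃ v v₅ := by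
  rw [Phi_s34, Phi_smul3, Phi_s34 T v₁ v₂ v]

theorem Phi_smul5 (r : R) (v v₁ v₂ v₃ v₄ : σ → R) :
    Phi T v₁ v₂ v₃ v₄ (r • v) = r * Phi T v₁ v₂ v₃ v₄ v := by
  rw [Phi_s45, Phi_smul4, Phi_s45 T v₁ v₂ v₃ v]

theorem Phi_neg5 (v v₁ v₂ v₃ v₄ : σ → R) :
    Phi T v₁ v₂ v₃ v₄ (-v) = - Phi T v₁ v₂ v₃ v₄ v := by
  rw [← neg_one_smul R v, Phi_smul5]; ring

theorem Phi_sub5 (u v v₁ v₂ v₃ v₄ : σ → R) :
    Phi T v₁ v₂ v₃ v₄ (u - v) = Phi T v₁ v₂ v₃ v₄ u - Phi T v₁ v₂ v₃ v₄ v := by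
  rw [sub_eq_add_neg, Phi_add5, Phi_neg5]; ring

theorem Phi_neg4 (v v₁ v₂ v₃ v₅ : σ → R) :
    Phi T v₁ v₂ v₃ (-v) v₅ = - Phi T v₁ v₂ v₃ v v₅ := by
  rw [← neg_one_smul R v, Phi_smul4]; ring

theorem Phi_neg3 (v v₁ v₂ v₄ v₅ : σ → R) :
    Phi T v₁ v₂ (-v) v₄ v₅ = - Phi T v₁ v₂ v v₄ v₅ := by
  rw [← neg_one_smul R v, Phi_smul3]; ring

theorem Phi_neg2 (v v₁ v₃ v₄ v₅ : σ → R) :
    Phi T v₁ (-v) v₃ v₄ v₅ = - Phi T v₁ v v₃ v₄ v₅ := by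
  rw [← neg_one_smul R v, Phi_smul2]; ring

theorem Phi_neg1 (v v₂ v₃ v₄ v₅ : σ → R) :
    Phi T (-v) v₂ v₃ v₄ v₅ = - Phi T v v₂ v₃ v₄ v₅ := by
  rw [← neg_one_smul R v, Phi_smul1]; ring

theorem Phi_sub1 (u v v₂ v₃ v₄ v₅ : σ → R) :
    Phi T (u - v) v₂ v₃ v₄ v₅ = Phi T u v₂ v₃ v₄ v₅ - Phi T v v₂ v₃ v₄ v₅ := by
  rw [sub_eq_add_neg, Phi_add1, Phi_neg1]; ring

theorem Phi_sub2 (u v v₁ v₃ v₄ v₅ : σ → R) :
    Phi T v₁ (u - v) v₃ v₄ v₅ = Phi T v₁ u v₃ v₄ v₅ - Phi T v₁ v v₃ v₄ v₅ := by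
  rw [sub_eq_add_neg, Phi_add2, Phi_neg2]; ring

theorem Phi_sub3 (u v v₁ v₂ v₄ v₅ : σ → R) :
    Phi T v₁ v₂ (u - v) v₄ v₅ = Phi T v₁ v₂ u v₄ v₅ - Phi T v₁ v₂ v v₄ v₅ := by
  rw [sub_eq_add_neg, Phi_add3, Phi_neg3]; ring

theorem Phi_sub4 (u v v₁ v₂ v₃ v₅ : σ → R) :
    Phi T v₁ v₂ v₃ (u - v) v₅ = Phi T v₁ v₂ v₃ u v₅ - Phi T v₁ v₂ v₃ v v₅ := by
  rw [sub_eq_add_neg, Phi_add4, Phi_neg4]; ring

/-- compatibility with homomorphisms -/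
theorem map_Phi {S : Type*} [CommRing S] [Algebra k S] (g : R →ₐ[k] S) (v₁ v₂ v₃ v₄ v₅ : σ → R) :
    g (Phi T v₁ v₂ v₃ v₄ v₅) =
      Phi T (fun i => g (v₁ i)) (fun i => g (v₂ i)) (fun i => g (v₃ i)) (fun i => g (v₄ i))
        (fun i => g (v₅ i)) := by
  unfold Phi
  simp only [map_sum, map_mul, AlgHom.commutes]

end Basic

/-- `F` is the quintic form of the tensor `T` -/
def IsTen {k : Type*} [Field k] {σ : Type*} [Fintype σ] (F : MvPolynomial σ k) (T : Ten k σ) : Prop :=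
  F = ∑ i, ∑ j, ∑ l, ∑ m, ∑ n, C (T.a i j l m n) * (X i * X j * X l * X m * X n)

end Pool.Agent.Work.PD5
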