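import Mathlib
import Pool.Agent.Work.MP_b62148_ag.Quintic.Tensor

/-!
Common definitions for the quintic theorem.
-/

namespace Pool.Agent.Work.PD5

variable {k : Type*} [Field k] {σ : Type*} [Fintype σ]

/-- the linear combination of four vectors -/
def comb {R : Type*} [CommRing R] (lam : Fin 4 → σ → R) (s : Fin 4 → R) : σ → R :=
  fun i => ∑ j, s j * lam j i

/-- the 5-linear form vanishes on the span of the four vectors -/
def Iso (T : Ten k σ) {R : Type*} [CommRing R] [Algebra k R] (lam : Fin 4 → σ → R) : Prop :=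
  ∀ i j l m n : Fin 4, Phi T (lam i) (lam j) (lam l) (lam m) (lam n) = 0

/-- leading data: a projective three-space `y = lam 0`, `b = lam 1`, `m = lam 2`, `a = lam 3` in the
quintic, and a vector `z` -/
def Leading (T : Ten k σ) (E : Type*) [Field E] [Algebra k E] : Prop :=
  ∃ (lam : Fin 4 → σ → E) (z z₁ z₂ z₃ : σ → E), Iso T lam ∧
    Phi T (lam 0) (lam 0) (lam 0) (lam 0) z = 0 ∧
    Phi T (lam 0) (lam 0) (lam 0) (lam 1) z = 0 ∧
    Phi T (lam 0) (lam 0) (lam 0) (lam 2) z = 0 ∧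
    Phi T (lam 0) (lam 0) (lam 1) (lam 1) z = 0 ∧
    Phi T (lam 0) (lam 0) (lam 2) (lam 2) z = 0 ∧
    Phi T (lam 0) (lam 0) (lam 1) (lam 2) z ≠ 0 ∧
    Phi T (lam 0) (lam 1) (lam 1) (lam 1) z ≠ 0 ∧
    Phi T (lam 0) (lam 0) (lam 0) (lam 3) z ≠ 0 ∧
    Matrix.det !![
      Phi T (lam 0) (lam 0) (lam 0) (lam 0) z₁, Phi T (lam 0) (lam 0) (lam 0) (lam 0) z₂,
      Phi T (lam 0) (lam 0) (lam 0) (lam 0) z₃;
      Phi T (lam 0) (lam 0) (lam 0) (lam 2) z₁, Phi T (lam 0) (lam 0) (lam 0) (lam 2) z₂,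
      Phi T (lam 0) (lam 0) (lam 0) (lam 2) z₃;
      Phi T (lam 0) (lam 0) (lam 2) (lam 2) z₁, Phi T (lam 0) (lam 0) (lam 2) (lam 2) z₂,
      Phi T (lam 0) (lam 0) (lam 2) (lam 2) z₃] ≠ 0

/-- the matrix of the three linear forms `Phi y y y y`, `Phi y y y m`, `Phi y y m m` on three vectors -/
noncomputable def mat (T : Ten k σ) {R : Type*} [CommRing R] [Algebra k R] (y m : σ → R)
    (z : Fin 3 → σ → R) : Matrix (Fin 3) (Fin 3) R :=
  Matrix.of fun i j => ![Phi T y y y y (z j), Phi T y y y m (z j), Phi T y y m m (z j)] i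

/-- a good configuration on the three-space spanned by `lam` -/
structure Config (T : Ten k σ) {E : Type*} [Field E] [Algebra k E] (lam : Fin 4 → σ → E) where
  /-- base point -/
  sy : Fin 4 → E
  /-- auxiliary point -/
  sm : Fin 4 → E
  /-- auxiliary point -/
  sa : Fin 4 → E
  /-- auxiliary vectors -/
  z : Fin 3 → σ → E
  /-- the point of the hypersurface -/
  x : σ → E
  c1 : Phi T (comb lam sy) (comb lam sy) (comb lam sy) (comb lam sy) x = 0
  c2 : Phi T (comb lam sy) (comb lam sy) (comb lam sy) (comb lam sm) x = 0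
  c3 : Phi T (comb lam sy) (comb lam sy) (comb lam sy) x x = 0
  c4 : Phi T (comb lam sy) (comb lam sy) (comb lam sm) (comb lam sm) x = 0
  c5 : Phi T (comb lam sy) (comb lam sy) x x x = 0
  c6 : Phi T x x x x x = 0
  n1 : Phi T (comb lam sy) (comb lam sy) (comb lam sy) (comb lam sa) x ≠ 0
  n2 : Phi T (comb lam sy) (comb lam sy) (comb lam sm) x x ≠ 0
  n3 : Phi T (comb lam sy) x x x x ≠ 0
  n4 : (mat T (comb lam sy) (comb lam sm) z).det ≠ 0
  t1 : ∀ r₁ r₂ r₃ : E, ∃ s : Fin 4 → E,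
    Phi T (comb lam sy) (comb lam sy) (comb lam sy) (comb lam s) x = r₁ ∧
    Phi T (comb lam sy) (comb lam sy) (comb lam s) x x = r₂ ∧
    Phi T (comb lam sy) (comb lam s) x x x = r₃
  t2 : ∀ r₁ r₂ : E, ∃ s : Fin 4 → E,
    Phi T (comb lam sy) (comb lam sy) (comb lam sy) (comb lam s) x = r₁ ∧
    Phi T (comb lam sy) (comb lam sy) (comb lam sm) (comb lam s) x = r₂

/-- the parametrisation -/
noncomputable def par (T : Ten k σ) {R : Type*} [CommRing R] [Algebra k R] (y m a : σ → R)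
    (z : Fin 3 → σ → R) (om : σ → R) : σ → R :=
  let M := mat T y m z
  let b : Fin 3 → R := ![Phi T y y y y om, Phi T y y y m om, Phi T y y m m om]
  let ze : σ → R := M.det • om - ∑ j, (M.cramer b j) • z j
  let w : σ → R := Phi T y y y ze ze • a - (2 * Phi T y y y a ze) • ze
  let u : σ → R := (3 * Phi T y y m w w) • w - Phi T y y w w w • m
  (5 * Phi T y u u u u) • u - Phi T u u u u u • y

end Pool.Agent.Work.PD5
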