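import Mathlib
import Pool.Agent.Work.MP_b62148_ag.Quintic.Defs

/-!
M9: leading data specialise to the algebraic closure; vectors over the algebraic closure are defined
over a finite extension.
-/

namespace Pool.Agent.Work.PD5

open MvPolynomial

variable {k : Type*} [Field k] {σ : Type*} [Fintype σ]

/-- a finitely generated algebra has a point over the algebraic closure -/
theorem exists_point {k A : Type*} [Field k] [CommRing A] [Nontrivial A] [Algebra k A]
    [Algebra.FiniteType k A] : Nonempty (A →ₐ[k] AlgebraicClosure k) := by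
  obtain ⟨m, hm⟩ := Ideal.exists_maximal A
  let _ : Field (A ⧸ m) := Ideal.Quotient.field m
  have hft : Algebra.FiniteType k (A ⧸ m) :=
    Algebra.FiniteType.of_surjective (Ideal.Quotient.mkₐ k m) (Ideal.Quotient.mkₐ_surjective k m)
  have hfin : Module.Finite k (A ⧸ m) := finite_of_finite_type_of_isJacobsonRing k (A ⧸ m)
  have halg : Algebra.IsAlgebraic k (A ⧸ m) := Algebra.IsAlgebraic.of_finite k (A ⧸ m)
  exact ⟨(IsAlgClosed.lift (M := AlgebraicClosure k) : (A ⧸ m) →ₐ[k] AlgebraicClosure k).comp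
    (Ideal.Quotient.mkₐ k m)⟩

/-- specialisation of finitely many elements, keeping one of them different from zero -/
theorem exists_special {k E : Type*} [Field k] [Field E] [Algebra k E] (s : Set E)
    (hs : s.Finite) (w : E) (hw : w ≠ 0) (hws : w ∈ Algebra.adjoin k s) :
    ∃ (A : Subalgebra k E) (g : A →ₐ[k] AlgebraicClosure k), s ⊆ A ∧ ∃ hwA : w ∈ A,
      g ⟨w, hwA⟩ ≠ 0 := by
  classical
  let A : Subalgebra k E := Algebra.adjoin k (insert w⁻¹ s)
  have hfg : A.FG := by
    refine ⟨(hs.insert w⁻¹).toFinset, ?_⟩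
    rw [Set.Finite.coe_toFinset]
  have hft : Algebra.FiniteType k A := (Subalgebra.fg_iff_finiteType A).mp hfg
  obtain ⟨g⟩ := exists_point (k := k) (A := A)
  have hsA : s ⊆ A := fun x hx => Algebra.subset_adjoin (Set.mem_insert_of_mem _ hx)
  have hwA : w ∈ A := (Algebra.adjoin_mono (Set.subset_insert _ _)) hws
  have hwi : w⁻¹ ∈ A := Algebra.subset_adjoin (Set.mem_insert _ _)
  refine ⟨A, g, hsA, hwA, ?_⟩
  intro h0
  have h1 : (⟨w, hwA⟩ : A) * ⟨w⁻¹, hwi⟩ = 1 := by
    apply Subtype.ext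
    exact mul_inv_cancel₀ hw
  have h2 := congrArg g h1
  rw [map_mul, h0, zero_mul, map_one] at h2
  exact zero_ne_one h2

/-- the product of the four quantities different from zero in the leading data -/
noncomputable def lprod (T : Ten k σ) {R : Type*} [CommRing R] [Algebra k R]
    (l y : Fin 4 → σ → R) : R :=
  Phi T (l 0) (l 0) (l 1) (l 2) (y 0) * Phi T (l 0) (l 1) (l 1) (l 1) (y 0) *
    Phi T (l 0) (l 0) (l 0) (l 3) (y 0) * Matrix.det !![
      Phi T (l 0) (l 0) (l 0) (l 0) (y 1), Phi T (l 0) (l 0) (l 0) (l 0) (y 2),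
      Phi T (l 0) (l 0) (l 0) (l 0) (y 3);
      Phi T (l 0) (l 0) (l 0) (l 2) (y 1), Phi T (l 0) (l 0) (l 0) (l 2) (y 2),
      Phi T (l 0) (l 0) (l 0) (l 2) (y 3);
      Phi T (l 0) (l 0) (l 2) (l 2) (y 1), Phi T (l 0) (l 0) (l 2) (l 2) (y 2),
      Phi T (l 0) (l 0) (l 2) (l 2) (y 3)]

theorem map_lprod (T : Ten k σ) {R S : Type*} [CommRing R] [Algebra k R] [CommRing S] [Algebra k S]
    (g : R →ₐ[k] S) (l y : Fin 4 → σ → R) :
    g (lprod T l y) = lprod T (fun j i => g (l j i)) (fun j i => g (y j i)) := by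
  unfold lprod
  simp only [Matrix.det_fin_three, Matrix.of_apply, Matrix.cons_val', Matrix.cons_val_zero,
    Matrix.cons_val_one, Matrix.cons_val, Matrix.cons_val_fin_one, map_mul, map_sub, map_add,
    map_Phi]

theorem leading_descend {E : Type*} [Field E] [Algebra k E] (T : Ten k σ) (h : Leading T E) :
    Leading T (AlgebraicClosure k) := by
  classical
  obtain ⟨lam, z, z₁, z₂, z₃, hiso, e1, e2, e3, e4, e5, n1, n2, n3, n4⟩ := h
  let zz : Fin 4 → σ → E := ![z, z₁, z₂, z₃]
  let s : Set E := Set.range (fun p : (Fin 4 × σ) ⊕ (Fin 4 × σ) =>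
    Sum.elim (fun q => lam q.1 q.2) (fun q => zz q.1 q.2) p)
  have hsfin : s.Finite := Set.finite_range _
  have hlam0 : ∀ j i, lam j i ∈ s := fun j i => ⟨Sum.inl (j, i), rfl⟩
  have hz0 : ∀ j i, zz j i ∈ s := fun j i => ⟨Sum.inr (j, i), rfl⟩
  have hw : lprod T lam zz ≠ 0 := mul_ne_zero (mul_ne_zero (mul_ne_zero n1 n2) n3) n4
  have hws : lprod T lam zz ∈ Algebra.adjoin k s := by
    have := map_lprod T (Algebra.adjoin k s).val
      (fun j i => ⟨lam j i, Algebra.subset_adjoin (hlam0 j i)⟩)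
      (fun j i => ⟨zz j i, Algebra.subset_adjoin (hz0 j i)⟩)
    rw [Subalgebra.coe_val] at this
    rw [show lprod T lam zz = _ from this.symm]
    exact Subtype.coe_prop _
  obtain ⟨A, g, hsA, hwA, hg⟩ := exists_special s hsfin _ hw hws
  let lamA : Fin 4 → σ → A := fun j i => ⟨lam j i, hsA (hlam0 j i)⟩
  let zA : Fin 4 → σ → A := fun j i => ⟨zz j i, hsA (hz0 j i)⟩
  have hwA' : (⟨lprod T lam zz, hwA⟩ : A) = lprod T lamA zA := by
    apply Subtype.ext
    have := map_lprod T A.val lamA zA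
    rw [Subalgebra.coe_val] at this
    rw [this]
  rw [hwA', map_lprod] at hg
  have hzero : ∀ v₁ v₂ v₃ v₄ v₅ : σ → A, Phi T (fun i => (v₁ i : E)) (fun i => (v₂ i : E))
      (fun i => (v₃ i : E)) (fun i => (v₄ i : E)) (fun i => (v₅ i : E)) = 0 →
      Phi T (fun i => g (v₁ i)) (fun i => g (v₂ i)) (fun i => g (v₃ i)) (fun i => g (v₄ i))
        (fun i => g (v₅ i)) = 0 := by
    intro v₁ v₂ v₃ v₄ v₅ h0
    have h1 := map_Phi T A.val v₁ v₂ v₃ v₄ v₅
    rw [Subalgebra.coe_val] at h1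
    rw [show Phi T (fun i => (v₁ i : E)) (fun i => (v₂ i : E)) (fun i => (v₃ i : E))
      (fun i => (v₄ i : E)) (fun i => (v₅ i : E)) = ((Phi T v₁ v₂ v₃ v₄ v₅ : A) : E) from h1.symm] at h0
    have h2 : Phi T v₁ v₂ v₃ v₄ v₅ = 0 := Subtype.ext h0
    rw [← map_Phi, h2, map_zero]
  have hg' := hg
  unfold lprod at hg'
  refine ⟨fun j i => g (lamA j i), fun i => g (zA 0 i), fun i => g (zA 1 i), fun i => g (zA 2 i),
    fun i => g (zA 3 i), ?_, ?_, ?_, ?_, ?_, ?_, ?_, ?_, ?_, ?_⟩
  · intro i j l m n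
    exact hzero _ _ _ _ _ (hiso i j l m n)
  · exact hzero _ _ _ _ _ e1
  · exact hzero _ _ _ _ _ e2
  · exact hzero _ _ _ _ _ e3
  · exact hzero _ _ _ _ _ e4
  · exact hzero _ _ _ _ _ e5
  · exact (mul_ne_zero_iff.mp (mul_ne_zero_iff.mp (mul_ne_zero_iff.mp hg').1).1).1
  · exact (mul_ne_zero_iff.mp (mul_ne_zero_iff.mp (mul_ne_zero_iff.mp hg').1).1).2
  · exact (mul_ne_zero_iff.mp (mul_ne_zero_iff.mp hg').1).2
  · exact (mul_ne_zero_iff.mp hg').2

/-- vectors over the algebraic closure are defined over a finite extension -/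
theorem descend_lam (T : Ten k σ) (lam : Fin 4 → σ → AlgebraicClosure k) (h : Iso T lam) :
    ∃ L : IntermediateField k (AlgebraicClosure k), FiniteDimensional k L ∧
      ∃ lam' : Fin 4 → σ → L, Iso T lam' ∧ (fun j i => algebraMap L (AlgebraicClosure k) (lam' j i)) =
        lam := by
  classical
  let s : Set (AlgebraicClosure k) := Set.range (fun p : Fin 4 × σ => lam p.1 p.2)
  let L : IntermediateField k (AlgebraicClosure k) := IntermediateField.adjoin k s
  have hfin : FiniteDimensional k L := by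
    have : Finite s := Set.finite_range _
    exact IntermediateField.finiteDimensional_adjoin fun x _ =>
      (Algebra.IsAlgebraic.isAlgebraic x).isIntegral
  have hmem : ∀ j i, lam j i ∈ L := fun j i =>
    IntermediateField.subset_adjoin k s ⟨(j, i), rfl⟩
  refine ⟨L, hfin, fun j i => ⟨lam j i, hmem j i⟩, ?_, rfl⟩
  intro i j l m n
  have h1 := map_Phi T L.val (fun t => (⟨lam i t, hmem i t⟩ : L)) (fun t => ⟨lam j t, hmem j t⟩)
    (fun t => ⟨lam l t, hmem l t⟩) (fun t => ⟨lam m t, hmem m t⟩) (fun t => ⟨lam n t, hmem n t⟩)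
  have h2 := h i j l m n
  apply L.val.injective
  rw [map_zero]
  exact h1.trans h2

end Pool.Agent.Work.PD5
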