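import Mathlib
import Pool.Agent.Work.MP_b62148_ag.Quintic.Defs

/-!
M5: an explicit one-parameter family of good configurations from leading data.
-/

namespace Pool.Agent.Work.PD5

set_option linter.unusedSectionVars false

namespace CfgQ

variable {k : Type*} [Field k] {σ : Type*} [Fintype σ]

section Exp

variable {R : Type*} [CommRing R] [Algebra k R] (T : Ten k σ)

theorem p2 (p q r u v : σ → R) :
    Phi T p q r (u + v) (u + v) = Phi T p q r u u + 2 * Phi T p q r u v + Phi T p q r v v := by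
  rw [Phi_add4, Phi_add5, Phi_add5, Phi_s45 T p q r v u]; ring

theorem p3 (p q u v : σ → R) :
    Phi T p q (u + v) (u + v) (u + v) = Phi T p q u u u + 3 * Phi T p q u u v +
      3 * Phi T p q u v v + Phi T p q v v v := by
  rw [Phi_add3, p2, p2, Phi_s34 T p q v u u, Phi_s45 T p q u v u, Phi_s34 T p q v u v]; ring

theorem p4 (p u v : σ → R) :
    Phi T p (u + v) (u + v) (u + v) (u + v) = Phi T p u u u u + 4 * Phi T p u u u v +
      6 * Phi T p u u v v + 4 * Phi T p u v v v + Phi T p v v v v := by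
  rw [Phi_add2, p3, p3, Phi_s23 T p v u u u, Phi_s34 T p u v u u, Phi_s45 T p u u v u,
    Phi_s23 T p v u u v, Phi_s34 T p u v u v, Phi_s23 T p v u v v]; ring

theorem p5 (u v : σ → R) :
    Phi T (u + v) (u + v) (u + v) (u + v) (u + v) = Phi T u u u u u + 5 * Phi T u u u u v +
      10 * Phi T u u u v v + 10 * Phi T u u v v v + 5 * Phi T u v v v v + Phi T v v v v v := by
  rw [Phi_add1, p4, p4, Phi_s12 T v u u u u, Phi_s23 T u v u u u, Phi_s34 T u u v u u,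
    Phi_s45 T u u u v u, Phi_s12 T v u u u v, Phi_s23 T u v u u v, Phi_s34 T u u v u v,
    Phi_s12 T v u u v v, Phi_s23 T u v u v v, Phi_s12 T v u v v v]; ring

theorem p1s (p q r w u v : σ → R) (s t : R) :
    Phi T p q r w (s • u + t • v) = s * Phi T p q r w u + t * Phi T p q r w v := by
  rw [Phi_add5, Phi_smul5, Phi_smul5]

theorem p2s (p q r u v : σ → R) (s t : R) :
    Phi T p q r (s • u + t • v) (s • u + t • v) = s ^ 2 * Phi T p q r u u +
      2 * (s * t) * Phi T p q r u v + t ^ 2 * Phi T p q r v v := by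
  rw [p2]; simp only [Phi_smul4, Phi_smul5]; ring

theorem p3s (p q u v : σ → R) (s t : R) :
    Phi T p q (s • u + t • v) (s • u + t • v) (s • u + t • v) = s ^ 3 * Phi T p q u u u +
      3 * (s ^ 2 * t) * Phi T p q u u v + 3 * (s * t ^ 2) * Phi T p q u v v +
      t ^ 3 * Phi T p q v v v := by
  rw [p3]; simp only [Phi_smul3, Phi_smul4, Phi_smul5]; ring

theorem p4s (p u v : σ → R) (s t : R) :
    Phi T p (s • u + t • v) (s • u + t • v) (s • u + t • v) (s • u + t • v) =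
      s ^ 4 * Phi T p u u u u + 4 * (s ^ 3 * t) * Phi T p u u u v +
      6 * (s ^ 2 * t ^ 2) * Phi T p u u v v + 4 * (s * t ^ 3) * Phi T p u v v v +
      t ^ 4 * Phi T p v v v v := by
  rw [p4]; simp only [Phi_smul2, Phi_smul3, Phi_smul4, Phi_smul5]; ring

theorem p5s (u v : σ → R) (s t : R) :
    Phi T (s • u + t • v) (s • u + t • v) (s • u + t • v) (s • u + t • v) (s • u + t • v) =
      s ^ 5 * Phi T u u u u u + 5 * (s ^ 4 * t) * Phi T u u u u v +
      10 * (s ^ 3 * t ^ 2) * Phi T u u u v v + 10 * (s ^ 2 * t ^ 3) * Phi T u u v v v +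
      5 * (s * t ^ 4) * Phi T u v v v v + t ^ 5 * Phi T v v v v v := by
  rw [p5]; simp only [Phi_smul1, Phi_smul2, Phi_smul3, Phi_smul4, Phi_smul5]; ring

end Exp

/-- normalised leading data -/
structure Lead (T : Ten k σ) {E : Type*} [Field E] [Algebra k E] (y b m a z : σ → E) : Prop where
  yyyyy : Phi T y y y y y = 0
  yyyyb : Phi T y y y y b = 0
  yyyym : Phi T y y y y m = 0
  yyyya : Phi T y y y y a = 0
  yyybb : Phi T y y y b b = 0
  yyybm : Phi T y y y b m = 0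
  yyyba : Phi T y y y b a = 0
  yyymm : Phi T y y y m m = 0
  yyyma : Phi T y y y m a = 0
  yyyaa : Phi T y y y a a = 0
  yybbb : Phi T y y b b b = 0
  yybbm : Phi T y y b b m = 0
  yybmm : Phi T y y b m m = 0
  yymmm : Phi T y y m m m = 0
  yymma : Phi T y y m m a = 0
  yybba : Phi T y y b b a = 0
  yybma : Phi T y y b m a = 0
  ybbbb : Phi T y b b b b = 0
  ybbbm : Phi T y b b b m = 0
  ybbba : Phi T y b b b a = 0
  ybbmm : Phi T y b b m m = 0
  ybmmm : Phi T y b m m m = 0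
  ymmmm : Phi T y m m m m = 0
  yyyyz : Phi T y y y y z = 0
  yyybz : Phi T y y y b z = 0
  yyymz : Phi T y y y m z = 0
  yybbz : Phi T y y b b z = 0
  yymmz : Phi T y y m m z = 0
  yyyzz : Phi T y y y z z = 0
  be : Phi T y y b m z ≠ 0
  ep : Phi T y b b b z ≠ 0
  al : Phi T y y y a z ≠ 0

section Lead

variable {E : Type*} [Field E] [CharZero E] [Algebra k E] (T : Ten k σ)

theorem lead_of {lam : Fin 4 → σ → E} (hI : Iso T lam) {z : σ → E}
    (h1 : Phi T (lam 0) (lam 0) (lam 0) (lam 0) z = 0)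
    (h2 : Phi T (lam 0) (lam 0) (lam 0) (lam 1) z = 0)
    (h3 : Phi T (lam 0) (lam 0) (lam 0) (lam 2) z = 0)
    (h4 : Phi T (lam 0) (lam 0) (lam 1) (lam 1) z = 0)
    (h5 : Phi T (lam 0) (lam 0) (lam 2) (lam 2) z = 0)
    (h6 : Phi T (lam 0) (lam 0) (lam 1) (lam 2) z ≠ 0)
    (h7 : Phi T (lam 0) (lam 1) (lam 1) (lam 1) z ≠ 0)
    (h8 : Phi T (lam 0) (lam 0) (lam 0) (lam 3) z ≠ 0) :
    ∃ z' : σ → E, Lead T (lam 0) (lam 1) (lam 2) (lam 3) z' := by
  refine ⟨(1 : E) • z + (-Phi T (lam 0) (lam 0) (lam 0) z z /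
    (2 * Phi T (lam 0) (lam 0) (lam 0) (lam 3) z)) • lam 3, ?_⟩
  exact {
    yyyyy := hI 0 0 0 0 0
    yyyyb := hI 0 0 0 0 1
    yyyym := hI 0 0 0 0 2
    yyyya := hI 0 0 0 0 3
    yyybb := hI 0 0 0 1 1
    yyybm := hI 0 0 0 1 2
    yyyba := hI 0 0 0 1 3
    yyymm := hI 0 0 0 2 2
    yyyma := hI 0 0 0 2 3
    yyyaa := hI 0 0 0 3 3
    yybbb := hI 0 0 1 1 1
    yybbm := hI 0 0 1 1 2
    yybmm := hI 0 0 1 2 2
    yymmm := hI 0 0 2 2 2
    yymma := hI 0 0 2 2 3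
    yybba := hI 0 0 1 1 3
    yybma := hI 0 0 1 2 3
    ybbbb := hI 0 1 1 1 1
    ybbbm := hI 0 1 1 1 2
    ybbba := hI 0 1 1 1 3
    ybbmm := hI 0 1 1 2 2
    ybmmm := hI 0 1 2 2 2
    ymmmm := hI 0 2 2 2 2
    yyyyz := by rw [p1s, hI 0 0 0 0 3, h1]; ring
    yyybz := by rw [p1s, hI 0 0 0 1 3, h2]; ring
    yyymz := by rw [p1s, hI 0 0 0 2 3, h3]; ring
    yybbz := by rw [p1s, hI 0 0 1 1 3, h4]; ring
    yymmz := by rw [p1s, hI 0 0 2 2 3, h5]; ring
    yyyzz := by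
      rw [p2s, hI 0 0 0 3 3, Phi_s45 T (lam 0) (lam 0) (lam 0) z (lam 3)]
      field_simp
      ring
    be := by rw [p1s, hI 0 0 1 2 3]; simpa using h6
    ep := by rw [p1s, hI 0 1 1 1 3]; simpa using h7
    al := by rw [p1s, hI 0 0 0 3 3]; simpa using h8 }

end Lead

open Polynomial in
theorem exists_tau {E : Type*} [Field E] [CharZero E] (be ep cm cb cz s1 s2 s3 s4 s5 s6 s7 s8 s9 : E)
    (hbe : be ≠ 0) (hep : ep ≠ 0) :
    ∃ τ D p : E, τ ≠ 0 ∧ D ≠ 0 ∧ D = 6 * be + 3 * τ * cm ∧ p = 3 * cb + τ * cz ∧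
      4 * D ^ 4 * ep + τ * (6 * D ^ 2 * (D ^ 2 * s1 - 2 * p * D * s2) +
        4 * D * τ * (D ^ 3 * s3 - 3 * p * D ^ 2 * s4 + 3 * p ^ 2 * D * s5) +
        τ ^ 2 * (D ^ 4 * s6 - 4 * p * D ^ 3 * s7 + 6 * p ^ 2 * D ^ 2 * s8 - 4 * p ^ 3 * D * s9)) ≠ 0 ∧
      D ^ 3 * (3 * D ^ 3 * ep + τ * (3 * D * (D ^ 2 * s1 - 2 * p * D * s2) +
          τ * (D ^ 3 * s3 - 3 * p * D ^ 2 * s4 + 3 * p ^ 2 * D * s5))) -
        3 * τ * D * (-2 * p * be + D * cb) * (3 * D ^ 3 * s2 +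
          3 * D * τ * (D ^ 2 * s4 - 2 * p * D * s5) +
          τ ^ 2 * (D ^ 3 * s7 - 3 * p * D ^ 2 * s8 + 3 * p ^ 2 * D * s9)) ≠ 0 := by
  classical
  let Dq : E[X] := C (6 * be) + 3 * X * C cm
  let pq : E[X] := C (3 * cb) + X * C cz
  let A : E[X] := 4 * Dq ^ 4 * C ep + X * (6 * Dq ^ 2 * (Dq ^ 2 * C s1 - 2 * pq * Dq * C s2) +
        4 * Dq * X * (Dq ^ 3 * C s3 - 3 * pq * Dq ^ 2 * C s4 + 3 * pq ^ 2 * Dq * C s5) +
        X ^ 2 * (Dq ^ 4 * C s6 - 4 * pq * Dq ^ 3 * C s7 + 6 * pq ^ 2 * Dq ^ 2 * C s8 -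
          4 * pq ^ 3 * Dq * C s9))
  let B : E[X] := Dq ^ 3 * (3 * Dq ^ 3 * C ep + X * (3 * Dq * (Dq ^ 2 * C s1 - 2 * pq * Dq * C s2) +
          X * (Dq ^ 3 * C s3 - 3 * pq * Dq ^ 2 * C s4 + 3 * pq ^ 2 * Dq * C s5))) -
        3 * X * Dq * (-2 * pq * C be + Dq * C cb) * (3 * Dq ^ 3 * C s2 +
          3 * Dq * X * (Dq ^ 2 * C s4 - 2 * pq * Dq * C s5) +
          X ^ 2 * (Dq ^ 3 * C s7 - 3 * pq * Dq ^ 2 * C s8 + 3 * pq ^ 2 * Dq * C s9))
  have hD0 : Dq.eval 0 = 6 * be := by simp [Dq]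
  have hD1 : Dq.eval 0 ≠ 0 := by rw [hD0]; exact mul_ne_zero (by norm_num) hbe
  have hA1 : A.eval 0 ≠ 0 := by
    have : A.eval 0 = 4 * (6 * be) ^ 4 * ep := by
      simp [A, hD0]
    rw [this]
    exact mul_ne_zero (mul_ne_zero (by norm_num) (pow_ne_zero _ (mul_ne_zero (by norm_num) hbe))) hep
  have hB1 : B.eval 0 ≠ 0 := by
    have : B.eval 0 = (6 * be) ^ 3 * (3 * (6 * be) ^ 3 * ep) := by
      simp [B, hD0]
    rw [this]
    exact mul_ne_zero (pow_ne_zero _ (mul_ne_zero (by norm_num) hbe))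
      (mul_ne_zero (mul_ne_zero (by norm_num) (pow_ne_zero _ (mul_ne_zero (by norm_num) hbe))) hep)
  have hne : ∀ Q : E[X], Q.eval 0 ≠ 0 → Q ≠ 0 := by
    intro Q h h0; apply h; rw [h0]; simp
  have hprod : X * Dq * A * B ≠ 0 :=
    mul_ne_zero (mul_ne_zero (mul_ne_zero X_ne_zero (hne _ hD1)) (hne _ hA1)) (hne _ hB1)
  obtain ⟨τ, hτ⟩ : ∃ τ : E, (X * Dq * A * B).eval τ ≠ 0 := by
    by_contra hcon
    push Not at hcon
    exact hprod (Polynomial.funext fun r => by rw [hcon r]; simp)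
  rw [eval_mul, eval_mul, eval_mul, eval_X] at hτ
  have t1 : τ ≠ 0 := left_ne_zero_of_mul (left_ne_zero_of_mul (left_ne_zero_of_mul hτ))
  have t2 : Dq.eval τ ≠ 0 := right_ne_zero_of_mul (left_ne_zero_of_mul (left_ne_zero_of_mul hτ))
  have t3 : A.eval τ ≠ 0 := right_ne_zero_of_mul (left_ne_zero_of_mul hτ)
  have t4 : B.eval τ ≠ 0 := right_ne_zero_of_mul hτ
  refine ⟨τ, Dq.eval τ, pq.eval τ, t1, t2, by simp [Dq], by simp [pq]; ring, ?_, ?_⟩
  · simpa [A] using t3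
  · simpa [B] using t4

section Vals

variable {E : Type*} [Field E] [Algebra k E] {T : Ten k σ} {y b m a z : σ → E}

variable (L : Lead T y b m a z) (D p τ : E)

include L

/-- the vector `v` -/
theorem v1 : Phi T y y y y ((-p) • m + D • z) = 0 := by
  rw [p1s, L.yyyym, L.yyyyz]; ring

theorem v2 : Phi T y y y b ((-p) • m + D • z) = 0 := by
  rw [p1s, L.yyybm, L.yyybz]; ring

theorem v3 : Phi T y y y m ((-p) • m + D • z) = 0 := by
  rw [p1s, L.yyymm, L.yyymz]; ring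

theorem v4 : Phi T y y y a ((-p) • m + D • z) = D * Phi T y y y a z := by
  rw [p1s, Phi_s45 T y y y a m, L.yyyma]; ring

theorem v5 : Phi T y y y ((-p) • m + D • z) ((-p) • m + D • z) = 0 := by
  rw [p2s, L.yyymm, L.yyymz, L.yyyzz]; ring

theorem v6 : Phi T y y b b ((-p) • m + D • z) = 0 := by
  rw [p1s, L.yybbm, L.yybbz]; ring

theorem v7 : Phi T y y b m ((-p) • m + D • z) = D * Phi T y y b m z := by
  rw [p1s, L.yybmm]; ring

theorem v8 : Phi T y y m m ((-p) • m + D • z) = 0 := by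
  rw [p1s, L.yymmm, L.yymmz]; ring

theorem v9 : Phi T y y b ((-p) • m + D • z) ((-p) • m + D • z) =
    -2 * p * D * Phi T y y b m z + D ^ 2 * Phi T y y b z z := by
  rw [p2s, L.yybmm]; ring

theorem v10 : Phi T y y m ((-p) • m + D • z) ((-p) • m + D • z) =
    D ^ 2 * Phi T y y m z z := by
  rw [p2s, L.yymmm, L.yymmz]; ring

theorem v11 : Phi T y y ((-p) • m + D • z) ((-p) • m + D • z) ((-p) • m + D • z) =
    -3 * p * D ^ 2 * Phi T y y m z z + D ^ 3 * Phi T y y z z z := by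
  rw [p3s, L.yymmm, L.yymmz]; ring

theorem v12 : Phi T y b b b ((-p) • m + D • z) = D * Phi T y b b b z := by
  rw [p1s, L.ybbbm]; ring

theorem v13 : Phi T y b b ((-p) • m + D • z) ((-p) • m + D • z) =
    D ^ 2 * Phi T y b b z z - 2 * p * D * Phi T y b b m z := by
  rw [p2s, L.ybbmm]; ring

theorem v14 : Phi T y b ((-p) • m + D • z) ((-p) • m + D • z) ((-p) • m + D • z) =
    D ^ 3 * Phi T y b z z z - 3 * p * D ^ 2 * Phi T y b m z z + 3 * p ^ 2 * D * Phi T y b m m z := by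
  rw [p3s, L.ybmmm]; ring

theorem v15 : Phi T y ((-p) • m + D • z) ((-p) • m + D • z) ((-p) • m + D • z)
    ((-p) • m + D • z) =
    D ^ 4 * Phi T y z z z z - 4 * p * D ^ 3 * Phi T y m z z z + 6 * p ^ 2 * D ^ 2 * Phi T y m m z z
      - 4 * p ^ 3 * D * Phi T y m m m z := by
  rw [p4s, L.ymmmm]; ring

theorem v16 : Phi T y b b m ((-p) • m + D • z) = D * Phi T y b b m z := by
  rw [p1s, L.ybbmm]; ring

theorem v17 : Phi T y b m ((-p) • m + D • z) ((-p) • m + D • z) =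
    D ^ 2 * Phi T y b m z z - 2 * p * D * Phi T y b m m z := by
  rw [p2s, L.ybmmm]; ring

theorem v18 : Phi T y m ((-p) • m + D • z) ((-p) • m + D • z) ((-p) • m + D • z) =
    D ^ 3 * Phi T y m z z z - 3 * p * D ^ 2 * Phi T y m m z z + 3 * p ^ 2 * D * Phi T y m m m z := by
  rw [p3s, L.ymmmm]; ring

/-! values at `u` -/

theorem u1 : Phi T y y y y (D • b + τ • ((-p) • m + D • z)) = 0 := by
  rw [p1s, v1 L, L.yyyyb]; ring

theorem u2 : Phi T y y y b (D • b + τ • ((-p) • m + D • z)) = 0 := by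
  rw [p1s, v2 L, L.yyybb]; ring

theorem u3 : Phi T y y y m (D • b + τ • ((-p) • m + D • z)) = 0 := by
  rw [p1s, v3 L, Phi_s45 T y y y m b, L.yyybm]; ring

theorem u4 : Phi T y y y a (D • b + τ • ((-p) • m + D • z)) = τ * D * Phi T y y y a z := by
  rw [p1s, v4 L, Phi_s45 T y y y a b, L.yyyba]; ring

theorem u5 : Phi T y y y (D • b + τ • ((-p) • m + D • z)) (D • b + τ • ((-p) • m + D • z)) = 0 := by
  rw [p2s, L.yyybb, v2 L, v5 L]; ring

theorem u6 : Phi T y y m m (D • b + τ • ((-p) • m + D • z)) = 0 := by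
  rw [p1s, v8 L, Phi_s45 T y y m m b, Phi_s34 T y y m b m, L.yybmm]; ring

theorem u7 : Phi T y y m b (D • b + τ • ((-p) • m + D • z)) = τ * D * Phi T y y b m z := by
  rw [p1s, Phi_s34 T y y m b b, Phi_s45 T y y b m b, L.yybbm, Phi_s34 T y y m b, v7 L]; ring

theorem u8 (hD : D = 6 * Phi T y y b m z + 3 * τ * Phi T y y m z z)
    (hp : p = 3 * Phi T y y b z z + τ * Phi T y y z z z) :
    Phi T y y (D • b + τ • ((-p) • m + D • z)) (D • b + τ • ((-p) • m + D • z))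
      (D • b + τ • ((-p) • m + D • z)) = 0 := by
  rw [p3s, L.yybbb, v6 L, v9 L, v11 L]
  linear_combination τ ^ 2 * D ^ 2 * (p * hD - D * hp)

theorem u9 : Phi T y y b (D • b + τ • ((-p) • m + D • z)) (D • b + τ • ((-p) • m + D • z)) =
    τ ^ 2 * D * (-2 * p * Phi T y y b m z + D * Phi T y y b z z) := by
  rw [p2s, L.yybbb, v6 L, v9 L]; ring

theorem u10 : Phi T y y m (D • b + τ • ((-p) • m + D • z)) (D • b + τ • ((-p) • m + D • z)) =
    τ * D ^ 2 * (2 * Phi T y y b m z + τ * Phi T y y m z z) := by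
  rw [p2s, Phi_s34 T y y m b b, Phi_s45 T y y b m b, L.yybbm, Phi_s34 T y y m b, v7 L, v10 L]; ring

theorem u11 : Phi T y (D • b + τ • ((-p) • m + D • z)) (D • b + τ • ((-p) • m + D • z))
      (D • b + τ • ((-p) • m + D • z)) (D • b + τ • ((-p) • m + D • z)) =
    τ * (4 * D ^ 4 * Phi T y b b b z + τ * (6 * D ^ 2 * (D ^ 2 * Phi T y b b z z -
          2 * p * D * Phi T y b b m z) +
        4 * D * τ * (D ^ 3 * Phi T y b z z z - 3 * p * D ^ 2 * Phi T y b m z z +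
          3 * p ^ 2 * D * Phi T y b m m z) +
        τ ^ 2 * (D ^ 4 * Phi T y z z z z - 4 * p * D ^ 3 * Phi T y m z z z +
          6 * p ^ 2 * D ^ 2 * Phi T y m m z z - 4 * p ^ 3 * D * Phi T y m m m z))) := by
  rw [p4s, L.ybbbb, v12 L, v13 L, v14 L, v15 L]; ring

theorem u12 : Phi T y b (D • b + τ • ((-p) • m + D • z)) (D • b + τ • ((-p) • m + D • z))
      (D • b + τ • ((-p) • m + D • z)) =
    τ * (3 * D ^ 3 * Phi T y b b b z + τ * (3 * D * (D ^ 2 * Phi T y b b z z -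
          2 * p * D * Phi T y b b m z) +
        τ * (D ^ 3 * Phi T y b z z z - 3 * p * D ^ 2 * Phi T y b m z z +
          3 * p ^ 2 * D * Phi T y b m m z))) := by
  rw [p3s, L.ybbbb, v12 L, v13 L, v14 L]; ring

theorem u13 : Phi T y m (D • b + τ • ((-p) • m + D • z)) (D • b + τ • ((-p) • m + D • z))
      (D • b + τ • ((-p) • m + D • z)) =
    τ * (3 * D ^ 3 * Phi T y b b m z + 3 * D * τ * (D ^ 2 * Phi T y b m z z -
          2 * p * D * Phi T y b m m z) +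
        τ ^ 2 * (D ^ 3 * Phi T y m z z z - 3 * p * D ^ 2 * Phi T y m m z z +
          3 * p ^ 2 * D * Phi T y m m m z)) := by
  rw [p3s, Phi_s23 T y m b b b, Phi_s34 T y b m b b, Phi_s45 T y b b m b, L.ybbbm,
    Phi_s23 T y m b b, Phi_s34 T y b m b, v16 L, Phi_s23 T y m b, v17 L, v18 L]; ring

end Vals

theorem solve3 {E : Type*} [Field E] (A1 b2 m2 a2 b3 m3 a3 : E) (hA : A1 ≠ 0)
    (hdet : m2 * b3 - b2 * m3 ≠ 0) (r1 r2 r3 : E) :
    ∃ s1 s2 s3 : E, s3 * A1 = r1 ∧ s1 * b2 + s2 * m2 + s3 * a2 = r2 ∧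
      s1 * b3 + s2 * m3 + s3 * a3 = r3 := by
  obtain ⟨Di, hDi⟩ : ∃ Di : E, (m2 * b3 - b2 * m3) * Di = 1 := ⟨_, mul_inv_cancel₀ hdet⟩
  obtain ⟨s3, hs3⟩ : ∃ s3 : E, s3 * A1 = r1 := ⟨r1 / A1, div_mul_cancel₀ _ hA⟩
  refine ⟨((r3 - s3 * a3) * m2 - (r2 - s3 * a2) * m3) * Di,
    ((r2 - s3 * a2) * b3 - (r3 - s3 * a3) * b2) * Di, s3, hs3, ?_, ?_⟩
  · linear_combination (r2 - s3 * a2) * hDi
  · linear_combination (r3 - s3 * a3) * hDi

section XVals

variable {E : Type*} [Field E] [Algebra k E] (T : Ten k σ) {y u : σ → E}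

/-- the basic vanishing statements for `u` -/
structure UV (T : Ten k σ) {E : Type*} [Field E] [Algebra k E] (y u : σ → E) : Prop where
  e0 : Phi T y y y y y = 0
  e1 : Phi T y y y y u = 0
  e2 : Phi T y y y u u = 0
  e3 : Phi T y y u u u = 0

variable {T}

theorem x1 (H : UV T y u) (d c : E) : Phi T y y y y (d • y + c • u) = 0 := by
  rw [p1s, H.e0, H.e1]; ring

theorem x2 (H : UV T y u) (d c : E) :
    Phi T y y y (d • y + c • u) (d • y + c • u) = 0 := by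
  rw [p2s, H.e0, H.e1, H.e2]; ring

theorem x3 (H : UV T y u) (d c : E) :
    Phi T y y (d • y + c • u) (d • y + c • u) (d • y + c • u) = 0 := by
  rw [p3s, H.e0, H.e1, H.e2, H.e3]; ring

theorem x4 (H : UV T y u) (d c : E) :
    Phi T y (d • y + c • u) (d • y + c • u) (d • y + c • u) (d • y + c • u) =
      c ^ 4 * Phi T y u u u u := by
  rw [p4s, H.e0, H.e1, H.e2, H.e3]; ring

theorem x5 (H : UV T y u) (d c : E) :
    Phi T (d • y + c • u) (d • y + c • u) (d • y + c • u) (d • y + c • u) (d • y + c • u) =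
      c ^ 4 * (5 * d * Phi T y u u u u + c * Phi T u u u u u) := by
  rw [p5s, H.e0, H.e1, H.e2, H.e3]; ring

/-- a vector `v` in the three-space: values on `x` -/
theorem w1 (v : σ → E) (h : Phi T y y y y v = 0) (d c : E) :
    Phi T y y y v (d • y + c • u) = c * Phi T y y y v u := by
  rw [p1s, Phi_s45 T y y y v y, h]; ring

theorem w2 (v : σ → E) (h : Phi T y y y y v = 0) (d c : E) :
    Phi T y y v (d • y + c • u) (d • y + c • u) =
      2 * d * c * Phi T y y y v u + c ^ 2 * Phi T y y v u u := by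
  rw [p2s, Phi_s34 T y y v y y, Phi_s45 T y y y v y, h, Phi_s34 T y y v y u]; ring

theorem w3 (v : σ → E) (h : Phi T y y y y v = 0) (d c : E) :
    Phi T y v (d • y + c • u) (d • y + c • u) (d • y + c • u) =
      3 * d ^ 2 * c * Phi T y y y v u + 3 * d * c ^ 2 * Phi T y y v u u +
        c ^ 3 * Phi T y v u u u := by
  rw [p3s, Phi_s23 T y v y y y, Phi_s34 T y y v y y, Phi_s45 T y y y v y, h,
    Phi_s23 T y v y y u, Phi_s34 T y y v y u, Phi_s23 T y v y u u]; ring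

end XVals

theorem comb_e {E : Type*} [Field E] (lam : Fin 4 → σ → E) (s0 s1 s2 s3 : E) :
    comb lam ![s0, s1, s2, s3] = s0 • lam 0 + (s1 • lam 1 + (s2 • lam 2 + s3 • lam 3)) := by
  funext i
  simp only [comb, Fin.sum_univ_four, Pi.add_apply, Pi.smul_apply, smul_eq_mul]
  simp
  ring

end CfgQ

open CfgQ in
theorem config_of_leading {k : Type*} [Field k] {σ : Type*} [Fintype σ] {E : Type*} [Field E]
    [CharZero E] [Algebra k E] (T : Ten k σ)
    (h : Leading T E) : ∃ lam : Fin 4 → σ → E, Iso T lam ∧ Nonempty (Config T lam) := by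
  obtain ⟨lam, z₀, z₁, z₂, z₃, hI, h1, h2, h3, h4, h5, h6, h7, h8, hdet⟩ := h
  refine ⟨lam, hI, ?_⟩
  obtain ⟨z, L⟩ := lead_of T hI h1 h2 h3 h4 h5 h6 h7 h8
  have e0 : comb lam ![1, 0, 0, 0] = lam 0 := by rw [comb_e]; simp
  have e2 : comb lam ![0, 0, 1, 0] = lam 2 := by rw [comb_e]; simp
  have e3 : comb lam ![0, 0, 0, 1] = lam 3 := by rw [comb_e]; simp
  have ec : ∀ s1 s2 s3 : E, comb lam ![0, s1, s2, s3] =
      s1 • lam 1 + (s2 • lam 2 + s3 • lam 3) := by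
    intro s1 s2 s3; rw [comb_e]; simp
  obtain ⟨τ, D, p, hτ, hD0, hD, hp, hA, hB⟩ := exists_tau (Phi T (lam 0) (lam 0) (lam 1) (lam 2) z)
    (Phi T (lam 0) (lam 1) (lam 1) (lam 1) z) (Phi T (lam 0) (lam 0) (lam 2) z z)
    (Phi T (lam 0) (lam 0) (lam 1) z z) (Phi T (lam 0) (lam 0) z z z)
    (Phi T (lam 0) (lam 1) (lam 1) z z) (Phi T (lam 0) (lam 1) (lam 1) (lam 2) z)
    (Phi T (lam 0) (lam 1) z z z) (Phi T (lam 0) (lam 1) (lam 2) z z)
    (Phi T (lam 0) (lam 1) (lam 2) (lam 2) z) (Phi T (lam 0) z z z z)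
    (Phi T (lam 0) (lam 2) z z z) (Phi T (lam 0) (lam 2) (lam 2) z z)
    (Phi T (lam 0) (lam 2) (lam 2) (lam 2) z) L.be L.ep
  have a1 := u1 L D p τ
  have a2 := u2 L D p τ
  have a3 := u3 L D p τ
  have a4 := u4 L D p τ
  have a5 := u5 L D p τ
  have a6 := u6 L D p τ
  have a7 := u7 L D p τ
  have a8 := u8 L D p τ hD hp
  have a9 := u9 L D p τ
  have a10 := u10 L D p τ
  have a11 := u11 L D p τ
  have a12 := u12 L D p τ
  have a13 := u13 L D p τ
  generalize hu : D • lam 1 + τ • ((-p) • lam 2 + D • z) = u at *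
  have U : UV T (lam 0) u := ⟨L.yyyyy, a1, a5, a8⟩
  have hA' : Phi T (lam 0) u u u u ≠ 0 := by
    rw [a11]; exact mul_ne_zero hτ hA
  have hm2 : Phi T (lam 0) (lam 0) (lam 2) u u ≠ 0 := by
    intro h0
    rw [a10] at h0
    have : D ^ 3 * τ = 0 := by
      have : 3 * (τ * D ^ 2 * (2 * Phi T (lam 0) (lam 0) (lam 1) (lam 2) z +
        τ * Phi T (lam 0) (lam 0) (lam 2) z z)) = 0 := by rw [h0]; ring
      linear_combination this + D ^ 2 * τ * hD
    exact mul_ne_zero (pow_ne_zero _ hD0) hτ this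
  have hdet2 : Phi T (lam 0) (lam 0) (lam 2) u u * Phi T (lam 0) (lam 1) u u u -
      Phi T (lam 0) (lam 0) (lam 1) u u * Phi T (lam 0) (lam 2) u u u ≠ 0 := by
    intro h0
    rw [a9, a10, a12, a13] at h0
    refine mul_ne_zero (pow_ne_zero 2 hτ) hB ?_
    linear_combination 3 * h0 + τ ^ 2 * D ^ 2 * (3 * D ^ 3 * Phi T (lam 0) (lam 1) (lam 1) (lam 1) z +
      τ * (3 * D * (D ^ 2 * Phi T (lam 0) (lam 1) (lam 1) z z -
          2 * p * D * Phi T (lam 0) (lam 1) (lam 1) (lam 2) z) +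
        τ * (D ^ 3 * Phi T (lam 0) (lam 1) z z z - 3 * p * D ^ 2 * Phi T (lam 0) (lam 1) (lam 2) z z +
          3 * p ^ 2 * D * Phi T (lam 0) (lam 1) (lam 2) (lam 2) z))) * hD
  have hc : (5 : E) * Phi T (lam 0) u u u u ≠ 0 := mul_ne_zero (by norm_num) hA'
  have hx6 : Phi T ((-Phi T u u u u u) • lam 0 + (5 * Phi T (lam 0) u u u u) • u)
      ((-Phi T u u u u u) • lam 0 + (5 * Phi T (lam 0) u u u u) • u)
      ((-Phi T u u u u u) • lam 0 + (5 * Phi T (lam 0) u u u u) • u)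
      ((-Phi T u u u u u) • lam 0 + (5 * Phi T (lam 0) u u u u) • u)
      ((-Phi T u u u u u) • lam 0 + (5 * Phi T (lam 0) u u u u) • u) = 0 := by
    rw [x5 U]; ring
  generalize (-Phi T u u u u u) = d at hx6
  generalize (5 : E) * Phi T (lam 0) u u u u = c at hx6 hc
  have X1 := x1 U d c
  have X2 := x2 U d c
  have X3 := x3 U d c
  have X4 := x4 U d c
  have W1b := w1 (T := T) (y := lam 0) (u := u) (lam 1) L.yyyyb d c
  have W1m := w1 (T := T) (y := lam 0) (u := u) (lam 2) L.yyyym d c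
  have W1a := w1 (T := T) (y := lam 0) (u := u) (lam 3) L.yyyya d c
  have W2b := w2 (T := T) (y := lam 0) (u := u) (lam 1) L.yyyyb d c
  have W2m := w2 (T := T) (y := lam 0) (u := u) (lam 2) L.yyyym d c
  have W3b := w3 (T := T) (y := lam 0) (u := u) (lam 1) L.yyyyb d c
  have W3m := w3 (T := T) (y := lam 0) (u := u) (lam 2) L.yyyym d c
  have Wmm : Phi T (lam 0) (lam 0) (lam 2) (lam 2) (d • lam 0 + c • u) = 0 := by
    rw [p1s, Phi_s45 T (lam 0) (lam 0) (lam 2) (lam 2) (lam 0),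
      Phi_s34 T (lam 0) (lam 0) (lam 2) (lam 0) (lam 2), L.yyymm, a6]; ring
  have Wmb : Phi T (lam 0) (lam 0) (lam 2) (lam 1) (d • lam 0 + c • u) =
      c * (τ * D * Phi T (lam 0) (lam 0) (lam 1) (lam 2) z) := by
    rw [p1s, Phi_s45 T (lam 0) (lam 0) (lam 2) (lam 1) (lam 0),
      Phi_s34 T (lam 0) (lam 0) (lam 2) (lam 0) (lam 1),
      Phi_s45 T (lam 0) (lam 0) (lam 0) (lam 2) (lam 1), L.yyybm, a7]; ring
  rw [a2] at W1b W2b W3b
  rw [a3] at W1m W2m W3m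
  rw [a4] at W1a
  generalize hx : d • lam 0 + c • u = x at *
  have hn1 : Phi T (lam 0) (lam 0) (lam 0) (lam 3) x ≠ 0 := by
    rw [W1a]; exact mul_ne_zero hc (mul_ne_zero (mul_ne_zero hτ hD0) L.al)
  have hn2 : Phi T (lam 0) (lam 0) (lam 2) x x ≠ 0 := by
    rw [W2m, mul_zero, zero_add]; exact mul_ne_zero (pow_ne_zero _ hc) hm2
  have hn3 : Phi T (lam 0) x x x x ≠ 0 := by
    rw [X4]; exact mul_ne_zero (pow_ne_zero _ hc) hA'
  have hdx : Phi T (lam 0) (lam 0) (lam 2) x x * Phi T (lam 0) (lam 1) x x x -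
      Phi T (lam 0) (lam 0) (lam 1) x x * Phi T (lam 0) (lam 2) x x x ≠ 0 := by
    intro h0
    rw [W2m, W2b, W3b, W3m] at h0
    refine mul_ne_zero (pow_ne_zero 5 hc) hdet2 ?_
    linear_combination h0
  have hmb : Phi T (lam 0) (lam 0) (lam 2) (lam 1) x ≠ 0 := by
    rw [Wmb]; exact mul_ne_zero hc (mul_ne_zero (mul_ne_zero hτ hD0) L.be)
  exact ⟨{
    sy := ![1, 0, 0, 0]
    sm := ![0, 0, 1, 0]
    sa := ![0, 0, 0, 1]
    z := ![z₁, z₂, z₃]
    x := x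
    c1 := by rw [e0]; exact X1
    c2 := by rw [e0, e2, W1m]; ring
    c3 := by rw [e0]; exact X2
    c4 := by rw [e0, e2]; exact Wmm
    c5 := by rw [e0]; exact X3
    c6 := hx6
    n1 := by rw [e0, e3]; exact hn1
    n2 := by rw [e0, e2]; exact hn2
    n3 := by rw [e0]; exact hn3
    n4 := by
      rw [e0, e2]
      have : mat T (lam 0) (lam 2) ![z₁, z₂, z₃] = !![
          Phi T (lam 0) (lam 0) (lam 0) (lam 0) z₁, Phi T (lam 0) (lam 0) (lam 0) (lam 0) z₂,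
          Phi T (lam 0) (lam 0) (lam 0) (lam 0) z₃;
          Phi T (lam 0) (lam 0) (lam 0) (lam 2) z₁, Phi T (lam 0) (lam 0) (lam 0) (lam 2) z₂,
          Phi T (lam 0) (lam 0) (lam 0) (lam 2) z₃;
          Phi T (lam 0) (lam 0) (lam 2) (lam 2) z₁, Phi T (lam 0) (lam 0) (lam 2) (lam 2) z₂,
          Phi T (lam 0) (lam 0) (lam 2) (lam 2) z₃] := by
        ext i j
        fin_cases i <;> fin_cases j <;> simp [mat]
      rw [this]; exact hdet
    t1 := by
      intro r₁ r₂ r₃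
      obtain ⟨s1, s2, s3, q1, q2, q3⟩ := solve3 (Phi T (lam 0) (lam 0) (lam 0) (lam 3) x)
        (Phi T (lam 0) (lam 0) (lam 1) x x) (Phi T (lam 0) (lam 0) (lam 2) x x)
        (Phi T (lam 0) (lam 0) (lam 3) x x) (Phi T (lam 0) (lam 1) x x x)
        (Phi T (lam 0) (lam 2) x x x) (Phi T (lam 0) (lam 3) x x x) hn1 hdx r₁ r₂ r₃
      refine ⟨![0, s1, s2, s3], ?_, ?_, ?_⟩
      · rw [e0, ec]
        simp only [Phi_add4, Phi_smul4]
        rw [W1b, W1m]; linear_combination q1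
      · rw [e0, ec]
        simp only [Phi_add3, Phi_smul3]
        linear_combination q2
      · rw [e0, ec]
        simp only [Phi_add2, Phi_smul2]
        linear_combination q3
    t2 := by
      intro r₁ r₂
      obtain ⟨s3, hs3⟩ : ∃ s3 : E, s3 * Phi T (lam 0) (lam 0) (lam 0) (lam 3) x = r₁ :=
        ⟨r₁ / _, div_mul_cancel₀ _ hn1⟩
      obtain ⟨s1, hs1⟩ : ∃ s1 : E, s1 * Phi T (lam 0) (lam 0) (lam 2) (lam 1) x =
          r₂ - s3 * Phi T (lam 0) (lam 0) (lam 2) (lam 3) x :=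
        ⟨_ / _, div_mul_cancel₀ _ hmb⟩
      refine ⟨![0, s1, 0, s3], ?_, ?_⟩
      · rw [e0, ec]
        simp only [Phi_add4, Phi_smul4]
        rw [W1b, W1m]; linear_combination hs3
      · rw [e0, e2, ec]
        simp only [Phi_add4, Phi_smul4]
        rw [Wmm]; linear_combination hs1 }⟩

end Pool.Agent.Work.PD5
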