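import Mathlib
import Pool.Agent.Work.MP_b62148_ag.Quintic.Defs

/-!
The parametrisation of a quintic containing a projective three-space.
-/

namespace Pool.Agent.Work.PD5

variable {k : Type*} [Field k] {σ : Type*} [Fintype σ]

section Param

variable {R : Type*} [CommRing R] [Algebra k R] (T : Ten k σ)

theorem Phi_zero5 (v₁ v₂ v₃ v₄ : σ → R) : Phi T v₁ v₂ v₃ v₄ (0 : σ → R) = 0 := by
  have := Phi_smul5 T (0 : R) (0 : σ → R) v₁ v₂ v₃ v₄
  rwa [zero_smul, zero_mul] at this

theorem Phi_sum5 {ι : Type*} (s : Finset ι) (r : ι → R) (w : ι → σ → R) (v₁ v₂ v₃ v₄ : σ → R) :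
    Phi T v₁ v₂ v₃ v₄ (∑ j ∈ s, r j • w j) = ∑ j ∈ s, r j * Phi T v₁ v₂ v₃ v₄ (w j) := by
  classical
  induction s using Finset.induction_on with
  | empty => simp [Phi_zero5]
  | insert a s ha ih => rw [Finset.sum_insert ha, Finset.sum_insert ha, Phi_add5, Phi_smul5, ih]

theorem comb_eq (lam : Fin 4 → σ → R) (s : Fin 4 → R) : comb lam s = ∑ j, s j • lam j := by
  funext i
  simp [comb, Finset.sum_apply]

/-- the form vanishes on the span -/
theorem Iso.comb {T : Ten k σ} {lam : Fin 4 → σ → R} (h : Iso T lam) (s₁ s₂ s₃ s₄ s₅ : Fin 4 → R) :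
    Phi T (comb lam s₁) (PD5.comb lam s₂) (PD5.comb lam s₃) (PD5.comb lam s₄) (PD5.comb lam s₅) = 0 := by
  have h5 : ∀ i j l m s, Phi T (lam i) (lam j) (lam l) (lam m) (PD5.comb lam s) = 0 := by
    intro i j l m s
    rw [comb_eq, Phi_sum5]
    exact Finset.sum_eq_zero fun n _ => by rw [h, mul_zero]
  have h4 : ∀ i j l s s', Phi T (lam i) (lam j) (lam l) (PD5.comb lam s) (PD5.comb lam s') = 0 := by
    intro i j l s s'
    rw [comb_eq lam s, Phi_s45, Phi_sum5]
    exact Finset.sum_eq_zero fun n _ => by rw [Phi_s45, h5, mul_zero]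
  have h3 : ∀ i j s s' s'', Phi T (lam i) (lam j) (PD5.comb lam s) (PD5.comb lam s')
      (PD5.comb lam s'') = 0 := by
    intro i j s s' s''
    rw [comb_eq lam s, Phi_s34, Phi_s45, Phi_sum5]
    exact Finset.sum_eq_zero fun n _ => by rw [Phi_s45, Phi_s34, h4, mul_zero]
  have h2 : ∀ i s s' s'' s''', Phi T (lam i) (PD5.comb lam s) (PD5.comb lam s')
      (PD5.comb lam s'') (PD5.comb lam s''') = 0 := by
    intro i s s' s'' s'''
    rw [comb_eq lam s, Phi_s23, Phi_s34, Phi_s45, Phi_sum5]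
    exact Finset.sum_eq_zero fun n _ => by rw [Phi_s45, Phi_s34, Phi_s23, h3, mul_zero]
  rw [comb_eq lam s₁, Phi_s12, Phi_s23, Phi_s34, Phi_s45, Phi_sum5]
  exact Finset.sum_eq_zero fun n _ => by rw [Phi_s45, Phi_s34, Phi_s23, Phi_s12, h2, mul_zero]

/-- expansion of the quintic form along a line -/
theorem Phi_line (u v : σ → R) (s t : R) :
    Phi T (s • u + t • v) (s • u + t • v) (s • u + t • v) (s • u + t • v) (s • u + t • v) =
      s ^ 5 * Phi T u u u u u + 5 * s ^ 4 * t * Phi T u u u u v + 10 * s ^ 3 * t ^ 2 * Phi T u u u v v +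
      10 * s ^ 2 * t ^ 3 * Phi T u u v v v + 5 * s * t ^ 4 * Phi T u v v v v +
      t ^ 5 * Phi T v v v v v := by
  simp only [Phi_add1, Phi_add2, Phi_add3, Phi_add4, Phi_add5, Phi_smul1, Phi_smul2, Phi_smul3,
    Phi_smul4, Phi_smul5]
  have e1 : Phi T v u u u u = Phi T u u u u v := by
    rw [Phi_s12, Phi_s23, Phi_s34, Phi_s45]
  have e2 : Phi T u v u u u = Phi T u u u u v := by
    rw [Phi_s23, Phi_s34, Phi_s45]
  have e3 : Phi T u u v u u = Phi T u u u u v := by
    rw [Phi_s34, Phi_s45]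
  have e4 : Phi T u u u v u = Phi T u u u u v := by
    rw [Phi_s45]
  have f1 : Phi T u u v u v = Phi T u u u v v := by rw [Phi_s34]
  have f2 : Phi T u u v v u = Phi T u u u v v := by rw [Phi_s45, Phi_s34]
  have f3 : Phi T u v u u v = Phi T u u u v v := by rw [Phi_s23, Phi_s34]
  have f4 : Phi T u v u v u = Phi T u u u v v := by rw [Phi_s23, Phi_s45, Phi_s34]
  have f5 : Phi T u v v u u = Phi T u u u v v := by
    rw [Phi_s34, Phi_s23, Phi_s45, Phi_s34]
  have f6 : Phi T v u u u v = Phi T u u u v v := by rw [Phi_s12, f3]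
  have f7 : Phi T v u u v u = Phi T u u u v v := by rw [Phi_s12, f4]
  have f8 : Phi T v u v u u = Phi T u u u v v := by rw [Phi_s12, f5]
  have f9 : Phi T v v u u u = Phi T u u u v v := by rw [Phi_s23, f8]
  have g1 : Phi T u v u v v = Phi T u u v v v := by rw [Phi_s23]
  have g2 : Phi T u v v u v = Phi T u u v v v := by rw [Phi_s34, g1]
  have g3 : Phi T u v v v u = Phi T u u v v v := by rw [Phi_s45, g2]
  have g4 : Phi T v u u v v = Phi T u u v v v := by rw [Phi_s12, g1]
  have g5 : Phi T v u v u v = Phi T u u v v v := by rw [Phi_s34, g4]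
  have g6 : Phi T v u v v u = Phi T u u v v v := by rw [Phi_s45, g5]
  have g7 : Phi T v v u u v = Phi T u u v v v := by rw [Phi_s23, g5]
  have g8 : Phi T v v u v u = Phi T u u v v v := by rw [Phi_s45, g7]
  have g9 : Phi T v v v u u = Phi T u u v v v := by rw [Phi_s34, g8]
  have h1 : Phi T v u v v v = Phi T u v v v v := by rw [Phi_s12]
  have h2 : Phi T v v u v v = Phi T u v v v v := by rw [Phi_s23, h1]
  have h3 : Phi T v v v u v = Phi T u v v v v := by rw [Phi_s34, h2]
  have h4 : Phi T v v v v u = Phi T u v v v v := by rw [Phi_s45, h3]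
  rw [e1, e2, e3, e4, f1, f2, f3, f4, f5, f6, f7, f8, f9, g1, g2, g3, g4, g5, g6, g7, g8, g9,
    h1, h2, h3, h4]
  ring

/-- the projection to the common kernel of the three forms -/
noncomputable def zeta (y m : σ → R) (z : Fin 3 → σ → R) (om : σ → R) : σ → R :=
  (mat T y m z).det • om - ∑ j, ((mat T y m z).cramer
    ![Phi T y y y y om, Phi T y y y m om, Phi T y y m m om] j) • z j

theorem zeta_mem (y m : σ → R) (z : Fin 3 → σ → R) (om : σ → R) :
    Phi T y y y y (zeta T y m z om) = 0 ∧ Phi T y y y m (zeta T y m z om) = 0 ∧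
      Phi T y y m m (zeta T y m z om) = 0 := by
  have h := Matrix.mulVec_cramer (mat T y m z)
    ![Phi T y y y y om, Phi T y y y m om, Phi T y y m m om]
  have h0 := congrFun h 0
  have h1 := congrFun h 1
  have h2 := congrFun h 2
  simp only [Matrix.mulVec, dotProduct, mat, Matrix.of_apply, Pi.smul_apply, smul_eq_mul,
    Matrix.cons_val_zero, Matrix.cons_val_one, Matrix.cons_val] at h0 h1 h2
  refine ⟨?_, ?_, ?_⟩
  · unfold zeta
    rw [Phi_sub5, Phi_smul5, Phi_sum5]
    rw [show (∑ j, ((mat T y m z).cramer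
      ![Phi T y y y y om, Phi T y y y m om, Phi T y y m m om] j) * Phi T y y y y (z j)) =
      ∑ j, Phi T y y y y (z j) * ((mat T y m z).cramer
      ![Phi T y y y y om, Phi T y y y m om, Phi T y y m m om] j) from
      Finset.sum_congr rfl fun j _ => mul_comm _ _]
    unfold mat at *
    rw [h0]; ring
  · unfold zeta
    rw [Phi_sub5, Phi_smul5, Phi_sum5]
    rw [show (∑ j, ((mat T y m z).cramer
      ![Phi T y y y y om, Phi T y y y m om, Phi T y y m m om] j) * Phi T y y y m (z j)) =
      ∑ j, Phi T y y y m (z j) * ((mat T y m z).cramer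
      ![Phi T y y y y om, Phi T y y y m om, Phi T y y m m om] j) from
      Finset.sum_congr rfl fun j _ => mul_comm _ _]
    unfold mat at *
    rw [h1]; ring
  · unfold zeta
    rw [Phi_sub5, Phi_smul5, Phi_sum5]
    rw [show (∑ j, ((mat T y m z).cramer
      ![Phi T y y y y om, Phi T y y y m om, Phi T y y m m om] j) * Phi T y y m m (z j)) =
      ∑ j, Phi T y y m m (z j) * ((mat T y m z).cramer
      ![Phi T y y y y om, Phi T y y y m om, Phi T y y m m om] j) from
      Finset.sum_congr rfl fun j _ => mul_comm _ _]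
    unfold mat at *
    rw [h2]; ring

theorem zeta_eq (y m : σ → R) (z : Fin 3 → σ → R) (om : σ → R) (h1 : Phi T y y y y om = 0)
    (h2 : Phi T y y y m om = 0) (h3 : Phi T y y m m om = 0) :
    zeta T y m z om = (mat T y m z).det • om := by
  unfold zeta
  rw [h1, h2, h3]
  have : (![0, 0, 0] : Fin 3 → R) = 0 := by
    funext i; fin_cases i <;> rfl
  rw [this, map_zero]
  simp

/-- second step -/
noncomputable def ww (y a ze : σ → R) : σ → R :=
  Phi T y y y ze ze • a - (2 * Phi T y y y a ze) • ze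

/-- third step -/
noncomputable def uu (y m w : σ → R) : σ → R :=
  (3 * Phi T y y m w w) • w - Phi T y y w w w • m

/-- last step -/
noncomputable def xx (y u : σ → R) : σ → R :=
  (5 * Phi T y u u u u) • u - Phi T u u u u u • y

theorem par_def (y m a : σ → R) (z : Fin 3 → σ → R) (om : σ → R) :
    par T y m a z om = xx T y (uu T y m (ww T y a (zeta T y m z om))) := rfl

theorem ww_spec (y m a ze : σ → R) (ha1 : Phi T y y y y a = 0) (ha2 : Phi T y y y m a = 0)
    (ha3 : Phi T y y m m a = 0) (ha4 : Phi T y y y a a = 0) (h1 : Phi T y y y y ze = 0)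
    (h2 : Phi T y y y m ze = 0) (h3 : Phi T y y m m ze = 0) :
    Phi T y y y y (ww T y a ze) = 0 ∧ Phi T y y y m (ww T y a ze) = 0 ∧
      Phi T y y m m (ww T y a ze) = 0 ∧ Phi T y y y (ww T y a ze) (ww T y a ze) = 0 := by
  unfold ww
  refine ⟨?_, ?_, ?_, ?_⟩
  · rw [Phi_sub5, Phi_smul5, Phi_smul5, ha1, h1]; ring
  · rw [Phi_sub5, Phi_smul5, Phi_smul5, ha2, h2]; ring
  · rw [Phi_sub5, Phi_smul5, Phi_smul5, ha3, h3]; ring
  · simp only [Phi_sub4, Phi_sub5, Phi_smul4, Phi_smul5]
    rw [Phi_s45 T y y y ze a, ha4]; ring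

theorem uu_spec (y m w : σ → R) (hm1 : Phi T y y y y m = 0) (hm2 : Phi T y y y m m = 0)
    (hm3 : Phi T y y m m m = 0) (h1 : Phi T y y y y w = 0)
    (h2 : Phi T y y y m w = 0) (h3 : Phi T y y m m w = 0) (h4 : Phi T y y y w w = 0) :
    Phi T y y y y (uu T y m w) = 0 ∧ Phi T y y y (uu T y m w) (uu T y m w) = 0 ∧
      Phi T y y (uu T y m w) (uu T y m w) (uu T y m w) = 0 := by
  unfold uu
  refine ⟨?_, ?_, ?_⟩
  · rw [Phi_sub5, Phi_smul5, Phi_smul5, hm1, h1]; ring
  · simp only [Phi_sub4, Phi_sub5, Phi_smul4, Phi_smul5]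
    rw [Phi_s45 T y y y w m, hm2, h2, h4]; ring
  · simp only [Phi_sub3, Phi_sub4, Phi_sub5, Phi_smul3, Phi_smul4, Phi_smul5]
    rw [Phi_s34 T y y w m w, Phi_s45 T y y w w m, Phi_s34 T y y w m w, Phi_s45 T y y m w m,
      Phi_s34 T y y w m m, Phi_s45 T y y m w m, h3, hm3]
    ring

theorem xx_spec (y u : σ → R) (hy : Phi T y y y y y = 0) (h1 : Phi T y y y y u = 0)
    (h2 : Phi T y y y u u = 0) (h3 : Phi T y y u u u = 0) :
    Phi T (xx T y u) (xx T y u) (xx T y u) (xx T y u) (xx T y u) = 0 := by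
  unfold xx
  rw [sub_eq_add_neg, ← neg_smul, Phi_line]
  have e1 : Phi T u u u u y = Phi T y u u u u := by
    rw [Phi_s45, Phi_s34, Phi_s23, Phi_s12]
  have e2 : Phi T u u u y y = 0 := by
    rw [Phi_s34, Phi_s23, Phi_s12, Phi_s45, Phi_s34, Phi_s23, h3]
  have e3 : Phi T u u y y y = 0 := by
    rw [Phi_s23, Phi_s12, Phi_s34, Phi_s23, Phi_s45, Phi_s34, h2]
  have e4 : Phi T u y y y y = 0 := by
    rw [Phi_s12, Phi_s23, Phi_s34, Phi_s45, h1]
  rw [e1, e2, e3, e4, hy]
  ring

theorem par_mem (lam : Fin 4 → σ → R) (h : Iso T lam) (sy sm sa : Fin 4 → R) (z : Fin 3 → σ → R)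
    (om : σ → R) :
    Phi T (par T (comb lam sy) (comb lam sm) (comb lam sa) z om)
      (par T (comb lam sy) (comb lam sm) (comb lam sa) z om)
      (par T (comb lam sy) (comb lam sm) (comb lam sa) z om)
      (par T (comb lam sy) (comb lam sm) (comb lam sa) z om)
      (par T (comb lam sy) (comb lam sm) (comb lam sa) z om) = 0 := by
  rw [par_def]
  obtain ⟨z1, z2, z3⟩ := zeta_mem T (comb lam sy) (comb lam sm) z om
  obtain ⟨w1, w2, w3, w4⟩ := ww_spec T (comb lam sy) (comb lam sm) (comb lam sa) _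
    (h.comb _ _ _ _ _) (h.comb _ _ _ _ _) (h.comb _ _ _ _ _) (h.comb _ _ _ _ _) z1 z2 z3
  obtain ⟨u1, u2, u3⟩ := uu_spec T (comb lam sy) (comb lam sm) _
    (h.comb _ _ _ _ _) (h.comb _ _ _ _ _) (h.comb _ _ _ _ _) w1 w2 w3 w4
  exact xx_spec T _ _ (h.comb _ _ _ _ _) u1 u2 u3

theorem par_eq (y m a : σ → R) (z : Fin 3 → σ → R) (x : σ → R)
    (c1 : Phi T y y y y x = 0) (c2 : Phi T y y y m x = 0) (c3 : Phi T y y y x x = 0)
    (c4 : Phi T y y m m x = 0) (c5 : Phi T y y x x x = 0) (c6 : Phi T x x x x x = 0) :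
    par T y m a z x = (5 * (3 * Phi T y y m x x *
      (-2 * (mat T y m z).det ^ 2 * Phi T y y y a x) ^ 3) ^ 5 * Phi T y x x x x) • x := by
  rw [par_def, zeta_eq T y m z x c1 c2 c4]
  have hw : ww T y a ((mat T y m z).det • x) = (-2 * (mat T y m z).det ^ 2 * Phi T y y y a x) • x := by
    unfold ww
    rw [Phi_smul4, Phi_smul5, Phi_smul5, c3, smul_smul]
    rw [show (mat T y m z).det * ((mat T y m z).det * (0 : R)) = 0 by ring, zero_smul, zero_sub,
      ← neg_smul]
    congr 1; ring
  rw [hw]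
  set μ := -2 * (mat T y m z).det ^ 2 * Phi T y y y a x with hμ
  have hu : uu T y m (μ • x) = (3 * Phi T y y m x x * μ ^ 3) • x := by
    unfold uu
    simp only [Phi_smul3, Phi_smul4, Phi_smul5, c5, smul_smul, mul_zero, zero_smul, sub_zero]
    congr 1; ring
  rw [hu]
  set ν := 3 * Phi T y y m x x * μ ^ 3 with hν
  unfold xx
  simp only [Phi_smul1, Phi_smul2, Phi_smul3, Phi_smul4, Phi_smul5, c6, smul_smul, mul_zero,
    zero_smul, sub_zero]
  congr 1; ring

theorem map_mat {S : Type*} [CommRing S] [Algebra k S] (g : R →ₐ[k] S) (y m : σ → R)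
    (z : Fin 3 → σ → R) : (mat T y m z).map g = mat T (fun i => g (y i)) (fun i => g (m i))
      (fun j i => g (z j i)) := by
  ext i j
  rw [Matrix.map_apply]
  fin_cases i <;> simp [mat, map_Phi]

theorem map_par {S : Type*} [CommRing S] [Algebra k S] (g : R →ₐ[k] S) (y m a : σ → R)
    (z : Fin 3 → σ → R) (om : σ → R) (i : σ) :
    g (par T y m a z om i) = par T (fun i => g (y i)) (fun i => g (m i)) (fun i => g (a i))
      (fun j i => g (z j i)) (fun i => g (om i)) i := by
  have hz : (fun i => g (zeta T y m z om i)) = zeta T (fun i => g (y i)) (fun i => g (m i))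
      (fun j i => g (z j i)) (fun i => g (om i)) := by
    funext i
    unfold zeta
    have hdet : g (mat T y m z).det = (mat T (fun i => g (y i)) (fun i => g (m i))
      (fun j i => g (z j i))).det := by
      rw [← map_mat]
      exact (RingHom.map_det (g : R →+* S) (mat T y m z))
    have hcr : ∀ j, g ((mat T y m z).cramer
        ![Phi T y y y y om, Phi T y y y m om, Phi T y y m m om] j) =
        (mat T (fun i => g (y i)) (fun i => g (m i)) (fun j i => g (z j i))).cramer
        ![Phi T (fun i => g (y i)) (fun i => g (y i)) (fun i => g (y i)) (fun i => g (y i))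
            (fun i => g (om i)),
          Phi T (fun i => g (y i)) (fun i => g (y i)) (fun i => g (y i)) (fun i => g (m i))
            (fun i => g (om i)),
          Phi T (fun i => g (y i)) (fun i => g (y i)) (fun i => g (m i)) (fun i => g (m i))
            (fun i => g (om i))] j := by
      intro j
      rw [Matrix.cramer_apply, Matrix.cramer_apply, ← map_mat]
      have := RingHom.map_det (g : R →+* S) ((mat T y m z).updateCol j
        ![Phi T y y y y om, Phi T y y y m om, Phi T y y m m om])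
      refine this.trans ?_
      congr 1
      ext a b
      simp only [RingHom.mapMatrix_apply, Matrix.map_apply, Matrix.updateCol_apply]
      by_cases hb : b = j
      · rw [if_pos hb, if_pos hb]
        fin_cases a <;> simp [map_Phi]
      · rw [if_neg hb, if_neg hb]
        rfl
    simp only [Pi.sub_apply, Pi.smul_apply, smul_eq_mul, Finset.sum_apply, map_sub, map_mul, map_sum,
      hdet, hcr]
  have hw : ∀ ze : σ → R, (fun i => g (ww T y a ze i)) = ww T (fun i => g (y i)) (fun i => g (a i))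
      (fun i => g (ze i)) := by
    intro ze; funext i
    simp only [ww, Pi.sub_apply, Pi.smul_apply, smul_eq_mul, map_sub, map_mul, map_Phi, map_ofNat]
  have hu : ∀ w : σ → R, (fun i => g (uu T y m w i)) = uu T (fun i => g (y i)) (fun i => g (m i))
      (fun i => g (w i)) := by
    intro ze; funext i
    simp only [uu, Pi.sub_apply, Pi.smul_apply, smul_eq_mul, map_sub, map_mul, map_Phi, map_ofNat]
  have hx : ∀ u : σ → R, (fun i => g (xx T y u i)) = xx T (fun i => g (y i))
      (fun i => g (u i)) := by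
    intro ze; funext i
    simp only [xx, Pi.sub_apply, Pi.smul_apply, smul_eq_mul, map_sub, map_mul, map_Phi, map_ofNat]
  rw [par_def, par_def]
  have := congrFun (hx (uu T y m (ww T y a (zeta T y m z om)))) i
  rw [this, hu, hw, hz]

end Param

end Pool.Agent.Work.PD5
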