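import Mathlib
import Pool.Agent.Work.MP_b62148_ag.Quintic.Defs

/-!
Existence of the polarisation tensor of a quintic form.
-/

namespace Pool.Agent.Work.PD5

open MvPolynomial

variable {k : Type*} [Field k] {σ : Type*} [Fintype σ]

theorem IsTen.aeval_eq {F : MvPolynomial σ k} {T : Ten k σ} (h : IsTen F T) {R : Type*} [CommRing R]
    [Algebra k R] (x : σ → R) : aeval x F = Phi T x x x x x := by
  rw [h]
  unfold Phi
  simp only [map_sum, map_mul, aeval_C, aeval_X]

theorem IsTen.grad {F : MvPolynomial σ k} {T : Ten k σ} (h : IsTen F T) {R : Type*} [CommRing R]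
    [Algebra k R] (x v : σ → R) : ∑ i, aeval x (pderiv i F) * v i = 5 * Phi T x x x x v := by
  classical
  have hd : ∀ a b c d e i : σ, ∀ t : k, aeval x (pderiv i (C t * (X a * X b * X c * X d * X e))) * v i =
      algebraMap k R t * ((if i = a then v i else 0) * x b * x c * x d * x e +
        x a * (if i = b then v i else 0) * x c * x d * x e +
        x a * x b * (if i = c then v i else 0) * x d * x e +
        x a * x b * x c * (if i = d then v i else 0) * x e +
        x a * x b * x c * x d * (if i = e then v i else 0)) := by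
    intro a b c d e i t
    have hx : ∀ j : σ, aeval x (pderiv i (X j : MvPolynomial σ k)) = if i = j then 1 else 0 := by
      intro j
      rw [pderiv_X]
      by_cases hij : i = j
      · subst hij; simp
      · rw [Pi.single_eq_of_ne (fun h => hij h.symm), if_neg hij, map_zero]
    simp only [pderiv_mul, pderiv_C, map_mul, map_add, map_zero, aeval_C, aeval_X, hx, zero_mul]
    have hv : ∀ j : σ, (if i = j then v i else 0) = (if i = j then (1 : R) else 0) * v i := by
      intro j; split_ifs <;> simp
    rw [hv a, hv b, hv c, hv d, hv e]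
    ring
  have h1 : ∑ i, aeval x (pderiv i F) * v i =
      Phi T v x x x x + Phi T x v x x x + Phi T x x v x x + Phi T x x x v x + Phi T x x x x v := by
    rw [h]
    simp only [map_sum, Finset.sum_mul, hd]
    unfold Phi
    rw [Finset.sum_comm]
    simp only [← Finset.sum_add_distrib]
    refine Finset.sum_congr rfl fun a _ => ?_
    rw [Finset.sum_comm]
    refine Finset.sum_congr rfl fun b _ => ?_
    rw [Finset.sum_comm]
    refine Finset.sum_congr rfl fun c _ => ?_
    rw [Finset.sum_comm]
    refine Finset.sum_congr rfl fun d _ => ?_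
    rw [Finset.sum_comm]
    refine Finset.sum_congr rfl fun e _ => ?_
    rw [← Finset.mul_sum]
    simp only [Finset.sum_add_distrib, ← Finset.mul_sum, ← Finset.sum_mul]
    simp only [Finset.sum_ite_eq', Finset.mem_univ, if_true]
    ring
  rw [h1]
  have e1 : Phi T v x x x x = Phi T x x x x v := by rw [Phi_s12, Phi_s23, Phi_s34, Phi_s45]
  have e2 : Phi T x v x x x = Phi T x x x x v := by rw [Phi_s23, Phi_s34, Phi_s45]
  have e3 : Phi T x x v x x = Phi T x x x x v := by rw [Phi_s34, Phi_s45]
  have e4 : Phi T x x x v x = Phi T x x x x v := by rw [Phi_s45]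
  rw [e1, e2, e3, e4]; ring

theorem exists_isTen [CharZero k] (F : MvPolynomial σ k) (hF : F.IsHomogeneous 5) :
    ∃ T : Ten k σ, IsTen F T := by
  classical
  let D : σ → MvPolynomial σ k → MvPolynomial σ k := fun i p => pderiv i p
  have hcomm : ∀ i j (p : MvPolynomial σ k), pderiv i (pderiv j p) = pderiv j (pderiv i p) := by
    intro i j p
    induction p using MvPolynomial.induction_on' with
    | monomial u a =>
      rw [pderiv_monomial, pderiv_monomial, pderiv_monomial, pderiv_monomial]
      by_cases hij : i = j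
      · subst hij; rfl
      · congr 1
        · rw [tsub_right_comm]
        · simp only [Finsupp.tsub_apply, Finsupp.single_apply, if_neg hij, if_neg (Ne.symm hij),
            tsub_zero]
          ring
    | add p q hp hq => simp only [map_add, hp, hq]
  have hdeg : ∀ (m : ℕ) (p : MvPolynomial σ k), p.IsHomogeneous (m + 1) → ∀ i,
      (pderiv i p).IsHomogeneous m := by
    intro m p hp i
    simpa using hp.pderiv (i := i)
  have heul : ∀ (m : ℕ) (p : MvPolynomial σ k), p.IsHomogeneous m →
      ∑ i, X i * pderiv i p = C (m : k) * p := by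
    intro m p hp
    have := hp.sum_X_mul_pderiv
    rw [this]
    rw [nsmul_eq_mul]
    simp
  let f5 : σ → σ → σ → σ → σ → MvPolynomial σ k := fun i j l m n =>
    pderiv n (pderiv m (pderiv l (pderiv j (pderiv i F))))
  have hconst : ∀ i j l m n, f5 i j l m n = C (coeff 0 (f5 i j l m n)) := by
    intro i j l m n
    have : (f5 i j l m n).IsHomogeneous 0 :=
      hdeg 0 _ (hdeg 1 _ (hdeg 2 _ (hdeg 3 _ (hdeg 4 _ hF i) j) l) m) n
    exact (totalDegree_eq_zero_iff_eq_C).mp (Nat.le_zero.mp this.totalDegree_le)
  refine ⟨⟨fun i j l m n => coeff 0 (f5 i j l m n) / 120, ?_, ?_, ?_, ?_⟩, ?_⟩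
  · intro i j l m n; simp only [f5]; rw [hcomm j i]
  · intro i j l m n; simp only [f5]; rw [hcomm l j]
  · intro i j l m n; simp only [f5]; rw [hcomm m l]
  · intro i j l m n; simp only [f5]; rw [hcomm n m]
  · unfold IsTen
    have key : C (120 : k) * F = ∑ i, ∑ j, ∑ l, ∑ m, ∑ n,
        C (coeff 0 (f5 i j l m n)) * (X i * X j * X l * X m * X n) := by
      have e5 := heul 5 F hF
      have e4 : ∀ i, ∑ j, X j * pderiv j (pderiv i F) = C ((4 : ℕ) : k) * pderiv i F :=
        fun i => heul 4 _ (hdeg 4 _ hF i)
      have e3 : ∀ i j, ∑ l, X l * pderiv l (pderiv j (pderiv i F)) =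
          C ((3 : ℕ) : k) * pderiv j (pderiv i F) :=
        fun i j => heul 3 _ (hdeg 3 _ (hdeg 4 _ hF i) j)
      have e2 : ∀ i j l, ∑ m, X m * pderiv m (pderiv l (pderiv j (pderiv i F))) =
          C ((2 : ℕ) : k) * pderiv l (pderiv j (pderiv i F)) :=
        fun i j l => heul 2 _ (hdeg 2 _ (hdeg 3 _ (hdeg 4 _ hF i) j) l)
      have e1 : ∀ i j l m, ∑ n, X n * pderiv n (pderiv m (pderiv l (pderiv j (pderiv i F)))) =
          C ((1 : ℕ) : k) * pderiv m (pderiv l (pderiv j (pderiv i F))) :=
        fun i j l m => heul 1 _ (hdeg 1 _ (hdeg 2 _ (hdeg 3 _ (hdeg 4 _ hF i) j) l) m)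
      have s1 : ∀ i j l m, ∑ n, C (coeff 0 (f5 i j l m n)) * (X i * X j * X l * X m * X n) =
          X i * X j * X l * X m * (pderiv m (pderiv l (pderiv j (pderiv i F)))) := by
        intro i j l m
        have := e1 i j l m
        rw [Nat.cast_one, C_1, one_mul] at this
        rw [← this, Finset.mul_sum]
        refine Finset.sum_congr rfl fun n _ => ?_
        rw [← hconst]
        simp only [f5]; ring
      have s2 : ∀ i j l, ∑ m, X i * X j * X l * X m * (pderiv m (pderiv l (pderiv j (pderiv i F)))) =
          C ((2 : ℕ) : k) * (X i * X j * X l * pderiv l (pderiv j (pderiv i F))) := by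
        intro i j l
        have := e2 i j l
        rw [show C ((2 : ℕ) : k) * (X i * X j * X l * pderiv l (pderiv j (pderiv i F))) =
          X i * X j * X l * (C ((2 : ℕ) : k) * pderiv l (pderiv j (pderiv i F))) by ring, ← this,
          Finset.mul_sum]
        refine Finset.sum_congr rfl fun n _ => by ring
      have s3 : ∀ i j, ∑ l, C ((2 : ℕ) : k) * (X i * X j * X l * pderiv l (pderiv j (pderiv i F))) =
          C ((2 : ℕ) : k) * C ((3 : ℕ) : k) * (X i * X j * pderiv j (pderiv i F)) := by
        intro i j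
        have := e3 i j
        rw [show C ((2 : ℕ) : k) * C ((3 : ℕ) : k) * (X i * X j * pderiv j (pderiv i F)) =
          C ((2 : ℕ) : k) * (X i * X j * (C ((3 : ℕ) : k) * pderiv j (pderiv i F))) by ring, ← this,
          Finset.mul_sum, Finset.mul_sum]
        refine Finset.sum_congr rfl fun n _ => by ring
      have s4 : ∀ i, ∑ j, C ((2 : ℕ) : k) * C ((3 : ℕ) : k) * (X i * X j * pderiv j (pderiv i F)) =
          C ((2 : ℕ) : k) * C ((3 : ℕ) : k) * C ((4 : ℕ) : k) * (X i * pderiv i F) := by
        intro i
        have := e4 i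
        rw [show C ((2 : ℕ) : k) * C ((3 : ℕ) : k) * C ((4 : ℕ) : k) * (X i * pderiv i F) =
          C ((2 : ℕ) : k) * C ((3 : ℕ) : k) * (X i * (C ((4 : ℕ) : k) * pderiv i F)) by ring, ← this,
          Finset.mul_sum, Finset.mul_sum]
        refine Finset.sum_congr rfl fun n _ => by ring
      simp only [s1, s2, s3, s4]
      rw [← Finset.mul_sum, e5]
      have : (C (120 : k) : MvPolynomial σ k) =
          C ((2 : ℕ) : k) * C ((3 : ℕ) : k) * C ((4 : ℕ) : k) * C ((5 : ℕ) : k) := by
        rw [← C_mul, ← C_mul, ← C_mul]; congr 1; norm_num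
      rw [this]; ring
    have h120 : (C (120 : k)⁻¹ : MvPolynomial σ k) * C (120 : k) = 1 := by
      rw [← C_mul, inv_mul_cancel₀ (by norm_num), C_1]
    have : F = C (120 : k)⁻¹ * (C (120 : k) * F) := by
      rw [← mul_assoc, h120, one_mul]
    refine this.trans ?_
    rw [key]
    simp only [Finset.mul_sum]
    refine Finset.sum_congr rfl fun i _ => Finset.sum_congr rfl fun j _ =>
      Finset.sum_congr rfl fun l _ => Finset.sum_congr rfl fun m _ => Finset.sum_congr rfl fun n _ => ?_
    rw [← mul_assoc, ← C_mul]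
    congr 2
    rw [div_eq_inv_mul]

end Pool.Agent.Work.PD5
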