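import Mathlib
import Pool.Agent.Work.MP_b62148_ag.Quintic.ParamQ
import Pool.Agent.Work.MP_b62148_ag.Quintic.TensorF
import Pool.Agent.Work.MP_b62148_ag.ExistLine

/-!
The quartic forms cut out on a three-space contained in a quintic (round two of the quintic
theorem), and derivations.
-/

namespace Pool.Agent.Work.PD5

open MvPolynomial

section DPhi

variable {k : Type*} [Field k] {σ : Type*} [Fintype σ] (T : Ten k σ)

/-- Leibniz rule for the 5-linear form -/
theorem D_Phi_gen {R S : Type*} [CommRing R] [CommRing S] [Algebra k R] [Algebra k S] [Algebra R S]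
    [IsScalarTower k R S] (d : Derivation k R S) (v₁ v₂ v₃ v₄ v₅ : σ → R) :
    d (Phi T v₁ v₂ v₃ v₄ v₅) =
      Phi T (fun i => d (v₁ i)) (fun i => algebraMap R S (v₂ i)) (fun i => algebraMap R S (v₃ i))
        (fun i => algebraMap R S (v₄ i)) (fun i => algebraMap R S (v₅ i)) +
      Phi T (fun i => algebraMap R S (v₁ i)) (fun i => d (v₂ i)) (fun i => algebraMap R S (v₃ i))
        (fun i => algebraMap R S (v₄ i)) (fun i => algebraMap R S (v₅ i)) +
      Phi T (fun i => algebraMap R S (v₁ i)) (fun i => algebraMap R S (v₂ i)) (fun i => d (v₃ i))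
        (fun i => algebraMap R S (v₄ i)) (fun i => algebraMap R S (v₅ i)) +
      Phi T (fun i => algebraMap R S (v₁ i)) (fun i => algebraMap R S (v₂ i))
        (fun i => algebraMap R S (v₃ i)) (fun i => d (v₄ i)) (fun i => algebraMap R S (v₅ i)) +
      Phi T (fun i => algebraMap R S (v₁ i)) (fun i => algebraMap R S (v₂ i))
        (fun i => algebraMap R S (v₃ i)) (fun i => algebraMap R S (v₄ i)) (fun i => d (v₅ i)) := by
  unfold Phi
  simp only [map_sum, ← Finset.sum_add_distrib]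
  refine Finset.sum_congr rfl fun i _ => Finset.sum_congr rfl fun j _ =>
    Finset.sum_congr rfl fun l _ => Finset.sum_congr rfl fun m _ => Finset.sum_congr rfl fun n _ => ?_
  simp only [Derivation.leibniz, Derivation.map_algebraMap, smul_zero, add_zero, Algebra.smul_def,
    ← IsScalarTower.algebraMap_apply k R S, map_mul]
  ring

/-- Leibniz rule for the 5-linear form -/
theorem D_Phi {R : Type*} [CommRing R] [Algebra k R] (d : Derivation k R R)
    (v₁ v₂ v₃ v₄ v₅ : σ → R) :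
    d (Phi T v₁ v₂ v₃ v₄ v₅) =
      Phi T (fun i => d (v₁ i)) v₂ v₃ v₄ v₅ + Phi T v₁ (fun i => d (v₂ i)) v₃ v₄ v₅ +
      Phi T v₁ v₂ (fun i => d (v₃ i)) v₄ v₅ + Phi T v₁ v₂ v₃ (fun i => d (v₄ i)) v₅ +
      Phi T v₁ v₂ v₃ v₄ (fun i => d (v₅ i)) := D_Phi_gen T d v₁ v₂ v₃ v₄ v₅

end DPhi

section Emb

variable {K : Type*} [Field K] {σ : Type*} (lam : Fin 4 → σ → K)

/-- the point of the three-space with given coordinates -/
def emb {R : Type*} [CommRing R] [Algebra K R] (u : Fin 4 → R) : σ → R :=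
  comb (fun j i => algebraMap K R (lam j i)) u

variable {R : Type*} [CommRing R] [Algebra K R]

theorem emb_apply (u : Fin 4 → R) (i : σ) : emb lam u i = ∑ j, u j * algebraMap K R (lam j i) := rfl

theorem emb_add (u v : Fin 4 → R) : emb lam (u + v) = emb lam u + emb lam v := by
  funext i
  simp only [emb_apply, Pi.add_apply, add_mul, Finset.sum_add_distrib]

theorem emb_smul (c : R) (u : Fin 4 → R) : emb lam (c • u) = c • emb lam u := by
  funext i
  simp only [emb_apply, Pi.smul_apply, smul_eq_mul, Finset.mul_sum]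
  exact Finset.sum_congr rfl fun j _ => by ring

theorem emb_sub (u v : Fin 4 → R) : emb lam (u - v) = emb lam u - emb lam v := by
  rw [sub_eq_add_neg, ← neg_one_smul R v, emb_add, emb_smul, neg_one_smul, sub_eq_add_neg]

theorem emb_zero : emb lam (0 : Fin 4 → R) = 0 := by
  funext i
  simp [emb_apply]

theorem emb_single (j : Fin 4) :
    emb lam (Pi.single j (1 : R)) = fun i => algebraMap K R (lam j i) := by
  funext i
  simp [emb_apply, Pi.single_apply]

theorem map_emb {S : Type*} [CommRing S] [Algebra K S] (g : R →ₐ[K] S) (u : Fin 4 → R) (i : σ) :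
    g (emb lam u i) = emb lam (fun j => g (u j)) i := by
  simp only [emb_apply, map_sum, map_mul, AlgHom.commutes]

theorem algebraMap_emb {S : Type*} [CommRing S] [Algebra K S] [Algebra R S] [IsScalarTower K R S]
    (u : Fin 4 → R) (i : σ) :
    algebraMap R S (emb lam u i) = emb lam (fun j => algebraMap R S (u j)) i :=
  map_emb lam (IsScalarTower.toAlgHom K R S) u i

theorem d_emb {S : Type*} [CommRing S] [Algebra K S] [Algebra R S] [IsScalarTower K R S]
    (d : Derivation K R S) (u : Fin 4 → R) (i : σ) :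
    d (emb lam u i) = emb lam (fun j => d (u j)) i := by
  simp only [emb_apply, map_sum, Derivation.leibniz, Derivation.map_algebraMap, smul_zero, zero_add,
    Algebra.smul_def, ← IsScalarTower.algebraMap_apply K R S]
  exact Finset.sum_congr rfl fun j _ => by ring

theorem emb_injective [Finite σ] {Ω : Type*} [Field Ω] [Algebra K Ω] (hl : LinearIndependent K lam)
    (u : Fin 4 → Ω) (h : emb lam u = 0) : u = 0 := by
  have h1 : LinearIndependent Ω (fun j => algebraMap K Ω ∘ lam j) :=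
    linearIndependent_algebraMap_comp_iff.mpr hl
  have h2 := Fintype.linearIndependent_iff.mp h1 u (by
    rw [← h]
    funext i
    simp [emb_apply])
  funext j
  exact h2 j

end Emb

section Psi

variable {K : Type*} [Field K] {σ : Type*} [Fintype σ] (T : Ten K σ) (lam : Fin 4 → σ → K)

/-- the 4-linear forms cut out on the three-space -/
noncomputable def Psi {R : Type*} [CommRing R] [Algebra K R] (u₁ u₂ u₃ u₄ : Fin 4 → R) (w : σ → R) :
    R :=
  Phi T (emb lam u₁) (emb lam u₂) (emb lam u₃) (emb lam u₄) w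

section Basic

variable {R : Type*} [CommRing R] [Algebra K R]

theorem Psi_s12 (u₁ u₂ u₃ u₄ : Fin 4 → R) (w : σ → R) :
    Psi T lam u₁ u₂ u₃ u₄ w = Psi T lam u₂ u₁ u₃ u₄ w := Phi_s12 T _ _ _ _ _

theorem Psi_s23 (u₁ u₂ u₃ u₄ : Fin 4 → R) (w : σ → R) :
    Psi T lam u₁ u₂ u₃ u₄ w = Psi T lam u₁ u₃ u₂ u₄ w := Phi_s23 T _ _ _ _ _

theorem Psi_s34 (u₁ u₂ u₃ u₄ : Fin 4 → R) (w : σ → R) :
    Psi T lam u₁ u₂ u₃ u₄ w = Psi T lam u₁ u₂ u₄ u₃ w := Phi_s34 T _ _ _ _ _

theorem Psi_add1 (u v u₂ u₃ u₄ : Fin 4 → R) (w : σ → R) :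
    Psi T lam (u + v) u₂ u₃ u₄ w = Psi T lam u u₂ u₃ u₄ w + Psi T lam v u₂ u₃ u₄ w := by
  unfold Psi; rw [emb_add, Phi_add1]

theorem Psi_add2 (u v u₁ u₃ u₄ : Fin 4 → R) (w : σ → R) :
    Psi T lam u₁ (u + v) u₃ u₄ w = Psi T lam u₁ u u₃ u₄ w + Psi T lam u₁ v u₃ u₄ w := by
  unfold Psi; rw [emb_add, Phi_add2]

theorem Psi_add3 (u v u₁ u₂ u₄ : Fin 4 → R) (w : σ → R) :
    Psi T lam u₁ u₂ (u + v) u₄ w = Psi T lam u₁ u₂ u u₄ w + Psi T lam u₁ u₂ v u₄ w := by
  unfold Psi; rw [emb_add, Phi_add3]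

theorem Psi_add4 (u v u₁ u₂ u₃ : Fin 4 → R) (w : σ → R) :
    Psi T lam u₁ u₂ u₃ (u + v) w = Psi T lam u₁ u₂ u₃ u w + Psi T lam u₁ u₂ u₃ v w := by
  unfold Psi; rw [emb_add, Phi_add4]

theorem Psi_add5 (u₁ u₂ u₃ u₄ : Fin 4 → R) (w w' : σ → R) :
    Psi T lam u₁ u₂ u₃ u₄ (w + w') = Psi T lam u₁ u₂ u₃ u₄ w + Psi T lam u₁ u₂ u₃ u₄ w' := by
  unfold Psi; rw [Phi_add5]

theorem Psi_smul1 (c : R) (u₁ u₂ u₃ u₄ : Fin 4 → R) (w : σ → R) :
    Psi T lam (c • u₁) u₂ u₃ u₄ w = c * Psi T lam u₁ u₂ u₃ u₄ w := by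
  unfold Psi; rw [emb_smul, Phi_smul1]

theorem Psi_smul2 (c : R) (u₁ u₂ u₃ u₄ : Fin 4 → R) (w : σ → R) :
    Psi T lam u₁ (c • u₂) u₃ u₄ w = c * Psi T lam u₁ u₂ u₃ u₄ w := by
  unfold Psi; rw [emb_smul, Phi_smul2]

theorem Psi_smul3 (c : R) (u₁ u₂ u₃ u₄ : Fin 4 → R) (w : σ → R) :
    Psi T lam u₁ u₂ (c • u₃) u₄ w = c * Psi T lam u₁ u₂ u₃ u₄ w := by
  unfold Psi; rw [emb_smul, Phi_smul3]

theorem Psi_smul4 (c : R) (u₁ u₂ u₃ u₄ : Fin 4 → R) (w : σ → R) :
    Psi T lam u₁ u₂ u₃ (c • u₄) w = c * Psi T lam u₁ u₂ u₃ u₄ w := by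
  unfold Psi; rw [emb_smul, Phi_smul4]

theorem Psi_smul5 (c : R) (u₁ u₂ u₃ u₄ : Fin 4 → R) (w : σ → R) :
    Psi T lam u₁ u₂ u₃ u₄ (c • w) = c * Psi T lam u₁ u₂ u₃ u₄ w := by
  unfold Psi; rw [Phi_smul5]

theorem map_Psi {S : Type*} [CommRing S] [Algebra K S] (g : R →ₐ[K] S) (u₁ u₂ u₃ u₄ : Fin 4 → R)
    (w : σ → R) :
    g (Psi T lam u₁ u₂ u₃ u₄ w) = Psi T lam (fun i => g (u₁ i)) (fun i => g (u₂ i))
      (fun i => g (u₃ i)) (fun i => g (u₄ i)) (fun i => g (w i)) := by
  unfold Psi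
  rw [map_Phi]
  congr 1 <;> funext i <;> exact map_emb lam g _ i

/-- Leibniz rule -/
theorem D_Psi_gen {S : Type*} [CommRing S] [Algebra K S] [Algebra R S] [IsScalarTower K R S]
    (d : Derivation K R S) (u₁ u₂ u₃ u₄ : Fin 4 → R) (w : σ → R) :
    d (Psi T lam u₁ u₂ u₃ u₄ w) =
      Psi T lam (fun i => d (u₁ i)) (fun i => algebraMap R S (u₂ i))
        (fun i => algebraMap R S (u₃ i)) (fun i => algebraMap R S (u₄ i))
        (fun i => algebraMap R S (w i)) +
      Psi T lam (fun i => algebraMap R S (u₁ i)) (fun i => d (u₂ i))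
        (fun i => algebraMap R S (u₃ i)) (fun i => algebraMap R S (u₄ i))
        (fun i => algebraMap R S (w i)) +
      Psi T lam (fun i => algebraMap R S (u₁ i)) (fun i => algebraMap R S (u₂ i))
        (fun i => d (u₃ i)) (fun i => algebraMap R S (u₄ i))
        (fun i => algebraMap R S (w i)) +
      Psi T lam (fun i => algebraMap R S (u₁ i)) (fun i => algebraMap R S (u₂ i))
        (fun i => algebraMap R S (u₃ i)) (fun i => d (u₄ i))
        (fun i => algebraMap R S (w i)) +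
      Psi T lam (fun i => algebraMap R S (u₁ i)) (fun i => algebraMap R S (u₂ i))
        (fun i => algebraMap R S (u₃ i)) (fun i => algebraMap R S (u₄ i))
        (fun i => d (w i)) := by
  unfold Psi
  rw [D_Phi_gen]
  simp only [d_emb, algebraMap_emb]

/-- Leibniz rule -/
theorem D_Psi (d : Derivation K R R) (u₁ u₂ u₃ u₄ : Fin 4 → R) (w : σ → R) :
    d (Psi T lam u₁ u₂ u₃ u₄ w) =
      Psi T lam (fun i => d (u₁ i)) u₂ u₃ u₄ w + Psi T lam u₁ (fun i => d (u₂ i)) u₃ u₄ w +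
      Psi T lam u₁ u₂ (fun i => d (u₃ i)) u₄ w + Psi T lam u₁ u₂ u₃ (fun i => d (u₄ i)) w +
      Psi T lam u₁ u₂ u₃ u₄ (fun i => d (w i)) := D_Psi_gen T lam d u₁ u₂ u₃ u₄ w

end Basic

/-- base point freeness: the quartic forms have no common zero -/
def Bpf : Prop := ∀ s : Fin 4 → AlgebraicClosure K,
  (∀ w : σ → AlgebraicClosure K, Psi T lam s s s s w = 0) → s = 0

variable {T lam}

theorem Psi_eq_sum [DecidableEq σ] {R : Type*} [CommRing R] [Algebra K R] (u₁ u₂ u₃ u₄ : Fin 4 → R)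
    (w : σ → R) :
    Psi T lam u₁ u₂ u₃ u₄ w = ∑ j, w j * Psi T lam u₁ u₂ u₃ u₄ (Pi.single j 1) := by
  have h : w = ∑ j, w j • (Pi.single j 1 : σ → R) := by
    funext i
    simp [Finset.sum_apply, Pi.single_apply]
  conv_lhs => rw [h]
  unfold Psi
  rw [Phi_sum5]

theorem aeval_Psi_X [DecidableEq σ] {R : Type*} [CommRing R] [Algebra K R] (u : Fin 4 → R) (j : σ) :
    aeval u (Psi T lam (fun i => (X i : MvPolynomial (Fin 4) K)) (fun i => X i) (fun i => X i)
      (fun i => X i) (Pi.single j 1)) = Psi T lam u u u u (Pi.single j 1) := by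
  rw [map_Psi]
  simp only [aeval_X]
  congr 1
  funext i
  by_cases h : i = j
  · subst h; simp
  · simp [Pi.single_eq_of_ne h]

/-- base point freeness over every extension field -/
theorem Bpf.ext (hb : Bpf T lam) {Ω : Type*} [Field Ω] [Algebra K Ω] (s : Fin 4 → Ω)
    (hs : ∀ w : σ → Ω, Psi T lam s s s s w = 0) : s = 0 := by
  classical
  let p : σ → MvPolynomial (Fin 4) K := fun j =>
    Psi T lam (fun i => X i) (fun i => X i) (fun i => X i) (fun i => X i) (Pi.single j 1)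
  let I : Ideal (MvPolynomial (Fin 4) K) := Ideal.span (Set.range p)
  funext j
  have h1 : (X j : MvPolynomial (Fin 4) K) ∈ I.radical := by
    rw [← MvPolynomial.vanishingIdeal_zeroLocus_eq_radical (K := AlgebraicClosure K),
      MvPolynomial.mem_vanishingIdeal_iff]
    intro y hy
    rw [MvPolynomial.mem_zeroLocus_iff] at hy
    have : y = 0 := by
      refine hb y fun w => ?_
      rw [Psi_eq_sum]
      refine Finset.sum_eq_zero fun i _ => ?_
      rw [← aeval_Psi_X, hy _ (Ideal.subset_span ⟨i, rfl⟩), mul_zero]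
    rw [this]; simp
  obtain ⟨n, hn⟩ := h1
  have h2 : ∀ q ∈ I, aeval s q = 0 := by
    intro q hq
    refine Submodule.span_induction (p := fun q _ => aeval s q = 0) ?_ ?_ ?_ ?_ hq
    · rintro _ ⟨i, rfl⟩
      exact (aeval_Psi_X s i).trans (hs _)
    · simp
    · intro a b _ _ ha hb; rw [map_add, ha, hb, add_zero]
    · intro a b _ hb; rw [smul_eq_mul, map_mul, hb, mul_zero]
  have h3 := h2 _ hn
  rw [map_pow, aeval_X] at h3
  exact eq_zero_of_pow_eq_zero h3

/-- smoothness gives base point freeness -/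
theorem bpf_of_smooth [CharZero K] {F : MvPolynomial σ K} (hT : IsTen F T) (hs : PD.SmoothForm F)
    (hl : LinearIndependent K lam) : Bpf T lam := by
  classical
  intro s h
  apply emb_injective lam hl
  apply hs
  intro i
  have h1 := hT.grad (emb lam s) (Pi.single i (1 : AlgebraicClosure K))
  have h2 : Phi T (emb lam s) (emb lam s) (emb lam s) (emb lam s) (Pi.single i 1) = 0 := h _
  rw [h2, mul_zero, Finset.sum_eq_single i] at h1
  · simpa using h1
  · intro j _ hj; rw [Pi.single_eq_of_ne hj, mul_zero]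
  · simp

end Psi

end Pool.Agent.Work.PD5
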