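import Mathlib
import Pool.Agent.Work.MP_b62148_ag.Quintic.PsiQ

/-!
Generic flags in a three-space contained in a quintic.
-/

namespace Pool.Agent.Work.PD5

variable {K : Type*} [Field K] {σ : Type*} [Fintype σ]

/-- a generic flag: a point `y`, a direction `m` and a vector `t` such that the quartic surface
`Psi s s s s t = 0` has contact at least three at `y` with the line through `y` in direction `m`,
with enough derivations -/
structure Flag (T : Ten K σ) (lam : Fin 4 → σ → K) (Ω : Type*) [Field Ω] [Algebra K Ω] where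
  /-- the point -/
  y : Fin 4 → Ω
  /-- the direction -/
  m : Fin 4 → Ω
  /-- the vector -/
  t : σ → Ω
  r1 : Psi T lam y y y y t = 0
  r2 : Psi T lam y y y m t = 0
  r3 : Psi T lam y y m m t = 0
  ind : ∀ α β γ : Ω, (∀ w : σ → Ω, α * Psi T lam y y y y w + β * Psi T lam y y y m w +
    γ * Psi T lam y y m m w = 0) → α = 0 ∧ β = 0 ∧ γ = 0
  dl : ∀ (dy dm : Fin 4 → Ω) (dt : σ → Ω),
    4 * Psi T lam y y y dy t + Psi T lam y y y y dt = 0 →
    3 * Psi T lam y y dy m t + Psi T lam y y y dm t + Psi T lam y y y m dt = 0 →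
    2 * Psi T lam y dy m m t + 2 * Psi T lam y y m dm t + Psi T lam y y m m dt = 0 →
    ∃ D : Derivation K Ω Ω, (∀ i, D (y i) = dy i) ∧ (∀ i, D (m i) = dm i) ∧ ∀ j, D (t j) = dt j

/-- leading data for a given frame `y, b, m, a` -/
def LeadAt (T : Ten K σ) {E : Type*} [Field E] [Algebra K E] (lam : Fin 4 → σ → E) : Prop :=
  ∃ (z z₁ z₂ z₃ : σ → E),
    Phi T (lam 0) (lam 0) (lam 0) (lam 0) z = 0 ∧
    Phi T (lam 0) (lam 0) (lam 0) (lam 1) z = 0 ∧
    Phi T (lam 0) (lam 0) (lam 0) (lam 2) z = 0 ∧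
    Phi T (lam 0) (lam 0) (lam 1) (lam 1) z = 0 ∧
    Phi T (lam 0) (lam 0) (lam 2) (lam 2) z = 0 ∧
    Phi T (lam 0) (lam 0) (lam 1) (lam 2) z ≠ 0 ∧
    Phi T (lam 0) (lam 1) (lam 1) (lam 1) z ≠ 0 ∧
    Phi T (lam 0) (lam 0) (lam 0) (lam 3) z ≠ 0 ∧
    Matrix.det !![
      Phi T (lam 0) (lam 0) (lam 0) (lam 0) z₁, Phi T (lam 0) (lam 0) (lam 0) (lam 0) z₂,
      Phi T (lam 0) (lam 0) (lam 0) (lam 0) z₃;
      Phi T (lam 0) (lam 0) (lam 0) (lam 2) z₁, Phi T (lam 0) (lam 0) (lam 0) (lam 2) z₂,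
      Phi T (lam 0) (lam 0) (lam 0) (lam 2) z₃;
      Phi T (lam 0) (lam 0) (lam 2) (lam 2) z₁, Phi T (lam 0) (lam 0) (lam 2) (lam 2) z₂,
      Phi T (lam 0) (lam 0) (lam 2) (lam 2) z₃] ≠ 0

end Pool.Agent.Work.PD5
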