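import Mathlib
import Pool.Agent.Work.MP_b62148_ag.Quintic.ConfigQ
import Pool.Agent.Work.MP_b62148_ag.Quintic.FlagQ

/-!
Module A8 of the quintic theorem, round two: a good configuration on a given frame.
-/

namespace Pool.Agent.Work.PD5

universe u v w

open CfgQ in
/-- leading data for a frame give a good configuration on the same frame -/
theorem config_at {k : Type u} [Field k] {σ : Type w} [Fintype σ] {E : Type v} [Field E]
    [CharZero E] [Algebra k E] (T : Ten k σ) (lam : Fin 4 → σ → E) (hI : Iso T lam)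
    (h : LeadAt T lam) : Nonempty (Config T lam) := by
  obtain ⟨z₀, z₁, z₂, z₃, h1, h2, h3, h4, h5, h6, h7, h8, hdet⟩ := h
  obtain ⟨z, L⟩ := lead_of T hI h1 h2 h3 h4 h5 h6 h7 h8
  have e0 : comb lam ![1, 0, 0, 0] = lam 0 := by rw [comb_e]; simp
  have e2 : comb lam ![0, 0, 1, 0] = lam 2 := by rw [comb_e]; simp
  have e3 : comb lam ![0, 0, 0, 1] = lam 3 := by rw [comb_e]; simp
  have ec : ∀ s1 s2 s3 : E, comb lam ![0, s1, s2, s3] =
      s1 • lam 1 + (s2 • lam 2 + s3 • lam 3) := by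
    intro s1 s2 s3; rw [comb_e]; simp
  obtain ⟨τ, D, p, hτ, hD0, hD, hp, hA, hB⟩ := exists_tau (Phi T (lam 0) (lam 0) (lam 1) (lam 2) z)
    (Phi T (lam 0) (lam 1) (lam 1) (lam 1) z) (Phi T (lam 0) (lam 0) (lam 2) z z)
    (Phi T (lam 0) (lam 0) (lam 1) z z) (Phi T (lam 0) (lam 0) z z z)
    (Phi T (lam 0) (lam 1) (lam 1) z z) (Phi T (lam 0) (lam 1) (lam 1) (lam 2) z)
    (Phi T (lam 0) (lam 1) z z z) (Phi T (lam 0) (lam 1) (lam 2) z z)
    (Phi T (lam 0) (lam 1) (lam 2) (lam 2) z) (Phi T (lam 0) z z z z)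
    (Phi T (lam 0) (lam 2) z z z) (Phi T (lam 0) (lam 2) (lam 2) z z)
    (Phi T (lam 0) (lam 2) (lam 2) (lam 2) z) L.be L.ep
  have a1 := u1 L D p τ
  have a2 := u2 L D p τ
  have a3 := u3 L D p τ
  have a4 := u4 L D p τ
  have a5 := u5 L D p τ
  have a6 := u6 L D p τ
  have a7 := u7 L D p τ
  have a8 := u8 L D p τ hD hp
  have a9 := u9 L D p τ
  have a10 := u10 L D p τ
  have a11 := u11 L D p τ
  have a12 := u12 L D p τ
  have a13 := u13 L D p τ
  generalize hu : D • lam 1 + τ • ((-p) • lam 2 + D • z) = u at *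
  have U : UV T (lam 0) u := ⟨L.yyyyy, a1, a5, a8⟩
  have hA' : Phi T (lam 0) u u u u ≠ 0 := by
    rw [a11]; exact mul_ne_zero hτ hA
  have hm2 : Phi T (lam 0) (lam 0) (lam 2) u u ≠ 0 := by
    intro h0
    rw [a10] at h0
    have : D ^ 3 * τ = 0 := by
      have : 3 * (τ * D ^ 2 * (2 * Phi T (lam 0) (lam 0) (lam 1) (lam 2) z +
        τ * Phi T (lam 0) (lam 0) (lam 2) z z)) = 0 := by rw [h0]; ring
      linear_combination this + D ^ 2 * τ * hD
    exact mul_ne_zero (pow_ne_zero _ hD0) hτ this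
  have hdet2 : Phi T (lam 0) (lam 0) (lam 2) u u * Phi T (lam 0) (lam 1) u u u -
      Phi T (lam 0) (lam 0) (lam 1) u u * Phi T (lam 0) (lam 2) u u u ≠ 0 := by
    intro h0
    rw [a9, a10, a12, a13] at h0
    refine mul_ne_zero (pow_ne_zero 2 hτ) hB ?_
    linear_combination 3 * h0 + τ ^ 2 * D ^ 2 * (3 * D ^ 3 * Phi T (lam 0) (lam 1) (lam 1) (lam 1) z +
      τ * (3 * D * (D ^ 2 * Phi T (lam 0) (lam 1) (lam 1) z z -
          2 * p * D * Phi T (lam 0) (lam 1) (lam 1) (lam 2) z) +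
        τ * (D ^ 3 * Phi T (lam 0) (lam 1) z z z - 3 * p * D ^ 2 * Phi T (lam 0) (lam 1) (lam 2) z z +
          3 * p ^ 2 * D * Phi T (lam 0) (lam 1) (lam 2) (lam 2) z))) * hD
  have hc : (5 : E) * Phi T (lam 0) u u u u ≠ 0 := mul_ne_zero (by norm_num) hA'
  have hx6 : Phi T ((-Phi T u u u u u) • lam 0 + (5 * Phi T (lam 0) u u u u) • u)
      ((-Phi T u u u u u) • lam 0 + (5 * Phi T (lam 0) u u u u) • u)
      ((-Phi T u u u u u) • lam 0 + (5 * Phi T (lam 0) u u u u) • u)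
      ((-Phi T u u u u u) • lam 0 + (5 * Phi T (lam 0) u u u u) • u)
      ((-Phi T u u u u u) • lam 0 + (5 * Phi T (lam 0) u u u u) • u) = 0 := by
    rw [x5 U]; ring
  generalize (-Phi T u u u u u) = d at hx6
  generalize (5 : E) * Phi T (lam 0) u u u u = c at hx6 hc
  have X1 := x1 U d c
  have X2 := x2 U d c
  have X3 := x3 U d c
  have X4 := x4 U d c
  have W1b := w1 (T := T) (y := lam 0) (u := u) (lam 1) L.yyyyb d c
  have W1m := w1 (T := T) (y := lam 0) (u := u) (lam 2) L.yyyym d c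
  have W1a := w1 (T := T) (y := lam 0) (u := u) (lam 3) L.yyyya d c
  have W2b := w2 (T := T) (y := lam 0) (u := u) (lam 1) L.yyyyb d c
  have W2m := w2 (T := T) (y := lam 0) (u := u) (lam 2) L.yyyym d c
  have W3b := w3 (T := T) (y := lam 0) (u := u) (lam 1) L.yyyyb d c
  have W3m := w3 (T := T) (y := lam 0) (u := u) (lam 2) L.yyyym d c
  have Wmm : Phi T (lam 0) (lam 0) (lam 2) (lam 2) (d • lam 0 + c • u) = 0 := by
    rw [p1s, Phi_s45 T (lam 0) (lam 0) (lam 2) (lam 2) (lam 0),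
      Phi_s34 T (lam 0) (lam 0) (lam 2) (lam 0) (lam 2), L.yyymm, a6]; ring
  have Wmb : Phi T (lam 0) (lam 0) (lam 2) (lam 1) (d • lam 0 + c • u) =
      c * (τ * D * Phi T (lam 0) (lam 0) (lam 1) (lam 2) z) := by
    rw [p1s, Phi_s45 T (lam 0) (lam 0) (lam 2) (lam 1) (lam 0),
      Phi_s34 T (lam 0) (lam 0) (lam 2) (lam 0) (lam 1),
      Phi_s45 T (lam 0) (lam 0) (lam 0) (lam 2) (lam 1), L.yyybm, a7]; ring
  rw [a2] at W1b W2b W3b
  rw [a3] at W1m W2m W3m
  rw [a4] at W1a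
  generalize hx : d • lam 0 + c • u = x at *
  have hn1 : Phi T (lam 0) (lam 0) (lam 0) (lam 3) x ≠ 0 := by
    rw [W1a]; exact mul_ne_zero hc (mul_ne_zero (mul_ne_zero hτ hD0) L.al)
  have hn2 : Phi T (lam 0) (lam 0) (lam 2) x x ≠ 0 := by
    rw [W2m, mul_zero, zero_add]; exact mul_ne_zero (pow_ne_zero _ hc) hm2
  have hn3 : Phi T (lam 0) x x x x ≠ 0 := by
    rw [X4]; exact mul_ne_zero (pow_ne_zero _ hc) hA'
  have hdx : Phi T (lam 0) (lam 0) (lam 2) x x * Phi T (lam 0) (lam 1) x x x -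
      Phi T (lam 0) (lam 0) (lam 1) x x * Phi T (lam 0) (lam 2) x x x ≠ 0 := by
    intro h0
    rw [W2m, W2b, W3b, W3m] at h0
    refine mul_ne_zero (pow_ne_zero 5 hc) hdet2 ?_
    linear_combination h0
  have hmb : Phi T (lam 0) (lam 0) (lam 2) (lam 1) x ≠ 0 := by
    rw [Wmb]; exact mul_ne_zero hc (mul_ne_zero (mul_ne_zero hτ hD0) L.be)
  exact ⟨{
    sy := ![1, 0, 0, 0]
    sm := ![0, 0, 1, 0]
    sa := ![0, 0, 0, 1]
    z := ![z₁, z₂, z₃]
    x := x
    c1 := by rw [e0]; exact X1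
    c2 := by rw [e0, e2, W1m]; ring
    c3 := by rw [e0]; exact X2
    c4 := by rw [e0, e2]; exact Wmm
    c5 := by rw [e0]; exact X3
    c6 := hx6
    n1 := by rw [e0, e3]; exact hn1
    n2 := by rw [e0, e2]; exact hn2
    n3 := by rw [e0]; exact hn3
    n4 := by
      rw [e0, e2]
      have : mat T (lam 0) (lam 2) ![z₁, z₂, z₃] = !![
          Phi T (lam 0) (lam 0) (lam 0) (lam 0) z₁, Phi T (lam 0) (lam 0) (lam 0) (lam 0) z₂,
          Phi T (lam 0) (lam 0) (lam 0) (lam 0) z₃;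
          Phi T (lam 0) (lam 0) (lam 0) (lam 2) z₁, Phi T (lam 0) (lam 0) (lam 0) (lam 2) z₂,
          Phi T (lam 0) (lam 0) (lam 0) (lam 2) z₃;
          Phi T (lam 0) (lam 0) (lam 2) (lam 2) z₁, Phi T (lam 0) (lam 0) (lam 2) (lam 2) z₂,
          Phi T (lam 0) (lam 0) (lam 2) (lam 2) z₃] := by
        ext i j
        fin_cases i <;> fin_cases j <;> simp [mat]
      rw [this]; exact hdet
    t1 := by
      intro r₁ r₂ r₃
      obtain ⟨s1, s2, s3, q1, q2, q3⟩ := solve3 (Phi T (lam 0) (lam 0) (lam 0) (lam 3) x)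
        (Phi T (lam 0) (lam 0) (lam 1) x x) (Phi T (lam 0) (lam 0) (lam 2) x x)
        (Phi T (lam 0) (lam 0) (lam 3) x x) (Phi T (lam 0) (lam 1) x x x)
        (Phi T (lam 0) (lam 2) x x x) (Phi T (lam 0) (lam 3) x x x) hn1 hdx r₁ r₂ r₃
      refine ⟨![0, s1, s2, s3], ?_, ?_, ?_⟩
      · rw [e0, ec]
        simp only [Phi_add4, Phi_smul4]
        rw [W1b, W1m]; linear_combination q1
      · rw [e0, ec]
        simp only [Phi_add3, Phi_smul3]
        linear_combination q2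
      · rw [e0, ec]
        simp only [Phi_add2, Phi_smul2]
        linear_combination q3
    t2 := by
      intro r₁ r₂
      obtain ⟨s3, hs3⟩ : ∃ s3 : E, s3 * Phi T (lam 0) (lam 0) (lam 0) (lam 3) x = r₁ :=
        ⟨r₁ / _, div_mul_cancel₀ _ hn1⟩
      obtain ⟨s1, hs1⟩ : ∃ s1 : E, s1 * Phi T (lam 0) (lam 0) (lam 2) (lam 1) x =
          r₂ - s3 * Phi T (lam 0) (lam 0) (lam 2) (lam 3) x :=
        ⟨_ / _, div_mul_cancel₀ _ hmb⟩
      refine ⟨![0, s1, 0, s3], ?_, ?_⟩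
      · rw [e0, ec]
        simp only [Phi_add4, Phi_smul4]
        rw [W1b, W1m]; linear_combination hs3
      · rw [e0, e2, ec]
        simp only [Phi_add4, Phi_smul4]
        rw [Wmm]; linear_combination hs1 }⟩

end Pool.Agent.Work.PD5
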