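import Mathlib

/-!
Module M3 of the quintic theorem: dominance of a polynomial parametrisation of a hypersurface from
the surjectivity of its differential at one point.
-/

namespace Pool.Agent.Work.PD5

open MvPolynomial

namespace DQ

/-- chain rule -/
theorem pderiv_aeval {σ τ L : Type*} [Fintype σ] [CommRing L] (P : σ → MvPolynomial τ L)
    (H : MvPolynomial σ L) (l : τ) :
    pderiv l (aeval P H) = ∑ j, aeval P (pderiv j H) * pderiv l (P j) := by
  classical
  induction H using MvPolynomial.induction_on with
  | C a => simp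
  | add p q hp hq =>
    simp only [map_add, hp, hq, add_mul, Finset.sum_add_distrib]
  | mul_X p i hp =>
    simp only [map_mul, aeval_X, pderiv_mul, hp, map_add, pderiv_X, Pi.single_apply]
    simp only [add_mul, Finset.sum_add_distrib]
    congr 1
    · rw [Finset.sum_mul]
      refine Finset.sum_congr rfl fun j _ => ?_
      ring
    · rw [Finset.sum_eq_single i]
      · simp
      · intro j _ hj
        simp [Ne.symm hj]
      · simp

/-- in characteristic zero a polynomial all of whose derivatives vanish is constant -/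
theorem eq_C_of_pderiv {σ L : Type*} [Field L] [CharZero L] (H : MvPolynomial σ L)
    (h : ∀ j, pderiv j H = 0) : H = C (coeff 0 H) := by
  classical
  ext m
  rw [coeff_C]
  split_ifs with hm
  · rw [← hm]
  · have hm' : m ≠ 0 := fun h0 => hm h0.symm
    obtain ⟨j, hj⟩ : ∃ j, m j ≠ 0 := by
      by_contra hcon
      push Not at hcon
      exact hm' (Finsupp.ext hcon)
    have h1 := congrArg (coeff (m - Finsupp.single j 1)) (h j)
    rw [coeff_pderiv, coeff_zero] at h1
    have h2 : m - Finsupp.single j 1 + Finsupp.single j 1 = m := by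
      refine tsub_add_cancel_of_le ?_
      rw [Finsupp.single_le_iff]
      omega
    rw [h2] at h1
    rcases mul_eq_zero.mp h1 with h3 | h3
    · exact h3
    · exfalso
      exact Nat.cast_add_one_ne_zero _ h3

theorem totalDegree_pderiv_le {σ L : Type*} [Field L] (H : MvPolynomial σ L) (j : σ) (n : ℕ)
    (hn : totalDegree H ≤ n + 1) : totalDegree (pderiv j H) ≤ n := by
  classical
  unfold totalDegree
  refine Finset.sup_le fun m hm => ?_
  rw [mem_support_iff, coeff_pderiv] at hm
  have h1 : coeff (m + Finsupp.single j 1) H ≠ 0 := fun h0 => hm (by rw [h0, zero_mul])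
  have h2 := le_totalDegree (mem_support_iff.mpr h1)
  have h3 : ((m + Finsupp.single j 1).sum fun _ e => e) = (m.sum fun _ e => e) + 1 := by
    rw [Finsupp.sum_add_index' (fun _ => rfl) (fun _ _ _ => rfl), Finsupp.sum_single_index rfl]
  omega

/-- left kernel of the generic Jacobian matrix -/
theorem jac {ι τ L E : Type*} [Fintype ι] [Field L] [Field E] [Algebra L E] [Fintype τ]
    (P : ι → MvPolynomial τ L) (t₀ : τ → E)
    (htan : ∀ h : ι → E, ∃ t' : τ → E, ∀ j, ∑ l, aeval t₀ (pderiv l (P j)) * t' l = h j)
    (v : ι → MvPolynomial τ L) (hv : ∀ l, ∑ j, v j * pderiv l (P j) = 0) : v = 0 := by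
  classical
  choose S hS using fun k : ι => htan (Pi.single k 1)
  let φ : MvPolynomial τ L →+* MvPolynomial τ E := map (algebraMap L E)
  let M : Matrix ι ι (MvPolynomial τ E) :=
    Matrix.of fun j k => ∑ l, φ (pderiv l (P j)) * C (S k l)
  have hdet : M.det ≠ 0 := by
    intro h0
    have h1 := congrArg (eval t₀) h0
    rw [RingHom.map_det, map_zero] at h1
    have h2 : (eval t₀).mapMatrix M = 1 := by
      ext j k
      show (eval t₀) (∑ l, φ (pderiv l (P j)) * C (S k l)) = (1 : Matrix ι ι E) j k
      rw [map_sum, Matrix.one_apply]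
      have h3 := hS k j
      rw [Pi.single_apply] at h3
      rw [← h3]
      refine Finset.sum_congr rfl fun l _ => ?_
      rw [map_mul, eval_C, eval_map, aeval_def]
    rw [h2, Matrix.det_one] at h1
    exact one_ne_zero h1
  have hvM : Matrix.vecMul (fun j => φ (v j)) M = 0 := by
    funext k
    simp only [Matrix.vecMul, dotProduct, Pi.zero_apply, M, Matrix.of_apply]
    simp only [Finset.mul_sum]
    rw [Finset.sum_comm]
    refine Finset.sum_eq_zero fun l _ => ?_
    have h4 : ∑ j, φ (v j) * (φ (pderiv l (P j)) * C (S k l)) =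
        φ (∑ j, v j * pderiv l (P j)) * C (S k l) := by
      rw [map_sum, Finset.sum_mul]
      refine Finset.sum_congr rfl fun j _ => ?_
      rw [map_mul]; ring
    rw [h4, hv l, map_zero, zero_mul]
  have h5 := Matrix.eq_zero_of_vecMul_eq_zero hdet hvM
  funext j
  have h6 := congrFun h5 j
  exact map_injective _ (algebraMap L E).injective (by simpa using h6)

/-- algebraic independence from the Jacobian criterion -/
theorem alg_indep {ι τ L E : Type*} [Fintype ι] [Field L] [CharZero L] [Field E] [Algebra L E]
    [Fintype τ] (P : ι → MvPolynomial τ L) (t₀ : τ → E)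
    (htan : ∀ h : ι → E, ∃ t' : τ → E, ∀ j, ∑ l, aeval t₀ (pderiv l (P j)) * t' l = h j) :
    ∀ (n : ℕ) (H : MvPolynomial ι L), totalDegree H ≤ n → aeval P H = 0 → H = 0 := by
  intro n
  induction n with
  | zero =>
    intro H hH hP
    have h1 : H = C (coeff 0 H) := totalDegree_eq_zero_iff_eq_C.mp (Nat.le_zero.mp hH)
    rw [h1] at hP ⊢
    rw [aeval_C, algebraMap_eq, C_eq_zero] at hP
    rw [hP, C_0]
  | succ n ih =>
    intro H hH hP
    have h1 : (fun j => aeval P (pderiv j H)) = 0 := by
      refine jac P t₀ htan _ fun l => ?_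
      rw [← pderiv_aeval, hP, map_zero]
    have h2 : ∀ j, pderiv j H = 0 := fun j =>
      ih _ (totalDegree_pderiv_le H j n hH) (congrFun h1 j)
    have h3 := eq_C_of_pderiv H h2
    rw [h3] at hP ⊢
    rw [aeval_C, algebraMap_eq, C_eq_zero] at hP
    rw [hP, C_0]

end DQ

/-- dominance of a polynomial parametrisation of a hypersurface, from surjectivity of the
differential at one point (over an extension) -/
theorem density {L E : Type*} [Field L] [CharZero L] [Field E] [Algebra L E] {σ τ : Type*}
    [Fintype σ] [Fintype τ]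
    (F : MvPolynomial σ L) (hirr : Irreducible F) (P : σ → MvPolynomial τ L)
    (hP : aeval P F = 0) (t₀ : τ → E)
    (hsm : ∃ i, aeval (fun j => aeval t₀ (P j)) (pderiv i F) ≠ 0)
    (htan : ∀ h : σ → E, ∑ j, aeval (fun j => aeval t₀ (P j)) (pderiv j F) * h j = 0 →
      ∃ t' : τ → E, ∀ j, ∑ l, aeval t₀ (pderiv l (P j)) * t' l = h j) :
    ∀ G : MvPolynomial σ L, aeval P G = 0 → F ∣ G := by
  classical
  intro G hG
  obtain ⟨i, hi⟩ := hsm
  -- the coordinates different from `i`
  let ι := {j : σ // j ≠ i}
  have htan' : ∀ h : ι → E, ∃ t' : τ → E, ∀ j : ι,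
      ∑ l, aeval t₀ (pderiv l (P j)) * t' l = h j := by
    intro h
    set A : σ → E := fun j => aeval (fun j => aeval t₀ (P j)) (pderiv j F) with hA
    let h0 : σ → E := fun j => if hj : j ≠ i then h ⟨j, hj⟩ else 0
    let h1 : σ → E := fun j => if hj : j ≠ i then h ⟨j, hj⟩ else - (∑ k, A k * h0 k) / A i
    have h2 : ∑ j, A j * h1 j = 0 := by
      have h3 : ∀ j, A j * h1 j = A j * h0 j + if j = i then - (∑ k, A k * h0 k) else 0 := by
        intro j
        by_cases hj : j = i
        · subst hj
          have h4 : A j ≠ 0 := hi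
          simp only [h1, h0, ne_eq, not_true_eq_false, dite_false, if_true, mul_zero, zero_add]
          field_simp
        · simp only [h1, h0, ne_eq, hj, not_false_eq_true, dite_true, if_false, add_zero]
      rw [Finset.sum_congr rfl fun j _ => h3 j, Finset.sum_add_distrib,
        Finset.sum_ite_eq' Finset.univ i]
      simp
    obtain ⟨t', ht'⟩ := htan h1 h2
    refine ⟨t', fun j => ?_⟩
    rw [ht' j]
    simp only [h1]
    rw [dif_pos j.2]
  have hind : ∀ H : MvPolynomial ι L, aeval (fun j : ι => P j) H = 0 → H = 0 := fun H hH =>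
    DQ.alg_indep (fun j : ι => P j) t₀ htan' _ H le_rfl hH
  -- single out the variable `i`
  let e : MvPolynomial σ L ≃ₐ[L] Polynomial (MvPolynomial ι L) :=
    (renameEquiv L (Equiv.optionSubtypeNe i).symm).trans (optionEquivLeft L ι)
  let R := MvPolynomial ι L
  let Ω := FractionRing (MvPolynomial τ L)
  let K := FractionRing R
  let ψ : R →+* MvPolynomial τ L := (aeval (fun j : ι => P j) : R →ₐ[L] _).toRingHom
  have hψ : Function.Injective ((algebraMap (MvPolynomial τ L) Ω).comp ψ) := by
    rw [RingHom.coe_comp]
    refine Function.Injective.comp (IsFractionRing.injective _ _) ?_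
    rw [injective_iff_map_eq_zero]
    exact hind
  let Ψ : K →+* Ω := IsFractionRing.lift hψ
  have hΨ : ∀ r : R, Ψ (algebraMap R K r) = algebraMap _ Ω (ψ r) := fun r => by
    exact IsFractionRing.lift_algebraMap hψ r
  -- evaluation
  have hev : ∀ Q : MvPolynomial σ L, Polynomial.eval₂ Ψ (algebraMap _ Ω (P i))
      ((e Q).map (algebraMap R K)) = algebraMap _ Ω (aeval P Q) := by
    intro Q
    rw [Polynomial.eval₂_map]
    induction Q using MvPolynomial.induction_on with
    | C a =>
      have h1 : e (C a) = Polynomial.C (C a) := by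
        simp [e]
      rw [h1, Polynomial.eval₂_C]
      show Ψ (algebraMap R K (C a)) = _
      rw [hΨ]
      show algebraMap _ Ω (aeval (fun j : ι => P j) (C a)) = _
      rw [aeval_C, aeval_C]
    | add p q hp hq => simp only [map_add, Polynomial.eval₂_add, hp, hq]
    | mul_X p j hp =>
      rw [map_mul, Polynomial.eval₂_mul, hp, map_mul, map_mul, aeval_X]
      congr 1
      by_cases hj : j = i
      · subst hj
        have h1 : e (X j) = Polynomial.X := by
          simp [e]
        rw [h1, Polynomial.eval₂_X]
      · have h1 : e (X j) = Polynomial.C (X ⟨j, hj⟩) := by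
          simp [e, Equiv.optionSubtypeNe_symm_of_ne hj]
        rw [h1, Polynomial.eval₂_C]
        show Ψ (algebraMap R K (X ⟨j, hj⟩)) = _
        rw [hΨ]
        show algebraMap _ Ω (aeval (fun j : ι => P j) (X ⟨j, hj⟩)) = _
        rw [aeval_X]
  -- `F` really involves the variable `i`
  have hdeg : (e F).natDegree ≠ 0 := by
    intro h0
    have h1 : e F = Polynomial.C ((e F).coeff 0) := Polynomial.eq_C_of_natDegree_eq_zero h0
    have h2 : F = rename (Subtype.val : ι → σ) ((e F).coeff 0) := by
      apply e.injective
      have h3 : ∀ r : R, e (rename (Subtype.val : ι → σ) r) = Polynomial.C r := by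
        intro r
        induction r using MvPolynomial.induction_on with
        | C a => simp [e]
        | add p q hp hq => simp only [map_add, hp, hq]
        | mul_X p j hp =>
          rw [map_mul, map_mul, hp, rename_X, map_mul]
          congr 1
          simp [e, Equiv.optionSubtypeNe_symm_of_ne j.2]
      rw [h3]
      exact h1
    apply hi
    have h4 : pderiv i F = 0 := by
      rw [h2]
      apply pderiv_eq_zero_of_notMem_vars
      intro h5
      have h6 := vars_rename (Subtype.val : ι → σ) ((e F).coeff 0) h5
      rw [Finset.mem_image] at h6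
      obtain ⟨j, -, hj⟩ := h6
      exact j.2 hj
    rw [h4, map_zero]
  have hirr' : Irreducible (e F) := (MulEquiv.irreducible_iff e.toMulEquiv).mpr hirr
  have hprim : (e F).IsPrimitive := hirr'.isPrimitive hdeg
  have hirrK : Irreducible ((e F).map (algebraMap R K)) :=
    hprim.irreducible_iff_irreducible_map_fraction_map.mp hirr'
  by_contra hndvd
  have hnd : ¬ ((e F).map (algebraMap R K) ∣ (e G).map (algebraMap R K)) := by
    intro h0
    apply hndvd
    have h1 : e F ∣ e G := hprim.dvd_of_fraction_map_dvd_fraction_map h0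
    exact (map_dvd_iff e).mp h1
  have hcop : IsCoprime ((e F).map (algebraMap R K)) ((e G).map (algebraMap R K)) :=
    (hirrK.coprime_iff_not_dvd).mpr hnd
  obtain ⟨a, b, hab⟩ := hcop
  have h7 := congrArg (Polynomial.eval₂ Ψ (algebraMap _ Ω (P i))) hab
  rw [Polynomial.eval₂_add, Polynomial.eval₂_mul, Polynomial.eval₂_mul, hev, hev, hP, hG,
    map_zero, mul_zero, mul_zero, add_zero, Polynomial.eval₂_one] at h7
  exact zero_ne_one h7

end Pool.Agent.Work.PD5
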