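import Mathlib
import Pool.Agent.Work.MP_b62148_ag.Quintic.ParamQ

/-!
Fixed points `a = X * H(a)` of polynomial maps over power series, and the deformation of a
three-space.
-/

namespace Pool.Agent.Work.PD5

open MvPolynomial

section Fixed

variable {E : Type*} [CommRing E] {ι : Type*}

theorem dvd_aeval_sub {R : Type*} [CommRing R] [Algebra E R] (p : MvPolynomial ι E) (d : R)
    (a b : ι → R) (h : ∀ i, d ∣ a i - b i) : d ∣ aeval a p - aeval b p := by
  have h1 : Ideal.Quotient.mk (Ideal.span {d}) (aeval a p) =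
      Ideal.Quotient.mk (Ideal.span {d}) (aeval b p) := by
    have h2 : ∀ c : ι → R, Ideal.Quotient.mk (Ideal.span {d}) (aeval c p) =
        aeval (fun i => Ideal.Quotient.mk (Ideal.span {d}) (c i)) p := by
      intro c
      exact (aeval_algebraMap_apply (R ⧸ Ideal.span {d}) c p).symm
    rw [h2, h2]
    congr 2
    funext i
    rw [Ideal.Quotient.eq, Ideal.mem_span_singleton]
    exact h i
  rwa [Ideal.Quotient.eq, Ideal.mem_span_singleton] at h1

/-- the approximations -/
noncomputable def approx (H : ι → MvPolynomial ι E) : ℕ → ι → PowerSeries E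
  | 0 => fun _ => 0
  | n + 1 => fun i => PowerSeries.X * aeval (approx H n) (H i)

theorem approx_dvd (H : ι → MvPolynomial ι E) (n : ℕ) (i : ι) :
    (PowerSeries.X : PowerSeries E) ^ (n + 1) ∣ approx H (n + 1) i - approx H n i := by
  induction n generalizing i with
  | zero =>
    simp only [approx, sub_zero, zero_add, pow_one]
    exact dvd_mul_right _ _
  | succ n ih =>
    have h1 : approx H (n + 1 + 1) i - approx H (n + 1) i =
        PowerSeries.X * (aeval (approx H (n + 1)) (H i) - aeval (approx H n) (H i)) := by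
      simp only [approx]
      ring
    rw [h1, pow_succ' _ (n + 1)]
    exact mul_dvd_mul_left _ (dvd_aeval_sub _ _ _ _ ih)

/-- the limit -/
noncomputable def fixpt (H : ι → MvPolynomial ι E) (i : ι) : PowerSeries E :=
  PowerSeries.mk fun n => PowerSeries.coeff n (approx H (n + 1) i)

theorem fixpt_dvd (H : ι → MvPolynomial ι E) (n : ℕ) (i : ι) :
    (PowerSeries.X : PowerSeries E) ^ n ∣ fixpt H i - approx H n i := by
  rw [PowerSeries.X_pow_dvd_iff]
  intro m hm
  rw [map_sub, fixpt, PowerSeries.coeff_mk, sub_eq_zero]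
  -- coefficients of index `m` are constant from `m + 1` on
  have key : ∀ l, PowerSeries.coeff m (approx H (m + 1 + l) i) =
      PowerSeries.coeff m (approx H (m + 1) i) := by
    intro l
    induction l with
    | zero => rfl
    | succ l ih =>
      rw [← ih]
      have h1 := approx_dvd H (m + 1 + l) i
      rw [PowerSeries.X_pow_dvd_iff] at h1
      have h2 := h1 m (by omega)
      rw [map_sub, sub_eq_zero] at h2
      exact h2
  obtain ⟨l, rfl⟩ := Nat.exists_eq_add_of_le hm
  have h3 := key l
  rw [← h3]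

theorem exists_fixed (H : ι → MvPolynomial ι E) :
    ∃ a : ι → PowerSeries E, ∀ i, a i = PowerSeries.X * aeval a (H i) := by
  refine ⟨fixpt H, fun i => ?_⟩
  have h : ∀ n, (PowerSeries.X : PowerSeries E) ^ n ∣
      fixpt H i - PowerSeries.X * aeval (fixpt H) (H i) := by
    intro n
    have h1 := fixpt_dvd H (n + 1) i
    have h2 : (PowerSeries.X : PowerSeries E) ^ (n + 1) ∣
        approx H (n + 1) i - PowerSeries.X * aeval (fixpt H) (H i) := by
      have h3 : approx H (n + 1) i - PowerSeries.X * aeval (fixpt H) (H i) =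
          PowerSeries.X * (aeval (approx H n) (H i) - aeval (fixpt H) (H i)) := by
        simp only [approx]
        ring
      rw [h3, pow_succ']
      refine mul_dvd_mul_left _ (dvd_aeval_sub _ _ _ _ fun j => ?_)
      have := fixpt_dvd H n j
      rw [← dvd_neg, neg_sub]
      exact this
    have h3 := dvd_add h1 h2
    rw [sub_add_sub_cancel] at h3
    exact (pow_dvd_pow _ (Nat.le_succ n)).trans h3
  have h0 : fixpt H i - PowerSeries.X * aeval (fixpt H) (H i) = 0 := by
    ext n
    have := h (n + 1)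
    rw [PowerSeries.X_pow_dvd_iff] at this
    rw [this n (Nat.lt_succ_self n), map_zero]
  exact sub_eq_zero.mp h0

end Fixed

section Deform

set_option linter.unusedSectionVars false

variable {k : Type*} [Field k] {σ : Type*} [Fintype σ]
variable {E : Type*} [Field E] [Algebra k E] {J : Type*} [Fintype J]

/-- the four vectors of the graph of `A` -/
noncomputable def uvec (b : Fin 4 ⊕ J → σ → E) {R : Type*} [CommRing R] [Algebra E R]
    (A : J → Fin 3 → R) (i : Fin 4) : σ → R := fun t =>
  algebraMap E R (b (Sum.inl i) t) +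
    Fin.cases (motive := fun _ => R) 0 (fun i' => ∑ j, A j i' * algebraMap E R (b (Sum.inr j) t)) i

/-- the universal vector on the graph of `A` -/
noncomputable def svec (b : Fin 4 ⊕ J → σ → E) {R : Type*} [CommRing R] [Algebra E R]
    (A : J → Fin 3 → R) : σ → MvPolynomial (Fin 4) R := fun t =>
  ∑ i, X i * C (uvec b A i t)

/-- the restriction of the quintic to the graph -/
noncomputable def PA (T : Ten k σ) (b : Fin 4 ⊕ J → σ → E) {R : Type*} [CommRing R] [Algebra E R]
    [Algebra k R] (A : J → Fin 3 → R) : MvPolynomial (Fin 4) R :=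
  Phi T (svec b A) (svec b A) (svec b A) (svec b A) (svec b A)

theorem svec_homog (b : Fin 4 ⊕ J → σ → E) {R : Type*} [CommRing R] [Algebra E R]
    (A : J → Fin 3 → R) (t : σ) : (svec b A t).IsHomogeneous 1 := by
  unfold svec
  refine IsHomogeneous.sum _ _ _ fun i _ => ?_
  exact (isHomogeneous_X R i).mul (isHomogeneous_C _ _)

theorem PA_homog (T : Ten k σ) (b : Fin 4 ⊕ J → σ → E) {R : Type*} [CommRing R] [Algebra E R]
    [Algebra k R] (A : J → Fin 3 → R) : (PA T b A).IsHomogeneous 5 := by
  unfold PA Phi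
  refine IsHomogeneous.sum _ _ _ fun i _ => IsHomogeneous.sum _ _ _ fun j _ =>
    IsHomogeneous.sum _ _ _ fun l _ => IsHomogeneous.sum _ _ _ fun m _ =>
    IsHomogeneous.sum _ _ _ fun n _ => ?_
  have h := (((svec_homog b A i).mul (svec_homog b A j)).mul (svec_homog b A l)).mul
    (svec_homog b A m) |>.mul (svec_homog b A n)
  have h2 : (algebraMap k (MvPolynomial (Fin 4) R) (T.a i j l m n)).IsHomogeneous 0 := by
    rw [MvPolynomial.algebraMap_apply]
    exact isHomogeneous_C _ _
  exact h2.mul h

theorem uvec_map (b : Fin 4 ⊕ J → σ → E) {R S : Type*} [CommRing R] [Algebra E R] [CommRing S]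
    [Algebra E S] (g : R →ₐ[E] S) (A : J → Fin 3 → R) (i : Fin 4) (t : σ) :
    g (uvec b A i t) = uvec b (fun j i => g (A j i)) i t := by
  unfold uvec
  rw [map_add, AlgHom.commutes]
  congr 1
  refine Fin.cases ?_ (fun i' => ?_) i
  · simp
  · simp [map_sum, map_mul, AlgHom.commutes]

theorem PA_map (T : Ten k σ) (b : Fin 4 ⊕ J → σ → E) {R S : Type*} [CommRing R] [Algebra E R]
    [Algebra k R] [CommRing S] [Algebra E S] [Algebra k S] [IsScalarTower k E R]
    [IsScalarTower k E S] (g : R →ₐ[E] S) (A : J → Fin 3 → R) :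
    map (g : R →+* S) (PA T b A) = PA T b (fun j i => g (A j i)) := by
  have h := map_Phi T (mapAlgHom (σ := Fin 4) (g.restrictScalars k)) (svec b A) (svec b A)
    (svec b A) (svec b A) (svec b A)
  have hs : (fun t => mapAlgHom (σ := Fin 4) (g.restrictScalars k) (svec b A t)) =
      svec b (fun j i => g (A j i)) := by
    funext t
    unfold svec
    rw [map_sum]
    refine Finset.sum_congr rfl fun i _ => ?_
    rw [map_mul, ← uvec_map]
    simp [mapAlgHom_apply]
  rw [hs] at h
  exact h

theorem PA_coeff (T : Ten k σ) (b : Fin 4 ⊕ J → σ → E)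
    (hp : Phi T (b (Sum.inl 0)) (b (Sum.inl 0)) (b (Sum.inl 0)) (b (Sum.inl 0)) (b (Sum.inl 0)) = 0)
    {R : Type*} [CommRing R] [Algebra E R] [Algebra k R] [IsScalarTower k E R]
    (A : J → Fin 3 → R) : coeff (Finsupp.single 0 5) (PA T b A) = 0 := by
  classical
  -- evaluation at the first unit vector
  have h1 : eval (Pi.single 0 1 : Fin 4 → R) (PA T b A) = 0 := by
    have h := map_Phi T ((aeval (Pi.single 0 1 : Fin 4 → R) :
      MvPolynomial (Fin 4) R →ₐ[R] R).restrictScalars k) (svec b A) (svec b A) (svec b A)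
      (svec b A) (svec b A)
    have hs : (fun t => ((aeval (Pi.single 0 1 : Fin 4 → R) :
        MvPolynomial (Fin 4) R →ₐ[R] R).restrictScalars k) (svec b A t)) =
        fun t => algebraMap E R (b (Sum.inl 0) t) := by
      funext t
      show aeval (Pi.single 0 1 : Fin 4 → R) (svec b A t) = _
      unfold svec
      rw [map_sum, Finset.sum_eq_single 0]
      · simp [uvec]
      · intro i _ hi
        rw [map_mul, aeval_X, Pi.single_eq_of_ne hi, zero_mul]
      · intro h0
        exact absurd (Finset.mem_univ _) h0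
    rw [hs] at h
    have h2 := map_Phi T (IsScalarTower.toAlgHom k E R) (b (Sum.inl 0)) (b (Sum.inl 0))
      (b (Sum.inl 0)) (b (Sum.inl 0)) (b (Sum.inl 0))
    rw [hp, map_zero] at h2
    have h3 : ∀ x : E, (IsScalarTower.toAlgHom k E R) x = algebraMap E R x := fun _ => rfl
    simp only [h3] at h2
    rw [← h2] at h
    exact h
  rw [← h1, eval_eq']
  symm
  rw [Finset.sum_eq_single (Finsupp.single 0 5)]
  · rw [Finset.prod_eq_one, mul_one]
    intro i _
    by_cases hi : i = 0
    · subst hi; simp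
    · rw [Finsupp.single_eq_of_ne (by simpa using hi), pow_zero]
  · intro d hd hne
    have hdeg := (PA_homog T b A) (mem_support_iff.mp hd)
    obtain ⟨i, hi0, hi⟩ : ∃ i : Fin 4, i ≠ 0 ∧ d i ≠ 0 := by
      by_contra hcon
      push Not at hcon
      apply hne
      have hd0 : d = Finsupp.single 0 (d 0) := by
        ext i
        by_cases hi : i = 0
        · subst hi; simp
        · rw [hcon i hi, Finsupp.single_eq_of_ne (by simpa using hi)]
      have : d 0 = 5 := by
        rw [hd0] at hdeg
        simpa [Finsupp.weight_single] using hdeg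
      rw [hd0, this]
    rw [Finset.prod_eq_zero (Finset.mem_univ i), mul_zero]
    rw [Pi.single_eq_of_ne hi0, zero_pow hi]
  · intro h0
    rw [notMem_support_iff.mp h0, zero_mul]

theorem peel_sum {R : Type*} [CommRing R] [Algebra E R] (P : MvPolynomial (Fin 4) R)
    (g : J → MvPolynomial (Fin 4) E) (S : (Fin 4 →₀ ℕ) → J → Fin 3 → E)
    (hS : ∀ d ∈ P.support, ∑ j, (∑ i, C (S d j i) * X i.succ) * g j = monomial d 1) :
    P + ∑ j, (∑ i : Fin 3, C (- ∑ d ∈ P.support, coeff d P * algebraMap E R (S d j i)) * X i.succ) *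
      map (algebraMap E R) (g j) = 0 := by
  have h1 : P = ∑ d ∈ P.support, C (coeff d P) *
      map (algebraMap E R) (∑ j, (∑ i, C (S d j i) * X i.succ) * g j) := by
    conv_lhs => rw [P.as_sum]
    refine Finset.sum_congr rfl fun d hd => ?_
    rw [hS d hd, map_monomial, map_one, C_mul_monomial, mul_one]
  let f : (Fin 4 →₀ ℕ) → J → Fin 3 → MvPolynomial (Fin 4) R := fun d j i =>
    C (coeff d P) * C (algebraMap E R (S d j i)) * X i.succ * map (algebraMap E R) (g j)
  have hL : ∀ j, (∑ i : Fin 3, C (- ∑ d ∈ P.support, coeff d P * algebraMap E R (S d j i)) *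
      X i.succ) * map (algebraMap E R) (g j) = - ∑ i, ∑ d ∈ P.support, f d j i := by
    intro j
    rw [Finset.sum_mul, ← Finset.sum_neg_distrib]
    refine Finset.sum_congr rfl fun i _ => ?_
    rw [map_neg, neg_mul, neg_mul, map_sum, Finset.sum_mul, Finset.sum_mul]
    refine congrArg Neg.neg (Finset.sum_congr rfl fun d _ => ?_)
    rw [map_mul]
  have hR : ∀ d, C (coeff d P) *
      map (algebraMap E R) (∑ j, (∑ i, C (S d j i) * X i.succ) * g j) = ∑ j, ∑ i, f d j i := by
    intro d
    rw [map_sum, Finset.mul_sum]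
    refine Finset.sum_congr rfl fun j _ => ?_
    rw [map_mul, map_sum, Finset.sum_mul, Finset.mul_sum]
    refine Finset.sum_congr rfl fun i _ => ?_
    rw [map_mul, map_C, map_X]
    simp only [f]
    ring
  have h2 : ∑ j, (∑ i : Fin 3, C (- ∑ d ∈ P.support, coeff d P * algebraMap E R (S d j i)) *
      X i.succ) * map (algebraMap E R) (g j) =
      - ∑ d ∈ P.support, C (coeff d P) *
      map (algebraMap E R) (∑ j, (∑ i, C (S d j i) * X i.succ) * g j) := by
    rw [Finset.sum_congr rfl fun j _ => hL j, Finset.sum_congr rfl fun d _ => hR d,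
      Finset.sum_neg_distrib]
    congr 1
    rw [Finset.sum_congr rfl fun j _ => Finset.sum_comm, Finset.sum_comm]
  rw [h2, ← h1]
  ring

theorem push_sum {R S : Type*} [CommRing R] [Algebra E R] [CommRing S] [Algebra E S]
    (φ : R →ₐ[E] S) (g : J → MvPolynomial (Fin 4) E) (H : J → Fin 3 → R) (x : S) :
    C x * map (φ : R →+* S) (∑ j, (∑ i : Fin 3, C (H j i) * X i.succ) * map (algebraMap E R) (g j)) =
      ∑ j, (∑ i : Fin 3, C (x * φ (H j i)) * X i.succ) * map (algebraMap E S) (g j) := by
  rw [map_sum, Finset.mul_sum]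
  refine Finset.sum_congr rfl fun j _ => ?_
  have e1 : map (φ : R →+* S) (map (algebraMap E R) (g j)) = map (algebraMap E S) (g j) := by
    rw [map_map, AlgHom.comp_algebraMap]
  rw [map_mul, e1, ← mul_assoc]
  congr 1
  rw [map_sum, Finset.mul_sum]
  refine Finset.sum_congr rfl fun i _ => ?_
  rw [map_mul, map_C, map_X, map_mul, mul_assoc]
  rfl

/-- the deformation: over the power series the quintic `X * G + Σ x_j g_j` vanishes on a graph -/
theorem exists_graph (T : Ten k σ) (b : Fin 4 ⊕ J → σ → E)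
    (hp : Phi T (b (Sum.inl 0)) (b (Sum.inl 0)) (b (Sum.inl 0)) (b (Sum.inl 0)) (b (Sum.inl 0)) = 0)
    (g : J → MvPolynomial (Fin 4) E)
    (hpeel : ∀ d : Fin 4 →₀ ℕ, d.degree = 5 → d ≠ Finsupp.single 0 5 →
      ∃ A : J → Fin 3 → E, ∑ j, (∑ i, C (A j i) * X i.succ) * g j = monomial d 1) :
    ∃ A : J → Fin 3 → PowerSeries E,
      C PowerSeries.X * PA T b A +
        ∑ j, (∑ i : Fin 3, C (A j i) * X i.succ) * map (algebraMap E (PowerSeries E)) (g j) = 0 := by
  classical
  obtain ⟨A₀, hA₀⟩ : ∃ A₀ : J → Fin 3 → MvPolynomial (J × Fin 3) E, A₀ = fun j i => X (j, i) :=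
    ⟨_, rfl⟩
  obtain ⟨P, hP⟩ : ∃ P : MvPolynomial (Fin 4) (MvPolynomial (J × Fin 3) E), P = PA T b A₀ :=
    ⟨_, rfl⟩
  have hS : ∀ d : Fin 4 →₀ ℕ, ∃ A : J → Fin 3 → E, (d ∈ P.support →
      ∑ j, (∑ i, C (A j i) * X i.succ) * g j = monomial d 1) := by
    intro d
    by_cases hd : d ∈ P.support
    · rw [hP] at hd
      have h1 : d.degree = 5 := by
        have := (PA_homog T b A₀) (mem_support_iff.mp hd)
        rw [Finsupp.degree_eq_weight_one]
        exact this
      have h2 : d ≠ Finsupp.single 0 5 := by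
        rintro rfl
        exact (mem_support_iff.mp hd) (PA_coeff T b hp A₀)
      obtain ⟨A, hA⟩ := hpeel d h1 h2
      exact ⟨A, fun _ => hA⟩
    · exact ⟨fun _ _ => 0, fun h => absurd h hd⟩
  choose S hS using hS
  have hmain := peel_sum P g S hS
  obtain ⟨H, hH⟩ : ∃ H : J → Fin 3 → MvPolynomial (J × Fin 3) E, ∀ j i,
    H j i = - ∑ d ∈ P.support, coeff d P * algebraMap E _ (S d j i) := ⟨_, fun _ _ => rfl⟩
  simp only [← hH] at hmain
  obtain ⟨a, ha⟩ := exists_fixed fun p : J × Fin 3 => H p.1 p.2
  refine ⟨fun j i => a (j, i), ?_⟩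
  obtain ⟨φ, hφ⟩ : ∃ φ : MvPolynomial (J × Fin 3) E →ₐ[E] PowerSeries E, φ = aeval a := ⟨_, rfl⟩
  have h4 := push_sum φ g H PowerSeries.X
  have h5 : map (φ : MvPolynomial (J × Fin 3) E →+* PowerSeries E) P =
      PA T b fun j i => a (j, i) := by
    have := PA_map T b φ A₀
    rw [hP, this]
    congr 1
    funext j i
    rw [hφ, hA₀, aeval_X]
  have h6 : ∀ j i, PowerSeries.X * φ (H j i) = a (j, i) := by
    intro j i
    rw [hφ]
    exact (ha (j, i)).symm
  simp only [h6] at h4
  rw [← h4, ← h5, ← mul_add, ← map_add, hmain, map_zero, mul_zero]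

end Deform

end Pool.Agent.Work.PD5
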