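import Mathlib
import Pool.Agent.Work.MP_b62148_ag.Quintic.ParamQ

/-!
Polarisation: if the quintic form vanishes on a subspace then so does the 5-linear form.
-/

namespace Pool.Agent.Work.PD5

variable {k : Type*} [Field k] {σ : Type*} [Fintype σ]

section Pol

variable {E : Type*} [Field E] [CharZero E] [Algebra k E] (T : Ten k σ)

theorem pol1 (W : Submodule E (σ → E)) (h : ∀ v ∈ W, Phi T v v v v v = 0) (u v : σ → E)
    (hu : u ∈ W) (hv : v ∈ W) : Phi T u u u u v = 0 := by
  have key : ∀ t : E, 5 * t * Phi T u u u u v + 10 * t ^ 2 * Phi T u u u v v +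
      10 * t ^ 3 * Phi T u u v v v + 5 * t ^ 4 * Phi T u v v v v = 0 := by
    intro t
    have h1 := Phi_line T u v 1 t
    rw [h _ (W.add_mem (W.smul_mem 1 hu) (W.smul_mem t hv)), h u hu, h v hv] at h1
    linear_combination -h1
  have k1 := key 1
  have k2 := key (-1)
  have k3 := key 2
  have k4 := key (-2)
  have : (60 : E) * Phi T u u u u v = 0 := by
    linear_combination 8 * (k1 - k2) / 2 * 2 - (k3 - k4) / 2 * 2
  have h60 : (60 : E) ≠ 0 := by norm_num
  exact (mul_eq_zero.mp this).resolve_left h60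

theorem pol2 (W : Submodule E (σ → E)) (h : ∀ u ∈ W, ∀ v ∈ W, Phi T u u u u v = 0) (u w v : σ → E)
    (hu : u ∈ W) (hw : w ∈ W) (hv : v ∈ W) : Phi T u u u w v = 0 := by
  have key : ∀ t : E, 4 * t * Phi T u u u w v + 6 * t ^ 2 * Phi T u u w w v +
      4 * t ^ 3 * Phi T u w w w v = 0 := by
    intro t
    have h1 := h _ (W.add_mem hu (W.smul_mem t hw)) v hv
    simp only [Phi_add1, Phi_add2, Phi_add3, Phi_add4, Phi_smul1, Phi_smul2, Phi_smul3,
      Phi_smul4] at h1
    have e2 : Phi T u u w u v = Phi T u u u w v := by rw [Phi_s34]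
    have e3 : Phi T u w u u v = Phi T u u u w v := by rw [Phi_s23, e2]
    have e4 : Phi T w u u u v = Phi T u u u w v := by rw [Phi_s12, e3]
    have f2 : Phi T u w u w v = Phi T u u w w v := by rw [Phi_s23]
    have f3 : Phi T u w w u v = Phi T u u w w v := by rw [Phi_s34, f2]
    have f4 : Phi T w u u w v = Phi T u u w w v := by rw [Phi_s12, f2]
    have f5 : Phi T w u w u v = Phi T u u w w v := by rw [Phi_s34, f4]
    have f6 : Phi T w w u u v = Phi T u u w w v := by rw [Phi_s23, f5]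
    have g2 : Phi T w u w w v = Phi T u w w w v := by rw [Phi_s12]
    have g3 : Phi T w w u w v = Phi T u w w w v := by rw [Phi_s23, g2]
    have g4 : Phi T w w w u v = Phi T u w w w v := by rw [Phi_s34, g3]
    rw [e2, e3, e4, f2, f3, f4, f5, f6, g2, g3, g4, h u hu v hv, h w hw v hv] at h1
    linear_combination h1
  have k1 := key 1
  have k2 := key (-1)
  have k3 := key 2
  have : (24 : E) * Phi T u u u w v = 0 := by
    linear_combination 4 * (k1 - k2) - (k3 - 2 * (k1 + k2))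
  have h0 : (24 : E) ≠ 0 := by norm_num
  exact (mul_eq_zero.mp this).resolve_left h0

theorem pol3 (W : Submodule E (σ → E)) (h : ∀ u ∈ W, ∀ w ∈ W, ∀ v ∈ W, Phi T u u u w v = 0)
    (u x w v : σ → E) (hu : u ∈ W) (hx : x ∈ W) (hw : w ∈ W) (hv : v ∈ W) :
    Phi T u u x w v = 0 := by
  have key : ∀ t : E, 3 * t * Phi T u u x w v + 3 * t ^ 2 * Phi T u x x w v = 0 := by
    intro t
    have h1 := h _ (W.add_mem hu (W.smul_mem t hx)) w hw v hv
    simp only [Phi_add1, Phi_add2, Phi_add3, Phi_smul1, Phi_smul2, Phi_smul3] at h1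
    have e2 : Phi T u x u w v = Phi T u u x w v := by rw [Phi_s23]
    have e3 : Phi T x u u w v = Phi T u u x w v := by rw [Phi_s12, e2]
    have f2 : Phi T x u x w v = Phi T u x x w v := by rw [Phi_s12]
    have f3 : Phi T x x u w v = Phi T u x x w v := by rw [Phi_s23, f2]
    rw [e2, e3, f2, f3, h u hu w hw v hv, h x hx w hw v hv] at h1
    linear_combination h1
  have k1 := key 1
  have k2 := key (-1)
  have : (6 : E) * Phi T u u x w v = 0 := by
    linear_combination k1 - k2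
  have h0 : (6 : E) ≠ 0 := by norm_num
  exact (mul_eq_zero.mp this).resolve_left h0

theorem pol4 (W : Submodule E (σ → E))
    (h : ∀ u ∈ W, ∀ x ∈ W, ∀ w ∈ W, ∀ v ∈ W, Phi T u u x w v = 0)
    (u y x w v : σ → E) (hu : u ∈ W) (hy : y ∈ W) (hx : x ∈ W) (hw : w ∈ W) (hv : v ∈ W) :
    Phi T u y x w v = 0 := by
  have h1 := h _ (W.add_mem hu hy) x hx w hw v hv
  simp only [Phi_add1, Phi_add2] at h1
  have e2 : Phi T y u x w v = Phi T u y x w v := by rw [Phi_s12]
  rw [e2, h u hu x hx w hw v hv, h y hy x hx w hw v hv] at h1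
  have : (2 : E) * Phi T u y x w v = 0 := by linear_combination h1
  have h0 : (2 : E) ≠ 0 := by norm_num
  exact (mul_eq_zero.mp this).resolve_left h0

/-- the 5-linear form vanishes on a subspace on which the quintic form vanishes -/
theorem vanish_of_diag (W : Submodule E (σ → E)) (h : ∀ v ∈ W, Phi T v v v v v = 0)
    (v₁ v₂ v₃ v₄ v₅ : σ → E) (h₁ : v₁ ∈ W) (h₂ : v₂ ∈ W) (h₃ : v₃ ∈ W) (h₄ : v₄ ∈ W) (h₅ : v₅ ∈ W) :
    Phi T v₁ v₂ v₃ v₄ v₅ = 0 :=
  pol4 T W (fun u hu x hx w hw v hv => pol3 T W (fun u hu w hw v hv => pol2 T W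
    (fun u hu v hv => pol1 T W h u v hu hv) u w v hu hw hv) u x w v hu hx hw hv)
    v₁ v₂ v₃ v₄ v₅ h₁ h₂ h₃ h₄ h₅

theorem iso_of_vanish (lam : Fin 4 → σ → E)
    (h : ∀ s : Fin 4 → E, Phi T (comb lam s) (comb lam s) (comb lam s) (comb lam s) (comb lam s) = 0) :
    Iso T lam := by
  intro i j l m n
  have hmem : ∀ i, lam i ∈ Submodule.span E (Set.range lam) := fun i =>
    Submodule.subset_span ⟨i, rfl⟩
  refine vanish_of_diag T (Submodule.span E (Set.range lam)) ?_ _ _ _ _ _ (hmem i) (hmem j)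
    (hmem l) (hmem m) (hmem n)
  intro v hv
  obtain ⟨c, rfl⟩ := (Submodule.mem_span_range_iff_exists_fun E).mp hv
  rw [← comb_eq]
  exact h c

end Pol

end Pool.Agent.Work.PD5
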