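import Mathlib
import Pool.Agent.Work.MP_b62148_ag.Quintic.FixQ
import Pool.Agent.Work.MP_b62148_ag.Quintic.PolQ
import Pool.Agent.Work.MP_b62148_ag.Polar

/-!
Reduction of a linear space along a valuation ring, and the sharp existence theorem for
three-spaces in quintics.
-/

namespace Pool.Agent.Work.PD5

open MvPolynomial

section Lin

variable {K : Type*} [Field K] {ι : Type*} [Fintype ι]

theorem dual_of_li {r : ℕ} (w : Fin r → ι → K) (hw : LinearIndependent K w) :
    ∃ D : Fin r → ι → K, ∀ i j, ∑ t, w i t * D j t = if i = j then 1 else 0 := by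
  classical
  let L : (Fin r → K) →ₗ[K] (ι → K) := Fintype.linearCombination K w
  have hinj : Function.Injective L := linearIndependent_iff_injective_fintypeLinearCombination.mp hw
  obtain ⟨g, hg⟩ := L.exists_leftInverse_of_injective (LinearMap.ker_eq_bot.mpr hinj)
  refine ⟨fun j t => g (Pi.single t 1) j, fun i j => ?_⟩
  have h1 : g (w i) = Pi.single i 1 := by
    have h2 := LinearMap.congr_fun hg (Pi.single i 1)
    have h3 : L (Pi.single i 1) = w i := by
      simp [L, Fintype.linearCombination_apply]
    rw [LinearMap.comp_apply, h3] at h2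
    exact h2
  have h4 : ∑ t, w i t * g (Pi.single t 1) j = g (∑ t, w i t • Pi.single t 1) j := by
    rw [map_sum, Finset.sum_apply]
    refine Finset.sum_congr rfl fun t _ => ?_
    rw [map_smul, Pi.smul_apply, smul_eq_mul]
  have h5 : ∑ t, w i t • (Pi.single t 1 : ι → K) = w i := by
    funext s
    rw [Finset.sum_apply, Finset.sum_eq_single s]
    · simp
    · intro t _ hts
      rw [Pi.smul_apply, Pi.single_eq_of_ne (Ne.symm hts), smul_zero]
    · intro h; exact absurd (Finset.mem_univ _) h
  rw [h4, h5, h1, Pi.single_apply]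
  simp only [eq_comm]

theorem li_of_dual {r : ℕ} (w D : Fin r → ι → K)
    (h : ∀ i j, ∑ t, w i t * D j t = if i = j then 1 else 0) : LinearIndependent K w := by
  classical
  rw [Fintype.linearIndependent_iff]
  intro x hx j
  have h1 : ∑ t, (∑ i, x i • w i) t * D j t = x j := by
    simp only [Finset.sum_apply, Pi.smul_apply, smul_eq_mul, Finset.sum_mul]
    rw [Finset.sum_comm]
    have : ∀ i, ∑ t, x i * w i t * D j t = x i * if i = j then 1 else 0 := by
      intro i
      rw [← h i j, Finset.mul_sum]
      exact Finset.sum_congr rfl fun t _ => by ring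
    rw [Finset.sum_congr rfl fun i _ => this i]
    simp
  rw [← h1, hx]
  simp

theorem exists_max_coord (V : ValuationSubring K) (w : ι → K) (hw : w ≠ 0) :
    ∃ i, w i ≠ 0 ∧ ∀ t, w t / w i ∈ V := by
  have hne : Nonempty ι := by
    by_contra hcon
    rw [not_nonempty_iff] at hcon
    exact hw (Subsingleton.elim _ _)
  obtain ⟨i, hi⟩ := Finite.exists_max fun t => V.valuation (w t)
  have hi0 : w i ≠ 0 := by
    intro h0
    apply hw
    funext t
    have := hi t
    rw [h0, map_zero] at this
    have h1 : V.valuation (w t) = 0 := le_antisymm this zero_le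
    exact (Valuation.zero_iff _).mp h1
  refine ⟨i, hi0, fun t => ?_⟩
  rw [← V.valuation_le_one_iff, map_div₀]
  exact div_le_one_of_le₀ (hi t) zero_le

theorem exists_reduced (V : ValuationSubring K) : ∀ (r : ℕ) (w : Fin r → ι → K),
    LinearIndependent K w → ∃ c : Fin r → ι → V,
      (∀ i, (fun t => (c i t : K)) ∈ Submodule.span K (Set.range w)) ∧
      LinearIndependent (IsLocalRing.ResidueField V) (fun i t => IsLocalRing.residue V (c i t)) := by
  classical
  intro r
  induction r with
  | zero =>
    intro w _
    exact ⟨fun i => i.elim0, fun i => i.elim0, linearIndependent_empty_type⟩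
  | succ r ih =>
    intro w hw
    obtain ⟨i₀, hi₀, hmax⟩ := exists_max_coord V (w 0) (hw.ne_zero 0)
    let a : Fin r → K := fun i => w i.succ i₀ / w 0 i₀
    let w' : Fin r → ι → K := fun i => w i.succ - a i • w 0
    have hw'i₀ : ∀ i, w' i i₀ = 0 := by
      intro i
      simp only [w', a, Pi.sub_apply, Pi.smul_apply, smul_eq_mul]
      field_simp
      ring
    have hw' : LinearIndependent K w' := by
      rw [Fintype.linearIndependent_iff]
      intro x hx i
      have h1 := Fintype.linearIndependent_iff.mp hw (Fin.cons (- ∑ i, x i * a i) x) (by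
        rw [Fin.sum_univ_succ]
        simp only [Fin.cons_zero, Fin.cons_succ]
        rw [← hx]
        simp only [w', smul_sub, Finset.sum_sub_distrib, neg_smul, Finset.sum_smul, smul_smul]
        abel) i.succ
      simpa using h1
    obtain ⟨c', hc'1, hc'2⟩ := ih w' hw'
    have hspan : Submodule.span K (Set.range w') ≤ Submodule.span K (Set.range w) := by
      rw [Submodule.span_le]
      rintro _ ⟨i, rfl⟩
      exact Submodule.sub_mem _ (Submodule.subset_span ⟨_, rfl⟩)
        (Submodule.smul_mem _ _ (Submodule.subset_span ⟨_, rfl⟩))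
    have hzero : ∀ v ∈ Submodule.span K (Set.range w'), v i₀ = 0 := by
      intro v hv
      have hle : Submodule.span K (Set.range w') ≤ LinearMap.ker (LinearMap.proj i₀ : (ι → K) →ₗ[K] K) := by
        rw [Submodule.span_le]
        rintro _ ⟨i, rfl⟩
        exact hw'i₀ i
      exact hle hv
    have hc'0 : ∀ i, c' i i₀ = 0 := by
      intro i
      apply Subtype.ext
      exact hzero _ (hc'1 i)
    refine ⟨Fin.cons (fun t => ⟨w 0 t / w 0 i₀, hmax t⟩) c', ?_, ?_⟩
    · intro i
      refine Fin.cases ?_ (fun i => ?_) i
      · simp only [Fin.cons_zero]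
        have : (fun t => w 0 t / w 0 i₀) = (w 0 i₀)⁻¹ • w 0 := by
          funext t
          simp only [Pi.smul_apply, smul_eq_mul]
          field_simp
        rw [this]
        exact Submodule.smul_mem _ _ (Submodule.subset_span ⟨_, rfl⟩)
      · simp only [Fin.cons_succ]
        exact hspan (hc'1 i)
    · rw [Fintype.linearIndependent_iff]
      intro x hx
      rw [Fin.sum_univ_succ] at hx
      simp only [Fin.cons_zero, Fin.cons_succ] at hx
      have h1 : x 0 = 0 := by
        have h2 := congrFun hx i₀
        simp only [Pi.add_apply, Pi.smul_apply, Finset.sum_apply, smul_eq_mul, Pi.zero_apply] at h2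
        have h3 : (⟨w 0 i₀ / w 0 i₀, hmax i₀⟩ : V) = 1 := Subtype.ext (div_self hi₀)
        rw [h3, map_one, mul_one] at h2
        rw [Finset.sum_eq_zero (fun i _ => by rw [hc'0 i, map_zero, mul_zero]), add_zero] at h2
        exact h2
      rw [h1, zero_smul, zero_add] at hx
      intro i
      refine Fin.cases h1 (fun i => ?_) i
      exact Fintype.linearIndependent_iff.mp hc'2 (fun i => x i.succ) hx i

end Lin

section Red

set_option linter.unusedSectionVars false

variable {σ : Type*} [Fintype σ] {E : Type*} [Field E] {J : Type*} [Fintype J]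

/-- a vector with given coordinates in the system `b` -/
def bvec (b : Fin 4 ⊕ J → σ → E) {R : Type*} [CommRing R] [Algebra E R] (c : Fin 4 ⊕ J → R) :
    σ → R := fun t => ∑ u, c u * algebraMap E R (b u t)

/-- the coordinates of the points of the graph -/
def graph {R : Type*} [CommRing R] (A : J → Fin 3 → R) (s : Fin 4 → R) : Fin 4 ⊕ J → R :=
  Sum.elim s fun j => ∑ i : Fin 3, A j i * s i.succ

theorem bvec_map (b : Fin 4 ⊕ J → σ → E) {R S : Type*} [CommRing R] [Algebra E R] [CommRing S]
    [Algebra E S] (g : R →ₐ[E] S) (c : Fin 4 ⊕ J → R) (t : σ) :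
    g (bvec b c t) = bvec b (fun u => g (c u)) t := by
  unfold bvec
  rw [map_sum]
  refine Finset.sum_congr rfl fun u _ => ?_
  rw [map_mul, AlgHom.commutes]

theorem uvec_sum (b : Fin 4 ⊕ J → σ → E) {R : Type*} [CommRing R] [Algebra E R]
    (A : J → Fin 3 → R) (s : Fin 4 → R) (t : σ) :
    ∑ i, s i * uvec b A i t = bvec b (graph A s) t := by
  unfold uvec bvec graph
  rw [Fintype.sum_sum_type]
  simp only [Sum.elim_inl, Sum.elim_inr, mul_add, Finset.sum_add_distrib]
  congr 1
  rw [Fin.sum_univ_succ]
  simp only [Fin.cases_zero, Fin.cases_succ, mul_zero, zero_add, Finset.mul_sum, Finset.sum_mul]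
  rw [Finset.sum_comm]
  refine Finset.sum_congr rfl fun j _ => Finset.sum_congr rfl fun i _ => ?_
  ring

/-- evaluation of the restriction -/
theorem eval_PA (T : Ten E σ) (b : Fin 4 ⊕ J → σ → E) {R : Type*} [CommRing R] [Algebra E R]
    (A : J → Fin 3 → R) (s : Fin 4 → R) :
    eval s (PA T b A) = Phi T (bvec b (graph A s)) (bvec b (graph A s)) (bvec b (graph A s))
      (bvec b (graph A s)) (bvec b (graph A s)) := by
  have h := map_Phi T ((aeval s : MvPolynomial (Fin 4) R →ₐ[R] R).restrictScalars E) (svec b A)
    (svec b A) (svec b A) (svec b A) (svec b A)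
  have hs : (fun t => ((aeval s : MvPolynomial (Fin 4) R →ₐ[R] R).restrictScalars E)
      (svec b A t)) = bvec b (graph A s) := by
    funext t
    rw [← uvec_sum]
    show aeval s (svec b A t) = _
    unfold svec
    rw [map_sum]
    refine Finset.sum_congr rfl fun i _ => ?_
    rw [map_mul, aeval_X, ← MvPolynomial.algebraMap_eq, AlgHom.commutes]
    rfl
  rw [hs] at h
  rw [← h]
  rfl

/-- over the fraction field of the power series -/
theorem exists_graph_field (T : Ten E σ) (b : Fin 4 ⊕ J → σ → E)
    (hp : Phi T (b (Sum.inl 0)) (b (Sum.inl 0)) (b (Sum.inl 0)) (b (Sum.inl 0)) (b (Sum.inl 0)) = 0)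
    (g : J → MvPolynomial (Fin 4) E)
    (hpeel : ∀ d : Fin 4 →₀ ℕ, d.degree = 5 → d ≠ Finsupp.single 0 5 →
      ∃ A : J → Fin 3 → E, ∑ j, (∑ i, C (A j i) * X i.succ) * g j = monomial d 1) :
    ∃ (τ : FractionRing (PowerSeries E)) (A : J → Fin 3 → FractionRing (PowerSeries E)),
      (∀ e : E, algebraMap E (FractionRing (PowerSeries E)) e ≠ τ) ∧
      ∀ s : Fin 4 → FractionRing (PowerSeries E),
        τ * Phi T (bvec b (graph A s)) (bvec b (graph A s)) (bvec b (graph A s))
          (bvec b (graph A s)) (bvec b (graph A s)) +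
        ∑ j, graph A s (Sum.inr j) * aeval (fun i => graph A s (Sum.inl i)) (g j) = 0 := by
  obtain ⟨A, hA⟩ := exists_graph T b hp g hpeel
  let φ : PowerSeries E →ₐ[E] FractionRing (PowerSeries E) :=
    IsScalarTower.toAlgHom E (PowerSeries E) (FractionRing (PowerSeries E))
  have hφ : Function.Injective φ := IsFractionRing.injective (PowerSeries E) _
  refine ⟨φ PowerSeries.X, fun j i => φ (A j i), ?_, ?_⟩
  · intro e he
    have h1 : φ (algebraMap E (PowerSeries E) e) = φ PowerSeries.X := by
      rw [AlgHom.commutes]; exact he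
    have h2 := hφ h1
    have h3 := congrArg (PowerSeries.coeff 1) h2
    rw [PowerSeries.coeff_one_X] at h3
    have h4 : PowerSeries.coeff 1 (algebraMap E (PowerSeries E) e) = 0 := by
      rw [PowerSeries.algebraMap_apply]
      simp
    rw [h4] at h3
    exact zero_ne_one h3
  · intro s
    have h1 := congrArg (fun q => eval s (map (φ : PowerSeries E →+* _) q)) hA
    simp only [map_add, map_mul, map_zero, map_sum, map_C, map_X, eval_C, eval_X] at h1
    rw [PA_map T b φ A, eval_PA] at h1
    refine Eq.trans ?_ h1
    congr 1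
    refine Finset.sum_congr rfl fun j _ => ?_
    congr 1
    have e1 : map (φ : PowerSeries E →+* FractionRing (PowerSeries E))
        (map (algebraMap E (PowerSeries E)) (g j)) =
        map (algebraMap E (FractionRing (PowerSeries E))) (g j) := by
      rw [map_map, AlgHom.comp_algebraMap]
    rw [e1, eval_map, aeval_def]
    rfl

universe v

/-- reduction along a valuation ring -/
theorem exists_residue [IsAlgClosed E] (T : Ten E σ) (b : Fin 4 ⊕ J → σ → E) (g : J → MvPolynomial (Fin 4) E)
    {K : Type v} [Field K] [Algebra E K] (τ : K) (hτ : ∀ e : E, algebraMap E K e ≠ τ)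
    (A : J → Fin 3 → K)
    (hA : ∀ s : Fin 4 → K,
        τ * Phi T (bvec b (graph A s)) (bvec b (graph A s)) (bvec b (graph A s))
          (bvec b (graph A s)) (bvec b (graph A s)) +
        ∑ j, graph A s (Sum.inr j) * aeval (fun i => graph A s (Sum.inl i)) (g j) = 0) :
    ∃ (κ : Type v) (_ : Field κ) (_ : Algebra E κ) (c : Fin 4 → (Fin 4 ⊕ J) → κ),
      c 0 (Sum.inl 0) = 1 ∧ (∀ u, u ≠ Sum.inl 0 → c 0 u = 0) ∧ LinearIndependent κ c ∧
      ∀ x : Fin 4 → κ, Phi T (bvec b (∑ i, x i • c i)) (bvec b (∑ i, x i • c i))
        (bvec b (∑ i, x i • c i)) (bvec b (∑ i, x i • c i)) (bvec b (∑ i, x i • c i)) = 0 := by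
  classical
  obtain ⟨V, hEV, hτV⟩ := PD.exists_valuationSubring τ hτ
  let _ : Algebra E V := ((algebraMap E K).codRestrict V.toSubring hEV).toAlgebra
  have htower : IsScalarTower E V K := IsScalarTower.of_algebraMap_eq fun e => rfl
  let φ : V →ₐ[E] K := IsScalarTower.toAlgHom E V K
  have hφ : ∀ v : V, φ v = (v : K) := fun _ => rfl
  let ρ : V →ₐ[E] IsLocalRing.ResidueField V :=
    IsScalarTower.toAlgHom E V (IsLocalRing.ResidueField V)
  have hρ : ∀ v : V, ρ v = IsLocalRing.residue V v := fun _ => rfl
  -- the graph as a subspace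
  let L : (Fin 4 → K) →ₗ[K] (Fin 4 ⊕ J → K) :=
    { toFun := graph A
      map_add' := by
        intro x y
        funext u
        rcases u with u | j
        · rfl
        · simp only [graph, Sum.elim_inr, Pi.add_apply, mul_add, Finset.sum_add_distrib]
      map_smul' := by
        intro r x
        funext u
        rcases u with u | j
        · rfl
        · simp only [graph, Sum.elim_inr, Pi.smul_apply, smul_eq_mul, Finset.mul_sum,
            RingHom.id_apply]
          exact Finset.sum_congr rfl fun i _ => by ring }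
  have hL : ∀ s, L s = graph A s := fun _ => rfl
  let w : Fin 3 → Fin 4 ⊕ J → K := fun i => L (Pi.single i.succ 1)
  have hw : LinearIndependent K w := by
    rw [Fintype.linearIndependent_iff]
    intro x hx i
    have h1 := congrFun hx (Sum.inl i.succ)
    rw [Finset.sum_apply, Finset.sum_eq_single i] at h1
    · simpa [w, hL, graph] using h1
    · intro j _ hj
      have : j.succ ≠ i.succ := fun h => hj (Fin.succ_injective _ h)
      simp [w, hL, graph, Pi.single_eq_of_ne (Ne.symm this)]
    · intro h; exact absurd (Finset.mem_univ _) h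
  obtain ⟨c', hc'1, hc'2⟩ := exists_reduced V 3 w hw
  have hrange : ∀ i, (fun u => (c' i u : K)) ∈ LinearMap.range L := by
    intro i
    have hle : Submodule.span K (Set.range w) ≤ LinearMap.range L := by
      rw [Submodule.span_le]
      rintro _ ⟨l, rfl⟩
      exact ⟨_, rfl⟩
    exact hle (hc'1 i)
  have hzero : ∀ i, c' i (Sum.inl 0) = 0 := by
    intro i
    apply Subtype.ext
    have hle : Submodule.span K (Set.range w) ≤
        LinearMap.ker (LinearMap.proj (Sum.inl 0) : (Fin 4 ⊕ J → K) →ₗ[K] K) := by
      rw [Submodule.span_le]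
      rintro _ ⟨l, rfl⟩
      show (Pi.single l.succ 1 : Fin 4 → K) 0 = 0
      exact Pi.single_eq_of_ne (Fin.succ_ne_zero l).symm _
    exact hle (hc'1 i)
  let cV : Fin 4 → Fin 4 ⊕ J → V := Fin.cons (fun u => if u = Sum.inl 0 then 1 else 0) c'
  have hcV : ∀ i, (fun u => (cV i u : K)) ∈ LinearMap.range L := by
    intro i
    refine Fin.cases ?_ (fun i => ?_) i
    · refine ⟨Pi.single 0 1, ?_⟩
      funext u
      rw [hL]
      rcases u with u | j
      · simp only [graph, Sum.elim_inl, cV, Fin.cons_zero]
        by_cases hu : u = 0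
        · subst hu; simp
        · rw [Pi.single_eq_of_ne hu, if_neg (fun h => hu (Sum.inl_injective h))]
          rfl
      · simp only [graph, Sum.elim_inr, cV, Fin.cons_zero]
        rw [if_neg (by simp)]
        rw [Finset.sum_eq_zero]
        · rfl
        · intro i _
          rw [Pi.single_eq_of_ne (Fin.succ_ne_zero i), mul_zero]
    · exact hrange i
  refine ⟨IsLocalRing.ResidueField V, inferInstance, inferInstance, fun i u => ρ (cV i u), ?_, ?_,
    ?_, ?_⟩
  · simp only [cV, Fin.cons_zero, if_true, map_one]
  · intro u hu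
    simp only [cV, Fin.cons_zero]
    rw [if_neg hu, map_zero]
  · rw [Fintype.linearIndependent_iff]
    intro x hx
    rw [Fin.sum_univ_succ] at hx
    have h1 : x 0 = 0 := by
      have h2 := congrFun hx (Sum.inl 0)
      simp only [Pi.add_apply, Pi.smul_apply, Finset.sum_apply, smul_eq_mul, Pi.zero_apply, cV,
        Fin.cons_zero, Fin.cons_succ, hzero, if_true, map_one, map_zero, mul_one, mul_zero,
        Finset.sum_const_zero, add_zero] at h2
      exact h2
    rw [h1, zero_smul, zero_add] at hx
    intro i
    refine Fin.cases h1 (fun i => ?_) i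
    exact Fintype.linearIndependent_iff.mp hc'2 (fun i => x i.succ) hx i
  · intro x
    choose X hX using fun i => IsLocalRing.residue_surjective (R := V) (x i)
    let d : Fin 4 ⊕ J → V := ∑ i, X i • cV i
    have hd : (fun u => (d u : K)) ∈ LinearMap.range L := by
      have h1 : (fun u => (d u : K)) = ∑ i, (X i : K) • fun u => (cV i u : K) := by
        funext u
        rw [← hφ]
        simp only [d, Finset.sum_apply, Pi.smul_apply, smul_eq_mul]
        rw [map_sum]
        refine Finset.sum_congr rfl fun i _ => ?_
        rw [map_mul]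
        rfl
      rw [h1]
      exact Submodule.sum_mem _ fun i _ => Submodule.smul_mem _ _ (hcV i)
    obtain ⟨s, hs⟩ := hd
    rw [hL] at hs
    have hA' := hA s
    rw [hs] at hA'
    let F : V := Phi T (bvec b d) (bvec b d) (bvec b d) (bvec b d) (bvec b d)
    let y : V := ∑ j, d (Sum.inr j) * aeval (fun i => d (Sum.inl i)) (g j)
    have hF : (F : K) = Phi T (bvec b fun u => (d u : K)) (bvec b fun u => (d u : K))
        (bvec b fun u => (d u : K)) (bvec b fun u => (d u : K)) (bvec b fun u => (d u : K)) := by
      have h1 := map_Phi T φ (bvec b d) (bvec b d) (bvec b d) (bvec b d) (bvec b d)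
      have h2 : (fun t => φ (bvec b d t)) = bvec b fun u => (d u : K) := by
        funext t
        rw [bvec_map]
        rfl
      rw [h2] at h1
      exact h1
    have hy : (y : K) = ∑ j, (d (Sum.inr j) : K) *
        aeval (fun i => (d (Sum.inl i) : K)) (g j) := by
      rw [← hφ]
      simp only [y]
      rw [map_sum]
      refine Finset.sum_congr rfl fun j _ => ?_
      rw [map_mul]
      congr 1
      exact comp_aeval_apply (fun i => d (Sum.inl i)) φ (g j)
    rw [← hF, ← hy] at hA'
    have hFmem : F ∈ IsLocalRing.maximalIdeal V := by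
      rw [IsLocalRing.mem_maximalIdeal]
      intro hu
      apply hτV
      obtain ⟨F', hF'⟩ := hu.exists_right_inv
      have h1 : (F : K) * (F' : K) = 1 := by
        have := congrArg (fun v : V => (v : K)) hF'
        simpa using this
      have h2 : τ = ((- y * F' : V) : K) := by
        have h3 : ((- y * F' : V) : K) = - (y : K) * (F' : K) := by push_cast; ring
        rw [h3]
        linear_combination (F' : K) * hA' - τ * h1
      rw [h2]
      exact Subtype.coe_prop _
    have hF0 : ρ F = 0 := by
      rw [hρ]
      exact (IsLocalRing.residue_eq_zero_iff F).mpr hFmem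
    have h1 := map_Phi T ρ (bvec b d) (bvec b d) (bvec b d) (bvec b d) (bvec b d)
    have h2 : (fun t => ρ (bvec b d t)) = bvec b (∑ i, x i • fun u => ρ (cV i u)) := by
      funext t
      rw [bvec_map]
      congr 1
      funext u
      simp only [d, Finset.sum_apply, Pi.smul_apply, smul_eq_mul, map_sum, map_mul]
      refine Finset.sum_congr rfl fun i _ => ?_
      rw [hρ, hX]
    rw [h2] at h1
    rw [← h1]
    exact hF0

end Red

end Pool.Agent.Work.PD5
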