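import Mathlib
import Pool.Agent.Work.MP_b62148_ag.Quintic.RedQ

/-!
The sharp existence theorem: a projective three-space through every point of a quintic in
`P^n`, `n ≥ 22`.
-/

namespace Pool.Agent.Work.PD5

open MvPolynomial

section Descent

variable {σ : Type*} [Fintype σ]

/-- a finitely generated algebra has a point over an algebraically closed field -/
theorem exists_point' {E A : Type*} [Field E] [IsAlgClosed E] [CommRing A] [Nontrivial A]
    [Algebra E A] [Algebra.FiniteType E A] : Nonempty (A →ₐ[E] E) := by
  obtain ⟨m, hm⟩ := Ideal.exists_maximal A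
  let _ : Field (A ⧸ m) := Ideal.Quotient.field m
  have hft : Algebra.FiniteType E (A ⧸ m) :=
    Algebra.FiniteType.of_surjective (Ideal.Quotient.mkₐ E m) (Ideal.Quotient.mkₐ_surjective E m)
  have hfin : Module.Finite E (A ⧸ m) := finite_of_finite_type_of_isJacobsonRing E (A ⧸ m)
  have halg : Algebra.IsAlgebraic E (A ⧸ m) := Algebra.IsAlgebraic.of_finite E (A ⧸ m)
  exact ⟨(IsAlgClosed.lift (M := E) : (A ⧸ m) →ₐ[E] E).comp (Ideal.Quotient.mkₐ E m)⟩

/-- a three-space through a point over an extension specialises -/
theorem descend_P3 {E : Type*} [Field E] [IsAlgClosed E] (T : Ten E σ) {κ : Type*} [Field κ]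
    [Algebra E κ] (p : σ → E) (lam : Fin 4 → σ → κ) (h0 : ∀ t, lam 0 t = algebraMap E κ (p t))
    (hli : LinearIndependent κ lam) (hiso : Iso T lam) :
    ∃ lam' : Fin 4 → σ → E, lam' 0 = p ∧ LinearIndependent E lam' ∧ Iso T lam' := by
  classical
  obtain ⟨D, hD⟩ := dual_of_li lam hli
  let s : Set κ := Set.range (fun q : (Fin 4 × σ) ⊕ (Fin 4 × σ) =>
    Sum.elim (fun q => lam q.1 q.2) (fun q => D q.1 q.2) q)
  have hsfin : s.Finite := Set.finite_range _
  let A : Subalgebra E κ := Algebra.adjoin E s
  have hfg : A.FG := by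
    refine ⟨hsfin.toFinset, ?_⟩
    rw [Set.Finite.coe_toFinset]
  have hft : Algebra.FiniteType E A := (Subalgebra.fg_iff_finiteType A).mp hfg
  obtain ⟨g⟩ := exists_point' (E := E) (A := A)
  have hlam : ∀ j i, lam j i ∈ A := fun j i => Algebra.subset_adjoin ⟨Sum.inl (j, i), rfl⟩
  have hDA : ∀ j i, D j i ∈ A := fun j i => Algebra.subset_adjoin ⟨Sum.inr (j, i), rfl⟩
  let lamA : Fin 4 → σ → A := fun j i => ⟨lam j i, hlam j i⟩
  let DA : Fin 4 → σ → A := fun j i => ⟨D j i, hDA j i⟩
  refine ⟨fun j i => g (lamA j i), ?_, ?_, ?_⟩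
  · funext t
    have h1 : lamA 0 t = algebraMap E A (p t) := Subtype.ext (h0 t)
    show g (lamA 0 t) = p t
    rw [h1, AlgHom.commutes]
    rfl
  · refine li_of_dual _ (fun j i => g (DA j i)) ?_
    intro i j
    have h1 : ∑ t, lamA i t * DA j t = if i = j then 1 else 0 := by
      apply Subtype.ext
      have h2 := hD i j
      have h3 : ((∑ t, lamA i t * DA j t : A) : κ) = ∑ t, lam i t * D j t := by
        have := map_sum A.val (fun t => lamA i t * DA j t) Finset.univ
        rw [Subalgebra.coe_val] at this
        rw [this]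
        rfl
      rw [h3, h2]
      split_ifs <;> rfl
    have h4 := congrArg g h1
    rw [map_sum] at h4
    simp only [map_mul] at h4
    rw [h4]
    split_ifs
    · exact map_one g
    · exact map_zero g
  · intro i j l m n
    have h1 := map_Phi T A.val (lamA i) (lamA j) (lamA l) (lamA m) (lamA n)
    have h2 : Phi T (lamA i) (lamA j) (lamA l) (lamA m) (lamA n) = 0 := by
      apply Subtype.ext
      exact h1.trans (hiso i j l m n)
    show Phi T (fun t => g (lamA i t)) (fun t => g (lamA j t)) (fun t => g (lamA l t))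
      (fun t => g (lamA m t)) (fun t => g (lamA n t)) = 0
    rw [← map_Phi, h2, map_zero]

end Descent

section Final

variable {σ : Type*} [Fintype σ]

/-- independent vectors starting with a given one -/
theorem exists_li_start {E : Type*} [Field E] (p : σ → E) (hp0 : p ≠ 0) :
    ∀ m : ℕ, m + 1 ≤ Fintype.card σ →
      ∃ v : Fin (m + 1) → σ → E, LinearIndependent E v ∧ v 0 = p := by
  intro m
  induction m with
  | zero =>
    intro _
    refine ⟨fun _ => p, ?_, rfl⟩
    rw [Fintype.linearIndependent_iff]
    intro g hg i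
    rw [Fin.sum_univ_one] at hg
    rw [Fin.fin_one_eq_zero i]
    exact (smul_eq_zero.mp hg).resolve_right hp0
  | succ m ih =>
    intro hm
    obtain ⟨v, hv, hv0⟩ := ih (by omega)
    obtain ⟨x, hx⟩ := exists_linearIndependent_snoc_of_lt_finrank hv (by
      rw [Module.finrank_fintype_fun_eq_card]; omega)
    refine ⟨_, hx, ?_⟩
    rw [← hv0]
    rfl

/-- the sharp existence theorem, tensor over the field itself, for every system of quartics with a
right inverse -/
theorem exists_P3_of_peel {E : Type*} [Field E] [IsAlgClosed E] [CharZero E] (T : Ten E σ)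
    {r : ℕ} (g : Fin r → MvPolynomial (Fin 4) E)
    (hpeel : ∀ d : Fin 4 →₀ ℕ, d.degree = 5 → d ≠ Finsupp.single 0 5 →
      ∃ A : Fin r → Fin 3 → E, ∑ j, (∑ i, C (A j i) * X i.succ) * g j = monomial d 1)
    (hcard : 4 + r ≤ Fintype.card σ) (p : σ → E) (hp0 : p ≠ 0) (hp : Phi T p p p p p = 0) :
    ∃ lam : Fin 4 → σ → E, lam 0 = p ∧ LinearIndependent E lam ∧ Iso T lam := by
  classical
  obtain ⟨v, hv, hv0⟩ := exists_li_start p hp0 (3 + r) (by omega)
  have h4 : 4 + r = 3 + r + 1 := by omega
  let e : Fin 4 ⊕ Fin r ≃ Fin (3 + r + 1) := finSumFinEquiv.trans (finCongr h4)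
  let b : Fin 4 ⊕ Fin r → σ → E := fun u => v (e u)
  have hb : LinearIndependent E b := hv.comp e e.injective
  have hb0 : b (Sum.inl 0) = p := by
    have : e (Sum.inl 0) = 0 := by
      apply Fin.ext
      simp [e]
    simp only [b, this, hv0]
  obtain ⟨τ, A, hτ, hA⟩ := exists_graph_field T b (by rw [hb0]; exact hp) g hpeel
  obtain ⟨κ, hκ1, hκ2, c, hc0, hc0', hcli, hcF⟩ := exists_residue T b g τ hτ A hA
  have hch : CharZero κ := charZero_of_injective_algebraMap (algebraMap E κ).injective
  let lam : Fin 4 → σ → κ := fun i => bvec b (c i)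
  refine descend_P3 T p lam ?_ ?_ ?_
  · intro t
    show ∑ u, c 0 u * algebraMap E κ (b u t) = _
    rw [Finset.sum_eq_single (Sum.inl 0)]
    · rw [hc0, one_mul, hb0]
    · intro u _ hu
      rw [hc0' u hu, zero_mul]
    · intro h; exact absurd (Finset.mem_univ _) h
  · -- dual families
    have hb' : LinearIndependent E (fun i : Fin (3 + r + 1) => b (e.symm i)) := by
      have : (fun i : Fin (3 + r + 1) => b (e.symm i)) = v := by
        funext i
        simp [b]
      rw [this]; exact hv
    obtain ⟨B, hB⟩ := dual_of_li _ hb'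
    let c₁ : Fin 4 → Fin (3 + r + 1) → κ := fun i q => c i (e.symm q)
    have hc₁ : LinearIndependent κ c₁ := by
      rw [Fintype.linearIndependent_iff] at hcli ⊢
      intro x hx
      refine hcli x ?_
      funext u
      have := congrFun hx (e u)
      simpa [c₁] using this
    obtain ⟨D, hD⟩ := dual_of_li c₁ hc₁
    refine li_of_dual _ (fun j t => ∑ q, D j q * algebraMap E κ (B q t)) ?_
    intro i j
    rw [← hD i j]
    have h1 : ∀ t, lam i t = ∑ q, c₁ i q * algebraMap E κ (b (e.symm q) t) := by
      intro t
      show ∑ u, c i u * algebraMap E κ (b u t) = _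
      exact (Equiv.sum_comp e.symm fun u => c i u * algebraMap E κ (b u t)).symm
    have h2 : ∀ q q', ∑ t, algebraMap E κ (b (e.symm q) t) * algebraMap E κ (B q' t) =
        if q = q' then 1 else 0 := by
      intro q q'
      have := congrArg (algebraMap E κ) (hB q q')
      rw [map_sum] at this
      simp only [map_mul] at this
      rw [this]
      split_ifs
      · exact map_one _
      · exact map_zero _
    calc ∑ t, lam i t * ∑ q, D j q * algebraMap E κ (B q t)
        = ∑ t, ∑ q, ∑ q', c₁ i q * D j q' *
          (algebraMap E κ (b (e.symm q) t) * algebraMap E κ (B q' t)) := by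
          refine Finset.sum_congr rfl fun t _ => ?_
          rw [h1, Finset.sum_mul]
          refine Finset.sum_congr rfl fun q _ => ?_
          rw [Finset.mul_sum]
          refine Finset.sum_congr rfl fun q' _ => ?_
          ring
      _ = ∑ q, ∑ q', c₁ i q * D j q' * ∑ t,
          (algebraMap E κ (b (e.symm q) t) * algebraMap E κ (B q' t)) := by
          rw [Finset.sum_comm]
          refine Finset.sum_congr rfl fun q _ => ?_
          rw [Finset.sum_comm]
          refine Finset.sum_congr rfl fun q' _ => ?_
          rw [Finset.mul_sum]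
      _ = ∑ q, c₁ i q * D j q := by
          refine Finset.sum_congr rfl fun q _ => ?_
          rw [Finset.sum_congr rfl fun q' _ => by rw [h2 q q']]
          simp
  · apply iso_of_vanish
    intro x
    have h1 : comb lam x = bvec b (∑ i, x i • c i) := by
      funext t
      simp only [comb, lam, bvec, Finset.sum_apply, Pi.smul_apply, smul_eq_mul, Finset.mul_sum,
        Finset.sum_mul]
      rw [Finset.sum_comm]
      refine Finset.sum_congr rfl fun u _ => Finset.sum_congr rfl fun i _ => ?_
      ring
    rw [h1]
    exact hcF x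

end Final

end Pool.Agent.Work.PD5
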