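import Mathlib
import Pool.Agent.Work.MP_b62148_ag.Quintic.ExistP3Sharp

/-!
Base change of the tensor and the sharp existence theorem in the form used by the quintic theorem.
-/

namespace Pool.Agent.Work.PD5

open MvPolynomial

variable {k : Type*} [Field k] {σ : Type*} [Fintype σ]

/-- base change of a tensor -/
def Ten.bc (T : Ten k σ) (E : Type*) [Field E] [Algebra k E] : Ten E σ where
  a i j l m n := algebraMap k E (T.a i j l m n)
  s12 i j l m n := by rw [T.s12]
  s23 i j l m n := by rw [T.s23]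
  s34 i j l m n := by rw [T.s34]
  s45 i j l m n := by rw [T.s45]

theorem Phi_bc (T : Ten k σ) {E : Type*} [Field E] [Algebra k E] (v₁ v₂ v₃ v₄ v₅ : σ → E) :
    Phi (T.bc E) v₁ v₂ v₃ v₄ v₅ = Phi T v₁ v₂ v₃ v₄ v₅ := rfl

/-- a projective three-space through every point of a quintic hypersurface, for every system of
quartics with a right inverse -/
theorem exists_P3_sharp_of {E : Type*} [Field E] [IsAlgClosed E] [CharZero E] [Algebra k E]
    (T : Ten k σ) {r : ℕ} (g : Fin r → MvPolynomial (Fin 4) E)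
    (hpeel : ∀ d : Fin 4 →₀ ℕ, d.degree = 5 → d ≠ Finsupp.single 0 5 →
      ∃ A : Fin r → Fin 3 → E, ∑ j, (∑ i, C (A j i) * X i.succ) * g j = monomial d 1)
    (hcard : 4 + r ≤ Fintype.card σ) (p : σ → E) (hp0 : p ≠ 0) (hp : Phi T p p p p p = 0) :
    ∃ lam : Fin 4 → σ → E, lam 0 = p ∧ LinearIndependent E lam ∧ Iso T lam :=
  exists_P3_of_peel (T.bc E) g hpeel hcard p hp0 hp

end Pool.Agent.Work.PD5
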