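import Mathlib
import Pool.Agent.Work.MP_b62148_ag.Quintic.ExistP3Sharp
import Pool.Agent.Work.MP_b62148_ag.Quintic.SharpQ

/-!
Existence of a projective three-space on every quintic, without a base point: the deformation
and the reduction.
-/

namespace Pool.Agent.Work.PD5

open MvPolynomial

section Deform

set_option linter.unusedSectionVars false

variable {σ : Type*} [Fintype σ]
variable {E : Type*} [Field E] {J : Type*} [Fintype J]

/-- the four vectors of the graph of `A` -/
noncomputable def uvecA (b : Fin 4 ⊕ J → σ → E) {R : Type*} [CommRing R] [Algebra E R]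
    (A : J → Fin 4 → R) (i : Fin 4) : σ → R := fun t =>
  algebraMap E R (b (Sum.inl i) t) + ∑ j, A j i * algebraMap E R (b (Sum.inr j) t)

/-- the universal vector on the graph of `A` -/
noncomputable def svecA (b : Fin 4 ⊕ J → σ → E) {R : Type*} [CommRing R] [Algebra E R]
    (A : J → Fin 4 → R) : σ → MvPolynomial (Fin 4) R := fun t =>
  ∑ i, X i * C (uvecA b A i t)

/-- the restriction of the quintic to the graph -/
noncomputable def PAA (T : Ten E σ) (b : Fin 4 ⊕ J → σ → E) {R : Type*} [CommRing R] [Algebra E R]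
    (A : J → Fin 4 → R) : MvPolynomial (Fin 4) R :=
  Phi T (svecA b A) (svecA b A) (svecA b A) (svecA b A) (svecA b A)

theorem svecA_homog (b : Fin 4 ⊕ J → σ → E) {R : Type*} [CommRing R] [Algebra E R]
    (A : J → Fin 4 → R) (t : σ) : (svecA b A t).IsHomogeneous 1 := by
  unfold svecA
  refine IsHomogeneous.sum _ _ _ fun i _ => ?_
  exact (isHomogeneous_X R i).mul (isHomogeneous_C _ _)

theorem PAA_homog (T : Ten E σ) (b : Fin 4 ⊕ J → σ → E) {R : Type*} [CommRing R] [Algebra E R]
    (A : J → Fin 4 → R) : (PAA T b A).IsHomogeneous 5 := by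
  unfold PAA Phi
  refine IsHomogeneous.sum _ _ _ fun i _ => IsHomogeneous.sum _ _ _ fun j _ =>
    IsHomogeneous.sum _ _ _ fun l _ => IsHomogeneous.sum _ _ _ fun m _ =>
    IsHomogeneous.sum _ _ _ fun n _ => ?_
  have h := (((svecA_homog b A i).mul (svecA_homog b A j)).mul (svecA_homog b A l)).mul
    (svecA_homog b A m) |>.mul (svecA_homog b A n)
  have h2 : (algebraMap E (MvPolynomial (Fin 4) R) (T.a i j l m n)).IsHomogeneous 0 := by
    rw [MvPolynomial.algebraMap_apply]
    exact isHomogeneous_C _ _
  exact h2.mul h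

theorem uvecA_map (b : Fin 4 ⊕ J → σ → E) {R S : Type*} [CommRing R] [Algebra E R] [CommRing S]
    [Algebra E S] (g : R →ₐ[E] S) (A : J → Fin 4 → R) (i : Fin 4) (t : σ) :
    g (uvecA b A i t) = uvecA b (fun j i => g (A j i)) i t := by
  unfold uvecA
  rw [map_add, AlgHom.commutes]
  congr 1
  simp [map_sum, map_mul, AlgHom.commutes]

theorem PAA_map (T : Ten E σ) (b : Fin 4 ⊕ J → σ → E) {R S : Type*} [CommRing R] [Algebra E R]
    [CommRing S] [Algebra E S] (g : R →ₐ[E] S) (A : J → Fin 4 → R) :
    map (g : R →+* S) (PAA T b A) = PAA T b (fun j i => g (A j i)) := by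
  have h := map_Phi T (mapAlgHom (σ := Fin 4) g) (svecA b A) (svecA b A)
    (svecA b A) (svecA b A) (svecA b A)
  have hs : (fun t => mapAlgHom (σ := Fin 4) g (svecA b A t)) =
      svecA b (fun j i => g (A j i)) := by
    funext t
    unfold svecA
    rw [map_sum]
    refine Finset.sum_congr rfl fun i _ => ?_
    rw [map_mul, ← uvecA_map]
    simp [mapAlgHom_apply]
  rw [hs] at h
  exact h

theorem peel_sumA {R : Type*} [CommRing R] [Algebra E R] (P : MvPolynomial (Fin 4) R)
    (g : J → MvPolynomial (Fin 4) E) (S : (Fin 4 →₀ ℕ) → J → Fin 4 → E)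
    (hS : ∀ d ∈ P.support, ∑ j, (∑ i, C (S d j i) * X i) * g j = monomial d 1) :
    P + ∑ j, (∑ i : Fin 4, C (- ∑ d ∈ P.support, coeff d P * algebraMap E R (S d j i)) * X i) *
      map (algebraMap E R) (g j) = 0 := by
  have h1 : P = ∑ d ∈ P.support, C (coeff d P) *
      map (algebraMap E R) (∑ j, (∑ i, C (S d j i) * X i) * g j) := by
    conv_lhs => rw [P.as_sum]
    refine Finset.sum_congr rfl fun d hd => ?_
    rw [hS d hd, map_monomial, map_one, C_mul_monomial, mul_one]
  let f : (Fin 4 →₀ ℕ) → J → Fin 4 → MvPolynomial (Fin 4) R := fun d j i =>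
    C (coeff d P) * C (algebraMap E R (S d j i)) * X i * map (algebraMap E R) (g j)
  have hL : ∀ j, (∑ i : Fin 4, C (- ∑ d ∈ P.support, coeff d P * algebraMap E R (S d j i)) *
      X i) * map (algebraMap E R) (g j) = - ∑ i, ∑ d ∈ P.support, f d j i := by
    intro j
    rw [Finset.sum_mul, ← Finset.sum_neg_distrib]
    refine Finset.sum_congr rfl fun i _ => ?_
    rw [map_neg, neg_mul, neg_mul, map_sum, Finset.sum_mul, Finset.sum_mul]
    refine congrArg Neg.neg (Finset.sum_congr rfl fun d _ => ?_)
    rw [map_mul]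
  have hR : ∀ d, C (coeff d P) *
      map (algebraMap E R) (∑ j, (∑ i, C (S d j i) * X i) * g j) = ∑ j, ∑ i, f d j i := by
    intro d
    rw [map_sum, Finset.mul_sum]
    refine Finset.sum_congr rfl fun j _ => ?_
    rw [map_mul, map_sum, Finset.sum_mul, Finset.mul_sum]
    refine Finset.sum_congr rfl fun i _ => ?_
    rw [map_mul, map_C, map_X]
    simp only [f]
    ring
  have h2 : ∑ j, (∑ i : Fin 4, C (- ∑ d ∈ P.support, coeff d P * algebraMap E R (S d j i)) *
      X i) * map (algebraMap E R) (g j) =
      - ∑ d ∈ P.support, C (coeff d P) *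
      map (algebraMap E R) (∑ j, (∑ i, C (S d j i) * X i) * g j) := by
    rw [Finset.sum_congr rfl fun j _ => hL j, Finset.sum_congr rfl fun d _ => hR d,
      Finset.sum_neg_distrib]
    congr 1
    rw [Finset.sum_congr rfl fun j _ => Finset.sum_comm, Finset.sum_comm]
  rw [h2, ← h1]
  ring

theorem push_sumA {R S : Type*} [CommRing R] [Algebra E R] [CommRing S] [Algebra E S]
    (φ : R →ₐ[E] S) (g : J → MvPolynomial (Fin 4) E) (H : J → Fin 4 → R) (x : S) :
    C x * map (φ : R →+* S) (∑ j, (∑ i : Fin 4, C (H j i) * X i) * map (algebraMap E R) (g j)) =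
      ∑ j, (∑ i : Fin 4, C (x * φ (H j i)) * X i) * map (algebraMap E S) (g j) := by
  rw [map_sum, Finset.mul_sum]
  refine Finset.sum_congr rfl fun j _ => ?_
  have e1 : map (φ : R →+* S) (map (algebraMap E R) (g j)) = map (algebraMap E S) (g j) := by
    rw [map_map, AlgHom.comp_algebraMap]
  rw [map_mul, e1, ← mul_assoc]
  congr 1
  rw [map_sum, Finset.mul_sum]
  refine Finset.sum_congr rfl fun i _ => ?_
  rw [map_mul, map_C, map_X, map_mul, mul_assoc]
  rfl

/-- the deformation: over the power series the quintic `X * G + Σ x_j g_j` vanishes on a graph -/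
theorem exists_graphA (T : Ten E σ) (b : Fin 4 ⊕ J → σ → E)
    (g : J → MvPolynomial (Fin 4) E)
    (hpeel : ∀ d : Fin 4 →₀ ℕ, d.degree = 5 →
      ∃ A : J → Fin 4 → E, ∑ j, (∑ i, C (A j i) * X i) * g j = monomial d 1) :
    ∃ A : J → Fin 4 → PowerSeries E,
      C PowerSeries.X * PAA T b A +
        ∑ j, (∑ i : Fin 4, C (A j i) * X i) * map (algebraMap E (PowerSeries E)) (g j) = 0 := by
  classical
  obtain ⟨A₀, hA₀⟩ : ∃ A₀ : J → Fin 4 → MvPolynomial (J × Fin 4) E, A₀ = fun j i => X (j, i) :=
    ⟨_, rfl⟩
  obtain ⟨P, hP⟩ : ∃ P : MvPolynomial (Fin 4) (MvPolynomial (J × Fin 4) E), P = PAA T b A₀ :=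
    ⟨_, rfl⟩
  have hS : ∀ d : Fin 4 →₀ ℕ, ∃ A : J → Fin 4 → E, (d ∈ P.support →
      ∑ j, (∑ i, C (A j i) * X i) * g j = monomial d 1) := by
    intro d
    by_cases hd : d ∈ P.support
    · rw [hP] at hd
      have h1 : d.degree = 5 := by
        have := (PAA_homog T b A₀) (mem_support_iff.mp hd)
        rw [Finsupp.degree_eq_weight_one]
        exact this
      obtain ⟨A, hA⟩ := hpeel d h1
      exact ⟨A, fun _ => hA⟩
    · exact ⟨fun _ _ => 0, fun h => absurd h hd⟩
  choose S hS using hS
  have hmain := peel_sumA P g S hS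
  obtain ⟨H, hH⟩ : ∃ H : J → Fin 4 → MvPolynomial (J × Fin 4) E, ∀ j i,
    H j i = - ∑ d ∈ P.support, coeff d P * algebraMap E _ (S d j i) := ⟨_, fun _ _ => rfl⟩
  simp only [← hH] at hmain
  obtain ⟨a, ha⟩ := exists_fixed fun p : J × Fin 4 => H p.1 p.2
  refine ⟨fun j i => a (j, i), ?_⟩
  obtain ⟨φ, hφ⟩ : ∃ φ : MvPolynomial (J × Fin 4) E →ₐ[E] PowerSeries E, φ = aeval a := ⟨_, rfl⟩
  have h4 := push_sumA φ g H PowerSeries.X
  have h5 : map (φ : MvPolynomial (J × Fin 4) E →+* PowerSeries E) P =
      PAA T b fun j i => a (j, i) := by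
    have := PAA_map T b φ A₀
    rw [hP, this]
    congr 1
    funext j i
    rw [hφ, hA₀, aeval_X]
  have h6 : ∀ j i, PowerSeries.X * φ (H j i) = a (j, i) := by
    intro j i
    rw [hφ]
    exact (ha (j, i)).symm
  simp only [h6] at h4
  rw [← h4, ← h5, ← mul_add, ← map_add, hmain, map_zero, mul_zero]

/-- the coordinates of the points of the graph -/
def graphA {R : Type*} [CommRing R] (A : J → Fin 4 → R) (s : Fin 4 → R) : Fin 4 ⊕ J → R :=
  Sum.elim s fun j => ∑ i : Fin 4, A j i * s i

theorem uvecA_sum (b : Fin 4 ⊕ J → σ → E) {R : Type*} [CommRing R] [Algebra E R]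
    (A : J → Fin 4 → R) (s : Fin 4 → R) (t : σ) :
    ∑ i, s i * uvecA b A i t = bvec b (graphA A s) t := by
  unfold uvecA bvec graphA
  rw [Fintype.sum_sum_type]
  simp only [Sum.elim_inl, Sum.elim_inr, mul_add, Finset.sum_add_distrib]
  congr 1
  simp only [Finset.mul_sum, Finset.sum_mul]
  rw [Finset.sum_comm]
  refine Finset.sum_congr rfl fun j _ => Finset.sum_congr rfl fun i _ => ?_
  ring

/-- evaluation of the restriction -/
theorem eval_PAA (T : Ten E σ) (b : Fin 4 ⊕ J → σ → E) {R : Type*} [CommRing R] [Algebra E R]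
    (A : J → Fin 4 → R) (s : Fin 4 → R) :
    eval s (PAA T b A) = Phi T (bvec b (graphA A s)) (bvec b (graphA A s)) (bvec b (graphA A s))
      (bvec b (graphA A s)) (bvec b (graphA A s)) := by
  have h := map_Phi T ((aeval s : MvPolynomial (Fin 4) R →ₐ[R] R).restrictScalars E) (svecA b A)
    (svecA b A) (svecA b A) (svecA b A) (svecA b A)
  have hs : (fun t => ((aeval s : MvPolynomial (Fin 4) R →ₐ[R] R).restrictScalars E)
      (svecA b A t)) = bvec b (graphA A s) := by
    funext t
    rw [← uvecA_sum]
    show aeval s (svecA b A t) = _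
    unfold svecA
    rw [map_sum]
    refine Finset.sum_congr rfl fun i _ => ?_
    rw [map_mul, aeval_X, ← MvPolynomial.algebraMap_eq, AlgHom.commutes]
    rfl
  rw [hs] at h
  rw [← h]
  rfl

/-- over the fraction field of the power series -/
theorem exists_graph_fieldA (T : Ten E σ) (b : Fin 4 ⊕ J → σ → E)
    (g : J → MvPolynomial (Fin 4) E)
    (hpeel : ∀ d : Fin 4 →₀ ℕ, d.degree = 5 →
      ∃ A : J → Fin 4 → E, ∑ j, (∑ i, C (A j i) * X i) * g j = monomial d 1) :
    ∃ (τ : FractionRing (PowerSeries E)) (A : J → Fin 4 → FractionRing (PowerSeries E)),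
      (∀ e : E, algebraMap E (FractionRing (PowerSeries E)) e ≠ τ) ∧
      ∀ s : Fin 4 → FractionRing (PowerSeries E),
        τ * Phi T (bvec b (graphA A s)) (bvec b (graphA A s)) (bvec b (graphA A s))
          (bvec b (graphA A s)) (bvec b (graphA A s)) +
        ∑ j, graphA A s (Sum.inr j) * aeval (fun i => graphA A s (Sum.inl i)) (g j) = 0 := by
  obtain ⟨A, hA⟩ := exists_graphA T b g hpeel
  let φ : PowerSeries E →ₐ[E] FractionRing (PowerSeries E) :=
    IsScalarTower.toAlgHom E (PowerSeries E) (FractionRing (PowerSeries E))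
  have hφ : Function.Injective φ := IsFractionRing.injective (PowerSeries E) _
  refine ⟨φ PowerSeries.X, fun j i => φ (A j i), ?_, ?_⟩
  · intro e he
    have h1 : φ (algebraMap E (PowerSeries E) e) = φ PowerSeries.X := by
      rw [AlgHom.commutes]; exact he
    have h2 := hφ h1
    have h3 := congrArg (PowerSeries.coeff 1) h2
    rw [PowerSeries.coeff_one_X] at h3
    have h4 : PowerSeries.coeff 1 (algebraMap E (PowerSeries E) e) = 0 := by
      rw [PowerSeries.algebraMap_apply]
      simp
    rw [h4] at h3
    exact zero_ne_one h3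
  · intro s
    have h1 := congrArg (fun q => eval s (map (φ : PowerSeries E →+* _) q)) hA
    simp only [map_add, map_mul, map_zero, map_sum, map_C, map_X, eval_C, eval_X] at h1
    rw [PAA_map T b φ A, eval_PAA] at h1
    refine Eq.trans ?_ h1
    congr 1
    refine Finset.sum_congr rfl fun j _ => ?_
    congr 1
    have e1 : map (φ : PowerSeries E →+* FractionRing (PowerSeries E))
        (map (algebraMap E (PowerSeries E)) (g j)) =
        map (algebraMap E (FractionRing (PowerSeries E))) (g j) := by
      rw [map_map, AlgHom.comp_algebraMap]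
    rw [e1, eval_map, aeval_def]
    rfl

universe v

/-- reduction along a valuation ring -/
theorem exists_residueA [IsAlgClosed E] (T : Ten E σ) (b : Fin 4 ⊕ J → σ → E)
    (g : J → MvPolynomial (Fin 4) E)
    {K : Type v} [Field K] [Algebra E K] (τ : K) (hτ : ∀ e : E, algebraMap E K e ≠ τ)
    (A : J → Fin 4 → K)
    (hA : ∀ s : Fin 4 → K,
        τ * Phi T (bvec b (graphA A s)) (bvec b (graphA A s)) (bvec b (graphA A s))
          (bvec b (graphA A s)) (bvec b (graphA A s)) +
        ∑ j, graphA A s (Sum.inr j) * aeval (fun i => graphA A s (Sum.inl i)) (g j) = 0) :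
    ∃ (κ : Type v) (_ : Field κ) (_ : Algebra E κ) (c : Fin 4 → (Fin 4 ⊕ J) → κ),
      LinearIndependent κ c ∧
      ∀ x : Fin 4 → κ, Phi T (bvec b (∑ i, x i • c i)) (bvec b (∑ i, x i • c i))
        (bvec b (∑ i, x i • c i)) (bvec b (∑ i, x i • c i)) (bvec b (∑ i, x i • c i)) = 0 := by
  classical
  obtain ⟨V, hEV, hτV⟩ := PD.exists_valuationSubring τ hτ
  let _ : Algebra E V := ((algebraMap E K).codRestrict V.toSubring hEV).toAlgebra
  have htower : IsScalarTower E V K := IsScalarTower.of_algebraMap_eq fun e => rfl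
  let φ : V →ₐ[E] K := IsScalarTower.toAlgHom E V K
  have hφ : ∀ v : V, φ v = (v : K) := fun _ => rfl
  let ρ : V →ₐ[E] IsLocalRing.ResidueField V :=
    IsScalarTower.toAlgHom E V (IsLocalRing.ResidueField V)
  have hρ : ∀ v : V, ρ v = IsLocalRing.residue V v := fun _ => rfl
  -- the graph as a subspace
  let L : (Fin 4 → K) →ₗ[K] (Fin 4 ⊕ J → K) :=
    { toFun := graphA A
      map_add' := by
        intro x y
        funext u
        rcases u with u | j
        · rfl
        · simp only [graphA, Sum.elim_inr, Pi.add_apply, mul_add, Finset.sum_add_distrib]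
      map_smul' := by
        intro r x
        funext u
        rcases u with u | j
        · rfl
        · simp only [graphA, Sum.elim_inr, Pi.smul_apply, smul_eq_mul, Finset.mul_sum,
            RingHom.id_apply]
          exact Finset.sum_congr rfl fun i _ => by ring }
  have hL : ∀ s, L s = graphA A s := fun _ => rfl
  let w : Fin 4 → Fin 4 ⊕ J → K := fun i => L (Pi.single i 1)
  have hw : LinearIndependent K w := by
    rw [Fintype.linearIndependent_iff]
    intro x hx i
    have h1 := congrFun hx (Sum.inl i)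
    rw [Finset.sum_apply, Finset.sum_eq_single i] at h1
    · simpa [w, hL, graphA] using h1
    · intro j _ hj
      simp [w, hL, graphA, Pi.single_eq_of_ne (Ne.symm hj)]
    · intro h; exact absurd (Finset.mem_univ _) h
  obtain ⟨cV, hc'1, hc'2⟩ := exists_reduced V 4 w hw
  have hcV : ∀ i, (fun u => (cV i u : K)) ∈ LinearMap.range L := by
    intro i
    have hle : Submodule.span K (Set.range w) ≤ LinearMap.range L := by
      rw [Submodule.span_le]
      rintro _ ⟨l, rfl⟩
      exact ⟨_, rfl⟩
    exact hle (hc'1 i)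
  refine ⟨IsLocalRing.ResidueField V, inferInstance, inferInstance, fun i u => ρ (cV i u),
    hc'2, ?_⟩
  · intro x
    choose X hX using fun i => IsLocalRing.residue_surjective (R := V) (x i)
    let d : Fin 4 ⊕ J → V := ∑ i, X i • cV i
    have hd : (fun u => (d u : K)) ∈ LinearMap.range L := by
      have h1 : (fun u => (d u : K)) = ∑ i, (X i : K) • fun u => (cV i u : K) := by
        funext u
        rw [← hφ]
        simp only [d, Finset.sum_apply, Pi.smul_apply, smul_eq_mul]
        rw [map_sum]
        refine Finset.sum_congr rfl fun i _ => ?_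
        rw [map_mul]
        rfl
      rw [h1]
      exact Submodule.sum_mem _ fun i _ => Submodule.smul_mem _ _ (hcV i)
    obtain ⟨s, hs⟩ := hd
    rw [hL] at hs
    have hA' := hA s
    rw [hs] at hA'
    let F : V := Phi T (bvec b d) (bvec b d) (bvec b d) (bvec b d) (bvec b d)
    let y : V := ∑ j, d (Sum.inr j) * aeval (fun i => d (Sum.inl i)) (g j)
    have hF : (F : K) = Phi T (bvec b fun u => (d u : K)) (bvec b fun u => (d u : K))
        (bvec b fun u => (d u : K)) (bvec b fun u => (d u : K)) (bvec b fun u => (d u : K)) := by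
      have h1 := map_Phi T φ (bvec b d) (bvec b d) (bvec b d) (bvec b d) (bvec b d)
      have h2 : (fun t => φ (bvec b d t)) = bvec b fun u => (d u : K) := by
        funext t
        rw [bvec_map]
        rfl
      rw [h2] at h1
      exact h1
    have hy : (y : K) = ∑ j, (d (Sum.inr j) : K) *
        aeval (fun i => (d (Sum.inl i) : K)) (g j) := by
      rw [← hφ]
      simp only [y]
      rw [map_sum]
      refine Finset.sum_congr rfl fun j _ => ?_
      rw [map_mul]
      congr 1
      exact comp_aeval_apply (fun i => d (Sum.inl i)) φ (g j)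
    rw [← hF, ← hy] at hA'
    have hFmem : F ∈ IsLocalRing.maximalIdeal V := by
      rw [IsLocalRing.mem_maximalIdeal]
      intro hu
      apply hτV
      obtain ⟨F', hF'⟩ := hu.exists_right_inv
      have h1 : (F : K) * (F' : K) = 1 := by
        have := congrArg (fun v : V => (v : K)) hF'
        simpa using this
      have h2 : τ = ((- y * F' : V) : K) := by
        have h3 : ((- y * F' : V) : K) = - (y : K) * (F' : K) := by push_cast; ring
        rw [h3]
        linear_combination (F' : K) * hA' - τ * h1
      rw [h2]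
      exact Subtype.coe_prop _
    have hF0 : ρ F = 0 := by
      rw [hρ]
      exact (IsLocalRing.residue_eq_zero_iff F).mpr hFmem
    have h1 := map_Phi T ρ (bvec b d) (bvec b d) (bvec b d) (bvec b d) (bvec b d)
    have h2 : (fun t => ρ (bvec b d t)) = bvec b (∑ i, x i • fun u => ρ (cV i u)) := by
      funext t
      rw [bvec_map]
      congr 1
      funext u
      simp only [d, Finset.sum_apply, Pi.smul_apply, smul_eq_mul, map_sum, map_mul]
      refine Finset.sum_congr rfl fun i _ => ?_
      rw [hρ, hX]
    rw [h2] at h1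
    rw [← h1]
    exact hF0

end Deform

section Descent

variable {σ : Type*} [Fintype σ]

/-- a three-space over an extension specialises -/
theorem descend_any {E : Type*} [Field E] [IsAlgClosed E] (T : Ten E σ) {κ : Type*} [Field κ]
    [Algebra E κ] (lam : Fin 4 → σ → κ)
    (hli : LinearIndependent κ lam) (hiso : Iso T lam) :
    ∃ lam' : Fin 4 → σ → E, LinearIndependent E lam' ∧ Iso T lam' := by
  classical
  obtain ⟨D, hD⟩ := dual_of_li lam hli
  let s : Set κ := Set.range (fun q : (Fin 4 × σ) ⊕ (Fin 4 × σ) =>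
    Sum.elim (fun q => lam q.1 q.2) (fun q => D q.1 q.2) q)
  have hsfin : s.Finite := Set.finite_range _
  let A : Subalgebra E κ := Algebra.adjoin E s
  have hfg : A.FG := by
    refine ⟨hsfin.toFinset, ?_⟩
    rw [Set.Finite.coe_toFinset]
  have hft : Algebra.FiniteType E A := (Subalgebra.fg_iff_finiteType A).mp hfg
  obtain ⟨g⟩ := exists_point' (E := E) (A := A)
  have hlam : ∀ j i, lam j i ∈ A := fun j i => Algebra.subset_adjoin ⟨Sum.inl (j, i), rfl⟩
  have hDA : ∀ j i, D j i ∈ A := fun j i => Algebra.subset_adjoin ⟨Sum.inr (j, i), rfl⟩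
  let lamA : Fin 4 → σ → A := fun j i => ⟨lam j i, hlam j i⟩
  let DA : Fin 4 → σ → A := fun j i => ⟨D j i, hDA j i⟩
  refine ⟨fun j i => g (lamA j i), ?_, ?_⟩
  · refine li_of_dual _ (fun j i => g (DA j i)) ?_
    intro i j
    have h1 : ∑ t, lamA i t * DA j t = if i = j then 1 else 0 := by
      apply Subtype.ext
      have h2 := hD i j
      have h3 : ((∑ t, lamA i t * DA j t : A) : κ) = ∑ t, lam i t * D j t := by
        have := map_sum A.val (fun t => lamA i t * DA j t) Finset.univ
        rw [Subalgebra.coe_val] at this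
        rw [this]
        rfl
      rw [h3, h2]
      split_ifs <;> rfl
    have h4 := congrArg g h1
    rw [map_sum] at h4
    simp only [map_mul] at h4
    rw [h4]
    split_ifs
    · exact map_one g
    · exact map_zero g
  · intro i j l m n
    have h1 := map_Phi T A.val (lamA i) (lamA j) (lamA l) (lamA m) (lamA n)
    have h2 : Phi T (lamA i) (lamA j) (lamA l) (lamA m) (lamA n) = 0 := by
      apply Subtype.ext
      exact h1.trans (hiso i j l m n)
    show Phi T (fun t => g (lamA i t)) (fun t => g (lamA j t)) (fun t => g (lamA l t))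
      (fun t => g (lamA m t)) (fun t => g (lamA n t)) = 0
    rw [← map_Phi, h2, map_zero]

end Descent

section Final

variable {σ : Type*} [Fintype σ]

/-- independent families of every length up to the dimension -/
theorem exists_li_any (E : Type*) [Field E] (m : ℕ) (hm : m ≤ Fintype.card σ) :
    ∃ v : Fin m → σ → E, LinearIndependent E v := by
  classical
  obtain ⟨f⟩ : Nonempty (Fin m ↪ σ) := by
    apply Function.Embedding.nonempty_of_card_le
    simpa using hm
  exact ⟨fun i => Pi.single (f i) 1, (Pi.linearIndependent_single_one σ E).comp f f.injective⟩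

/-- the existence theorem, tensor over the field itself, for every system of quartics with a
right inverse -/
theorem exists_P3_any_of_peel {E : Type*} [Field E] [IsAlgClosed E] [CharZero E] (T : Ten E σ)
    {r : ℕ} (g : Fin r → MvPolynomial (Fin 4) E)
    (hpeel : ∀ d : Fin 4 →₀ ℕ, d.degree = 5 →
      ∃ A : Fin r → Fin 4 → E, ∑ j, (∑ i, C (A j i) * X i) * g j = monomial d 1)
    (hcard : 4 + r ≤ Fintype.card σ) :
    ∃ lam : Fin 4 → σ → E, LinearIndependent E lam ∧ Iso T lam := by
  classical
  obtain ⟨v, hv⟩ := exists_li_any (σ := σ) E (4 + r) hcard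
  let e : Fin 4 ⊕ Fin r ≃ Fin (4 + r) := finSumFinEquiv
  let b : Fin 4 ⊕ Fin r → σ → E := fun u => v (e u)
  obtain ⟨τ, A, hτ, hA⟩ := exists_graph_fieldA T b g hpeel
  obtain ⟨κ, hκ1, hκ2, c, hcli, hcF⟩ := exists_residueA T b g τ hτ A hA
  have hch : CharZero κ := charZero_of_injective_algebraMap (algebraMap E κ).injective
  let lam : Fin 4 → σ → κ := fun i => bvec b (c i)
  refine descend_any T lam ?_ ?_
  · -- dual families
    have hb' : LinearIndependent E (fun i : Fin (4 + r) => b (e.symm i)) := by
      have : (fun i : Fin (4 + r) => b (e.symm i)) = v := by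
        funext i
        simp [b]
      rw [this]; exact hv
    obtain ⟨B, hB⟩ := dual_of_li _ hb'
    let c₁ : Fin 4 → Fin (4 + r) → κ := fun i q => c i (e.symm q)
    have hc₁ : LinearIndependent κ c₁ := by
      rw [Fintype.linearIndependent_iff] at hcli ⊢
      intro x hx
      refine hcli x ?_
      funext u
      have := congrFun hx (e u)
      simpa [c₁] using this
    obtain ⟨D, hD⟩ := dual_of_li c₁ hc₁
    refine li_of_dual _ (fun j t => ∑ q, D j q * algebraMap E κ (B q t)) ?_
    intro i j
    rw [← hD i j]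
    have h1 : ∀ t, lam i t = ∑ q, c₁ i q * algebraMap E κ (b (e.symm q) t) := by
      intro t
      show ∑ u, c i u * algebraMap E κ (b u t) = _
      exact (Equiv.sum_comp e.symm fun u => c i u * algebraMap E κ (b u t)).symm
    have h2 : ∀ q q', ∑ t, algebraMap E κ (b (e.symm q) t) * algebraMap E κ (B q' t) =
        if q = q' then 1 else 0 := by
      intro q q'
      have := congrArg (algebraMap E κ) (hB q q')
      rw [map_sum] at this
      simp only [map_mul] at this
      rw [this]
      split_ifs
      · exact map_one _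
      · exact map_zero _
    calc ∑ t, lam i t * ∑ q, D j q * algebraMap E κ (B q t)
        = ∑ t, ∑ q, ∑ q', c₁ i q * D j q' *
          (algebraMap E κ (b (e.symm q) t) * algebraMap E κ (B q' t)) := by
          refine Finset.sum_congr rfl fun t _ => ?_
          rw [h1, Finset.sum_mul]
          refine Finset.sum_congr rfl fun q _ => ?_
          rw [Finset.mul_sum]
          refine Finset.sum_congr rfl fun q' _ => ?_
          ring
      _ = ∑ q, ∑ q', c₁ i q * D j q' * ∑ t,
          (algebraMap E κ (b (e.symm q) t) * algebraMap E κ (B q' t)) := by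
          rw [Finset.sum_comm]
          refine Finset.sum_congr rfl fun q _ => ?_
          rw [Finset.sum_comm]
          refine Finset.sum_congr rfl fun q' _ => ?_
          rw [Finset.mul_sum]
      _ = ∑ q, c₁ i q * D j q := by
          refine Finset.sum_congr rfl fun q _ => ?_
          rw [Finset.sum_congr rfl fun q' _ => by rw [h2 q q']]
          simp
  · apply iso_of_vanish
    intro x
    have h1 : comb lam x = bvec b (∑ i, x i • c i) := by
      funext t
      simp only [comb, lam, bvec, Finset.sum_apply, Pi.smul_apply, smul_eq_mul, Finset.mul_sum,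
        Finset.sum_mul]
      rw [Finset.sum_comm]
      refine Finset.sum_congr rfl fun u _ => Finset.sum_congr rfl fun i _ => ?_
      ring
    rw [h1]
    exact hcF x

end Final

end Pool.Agent.Work.PD5
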