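import Pool.Agent.Work.MP_b62148_ag.Quintic.PeelQ

/-!
Module A10: fourteen explicit quartic forms `g_j` in four variables such that the fifty-six products
`x_i g_j`, `i = 0, 1, 2, 3`, span all quintic forms: the four `x_i^4`, the product `x_0 x_1 x_2 x_3`, the
six `x_i^2 x_j^2` and three sums `g_a = ∑_l x_l^2 x_j x_k`, where `{j, k}` is the `a`-th two-element subset
of the complement of `l`.
-/

namespace Pool.Agent.Work.PD5

open MvPolynomial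

namespace Peel14

open Peel (mo)

variable (E : Type*) [CommRing E]

/-- the fourteen quartic forms -/
noncomputable def gq : Fin 14 → MvPolynomial (Fin 4) E :=
  ![mo E 4 0 0 0,
    mo E 0 4 0 0,
    mo E 0 0 4 0,
    mo E 0 0 0 4,
    mo E 1 1 1 1,
    mo E 2 2 0 0,
    mo E 2 0 2 0,
    mo E 2 0 0 2,
    mo E 0 2 2 0,
    mo E 0 2 0 2,
    mo E 0 0 2 2,
    mo E 2 1 1 0 + mo E 1 2 1 0 + mo E 1 1 2 0 + mo E 1 1 0 2,
    mo E 2 1 0 1 + mo E 1 2 0 1 + mo E 1 0 2 1 + mo E 1 0 1 2,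
    mo E 2 0 1 1 + mo E 0 2 1 1 + mo E 0 1 2 1 + mo E 0 1 1 2]

/-- the linear map `A ↦ ∑ (A x)_j g_j` -/
noncomputable def theta {J : Type*} [Fintype J] (g : J → MvPolynomial (Fin 4) E)
    (A : J → Fin 4 → E) : MvPolynomial (Fin 4) E :=
  ∑ j, (∑ i, C (A j i) * X i) * g j

theorem theta_add {J : Type*} [Fintype J] (g : J → MvPolynomial (Fin 4) E) (A B : J → Fin 4 → E) :
    theta E g (fun j i => A j i + B j i) = theta E g A + theta E g B := by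
  unfold theta
  rw [← Finset.sum_add_distrib]
  refine Finset.sum_congr rfl fun j _ => ?_
  have h : ∑ i : Fin 4, C (A j i + B j i) * (X i : MvPolynomial (Fin 4) E) =
      ∑ i : Fin 4, C (A j i) * (X i : MvPolynomial (Fin 4) E) +
      ∑ i : Fin 4, C (B j i) * (X i : MvPolynomial (Fin 4) E) := by
    rw [← Finset.sum_add_distrib]
    refine Finset.sum_congr rfl fun i _ => ?_
    rw [C_add, add_mul]
  rw [h, add_mul]

theorem theta_smul {J : Type*} [Fintype J] (g : J → MvPolynomial (Fin 4) E) (c : E)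
    (A : J → Fin 4 → E) : theta E g (fun j i => c * A j i) = C c * theta E g A := by
  unfold theta
  rw [Finset.mul_sum]
  refine Finset.sum_congr rfl fun j _ => ?_
  have h : ∑ i : Fin 4, C (c * A j i) * (X i : MvPolynomial (Fin 4) E) =
      C c * ∑ i : Fin 4, C (A j i) * (X i : MvPolynomial (Fin 4) E) := by
    rw [Finset.mul_sum]
    refine Finset.sum_congr rfl fun i _ => ?_
    rw [C_mul, mul_assoc]
  rw [h, mul_assoc]

/-- the image of `theta` -/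
noncomputable def im {J : Type*} [Fintype J] (g : J → MvPolynomial (Fin 4) E) :
    Submodule E (MvPolynomial (Fin 4) E) where
  carrier := {p | ∃ A, theta E g A = p}
  add_mem' := by
    rintro _ _ ⟨A, rfl⟩ ⟨B, rfl⟩
    exact ⟨fun j i => A j i + B j i, theta_add E g A B⟩
  zero_mem' := ⟨0, by simp [theta]⟩
  smul_mem' := by
    rintro c _ ⟨A, rfl⟩
    exact ⟨fun j i => c * A j i, by rw [theta_smul, C_mul']⟩

theorem mem_im_iff {J : Type*} [Fintype J] (g : J → MvPolynomial (Fin 4) E)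
    (p : MvPolynomial (Fin 4) E) : p ∈ im E g ↔ ∃ A, theta E g A = p := Iff.rfl

theorem mem_im {J : Type*} [Fintype J] [DecidableEq J] (g : J → MvPolynomial (Fin 4) E) (i : Fin 4)
    (j : J) : X i * g j ∈ im E g := by
  refine ⟨fun j' i' => if j' = j then (if i' = i then 1 else 0) else 0, ?_⟩
  unfold theta
  have h1 : ∀ j' : J, (∑ i' : Fin 4, C (if j' = j then (if i' = i then (1 : E) else 0) else 0) *
      (X i' : MvPolynomial (Fin 4) E)) * g j' = if j' = j then X i * g j else 0 := by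
    intro j'
    split_ifs with h
    · have h2 : ∑ i' : Fin 4, C (if i' = i then (1 : E) else 0) *
          (X i' : MvPolynomial (Fin 4) E) = X i := by
        rw [Finset.sum_eq_single i]
        · rw [if_pos rfl, C_1, one_mul]
        · intro i' _ hi'
          rw [if_neg hi', C_0, zero_mul]
        · intro h3; exact absurd (Finset.mem_univ _) h3
      rw [h2, h]
    · have h2 : ∑ i' : Fin 4, C (0 : E) * (X i' : MvPolynomial (Fin 4) E) = 0 := by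
        refine Finset.sum_eq_zero fun i' _ => ?_
        rw [C_0, zero_mul]
      rw [h2, zero_mul]
  rw [Finset.sum_congr rfl fun j' _ => h1 j', Finset.sum_ite_eq' Finset.univ j,
    if_pos (Finset.mem_univ _)]

variable {E} in
/-- `x_i g_j = p + (q + (r + s))` with `q, r, s` in the image -/
theorem sub_step {p q r s : MvPolynomial (Fin 4) E} (i : Fin 4) (j : Fin 14)
    (hp : X i * gq E j = p + (q + (r + s)))
    (hq : q ∈ im E (gq E)) (hr : r ∈ im E (gq E)) (hs : s ∈ im E (gq E)) : p ∈ im E (gq E) := by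
  have h := (im E (gq E)).sub_mem (mem_im E (gq E) i j)
    ((im E (gq E)).add_mem hq ((im E (gq E)).add_mem hr hs))
  rwa [hp, add_sub_cancel_right] at h

theorem m5000 : mo E 5 0 0 0 ∈ im E (gq E) := by
  have h := mem_im E (gq E) 0 0
  have h2 : X 0 * gq E 0 = mo E 5 0 0 0 := by
    show X 0 * (mo E 4 0 0 0) = mo E 5 0 0 0
    unfold mo; ring
  rwa [h2] at h

theorem m1400 : mo E 1 4 0 0 ∈ im E (gq E) := by
  have h := mem_im E (gq E) 0 1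
  have h2 : X 0 * gq E 1 = mo E 1 4 0 0 := by
    show X 0 * (mo E 0 4 0 0) = mo E 1 4 0 0
    unfold mo; ring
  rwa [h2] at h

theorem m1040 : mo E 1 0 4 0 ∈ im E (gq E) := by
  have h := mem_im E (gq E) 0 2
  have h2 : X 0 * gq E 2 = mo E 1 0 4 0 := by
    show X 0 * (mo E 0 0 4 0) = mo E 1 0 4 0
    unfold mo; ring
  rwa [h2] at h

theorem m1004 : mo E 1 0 0 4 ∈ im E (gq E) := by
  have h := mem_im E (gq E) 0 3
  have h2 : X 0 * gq E 3 = mo E 1 0 0 4 := by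
    show X 0 * (mo E 0 0 0 4) = mo E 1 0 0 4
    unfold mo; ring
  rwa [h2] at h

theorem m2111 : mo E 2 1 1 1 ∈ im E (gq E) := by
  have h := mem_im E (gq E) 0 4
  have h2 : X 0 * gq E 4 = mo E 2 1 1 1 := by
    show X 0 * (mo E 1 1 1 1) = mo E 2 1 1 1
    unfold mo; ring
  rwa [h2] at h

theorem m3200 : mo E 3 2 0 0 ∈ im E (gq E) := by
  have h := mem_im E (gq E) 0 5
  have h2 : X 0 * gq E 5 = mo E 3 2 0 0 := by
    show X 0 * (mo E 2 2 0 0) = mo E 3 2 0 0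
    unfold mo; ring
  rwa [h2] at h

theorem m3020 : mo E 3 0 2 0 ∈ im E (gq E) := by
  have h := mem_im E (gq E) 0 6
  have h2 : X 0 * gq E 6 = mo E 3 0 2 0 := by
    show X 0 * (mo E 2 0 2 0) = mo E 3 0 2 0
    unfold mo; ring
  rwa [h2] at h

theorem m3002 : mo E 3 0 0 2 ∈ im E (gq E) := by
  have h := mem_im E (gq E) 0 7
  have h2 : X 0 * gq E 7 = mo E 3 0 0 2 := by
    show X 0 * (mo E 2 0 0 2) = mo E 3 0 0 2
    unfold mo; ring
  rwa [h2] at h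

theorem m1220 : mo E 1 2 2 0 ∈ im E (gq E) := by
  have h := mem_im E (gq E) 0 8
  have h2 : X 0 * gq E 8 = mo E 1 2 2 0 := by
    show X 0 * (mo E 0 2 2 0) = mo E 1 2 2 0
    unfold mo; ring
  rwa [h2] at h

theorem m1202 : mo E 1 2 0 2 ∈ im E (gq E) := by
  have h := mem_im E (gq E) 0 9
  have h2 : X 0 * gq E 9 = mo E 1 2 0 2 := by
    show X 0 * (mo E 0 2 0 2) = mo E 1 2 0 2
    unfold mo; ring
  rwa [h2] at h

theorem m1022 : mo E 1 0 2 2 ∈ im E (gq E) := by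
  have h := mem_im E (gq E) 0 10
  have h2 : X 0 * gq E 10 = mo E 1 0 2 2 := by
    show X 0 * (mo E 0 0 2 2) = mo E 1 0 2 2
    unfold mo; ring
  rwa [h2] at h

theorem m4100 : mo E 4 1 0 0 ∈ im E (gq E) := by
  have h := mem_im E (gq E) 1 0
  have h2 : X 1 * gq E 0 = mo E 4 1 0 0 := by
    show X 1 * (mo E 4 0 0 0) = mo E 4 1 0 0
    unfold mo; ring
  rwa [h2] at h

theorem m0500 : mo E 0 5 0 0 ∈ im E (gq E) := by
  have h := mem_im E (gq E) 1 1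
  have h2 : X 1 * gq E 1 = mo E 0 5 0 0 := by
    show X 1 * (mo E 0 4 0 0) = mo E 0 5 0 0
    unfold mo; ring
  rwa [h2] at h

theorem m0140 : mo E 0 1 4 0 ∈ im E (gq E) := by
  have h := mem_im E (gq E) 1 2
  have h2 : X 1 * gq E 2 = mo E 0 1 4 0 := by
    show X 1 * (mo E 0 0 4 0) = mo E 0 1 4 0
    unfold mo; ring
  rwa [h2] at h

theorem m0104 : mo E 0 1 0 4 ∈ im E (gq E) := by
  have h := mem_im E (gq E) 1 3
  have h2 : X 1 * gq E 3 = mo E 0 1 0 4 := by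
    show X 1 * (mo E 0 0 0 4) = mo E 0 1 0 4
    unfold mo; ring
  rwa [h2] at h

theorem m1211 : mo E 1 2 1 1 ∈ im E (gq E) := by
  have h := mem_im E (gq E) 1 4
  have h2 : X 1 * gq E 4 = mo E 1 2 1 1 := by
    show X 1 * (mo E 1 1 1 1) = mo E 1 2 1 1
    unfold mo; ring
  rwa [h2] at h

theorem m2300 : mo E 2 3 0 0 ∈ im E (gq E) := by
  have h := mem_im E (gq E) 1 5
  have h2 : X 1 * gq E 5 = mo E 2 3 0 0 := by
    show X 1 * (mo E 2 2 0 0) = mo E 2 3 0 0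
    unfold mo; ring
  rwa [h2] at h

theorem m2120 : mo E 2 1 2 0 ∈ im E (gq E) := by
  have h := mem_im E (gq E) 1 6
  have h2 : X 1 * gq E 6 = mo E 2 1 2 0 := by
    show X 1 * (mo E 2 0 2 0) = mo E 2 1 2 0
    unfold mo; ring
  rwa [h2] at h

theorem m2102 : mo E 2 1 0 2 ∈ im E (gq E) := by
  have h := mem_im E (gq E) 1 7
  have h2 : X 1 * gq E 7 = mo E 2 1 0 2 := by
    show X 1 * (mo E 2 0 0 2) = mo E 2 1 0 2
    unfold mo; ring
  rwa [h2] at h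

theorem m0320 : mo E 0 3 2 0 ∈ im E (gq E) := by
  have h := mem_im E (gq E) 1 8
  have h2 : X 1 * gq E 8 = mo E 0 3 2 0 := by
    show X 1 * (mo E 0 2 2 0) = mo E 0 3 2 0
    unfold mo; ring
  rwa [h2] at h

theorem m0302 : mo E 0 3 0 2 ∈ im E (gq E) := by
  have h := mem_im E (gq E) 1 9
  have h2 : X 1 * gq E 9 = mo E 0 3 0 2 := by
    show X 1 * (mo E 0 2 0 2) = mo E 0 3 0 2
    unfold mo; ring
  rwa [h2] at h

theorem m0122 : mo E 0 1 2 2 ∈ im E (gq E) := by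
  have h := mem_im E (gq E) 1 10
  have h2 : X 1 * gq E 10 = mo E 0 1 2 2 := by
    show X 1 * (mo E 0 0 2 2) = mo E 0 1 2 2
    unfold mo; ring
  rwa [h2] at h

theorem m4010 : mo E 4 0 1 0 ∈ im E (gq E) := by
  have h := mem_im E (gq E) 2 0
  have h2 : X 2 * gq E 0 = mo E 4 0 1 0 := by
    show X 2 * (mo E 4 0 0 0) = mo E 4 0 1 0
    unfold mo; ring
  rwa [h2] at h

theorem m0410 : mo E 0 4 1 0 ∈ im E (gq E) := by
  have h := mem_im E (gq E) 2 1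
  have h2 : X 2 * gq E 1 = mo E 0 4 1 0 := by
    show X 2 * (mo E 0 4 0 0) = mo E 0 4 1 0
    unfold mo; ring
  rwa [h2] at h

theorem m0050 : mo E 0 0 5 0 ∈ im E (gq E) := by
  have h := mem_im E (gq E) 2 2
  have h2 : X 2 * gq E 2 = mo E 0 0 5 0 := by
    show X 2 * (mo E 0 0 4 0) = mo E 0 0 5 0
    unfold mo; ring
  rwa [h2] at h

theorem m0014 : mo E 0 0 1 4 ∈ im E (gq E) := by
  have h := mem_im E (gq E) 2 3
  have h2 : X 2 * gq E 3 = mo E 0 0 1 4 := by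
    show X 2 * (mo E 0 0 0 4) = mo E 0 0 1 4
    unfold mo; ring
  rwa [h2] at h

theorem m1121 : mo E 1 1 2 1 ∈ im E (gq E) := by
  have h := mem_im E (gq E) 2 4
  have h2 : X 2 * gq E 4 = mo E 1 1 2 1 := by
    show X 2 * (mo E 1 1 1 1) = mo E 1 1 2 1
    unfold mo; ring
  rwa [h2] at h

theorem m2210 : mo E 2 2 1 0 ∈ im E (gq E) := by
  have h := mem_im E (gq E) 2 5
  have h2 : X 2 * gq E 5 = mo E 2 2 1 0 := by
    show X 2 * (mo E 2 2 0 0) = mo E 2 2 1 0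
    unfold mo; ring
  rwa [h2] at h

theorem m2030 : mo E 2 0 3 0 ∈ im E (gq E) := by
  have h := mem_im E (gq E) 2 6
  have h2 : X 2 * gq E 6 = mo E 2 0 3 0 := by
    show X 2 * (mo E 2 0 2 0) = mo E 2 0 3 0
    unfold mo; ring
  rwa [h2] at h

theorem m2012 : mo E 2 0 1 2 ∈ im E (gq E) := by
  have h := mem_im E (gq E) 2 7
  have h2 : X 2 * gq E 7 = mo E 2 0 1 2 := by
    show X 2 * (mo E 2 0 0 2) = mo E 2 0 1 2
    unfold mo; ring
  rwa [h2] at h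

theorem m0230 : mo E 0 2 3 0 ∈ im E (gq E) := by
  have h := mem_im E (gq E) 2 8
  have h2 : X 2 * gq E 8 = mo E 0 2 3 0 := by
    show X 2 * (mo E 0 2 2 0) = mo E 0 2 3 0
    unfold mo; ring
  rwa [h2] at h

theorem m0212 : mo E 0 2 1 2 ∈ im E (gq E) := by
  have h := mem_im E (gq E) 2 9
  have h2 : X 2 * gq E 9 = mo E 0 2 1 2 := by
    show X 2 * (mo E 0 2 0 2) = mo E 0 2 1 2
    unfold mo; ring
  rwa [h2] at h

theorem m0032 : mo E 0 0 3 2 ∈ im E (gq E) := by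
  have h := mem_im E (gq E) 2 10
  have h2 : X 2 * gq E 10 = mo E 0 0 3 2 := by
    show X 2 * (mo E 0 0 2 2) = mo E 0 0 3 2
    unfold mo; ring
  rwa [h2] at h

theorem m4001 : mo E 4 0 0 1 ∈ im E (gq E) := by
  have h := mem_im E (gq E) 3 0
  have h2 : X 3 * gq E 0 = mo E 4 0 0 1 := by
    show X 3 * (mo E 4 0 0 0) = mo E 4 0 0 1
    unfold mo; ring
  rwa [h2] at h

theorem m0401 : mo E 0 4 0 1 ∈ im E (gq E) := by
  have h := mem_im E (gq E) 3 1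
  have h2 : X 3 * gq E 1 = mo E 0 4 0 1 := by
    show X 3 * (mo E 0 4 0 0) = mo E 0 4 0 1
    unfold mo; ring
  rwa [h2] at h

theorem m0041 : mo E 0 0 4 1 ∈ im E (gq E) := by
  have h := mem_im E (gq E) 3 2
  have h2 : X 3 * gq E 2 = mo E 0 0 4 1 := by
    show X 3 * (mo E 0 0 4 0) = mo E 0 0 4 1
    unfold mo; ring
  rwa [h2] at h

theorem m0005 : mo E 0 0 0 5 ∈ im E (gq E) := by
  have h := mem_im E (gq E) 3 3
  have h2 : X 3 * gq E 3 = mo E 0 0 0 5 := by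
    show X 3 * (mo E 0 0 0 4) = mo E 0 0 0 5
    unfold mo; ring
  rwa [h2] at h

theorem m1112 : mo E 1 1 1 2 ∈ im E (gq E) := by
  have h := mem_im E (gq E) 3 4
  have h2 : X 3 * gq E 4 = mo E 1 1 1 2 := by
    show X 3 * (mo E 1 1 1 1) = mo E 1 1 1 2
    unfold mo; ring
  rwa [h2] at h

theorem m2201 : mo E 2 2 0 1 ∈ im E (gq E) := by
  have h := mem_im E (gq E) 3 5
  have h2 : X 3 * gq E 5 = mo E 2 2 0 1 := by
    show X 3 * (mo E 2 2 0 0) = mo E 2 2 0 1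
    unfold mo; ring
  rwa [h2] at h

theorem m2021 : mo E 2 0 2 1 ∈ im E (gq E) := by
  have h := mem_im E (gq E) 3 6
  have h2 : X 3 * gq E 6 = mo E 2 0 2 1 := by
    show X 3 * (mo E 2 0 2 0) = mo E 2 0 2 1
    unfold mo; ring
  rwa [h2] at h

theorem m2003 : mo E 2 0 0 3 ∈ im E (gq E) := by
  have h := mem_im E (gq E) 3 7
  have h2 : X 3 * gq E 7 = mo E 2 0 0 3 := by
    show X 3 * (mo E 2 0 0 2) = mo E 2 0 0 3
    unfold mo; ring
  rwa [h2] at h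

theorem m0221 : mo E 0 2 2 1 ∈ im E (gq E) := by
  have h := mem_im E (gq E) 3 8
  have h2 : X 3 * gq E 8 = mo E 0 2 2 1 := by
    show X 3 * (mo E 0 2 2 0) = mo E 0 2 2 1
    unfold mo; ring
  rwa [h2] at h

theorem m0203 : mo E 0 2 0 3 ∈ im E (gq E) := by
  have h := mem_im E (gq E) 3 9
  have h2 : X 3 * gq E 9 = mo E 0 2 0 3 := by
    show X 3 * (mo E 0 2 0 2) = mo E 0 2 0 3
    unfold mo; ring
  rwa [h2] at h

theorem m0023 : mo E 0 0 2 3 ∈ im E (gq E) := by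
  have h := mem_im E (gq E) 3 10
  have h2 : X 3 * gq E 10 = mo E 0 0 2 3 := by
    show X 3 * (mo E 0 0 2 2) = mo E 0 0 2 3
    unfold mo; ring
  rwa [h2] at h

theorem m3110 : mo E 3 1 1 0 ∈ im E (gq E) := by
  refine sub_step 0 11 (q := mo E 2 2 1 0) (r := mo E 2 1 2 0) (s := mo E 2 1 0 2) ?_
    (m2210 E) (m2120 E) (m2102 E)
  show X 0 * (mo E 2 1 1 0 + mo E 1 2 1 0 + mo E 1 1 2 0 + mo E 1 1 0 2) = mo E 3 1 1 0 + (mo E 2 2 1 0 + (mo E 2 1 2 0 + mo E 2 1 0 2))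
  unfold mo; ring

theorem m1310 : mo E 1 3 1 0 ∈ im E (gq E) := by
  refine sub_step 1 11 (q := mo E 2 2 1 0) (r := mo E 1 2 2 0) (s := mo E 1 2 0 2) ?_
    (m2210 E) (m1220 E) (m1202 E)
  show X 1 * (mo E 2 1 1 0 + mo E 1 2 1 0 + mo E 1 1 2 0 + mo E 1 1 0 2) = mo E 1 3 1 0 + (mo E 2 2 1 0 + (mo E 1 2 2 0 + mo E 1 2 0 2))
  unfold mo; ring

theorem m1130 : mo E 1 1 3 0 ∈ im E (gq E) := by
  refine sub_step 2 11 (q := mo E 2 1 2 0) (r := mo E 1 2 2 0) (s := mo E 1 1 1 2) ?_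
    (m2120 E) (m1220 E) (m1112 E)
  show X 2 * (mo E 2 1 1 0 + mo E 1 2 1 0 + mo E 1 1 2 0 + mo E 1 1 0 2) = mo E 1 1 3 0 + (mo E 2 1 2 0 + (mo E 1 2 2 0 + mo E 1 1 1 2))
  unfold mo; ring

theorem m1103 : mo E 1 1 0 3 ∈ im E (gq E) := by
  refine sub_step 3 11 (q := mo E 2 1 1 1) (r := mo E 1 2 1 1) (s := mo E 1 1 2 1) ?_
    (m2111 E) (m1211 E) (m1121 E)
  show X 3 * (mo E 2 1 1 0 + mo E 1 2 1 0 + mo E 1 1 2 0 + mo E 1 1 0 2) = mo E 1 1 0 3 + (mo E 2 1 1 1 + (mo E 1 2 1 1 + mo E 1 1 2 1))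
  unfold mo; ring

theorem m3101 : mo E 3 1 0 1 ∈ im E (gq E) := by
  refine sub_step 0 12 (q := mo E 2 2 0 1) (r := mo E 2 0 2 1) (s := mo E 2 0 1 2) ?_
    (m2201 E) (m2021 E) (m2012 E)
  show X 0 * (mo E 2 1 0 1 + mo E 1 2 0 1 + mo E 1 0 2 1 + mo E 1 0 1 2) = mo E 3 1 0 1 + (mo E 2 2 0 1 + (mo E 2 0 2 1 + mo E 2 0 1 2))
  unfold mo; ring

theorem m1301 : mo E 1 3 0 1 ∈ im E (gq E) := by
  refine sub_step 1 12 (q := mo E 2 2 0 1) (r := mo E 1 1 2 1) (s := mo E 1 1 1 2) ?_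
    (m2201 E) (m1121 E) (m1112 E)
  show X 1 * (mo E 2 1 0 1 + mo E 1 2 0 1 + mo E 1 0 2 1 + mo E 1 0 1 2) = mo E 1 3 0 1 + (mo E 2 2 0 1 + (mo E 1 1 2 1 + mo E 1 1 1 2))
  unfold mo; ring

theorem m1031 : mo E 1 0 3 1 ∈ im E (gq E) := by
  refine sub_step 2 12 (q := mo E 2 1 1 1) (r := mo E 1 2 1 1) (s := mo E 1 0 2 2) ?_
    (m2111 E) (m1211 E) (m1022 E)
  show X 2 * (mo E 2 1 0 1 + mo E 1 2 0 1 + mo E 1 0 2 1 + mo E 1 0 1 2) = mo E 1 0 3 1 + (mo E 2 1 1 1 + (mo E 1 2 1 1 + mo E 1 0 2 2))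
  unfold mo; ring

theorem m1013 : mo E 1 0 1 3 ∈ im E (gq E) := by
  refine sub_step 3 12 (q := mo E 2 1 0 2) (r := mo E 1 2 0 2) (s := mo E 1 0 2 2) ?_
    (m2102 E) (m1202 E) (m1022 E)
  show X 3 * (mo E 2 1 0 1 + mo E 1 2 0 1 + mo E 1 0 2 1 + mo E 1 0 1 2) = mo E 1 0 1 3 + (mo E 2 1 0 2 + (mo E 1 2 0 2 + mo E 1 0 2 2))
  unfold mo; ring

theorem m3011 : mo E 3 0 1 1 ∈ im E (gq E) := by
  refine sub_step 0 13 (q := mo E 1 2 1 1) (r := mo E 1 1 2 1) (s := mo E 1 1 1 2) ?_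
    (m1211 E) (m1121 E) (m1112 E)
  show X 0 * (mo E 2 0 1 1 + mo E 0 2 1 1 + mo E 0 1 2 1 + mo E 0 1 1 2) = mo E 3 0 1 1 + (mo E 1 2 1 1 + (mo E 1 1 2 1 + mo E 1 1 1 2))
  unfold mo; ring

theorem m0311 : mo E 0 3 1 1 ∈ im E (gq E) := by
  refine sub_step 1 13 (q := mo E 2 1 1 1) (r := mo E 0 2 2 1) (s := mo E 0 2 1 2) ?_
    (m2111 E) (m0221 E) (m0212 E)
  show X 1 * (mo E 2 0 1 1 + mo E 0 2 1 1 + mo E 0 1 2 1 + mo E 0 1 1 2) = mo E 0 3 1 1 + (mo E 2 1 1 1 + (mo E 0 2 2 1 + mo E 0 2 1 2))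
  unfold mo; ring

theorem m0131 : mo E 0 1 3 1 ∈ im E (gq E) := by
  refine sub_step 2 13 (q := mo E 2 0 2 1) (r := mo E 0 2 2 1) (s := mo E 0 1 2 2) ?_
    (m2021 E) (m0221 E) (m0122 E)
  show X 2 * (mo E 2 0 1 1 + mo E 0 2 1 1 + mo E 0 1 2 1 + mo E 0 1 1 2) = mo E 0 1 3 1 + (mo E 2 0 2 1 + (mo E 0 2 2 1 + mo E 0 1 2 2))
  unfold mo; ring

theorem m0113 : mo E 0 1 1 3 ∈ im E (gq E) := by
  refine sub_step 3 13 (q := mo E 2 0 1 2) (r := mo E 0 2 1 2) (s := mo E 0 1 2 2) ?_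
    (m2012 E) (m0212 E) (m0122 E)
  show X 3 * (mo E 2 0 1 1 + mo E 0 2 1 1 + mo E 0 1 2 1 + mo E 0 1 1 2) = mo E 0 1 1 3 + (mo E 2 0 1 2 + (mo E 0 2 1 2 + mo E 0 1 2 2))
  unfold mo; ring

/-- the list of exponents -/
def expo : List (ℕ × ℕ × ℕ × ℕ) :=
  [(5, 0, 0, 0),
    (1, 4, 0, 0),
    (1, 0, 4, 0),
    (1, 0, 0, 4),
    (2, 1, 1, 1),
    (3, 2, 0, 0),
    (3, 0, 2, 0),
    (3, 0, 0, 2),
    (1, 2, 2, 0),
    (1, 2, 0, 2),
    (1, 0, 2, 2),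
    (4, 1, 0, 0),
    (0, 5, 0, 0),
    (0, 1, 4, 0),
    (0, 1, 0, 4),
    (1, 2, 1, 1),
    (2, 3, 0, 0),
    (2, 1, 2, 0),
    (2, 1, 0, 2),
    (0, 3, 2, 0),
    (0, 3, 0, 2),
    (0, 1, 2, 2),
    (4, 0, 1, 0),
    (0, 4, 1, 0),
    (0, 0, 5, 0),
    (0, 0, 1, 4),
    (1, 1, 2, 1),
    (2, 2, 1, 0),
    (2, 0, 3, 0),
    (2, 0, 1, 2),
    (0, 2, 3, 0),
    (0, 2, 1, 2),
    (0, 0, 3, 2),
    (4, 0, 0, 1),
    (0, 4, 0, 1),
    (0, 0, 4, 1),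
    (0, 0, 0, 5),
    (1, 1, 1, 2),
    (2, 2, 0, 1),
    (2, 0, 2, 1),
    (2, 0, 0, 3),
    (0, 2, 2, 1),
    (0, 2, 0, 3),
    (0, 0, 2, 3),
    (3, 1, 1, 0),
    (1, 3, 1, 0),
    (1, 1, 3, 0),
    (1, 1, 0, 3),
    (3, 1, 0, 1),
    (1, 3, 0, 1),
    (1, 0, 3, 1),
    (1, 0, 1, 3),
    (3, 0, 1, 1),
    (0, 3, 1, 1),
    (0, 1, 3, 1),
    (0, 1, 1, 3)]

theorem mem_expo (a b c : ℕ) (ha : a ≤ 5) (hb : b ≤ 5 - a) (hc : c ≤ 5 - a - b) :
    (a, b, c, 5 - a - b - c) ∈ expo := by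
  interval_cases a <;> interval_cases b <;> interval_cases c <;> decide

theorem all_expo : ∀ t ∈ expo, mo E t.1 t.2.1 t.2.2.1 t.2.2.2 ∈ im E (gq E) :=
  List.forall_mem_cons.mpr ⟨m5000 E,
  List.forall_mem_cons.mpr ⟨m1400 E,
  List.forall_mem_cons.mpr ⟨m1040 E,
  List.forall_mem_cons.mpr ⟨m1004 E,
  List.forall_mem_cons.mpr ⟨m2111 E,
  List.forall_mem_cons.mpr ⟨m3200 E,
  List.forall_mem_cons.mpr ⟨m3020 E,
  List.forall_mem_cons.mpr ⟨m3002 E,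
  List.forall_mem_cons.mpr ⟨m1220 E,
  List.forall_mem_cons.mpr ⟨m1202 E,
  List.forall_mem_cons.mpr ⟨m1022 E,
  List.forall_mem_cons.mpr ⟨m4100 E,
  List.forall_mem_cons.mpr ⟨m0500 E,
  List.forall_mem_cons.mpr ⟨m0140 E,
  List.forall_mem_cons.mpr ⟨m0104 E,
  List.forall_mem_cons.mpr ⟨m1211 E,
  List.forall_mem_cons.mpr ⟨m2300 E,
  List.forall_mem_cons.mpr ⟨m2120 E,
  List.forall_mem_cons.mpr ⟨m2102 E,
  List.forall_mem_cons.mpr ⟨m0320 E,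
  List.forall_mem_cons.mpr ⟨m0302 E,
  List.forall_mem_cons.mpr ⟨m0122 E,
  List.forall_mem_cons.mpr ⟨m4010 E,
  List.forall_mem_cons.mpr ⟨m0410 E,
  List.forall_mem_cons.mpr ⟨m0050 E,
  List.forall_mem_cons.mpr ⟨m0014 E,
  List.forall_mem_cons.mpr ⟨m1121 E,
  List.forall_mem_cons.mpr ⟨m2210 E,
  List.forall_mem_cons.mpr ⟨m2030 E,
  List.forall_mem_cons.mpr ⟨m2012 E,
  List.forall_mem_cons.mpr ⟨m0230 E,
  List.forall_mem_cons.mpr ⟨m0212 E,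
  List.forall_mem_cons.mpr ⟨m0032 E,
  List.forall_mem_cons.mpr ⟨m4001 E,
  List.forall_mem_cons.mpr ⟨m0401 E,
  List.forall_mem_cons.mpr ⟨m0041 E,
  List.forall_mem_cons.mpr ⟨m0005 E,
  List.forall_mem_cons.mpr ⟨m1112 E,
  List.forall_mem_cons.mpr ⟨m2201 E,
  List.forall_mem_cons.mpr ⟨m2021 E,
  List.forall_mem_cons.mpr ⟨m2003 E,
  List.forall_mem_cons.mpr ⟨m0221 E,
  List.forall_mem_cons.mpr ⟨m0203 E,
  List.forall_mem_cons.mpr ⟨m0023 E,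
  List.forall_mem_cons.mpr ⟨m3110 E,
  List.forall_mem_cons.mpr ⟨m1310 E,
  List.forall_mem_cons.mpr ⟨m1130 E,
  List.forall_mem_cons.mpr ⟨m1103 E,
  List.forall_mem_cons.mpr ⟨m3101 E,
  List.forall_mem_cons.mpr ⟨m1301 E,
  List.forall_mem_cons.mpr ⟨m1031 E,
  List.forall_mem_cons.mpr ⟨m1013 E,
  List.forall_mem_cons.mpr ⟨m3011 E,
  List.forall_mem_cons.mpr ⟨m0311 E,
  List.forall_mem_cons.mpr ⟨m0131 E,
  List.forall_mem_cons.mpr ⟨m0113 E,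
  fun _ h => absurd h List.not_mem_nil⟩⟩⟩⟩⟩⟩⟩⟩⟩⟩⟩⟩⟩⟩⟩⟩⟩⟩⟩⟩⟩⟩⟩⟩⟩⟩⟩⟩⟩⟩⟩⟩⟩⟩⟩⟩⟩⟩⟩⟩⟩⟩⟩⟩⟩⟩⟩⟩⟩⟩⟩⟩⟩⟩⟩⟩

theorem mo_mem (a b c d : ℕ) (h : a + b + c + d = 5) : mo E a b c d ∈ im E (gq E) := by
  have hd : d = 5 - a - b - c := by omega
  subst hd
  exact all_expo E (a, b, c, 5 - a - b - c) (mem_expo a b c (by omega) (by omega) (by omega))

/-- every quintic monomial is in the image -/
theorem peel (d : Fin 4 →₀ ℕ) (hd : d.degree = 5) :
    ∃ A : Fin 14 → Fin 4 → E,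
      ∑ j, (∑ i, C (A j i) * X i) * gq E j = monomial d (1 : E) := by
  have h1 : d 0 + d 1 + d 2 + d 3 = 5 := by
    rw [← hd, Finsupp.degree_eq_sum, Fin.sum_univ_four]
  obtain ⟨A, hA⟩ := (mem_im_iff E _ _).mp (mo_mem E (d 0) (d 1) (d 2) (d 3) h1)
  exact ⟨A, hA.trans (Peel.monomial_eq_mo E d).symm⟩

theorem gq_hom : ∀ l, (gq E l).IsHomogeneous 4 := by
  intro l
  fin_cases l
  · exact Peel.mo_hom E 4 0 0 0 rfl
  · exact Peel.mo_hom E 0 4 0 0 rfl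
  · exact Peel.mo_hom E 0 0 4 0 rfl
  · exact Peel.mo_hom E 0 0 0 4 rfl
  · exact Peel.mo_hom E 1 1 1 1 rfl
  · exact Peel.mo_hom E 2 2 0 0 rfl
  · exact Peel.mo_hom E 2 0 2 0 rfl
  · exact Peel.mo_hom E 2 0 0 2 rfl
  · exact Peel.mo_hom E 0 2 2 0 rfl
  · exact Peel.mo_hom E 0 2 0 2 rfl
  · exact Peel.mo_hom E 0 0 2 2 rfl
  · exact ((((Peel.mo_hom E 2 1 1 0 rfl).add (Peel.mo_hom E 1 2 1 0 rfl)).add (Peel.mo_hom E 1 1 2 0 rfl)).add (Peel.mo_hom E 1 1 0 2 rfl))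
  · exact ((((Peel.mo_hom E 2 1 0 1 rfl).add (Peel.mo_hom E 1 2 0 1 rfl)).add (Peel.mo_hom E 1 0 2 1 rfl)).add (Peel.mo_hom E 1 0 1 2 rfl))
  · exact ((((Peel.mo_hom E 2 0 1 1 rfl).add (Peel.mo_hom E 0 2 1 1 rfl)).add (Peel.mo_hom E 0 1 2 1 rfl)).add (Peel.mo_hom E 0 1 1 2 rfl))

/-- the same for a larger index set, the additional forms being zero -/
theorem peel_ext {J : Type*} [Fintype J] (f : Fin 14 ↪ J) (g : J → MvPolynomial (Fin 4) E)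
    (hg : ∀ j, g (f j) = gq E j) (d : Fin 4 →₀ ℕ) (hd : d.degree = 5) :
    ∃ A : J → Fin 4 → E, ∑ j, (∑ i, C (A j i) * X i) * g j = monomial d (1 : E) := by
  classical
  obtain ⟨A, hA⟩ := peel E d hd
  refine ⟨fun j i => ∑ l, if f l = j then A l i else 0, ?_⟩
  rw [← hA]
  have h1 : ∀ j, (∑ i, C (∑ l, if f l = j then A l i else 0) * X i) * g j =
      ∑ l, if f l = j then (∑ i, C (A l i) * X i) * g j else 0 := by
    intro j
    simp only [map_sum, Finset.sum_mul]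
    rw [Finset.sum_comm]
    refine Finset.sum_congr rfl fun l _ => ?_
    split_ifs with h
    · rfl
    · simp
  rw [Finset.sum_congr rfl fun j _ => h1 j, Finset.sum_comm]
  refine Finset.sum_congr rfl fun l _ => ?_
  rw [Finset.sum_ite_eq Finset.univ (f l)]
  simp [hg]

/-- fourteen quartic forms whose products with the variables span all quintic forms; extra forms are zero -/
theorem exists_forms {J : Type*} [Fintype J] (hJ : 14 ≤ Fintype.card J) :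
    ∃ g : J → MvPolynomial (Fin 4) E, (∀ j, (g j).IsHomogeneous 4) ∧
      ∀ d : Fin 4 →₀ ℕ, d.degree = 5 →
        ∃ A : J → Fin 4 → E, ∑ j, (∑ i, C (A j i) * X i) * g j = monomial d (1 : E) := by
  classical
  obtain ⟨f⟩ : Nonempty (Fin 14 ↪ J) := Function.Embedding.nonempty_of_card_le (by simpa using hJ)
  refine ⟨fun j => ∑ l, if f l = j then gq E l else 0, ?_, ?_⟩
  · intro j
    refine IsHomogeneous.sum _ _ _ fun l _ => ?_
    split_ifs with h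
    · exact gq_hom E l
    · exact isHomogeneous_zero _ _ _
  · intro d hd
    refine peel_ext E f _ (fun l => ?_) d hd
    rw [Finset.sum_eq_single l]
    · rw [if_pos rfl]
    · intro l' _ hl'
      rw [if_neg]
      exact fun h => hl' (f.injective h)
    · intro h
      exact absurd (Finset.mem_univ _) h

end Peel14

end Pool.Agent.Work.PD5
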