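import Mathlib
import Pool.Agent.Work.MP_b62148_ag.Quintic.FixAnyQ
import Pool.Agent.Work.MP_b62148_ag.Quintic.PeelT

/-!
A projective three-space in every quintic hypersurface of projective space of dimension at
least 17.
-/

namespace Pool.Agent.Work.PD5

theorem exists_P3_any {k : Type*} [Field k] {σ : Type*} [Fintype σ] {E : Type*} [Field E]
    [CharZero E] [Algebra k E] [IsAlgClosed E] (T : Ten k σ) (hcard : 18 ≤ Fintype.card σ) :
    ∃ lam : Fin 4 → σ → E, LinearIndependent E lam ∧ Iso T lam :=
  exists_P3_any_of_peel (T.bc E) (Peel14.gq E) (Peel14.peel E) (by omega)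

end Pool.Agent.Work.PD5
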