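import Mathlib
import Pool.Agent.Work.MP_b62148_ag.Generic
import Pool.Agent.Work.MP_b62148_ag.Quintic.FlagQ

/-!
Module A4: generic solutions of linear systems with all compatible derivations, and the generic
fields of round two.
-/

namespace Pool.Agent.Work.PD5

namespace A4

open MvPolynomial

section Dual

variable {K : Type*} [Field K] {A : Type*} [CommRing A] [Algebra K A] {B : Type*} [CommRing B]
  [Algebra K B] [Algebra A B] [IsScalarTower K A B]

/-- the ring homomorphism attached to a derivation -/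
noncomputable def phiD (d : Derivation K A B) : A →+* TrivSqZeroExt B B where
  toFun x := TrivSqZeroExt.inl (algebraMap A B x) + TrivSqZeroExt.inr (d x)
  map_one' := by ext <;> simp
  map_zero' := by ext <;> simp
  map_add' x y := by ext <;> simp
  map_mul' x y := by
    ext
    · simp only [TrivSqZeroExt.fst_add, TrivSqZeroExt.fst_inl, TrivSqZeroExt.fst_inr,
        TrivSqZeroExt.fst_mul, map_mul, add_zero]
    · simp only [TrivSqZeroExt.fst_add, TrivSqZeroExt.fst_inl, TrivSqZeroExt.fst_inr,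
        TrivSqZeroExt.snd_add, TrivSqZeroExt.snd_inl, TrivSqZeroExt.snd_inr,
        TrivSqZeroExt.snd_mul, map_mul, add_zero, zero_add, Derivation.leibniz,
        op_smul_eq_mul, smul_eq_mul, Algebra.smul_def]
      ring

/-- extension of a derivation to polynomials with prescribed values on the variables -/
theorem exists_mv {ι : Type*} [Algebra (MvPolynomial ι A) B]
    [IsScalarTower A (MvPolynomial ι A) B] [IsScalarTower K (MvPolynomial ι A) B]
    (d : Derivation K A B) (xi : ι → B) :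
    ∃ d' : Derivation K (MvPolynomial ι A) B, (∀ a, d' (C a) = d a) ∧ ∀ i, d' (X i) = xi i := by
  let Φ : MvPolynomial ι A →+* TrivSqZeroExt B B :=
    eval₂Hom (phiD d) (fun i => TrivSqZeroExt.inl (algebraMap (MvPolynomial ι A) B (X i)) +
      TrivSqZeroExt.inr (xi i))
  have hC : ∀ a, Φ (C a) = TrivSqZeroExt.inl (algebraMap A B a) + TrivSqZeroExt.inr (d a) := by
    intro a
    simp only [Φ, coe_eval₂Hom, eval₂_C]
    rfl
  have hX : ∀ i, Φ (X i) = TrivSqZeroExt.inl (algebraMap (MvPolynomial ι A) B (X i)) +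
      TrivSqZeroExt.inr (xi i) := by
    intro i
    simp only [Φ, coe_eval₂Hom, eval₂_X]
  have hfst : ∀ p, (Φ p).fst = algebraMap (MvPolynomial ι A) B p := by
    intro p
    have h : (TrivSqZeroExt.fstHom B B B).toRingHom.comp Φ = algebraMap (MvPolynomial ι A) B := by
      apply MvPolynomial.ringHom_ext
      · intro a
        rw [RingHom.comp_apply, hC]
        have h1 : algebraMap A B a = algebraMap (MvPolynomial ι A) B (C a) := by
          rw [IsScalarTower.algebraMap_apply A (MvPolynomial ι A) B]; rfl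
        simp [h1]
      · intro i
        rw [RingHom.comp_apply, hX]
        simp
    have := congrArg (fun f => f p) h
    simpa using this
  have hK : ∀ k : K, Φ (algebraMap K (MvPolynomial ι A) k) =
      TrivSqZeroExt.inl (algebraMap K B k) := by
    intro k
    have h1 : algebraMap K (MvPolynomial ι A) k = C (algebraMap K A k) := by
      rw [IsScalarTower.algebraMap_apply K A (MvPolynomial ι A)]; rfl
    rw [h1, hC, Derivation.map_algebraMap, ← IsScalarTower.algebraMap_apply]
    simp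
  refine ⟨Derivation.mk'
    { toFun := fun p => (Φ p).snd
      map_add' := fun p q => by rw [map_add]; simp
      map_smul' := fun k p => by
        rw [Algebra.smul_def, map_mul, hK]
        simp [Algebra.smul_def] } ?_, ?_, ?_⟩
  · intro p q
    simp only [LinearMap.coe_mk, AddHom.coe_mk, map_mul, TrivSqZeroExt.snd_mul, hfst]
    simp [Algebra.smul_def, mul_comm]
  · intro a
    change (Φ (C a)).snd = d a
    rw [hC]; simp
  · intro i
    change (Φ (X i)).snd = xi i
    rw [hX]; simp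

end Dual

section Ker

variable {F E : Type*} [Field F] [Field E] [Algebra F E] {σ : Type*} [Fintype σ]

/-- the solutions over a larger field are combinations of solutions over the small field -/
theorem ker_baseChange {r : Type*} (M : r → σ → F) {N : ℕ} (v : Fin N → σ → F)
    (hv : ∀ w : σ → F, (∀ a, ∑ j, M a j * w j = 0) → ∃ c : Fin N → F, w = ∑ k, c k • v k)
    (w : σ → E) (hw : ∀ a, ∑ j, algebraMap F E (M a j) * w j = 0) :
    ∃ c : Fin N → E, w = fun j => ∑ k, c k * algebraMap F E (v k j) := by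
  classical
  let b := Module.Basis.ofVectorSpace F E
  -- coordinates
  let co : (σ → E) → Module.Basis.ofVectorSpaceIndex F E → (σ → F) := fun w β j => b.repr (w j) β
  have h1 : ∀ β a, ∑ j, M a j * co w β j = 0 := by
    intro β a
    have h2 := congrArg (fun x => b.repr x β) (hw a)
    simp only [map_sum, Finsupp.coe_finsetSum, Finset.sum_apply, map_zero, Finsupp.coe_zero,
      Pi.zero_apply] at h2
    rw [← h2]
    refine Finset.sum_congr rfl fun j _ => ?_
    rw [← Algebra.smul_def, map_smul]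
    simp [co]
  choose c hc using fun β => hv (co w β) (h1 β)
  let S : Finset (Module.Basis.ofVectorSpaceIndex F E) :=
    Finset.univ.biUnion fun j : σ => (b.repr (w j)).support
  refine ⟨fun k => ∑ β ∈ S, c β k • b β, ?_⟩
  funext j
  have h3 : w j = ∑ β ∈ S, co w β j • b β := by
    conv_lhs => rw [← b.linearCombination_repr (w j)]
    rw [Finsupp.linearCombination_apply]
    apply Finsupp.sum_of_support_subset
    · exact Finset.subset_biUnion_of_mem (fun j : σ => (b.repr (w j)).support) (Finset.mem_univ j)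
    · intro i _; simp
  rw [h3]
  have h4 : ∀ β, co w β j = ∑ k, c β k * v k j := by
    intro β
    have := congrFun (hc β) j
    simpa using this
  simp only [h4, Finset.sum_smul, Finset.sum_mul]
  rw [Finset.sum_comm]
  refine Finset.sum_congr rfl fun k _ => Finset.sum_congr rfl fun β _ => ?_
  rw [mul_smul, Algebra.smul_def, Algebra.smul_def, Algebra.smul_def]
  ring

end Ker

section Aux

variable {K : Type*} [Field K] {σ : Type*} [Fintype σ] {E : Type*}
    [Field E] [Algebra K E] {Ω : Type*} [Field Ω] [Algebra K Ω] [Algebra E Ω]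
    [IsScalarTower K E Ω] {r : Type*} (M : r → σ → E) {N : ℕ} (v : Fin N → σ → E) (x : Fin N → Ω)

omit [IsScalarTower K E Ω] [Algebra K E] [Algebra K Ω] in
theorem sol_of_comb (hv : ∀ k a, ∑ j, M a j * v k j = 0) (a : r) :
    ∑ j, algebraMap E Ω (M a j) * (∑ k, x k * algebraMap E Ω (v k j)) = 0 := by
  simp only [Finset.mul_sum]
  rw [Finset.sum_comm]
  refine Finset.sum_eq_zero fun k _ => ?_
  have h1 : ∑ j, algebraMap E Ω (M a j) * (x k * algebraMap E Ω (v k j)) =
      x k * algebraMap E Ω (∑ j, M a j * v k j) := by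
    rw [map_sum, Finset.mul_sum]
    refine Finset.sum_congr rfl fun j _ => ?_
    rw [map_mul]; ring
  rw [h1, hv k a, map_zero, mul_zero]

theorem sol_tau (hv : ∀ k a, ∑ j, M a j * v k j = 0) (d : Derivation K E Ω) (tau : σ → Ω) (a : r)
    (htau : ∑ j, (d (M a j) * (∑ k, x k * algebraMap E Ω (v k j)) +
      algebraMap E Ω (M a j) * tau j) = 0) :
    ∑ j, algebraMap E Ω (M a j) * (tau j - ∑ k, x k * d (v k j)) = 0 := by
  have h2 : ∀ k, ∑ j, (algebraMap E Ω (M a j) * d (v k j) +
      algebraMap E Ω (v k j) * d (M a j)) = 0 := by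
    intro k
    have h3 := congrArg d (hv k a)
    rw [map_sum, map_zero] at h3
    rw [← h3]
    refine Finset.sum_congr rfl fun j _ => ?_
    rw [Derivation.leibniz, Algebra.smul_def, Algebra.smul_def]
  have h6 : ∑ k, x k * ∑ j, (algebraMap E Ω (M a j) * d (v k j) +
      algebraMap E Ω (v k j) * d (M a j)) = 0 := by
    simp [h2]
  have h5 : ∑ j, algebraMap E Ω (M a j) * (tau j - ∑ k, x k * d (v k j)) =
      ∑ j, (d (M a j) * (∑ k, x k * algebraMap E Ω (v k j)) + algebraMap E Ω (M a j) * tau j) -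
      ∑ k, x k * ∑ j, (algebraMap E Ω (M a j) * d (v k j) +
      algebraMap E Ω (v k j) * d (M a j)) := by
    simp only [mul_sub, Finset.mul_sum, Finset.sum_sub_distrib, Finset.sum_add_distrib, mul_add]
    rw [Finset.sum_comm (s := (Finset.univ : Finset (Fin N))),
      Finset.sum_comm (s := (Finset.univ : Finset (Fin N)))]
    have e1 : ∀ j : σ, ∑ k, d (M a j) * (x k * algebraMap E Ω (v k j)) =
        ∑ k, x k * (algebraMap E Ω (v k j) * d (M a j)) := fun j =>
      Finset.sum_congr rfl fun k _ => by ring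
    have e2 : ∀ j : σ, ∑ k, algebraMap E Ω (M a j) * (x k * d (v k j)) =
        ∑ k, x k * (algebraMap E Ω (M a j) * d (v k j)) := fun j =>
      Finset.sum_congr rfl fun k _ => by ring
    simp only [e1, e2]
    ring
  rw [h5, htau, h6, sub_zero]

theorem sol_D (d : Derivation K E Ω) (tau : σ → Ω) (xi : Fin N → Ω)
    (hxi : (fun j => tau j - ∑ k, x k * d (v k j)) = fun j => ∑ k, xi k * algebraMap E Ω (v k j))
    (D : Derivation K Ω Ω) (hDE : ∀ z, D (algebraMap E Ω z) = d z) (hDx : ∀ k, D (x k) = xi k)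
    (j : σ) : D (∑ k, x k * algebraMap E Ω (v k j)) = tau j := by
  simp only [map_sum, Derivation.leibniz, smul_eq_mul, hDx, hDE]
  have h6 := congrFun hxi j
  rw [Finset.sum_add_distrib]
  have h7 : ∑ k, algebraMap E Ω (v k j) * xi k = ∑ k, xi k * algebraMap E Ω (v k j) :=
    Finset.sum_congr rfl fun k _ => mul_comm _ _
  rw [h7, ← h6]
  ring

end Aux

section Gen

universe u v w

/-- generic solution of a linear system -/
theorem exists_gen {K : Type u} [Field K] [CharZero K] {σ : Type v} [Fintype σ] {E : Type w}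
    [Field E] [Algebra K E] {r : Type*} (M : r → σ → E) :
    ∃ (Ω : Type (max v w)) (_ : Field Ω) (_ : Algebra K Ω) (_ : Algebra E Ω) (_ : IsScalarTower K E Ω)
      (_ : IsAlgClosed Ω) (t : σ → Ω), (∀ a, ∑ j, algebraMap E Ω (M a j) * t j = 0) ∧
      ∀ (d : Derivation K E Ω) (tau : σ → Ω),
        (∀ a, ∑ j, (d (M a j) * t j + algebraMap E Ω (M a j) * tau j) = 0) →
        ∃ D : Derivation K Ω Ω, (∀ x, D (algebraMap E Ω x) = d x) ∧ ∀ j, D (t j) = tau j := by
  classical
  -- the solution space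
  let V : Submodule E (σ → E) :=
    { carrier := {w | ∀ a, ∑ j, M a j * w j = 0}
      add_mem' := by
        intro x y hx hy a
        simp only [Pi.add_apply, mul_add, Finset.sum_add_distrib, hx a, hy a, add_zero]
      zero_mem' := by intro a; simp
      smul_mem' := by
        intro c x hx a
        have : ∑ j, M a j * (c • x) j = c * ∑ j, M a j * x j := by
          rw [Finset.mul_sum]
          refine Finset.sum_congr rfl fun j _ => ?_
          simp only [Pi.smul_apply, smul_eq_mul]; ring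
        rw [this, hx a, mul_zero] }
  let N := Module.finrank E V
  let bV : Module.Basis (Fin N) E V := Module.finBasis E V
  let v : Fin N → σ → E := fun k => (bV k : σ → E)
  have hvV : ∀ k a, ∑ j, M a j * v k j = 0 := fun k a => (bV k).2 a
  have hv : ∀ w : σ → E, (∀ a, ∑ j, M a j * w j = 0) → ∃ c : Fin N → E, w = ∑ k, c k • v k := by
    intro w hw
    refine ⟨fun k => bV.repr ⟨w, hw⟩ k, ?_⟩
    have h1 := bV.sum_repr ⟨w, hw⟩
    have h2 := congrArg (Subtype.val) h1
    simp only [AddSubmonoidClass.coe_finsetSum, SetLike.val_smul] at h2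
    exact h2.symm
  let P := MvPolynomial (ULift.{v} (Fin N)) E
  let Fr := FractionRing P
  let Ω := AlgebraicClosure Fr
  have c1 : CharZero E := charZero_of_injective_algebraMap (algebraMap K E).injective
  have c2 : CharZero Fr := charZero_of_injective_algebraMap (algebraMap E Fr).injective
  have i1 : Algebra.FormallyEtale P Fr := Algebra.FormallyEtale.of_isLocalization (nonZeroDivisors P)
  have i2 : Algebra.FormallyEtale Fr Ω := Algebra.FormallyEtale.of_isSeparable _ _
  have i3 : Algebra.FormallyEtale P Ω := Algebra.FormallyEtale.comp P Fr Ω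
  let x : Fin N → Ω := fun k => algebraMap P Ω (X (ULift.up k))
  refine ⟨Ω, inferInstance, inferInstance, inferInstance, inferInstance, inferInstance,
    fun j => ∑ k, x k * algebraMap E Ω (v k j), fun a => sol_of_comb M v x hvV a, ?_⟩
  intro d tau htau
  obtain ⟨xi, hxi⟩ := ker_baseChange M v hv (fun j => tau j - ∑ k, x k * d (v k j))
    (fun a => sol_tau M v x hvV d tau a (htau a))
  obtain ⟨d', hd1, hd2⟩ := exists_mv (ι := ULift.{v} (Fin N)) d (fun k => xi k.down)
  obtain ⟨D, hD⟩ := PD.exists_extend_derivation (T := Ω) d'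
  have hDE : ∀ z, D (algebraMap E Ω z) = d z := by
    intro z
    rw [IsScalarTower.algebraMap_apply E P Ω, hD]
    exact hd1 z
  refine ⟨D, hDE, fun j => sol_D v x d tau xi hxi D hDE (fun k => ?_) j⟩
  rw [hD]; exact hd2 (ULift.up k)

end Gen

section Deriv

/-- derivations with prescribed values in a larger field -/
theorem exists_der_ext {K Ω₁ Ω : Type*} [Field K] [Field Ω₁] [Field Ω] [Algebra K Ω₁] [Algebra K Ω]
    [Algebra Ω₁ Ω] [IsScalarTower K Ω₁ Ω] {y m : Fin 4 → Ω₁}
    (h : ∀ u v : Fin 4 → Ω₁,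
      ∃ D : Derivation K Ω₁ Ω₁, (∀ i, D (y i) = u i) ∧ ∀ i, D (m i) = v i) (u v : Fin 4 → Ω) :
    ∃ d : Derivation K Ω₁ Ω, (∀ i, d (y i) = u i) ∧ ∀ i, d (m i) = v i := by
  classical
  choose D1 hD1 hD1' using fun i : Fin 4 => h (Pi.single i 1) 0
  choose D2 hD2 hD2' using fun i : Fin 4 => h 0 (Pi.single i 1)
  let E1 : Fin 4 → Derivation K Ω₁ Ω := fun i => (Algebra.linearMap Ω₁ Ω).compDer (D1 i)
  let E2 : Fin 4 → Derivation K Ω₁ Ω := fun i => (Algebra.linearMap Ω₁ Ω).compDer (D2 i)
  have hE1 : ∀ i x, E1 i x = algebraMap Ω₁ Ω (D1 i x) := fun i x => rfl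
  have hE2 : ∀ i x, E2 i x = algebraMap Ω₁ Ω (D2 i x) := fun i x => rfl
  refine ⟨(u 0 • E1 0 + u 1 • E1 1 + u 2 • E1 2 + u 3 • E1 3) +
    (v 0 • E2 0 + v 1 • E2 1 + v 2 • E2 2 + v 3 • E2 3), ?_, ?_⟩
  · intro i
    simp only [Derivation.add_apply, Derivation.smul_apply, smul_eq_mul, hE1, hE2, hD1, hD2]
    fin_cases i <;> simp
  · intro i
    simp only [Derivation.add_apply, Derivation.smul_apply, smul_eq_mul, hE1, hE2, hD1', hD2']
    fin_cases i <;> simp

end Deriv

end A4

universe u v w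

/-- A4 GenQ: a generic vector in the kernel of a matrix, with lifting of derivations -/
theorem gen_field {K : Type u} [Field K] [CharZero K] {Ω₁ : Type v} [Field Ω₁] [Algebra K Ω₁]
    {σ : Type w} [Fintype σ] {r : ℕ} (M : Fin r → σ → Ω₁) (_hM : LinearIndependent Ω₁ M) :
    ∃ (Ω : Type (max v w)) (_ : Field Ω) (_ : Algebra K Ω) (_ : Algebra Ω₁ Ω)
      (_ : IsScalarTower K Ω₁ Ω) (_ : IsAlgClosed Ω) (t : σ → Ω),
      (∀ a, ∑ j, algebraMap Ω₁ Ω (M a j) * t j = 0) ∧
      ∀ (d : Derivation K Ω₁ Ω) (τ : σ → Ω),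
        (∀ a, ∑ j, (d (M a j) * t j + algebraMap Ω₁ Ω (M a j) * τ j) = 0) →
        ∃ D : Derivation K Ω Ω, (∀ x, D (algebraMap Ω₁ Ω x) = d x) ∧ ∀ j, D (t j) = τ j :=
  A4.exists_gen M

/-- A4 a field with generic `y, m` -/
theorem exists_ym (K : Type u) [Field K] [CharZero K] : ∃ (Ω : Type u) (_ : Field Ω)
    (_ : Algebra K Ω) (_ : IsAlgClosed Ω) (y m : Fin 4 → Ω), ∀ u v : Fin 4 → Ω,
      ∃ D : Derivation K Ω Ω, (∀ i, D (y i) = u i) ∧ ∀ i, D (m i) = v i := by
  let P := MvPolynomial (Fin 4 ⊕ Fin 4) K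
  let Fr := FractionRing P
  let Ω := AlgebraicClosure Fr
  have c2 : CharZero Fr := charZero_of_injective_algebraMap (algebraMap K Fr).injective
  have i1 : Algebra.FormallyEtale P Fr := Algebra.FormallyEtale.of_isLocalization (nonZeroDivisors P)
  have i2 : Algebra.FormallyEtale Fr Ω := Algebra.FormallyEtale.of_isSeparable _ _
  have i3 : Algebra.FormallyEtale P Ω := Algebra.FormallyEtale.comp P Fr Ω
  refine ⟨Ω, inferInstance, inferInstance, inferInstance,
    fun i => algebraMap P Ω (MvPolynomial.X (Sum.inl i)),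
    fun i => algebraMap P Ω (MvPolynomial.X (Sum.inr i)), ?_⟩
  intro u v
  let d : Derivation K P Ω := MvPolynomial.mkDerivation K (Sum.elim u v)
  obtain ⟨D, hD⟩ := PD.exists_extend_derivation (T := Ω) d
  refine ⟨D, fun i => ?_, fun i => ?_⟩
  · rw [hD]; exact MvPolynomial.mkDerivation_X _ _ _
  · rw [hD]; exact MvPolynomial.mkDerivation_X _ _ _

section Rows

variable {K : Type*} [Field K] {σ : Type*} [Fintype σ] [DecidableEq σ] (T : Ten K σ)
  (lam : Fin 4 → σ → K) {Ω₁ Ω : Type*} [Field Ω₁] [Field Ω] [Algebra K Ω₁] [Algebra K Ω]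
  [Algebra Ω₁ Ω] [IsScalarTower K Ω₁ Ω]

omit [Fintype σ] in
theorem algebraMap_single_gen (j : σ) :
    (fun i => algebraMap Ω₁ Ω ((Pi.single j 1 : σ → Ω₁) i)) = (Pi.single j 1 : σ → Ω) := by
  funext i
  by_cases h : i = j
  · subst h; simp
  · simp [Pi.single_eq_of_ne h]

omit [Fintype σ] in
theorem d_single_gen (d : Derivation K Ω₁ Ω) (j : σ) :
    (fun i => d ((Pi.single j 1 : σ → Ω₁) i)) = (0 : σ → Ω) := by
  funext i
  by_cases h : i = j
  · subst h; simp
  · simp [Pi.single_eq_of_ne h]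

theorem row_eval_gen (u₁ u₂ u₃ u₄ : Fin 4 → Ω₁) (t : σ → Ω) :
    ∑ j, algebraMap Ω₁ Ω (Psi T lam u₁ u₂ u₃ u₄ (Pi.single j 1)) * t j =
      Psi T lam (fun i => algebraMap Ω₁ Ω (u₁ i)) (fun i => algebraMap Ω₁ Ω (u₂ i))
        (fun i => algebraMap Ω₁ Ω (u₃ i)) (fun i => algebraMap Ω₁ Ω (u₄ i)) t := by
  rw [Psi_eq_sum (w := t)]
  refine Finset.sum_congr rfl fun j _ => ?_
  have h := map_Psi T lam (IsScalarTower.toAlgHom K Ω₁ Ω) u₁ u₂ u₃ u₄ (Pi.single j 1)
  rw [IsScalarTower.coe_toAlgHom'] at h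
  rw [h, algebraMap_single_gen, mul_comm]

theorem row_der_gen (d : Derivation K Ω₁ Ω) (u₁ u₂ u₃ u₄ : Fin 4 → Ω₁) (t τ : σ → Ω) :
    ∑ j, (d (Psi T lam u₁ u₂ u₃ u₄ (Pi.single j 1)) * t j +
      algebraMap Ω₁ Ω (Psi T lam u₁ u₂ u₃ u₄ (Pi.single j 1)) * τ j) =
      Psi T lam (fun i => d (u₁ i)) (fun i => algebraMap Ω₁ Ω (u₂ i))
        (fun i => algebraMap Ω₁ Ω (u₃ i)) (fun i => algebraMap Ω₁ Ω (u₄ i)) t +
      Psi T lam (fun i => algebraMap Ω₁ Ω (u₁ i)) (fun i => d (u₂ i))
        (fun i => algebraMap Ω₁ Ω (u₃ i)) (fun i => algebraMap Ω₁ Ω (u₄ i)) t +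
      Psi T lam (fun i => algebraMap Ω₁ Ω (u₁ i)) (fun i => algebraMap Ω₁ Ω (u₂ i))
        (fun i => d (u₃ i)) (fun i => algebraMap Ω₁ Ω (u₄ i)) t +
      Psi T lam (fun i => algebraMap Ω₁ Ω (u₁ i)) (fun i => algebraMap Ω₁ Ω (u₂ i))
        (fun i => algebraMap Ω₁ Ω (u₃ i)) (fun i => d (u₄ i)) t +
      Psi T lam (fun i => algebraMap Ω₁ Ω (u₁ i)) (fun i => algebraMap Ω₁ Ω (u₂ i))
        (fun i => algebraMap Ω₁ Ω (u₃ i)) (fun i => algebraMap Ω₁ Ω (u₄ i)) τ := by
  rw [Finset.sum_add_distrib, row_eval_gen]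
  congr 1
  simp only [Psi_eq_sum (w := t)]
  simp only [← Finset.sum_add_distrib]
  refine Finset.sum_congr rfl fun j _ => ?_
  rw [D_Psi_gen, algebraMap_single_gen, d_single_gen]
  have h0 : ∀ a b c e : Fin 4 → Ω, Psi T lam a b c e (0 : σ → Ω) = 0 := by
    intro a b c e
    have := Psi_smul5 T lam (0 : Ω) a b c e 0
    simpa using this
  rw [h0]
  ring

end Rows

variable {K : Type u} [Field K] [CharZero K] {σ : Type w} [Fintype σ] {T : Ten K σ}
  {lam : Fin 4 → σ → K}

/-- the symmetries move any slot to the fourth -/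
theorem Psi_s14_gen {R : Type*} [CommRing R] [Algebra K R] (u₁ u₂ u₃ u₄ : Fin 4 → R) (w : σ → R) :
    Psi T lam u₁ u₂ u₃ u₄ w = Psi T lam u₂ u₃ u₄ u₁ w := by
  rw [Psi_s12, Psi_s23, Psi_s34]

/-- A4 a field with generic `y`, and `t` generic with `Psi y y y y t = 0` -/
theorem exists_yt (_hb : Bpf T lam) : ∃ (Ω : Type (max u w)) (_ : Field Ω)
    (_ : Algebra K Ω) (_ : IsAlgClosed Ω) (y : Fin 4 → Ω) (t : σ → Ω),
      Psi T lam y y y y t = 0 ∧ ∀ (dy : Fin 4 → Ω) (dt : σ → Ω),
        4 * Psi T lam y y y dy t + Psi T lam y y y y dt = 0 →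
        ∃ D : Derivation K Ω Ω, (∀ i, D (y i) = dy i) ∧ ∀ j, D (t j) = dt j := by
  classical
  obtain ⟨Ω₁, _, _, _, y, m, hym⟩ := exists_ym K
  obtain ⟨Ω, _, _, _, _, _, t, ht, hD⟩ := A4.exists_gen (K := K)
    (fun (_ : Fin 1) (j : σ) => Psi T lam y y y y (Pi.single j 1))
  have hrow := row_eval_gen T lam y y y y t
  refine ⟨Ω, inferInstance, inferInstance, inferInstance, fun i => algebraMap Ω₁ Ω (y i), t, ?_, ?_⟩
  · rw [← hrow]; exact ht 0
  · intro dy dt h
    obtain ⟨d, hd, _⟩ := A4.exists_der_ext hym dy (0 : Fin 4 → Ω)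
    obtain ⟨D, hD1, hD2⟩ := hD d dt (fun _ => by
      rw [row_der_gen]
      simp only [hd]
      have e1 := Psi_s14_gen (T := T) (lam := lam) dy (fun i => algebraMap Ω₁ Ω (y i))
        (fun i => algebraMap Ω₁ Ω (y i)) (fun i => algebraMap Ω₁ Ω (y i)) t
      have e2 := Psi_s23 T lam (fun i => algebraMap Ω₁ Ω (y i)) dy
        (fun i => algebraMap Ω₁ Ω (y i)) (fun i => algebraMap Ω₁ Ω (y i)) t
      have e3 := Psi_s34 T lam (fun i => algebraMap Ω₁ Ω (y i)) (fun i => algebraMap Ω₁ Ω (y i))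
        dy (fun i => algebraMap Ω₁ Ω (y i)) t
      linear_combination h + e1 + e2 + 2 * e3)
    exact ⟨D, fun i => by rw [hD1, hd], hD2⟩

end Pool.Agent.Work.PD5
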