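import Mathlib
import Pool.Agent.Work.MP_b62148_ag.Quintic.GenQ

/-!
Existence of a generic flag (module A4, second part).
-/

namespace Pool.Agent.Work.PD5

universe u w

variable {K : Type u} [Field K] [CharZero K] {σ : Type w} [Fintype σ] {T : Ten K σ}
  {lam : Fin 4 → σ → K}

omit [CharZero K] in
theorem Psi_single_zero_gen [DecidableEq σ] {Ω : Type*} [Field Ω] [Algebra K Ω] {y m : Fin 4 → Ω}
    {α β γ : Ω} (h : ∀ j : σ, α * Psi T lam y y y y (Pi.single j 1) +
      β * Psi T lam y y y m (Pi.single j 1) + γ * Psi T lam y y m m (Pi.single j 1) = 0)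
    (w : σ → Ω) : α * Psi T lam y y y y w + β * Psi T lam y y y m w +
      γ * Psi T lam y y m m w = 0 := by
  simp only [Psi_eq_sum (w := w), Finset.mul_sum]
  rw [← Finset.sum_add_distrib, ← Finset.sum_add_distrib]
  refine Finset.sum_eq_zero fun j _ => ?_
  linear_combination w j * h j

/-- A4 existence of a generic flag, from the independence of the three functionals -/
theorem exists_flag_of (hgood : ∀ {Ω : Type u} [Field Ω] [Algebra K Ω] (y m : Fin 4 → Ω),
    (∀ u v : Fin 4 → Ω, ∃ D : Derivation K Ω Ω, (∀ i, D (y i) = u i) ∧ ∀ i, D (m i) = v i) →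
    ∀ α β γ : Ω, (∀ w : σ → Ω, α * Psi T lam y y y y w + β * Psi T lam y y y m w +
      γ * Psi T lam y y m m w = 0) → α = 0 ∧ β = 0 ∧ γ = 0) :
    ∃ (Ω : Type (max u w)) (_ : Field Ω) (_ : Algebra K Ω)
    (_ : IsAlgClosed Ω), Nonempty (Flag T lam Ω) := by
  classical
  obtain ⟨Ω₁, _, _, _, y, m, hym⟩ := exists_ym K
  have hg := hgood y m hym
  let M : Fin 3 → σ → Ω₁ := fun a j => ![Psi T lam y y y y (Pi.single j 1),
    Psi T lam y y y m (Pi.single j 1), Psi T lam y y m m (Pi.single j 1)] a
  obtain ⟨Ω, _, _, _, _, _, t, ht, hD⟩ := A4.exists_gen (K := K) M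
  let y' : Fin 4 → Ω := fun i => algebraMap Ω₁ Ω (y i)
  let m' : Fin 4 → Ω := fun i => algebraMap Ω₁ Ω (m i)
  have hM : LinearIndependent Ω₁ M := by
    rw [Fintype.linearIndependent_iff]
    intro g hgs
    have h1 := hg (g 0) (g 1) (g 2) (Psi_single_zero_gen fun j => by
      have h2 := congrFun hgs j
      simp only [Fin.sum_univ_three, Pi.add_apply, Pi.smul_apply, smul_eq_mul, Pi.zero_apply, M,
        Matrix.cons_val_zero, Matrix.cons_val_one, Matrix.cons_val] at h2
      exact h2)
    intro i
    fin_cases i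
    · exact h1.1
    · exact h1.2.1
    · exact h1.2.2
  have hM' : LinearIndependent Ω (fun a => algebraMap Ω₁ Ω ∘ M a) :=
    linearIndependent_algebraMap_comp_iff.mpr hM
  have e0 : ∀ j : σ, algebraMap Ω₁ Ω (M 0 j) = Psi T lam y' y' y' y' (Pi.single j 1) := by
    intro j
    have h := map_Psi T lam (IsScalarTower.toAlgHom K Ω₁ Ω) y y y y (Pi.single j 1)
    rw [IsScalarTower.coe_toAlgHom', algebraMap_single_gen] at h
    exact h
  have e1 : ∀ j : σ, algebraMap Ω₁ Ω (M 1 j) = Psi T lam y' y' y' m' (Pi.single j 1) := by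
    intro j
    have h := map_Psi T lam (IsScalarTower.toAlgHom K Ω₁ Ω) y y y m (Pi.single j 1)
    rw [IsScalarTower.coe_toAlgHom', algebraMap_single_gen] at h
    exact h
  have e2 : ∀ j : σ, algebraMap Ω₁ Ω (M 2 j) = Psi T lam y' y' m' m' (Pi.single j 1) := by
    intro j
    have h := map_Psi T lam (IsScalarTower.toAlgHom K Ω₁ Ω) y y m m (Pi.single j 1)
    rw [IsScalarTower.coe_toAlgHom', algebraMap_single_gen] at h
    exact h
  refine ⟨Ω, inferInstance, inferInstance, inferInstance, ⟨{
    y := y'
    m := m'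
    t := t
    r1 := ?_
    r2 := ?_
    r3 := ?_
    ind := ?_
    dl := ?_ }⟩⟩
  · rw [← row_eval_gen T lam y y y y t]; exact ht 0
  · rw [← row_eval_gen T lam y y y m t]; exact ht 1
  · rw [← row_eval_gen T lam y y m m t]; exact ht 2
  · intro α β γ h
    rw [Fintype.linearIndependent_iff] at hM'
    have h1 := hM' ![α, β, γ] (by
      funext j
      have h2 := h (Pi.single j 1)
      simp only [Fin.sum_univ_three, Pi.add_apply, Pi.smul_apply, smul_eq_mul, Pi.zero_apply,
        Matrix.cons_val_zero, Matrix.cons_val_one, Matrix.cons_val, Function.comp_apply, e0, e1,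
        e2]
      exact h2)
    exact ⟨h1 0, h1 1, h1 2⟩
  · intro dy dm dt h1 h2 h3
    obtain ⟨d, hdy, hdm⟩ := A4.exists_der_ext hym dy dm
    obtain ⟨D, hD1, hD2⟩ := hD d dt (fun a => by
      fin_cases a
      · have h := row_der_gen T lam d y y y y t dt
        simp only [hdy] at h
        refine h.trans ?_
        have a1 := Psi_s14_gen (T := T) (lam := lam) dy y' y' y' t
        have a2 := Psi_s23 T lam y' dy y' y' t
        have a3 := Psi_s34 T lam y' y' dy y' t
        linear_combination h1 + a1 + a2 + 2 * a3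
      · have h := row_der_gen T lam d y y y m t dt
        simp only [hdy, hdm] at h
        refine h.trans ?_
        have a1 := Psi_s12 T lam dy y' y' m' t
        have a2 := Psi_s23 T lam y' dy y' m' t
        linear_combination h2 + a1 + 2 * a2
      · have h := row_der_gen T lam d y y m m t dt
        simp only [hdy, hdm] at h
        refine h.trans ?_
        have a1 := Psi_s12 T lam dy y' m' m' t
        have a2 := Psi_s34 T lam y' y' dm m' t
        linear_combination h3 + a1 + a2)
    exact ⟨D, fun i => by rw [← hdy i]; exact hD1 _, fun i => by rw [← hdm i]; exact hD1 _, hD2⟩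

end Pool.Agent.Work.PD5
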