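import Mathlib
import Pool.Agent.Work.MP_b62148_ag.Quintic.FlagQ

/-!
Modules A6 and A7 of the quintic theorem, round two: the main claim and the leading data for a
generic flag, from the statements of A1, A2, A3 for one field.
-/

namespace Pool.Agent.Work.PD5

namespace A67

section Zero

variable {K : Type*} [Field K] {σ : Type*} [Fintype σ] {T : Ten K σ} {lam : Fin 4 → σ → K}
variable {R : Type*} [CommRing R] [Algebra K R]

theorem Psi_zero5 (T : Ten K σ) (lam : Fin 4 → σ → K) (u₁ u₂ u₃ u₄ : Fin 4 → R) :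
    Psi T lam u₁ u₂ u₃ u₄ (0 : σ → R) = 0 := by
  have := Psi_smul5 T lam (0 : R) u₁ u₂ u₃ u₄ 0
  simpa using this

theorem Psi_zero4 (u₁ u₂ u₃ : Fin 4 → R) (w : σ → R) :
    Psi T lam u₁ u₂ u₃ (0 : Fin 4 → R) w = 0 := by
  have := Psi_smul4 T lam (0 : R) u₁ u₂ u₃ (0 : Fin 4 → R) w
  simpa using this

theorem Psi_zero3 (u₁ u₂ u₃ : Fin 4 → R) (w : σ → R) :
    Psi T lam u₁ u₂ (0 : Fin 4 → R) u₃ w = 0 := by
  rw [Psi_s34, Psi_zero4]

theorem Psi_zero2 (u₁ u₂ u₃ : Fin 4 → R) (w : σ → R) :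
    Psi T lam u₁ (0 : Fin 4 → R) u₂ u₃ w = 0 := by
  rw [Psi_s23, Psi_zero3]

theorem Psi_zero1 (u₁ u₂ u₃ : Fin 4 → R) (w : σ → R) :
    Psi T lam (0 : Fin 4 → R) u₁ u₂ u₃ w = 0 := by
  rw [Psi_s12, Psi_zero2]

end Zero

section Main


variable {K : Type*} [Field K] {σ : Type*} [Fintype σ] {T : Ten K σ} {lam : Fin 4 → σ → K}
variable {Ω : Type*} [Field Ω] [Algebra K Ω]

theorem exists_comb4 {v : Fin 4 → (Fin 4 → Ω)} (h : LinearIndependent Ω v) (c : Fin 4 → Ω) :
    ∃ α : Fin 4 → Ω, c = α 0 • v 0 + α 1 • v 1 + α 2 • v 2 + α 3 • v 3 := by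
  have h1 : Submodule.span Ω (Set.range v) = ⊤ := h.span_eq_top_of_card_eq_finrank (by simp)
  have h2 : c ∈ Submodule.span Ω (Set.range v) := by rw [h1]; trivial
  obtain ⟨α, hα⟩ := (Submodule.mem_span_range_iff_exists_fun Ω).mp h2
  refine ⟨α, ?_⟩
  rw [← hα, Fin.sum_univ_four]

theorem leading_A7 [IsAlgClosed Ω] [CharZero Ω] (y m : Fin 4 → Ω) (t : σ → Ω)
    (hBPF : ∀ s : Fin 4 → Ω, (∀ w : σ → Ω, Psi T lam s s s s w = 0) → s = 0)
    (R1 : Psi T lam y y y y t = 0) (R2 : Psi T lam y y y m t = 0) (R3 : Psi T lam y y m m t = 0)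
    (DL : ∀ (dy dm : Fin 4 → Ω) (dt : σ → Ω),
      4 * Psi T lam y y y dy t + Psi T lam y y y y dt = 0 →
      3 * Psi T lam y y dy m t + Psi T lam y y y dm t + Psi T lam y y y m dt = 0 →
      2 * Psi T lam y dy m m t + 2 * Psi T lam y y m dm t + Psi T lam y y m m dt = 0 →
      ∃ D : Derivation K Ω Ω, (∀ i, D (y i) = dy i) ∧ (∀ i, D (m i) = dm i) ∧
        ∀ i, D (t i) = dt i)
    (hl : ∃ u, Psi T lam y y y u t ≠ 0)
    (hA6 : ¬ ∃ rho : Ω, ∀ u, Psi T lam y y m u t = rho * Psi T lam y y y u t) :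
    ∃ b a : Fin 4 → Ω, Psi T lam y y y b t = 0 ∧ Psi T lam y y b b t = 0 ∧
      Psi T lam y y b m t ≠ 0 ∧ Psi T lam y b b b t ≠ 0 ∧ Psi T lam y y y a t ≠ 0 := by
  obtain ⟨a0, ha0⟩ := hl
  obtain ⟨u0, hu0⟩ : ∃ u, Psi T lam y y m u t ≠
      (Psi T lam y y m a0 t / Psi T lam y y y a0 t) * Psi T lam y y y u t := by
    by_contra h
    push Not at h
    exact hA6 ⟨_, h⟩
  -- the vector n
  obtain ⟨n, hn1, hn2⟩ : ∃ n : Fin 4 → Ω, Psi T lam y y y n t = 0 ∧ Psi T lam y y m n t = 1 := by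
    set r : Ω := Psi T lam y y m u0 t -
      (Psi T lam y y m a0 t / Psi T lam y y y a0 t) * Psi T lam y y y u0 t with hr
    have hr0 : r ≠ 0 := sub_ne_zero.mpr hu0
    refine ⟨r⁻¹ • (u0 + (-(Psi T lam y y y u0 t / Psi T lam y y y a0 t)) • a0), ?_, ?_⟩
    · rw [Psi_smul4, Psi_add4, Psi_smul4]
      field_simp
      ring
    · rw [Psi_smul4, Psi_add4, Psi_smul4]
      have : Psi T lam y y m u0 t +
          -(Psi T lam y y y u0 t / Psi T lam y y y a0 t) * Psi T lam y y m a0 t = r := by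
        rw [hr]; ring
      rw [this, inv_mul_cancel₀ hr0]
  obtain ⟨a, ha⟩ : ∃ a : Fin 4 → Ω, Psi T lam y y y a t = 1 :=
    ⟨(Psi T lam y y y a0 t)⁻¹ • a0, by rw [Psi_smul4, inv_mul_cancel₀ ha0]⟩
  have hsurj : ∀ r₁ r₂ : Ω, ∃ u : Fin 4 → Ω, Psi T lam y y y u t = r₁ ∧ Psi T lam y y m u t = r₂ := by
    intro r₁ r₂
    refine ⟨r₁ • a + (r₂ - r₁ * Psi T lam y y m a t) • n, ?_, ?_⟩
    · rw [Psi_add4, Psi_smul4, Psi_smul4, ha, hn1]; ring
    · rw [Psi_add4, Psi_smul4, Psi_smul4, hn2]; ring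
  have hy : y ≠ 0 := by
    rintro rfl
    have : Psi T lam (0 : Fin 4 → Ω) 0 0 a t = 0 := by
      exact Psi_zero1 0 0 a t
    rw [this] at ha
    exact one_ne_zero ha.symm
  -- the vector b
  obtain ⟨b, hb1, hb2, hb3⟩ : ∃ b : Fin 4 → Ω, Psi T lam y y y b t = 0 ∧
      Psi T lam y y b b t = 0 ∧ Psi T lam y y b m t = 1 := by
    have hnm : Psi T lam y y n m t = 1 := by rw [Psi_s34]; exact hn2
    refine ⟨n + (-(Psi T lam y y n n t / 2)) • m, ?_, ?_, ?_⟩
    · rw [Psi_add4, Psi_smul4, hn1, R2]; ring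
    · rw [Psi_add4, Psi_smul4, Psi_add3, Psi_add3, Psi_smul3, Psi_smul3, hn2, hnm, R3]; ring
    · rw [Psi_add3, Psi_smul3, hnm, R3]; ring
  have hmb : Psi T lam y y m b t = 1 := by rw [Psi_s34]; exact hb3
  have hindep : ∀ a' : Fin 4 → Ω, Psi T lam y y y a' t ≠ 0 →
      LinearIndependent Ω ![y, b, m, a'] := by
    intro a' ha'
    rw [Fintype.linearIndependent_iff]
    intro g hg
    rw [Fin.sum_univ_four] at hg
    have hg' : g 0 • y + g 1 • b + g 2 • m + g 3 • a' = 0 := hg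
    have z4 : ∀ u₁ u₂ u₃ : Fin 4 → Ω, Psi T lam u₁ u₂ u₃ (0 : Fin 4 → Ω) t = 0 := by
      intro u₁ u₂ u₃
      exact Psi_zero4 u₁ u₂ u₃ t
    have ex : ∀ u₁ u₂ u₃ : Fin 4 → Ω, g 0 * Psi T lam u₁ u₂ u₃ y t + g 1 * Psi T lam u₁ u₂ u₃ b t +
        g 2 * Psi T lam u₁ u₂ u₃ m t + g 3 * Psi T lam u₁ u₂ u₃ a' t = 0 := by
      intro u₁ u₂ u₃
      rw [← z4 u₁ u₂ u₃, ← hg', Psi_add4, Psi_add4, Psi_add4, Psi_smul4, Psi_smul4, Psi_smul4,
        Psi_smul4]
    have g3 : g 3 = 0 := by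
      have := ex y y y
      rw [R1, hb1, R2] at this
      have h : g 3 * Psi T lam y y y a' t = 0 := by linear_combination this
      exact (mul_eq_zero.mp h).resolve_right ha'
    have g2 : g 2 = 0 := by
      have := ex y y b
      rw [Psi_s34 T lam y y b y, hb1, hb2, hb3, g3] at this
      linear_combination this
    have g1 : g 1 = 0 := by
      have := ex y y m
      rw [Psi_s34 T lam y y m y, R2, hmb, R3, g3] at this
      linear_combination this
    have g0 : g 0 = 0 := by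
      rw [g1, g2, g3] at hg'
      simp only [zero_smul, add_zero] at hg'
      exact (smul_eq_zero.mp hg').resolve_right hy
    intro i
    fin_cases i
    · exact g0
    · exact g1
    · exact g2
    · exact g3
  refine ⟨b, a, hb1, hb2, by rw [hb3]; exact one_ne_zero, ?_, by rw [ha]; exact one_ne_zero⟩
  intro hA3
  -- first derivation
  have hbbbb : Psi T lam b b b b t = 0 := by
    obtain ⟨dm, hdm1, hdm2⟩ := hsurj (-3) (-(Psi T lam y b m m t))
    obtain ⟨D, hD1, hD2, hD3⟩ := DL b dm 0 (by rw [hb1, Psi_zero5]; ring)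
      (by rw [hb3, hdm1, Psi_zero5]; ring) (by rw [hdm2, Psi_zero5]; ring)
    have e1 : (fun j => D (y j)) = b := funext hD1
    have e2 : (fun j => D (m j)) = dm := funext hD2
    have e3 : (fun j => D (t j)) = 0 := funext hD3
    set c : Fin 4 → Ω := fun j => D (b j) with hc
    have k1 : Psi T lam y y y c t = 0 := by
      have h := congrArg D hb1
      rw [D_Psi, e1, e3, map_zero, Psi_zero5, ← hc] at h
      rw [Psi_s12 T lam b y y b, Psi_s23 T lam y b y b, hb2] at h
      linear_combination h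
    have k2 : Psi T lam y y b c t = 0 := by
      have h := congrArg D hb2
      rw [D_Psi, e1, e3, map_zero, Psi_zero5, ← hc] at h
      rw [Psi_s12 T lam b y b b, hA3, Psi_s34 T lam y y c b] at h
      linear_combination h / 2
    obtain ⟨α, hα⟩ := exists_comb4 (hindep a (by rw [ha]; exact one_ne_zero)) c
    have hα' : c = α 0 • y + α 1 • b + α 2 • m + α 3 • a := hα
    have ex : ∀ u₁ u₂ u₃ : Fin 4 → Ω, Psi T lam u₁ u₂ u₃ c t =
        α 0 * Psi T lam u₁ u₂ u₃ y t + α 1 * Psi T lam u₁ u₂ u₃ b t +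
        α 2 * Psi T lam u₁ u₂ u₃ m t + α 3 * Psi T lam u₁ u₂ u₃ a t := by
      intro u₁ u₂ u₃
      rw [hα', Psi_add4, Psi_add4, Psi_add4, Psi_smul4, Psi_smul4, Psi_smul4, Psi_smul4]
    have a3 : α 3 = 0 := by
      have := ex y y y
      rw [k1, R1, hb1, R2, ha] at this
      linear_combination -this
    have a2 : α 2 = 0 := by
      have := ex y y b
      rw [k2, Psi_s34 T lam y y b y, hb1, hb2, hb3, a3] at this
      linear_combination -this
    have k3 : Psi T lam y b b c t = 0 := by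
      rw [ex y b b, a2, a3, hA3, Psi_s34 T lam y b b y, Psi_s23 T lam y b y b, hb2]; ring
    have h := congrArg D hA3
    rw [D_Psi, e1, e3, map_zero, Psi_zero5, ← hc] at h
    rw [Psi_s23 T lam y c b b, Psi_s34 T lam y b c b, k3] at h
    linear_combination h
  -- second derivation
  obtain ⟨dm, hdm1, hdm2⟩ := hsurj 0 (-(Psi T lam y m m m t))
  obtain ⟨D, hD1, hD2, hD3⟩ := DL m dm 0 (by rw [R2, Psi_zero5]; ring)
    (by rw [R3, hdm1, Psi_zero5]; ring) (by rw [hdm2, Psi_zero5]; ring)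
  have e1 : (fun j => D (y j)) = m := funext hD1
  have e3 : (fun j => D (t j)) = 0 := funext hD3
  set om : Fin 4 → Ω := fun j => D (b j) with hom
  have k0 : Psi T lam y y y om t = -3 := by
    have h := congrArg D hb1
    rw [D_Psi, e1, e3, map_zero, Psi_zero5, ← hom] at h
    rw [Psi_s12 T lam m y y b, Psi_s23 T lam y m y b, hmb] at h
    linear_combination h
  have k1 : Psi T lam y y b om t = -(Psi T lam y b b m t) := by
    have h := congrArg D hb2
    rw [D_Psi, e1, e3, map_zero, Psi_zero5, ← hom] at h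
    rw [Psi_s12 T lam m y b b, Psi_s34 T lam y y om b, Psi_s23 T lam y m b b,
      Psi_s34 T lam y b m b] at h
    linear_combination h / 2
  have k2 : Psi T lam y b b om t = -(Psi T lam b b b m t) / 3 := by
    have h := congrArg D hA3
    rw [D_Psi, e1, e3, map_zero, Psi_zero5, ← hom] at h
    rw [Psi_s23 T lam y om b b, Psi_s34 T lam y b om b, Psi_s12 T lam m b b b,
      Psi_s23 T lam b m b b, Psi_s34 T lam b b m b] at h
    linear_combination h / 3
  have k3 : Psi T lam b b b om t = 0 := by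
    have h := congrArg D hbbbb
    rw [D_Psi, e3, map_zero, Psi_zero5, ← hom] at h
    rw [Psi_s12 T lam om b b b, Psi_s23 T lam b om b b, Psi_s34 T lam b b om b] at h
    linear_combination h / 4
  -- the root
  obtain ⟨s, hs⟩ : ∃ s : Ω, 3 * s ^ 2 + 3 * Psi T lam y b b m t * s + Psi T lam b b b m t = 0 := by
    obtain ⟨s, hs⟩ := IsAlgClosed.exists_root
      (Polynomial.C (3 : Ω) * Polynomial.X ^ 2 + Polynomial.C (3 * Psi T lam y b b m t) *
        Polynomial.X + Polynomial.C (Psi T lam b b b m t)) (by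
        rw [Polynomial.degree_quadratic (by norm_num : (3 : Ω) ≠ 0)]
        norm_num)
    refine ⟨s, ?_⟩
    simpa [Polynomial.IsRoot] using hs
  -- the singular point
  have hp : ∀ u : Fin 4 → Ω, Psi T lam (s • y + b) (s • y + b) (s • y + b) u t = 0 := by
    have ex : ∀ u : Fin 4 → Ω, Psi T lam (s • y + b) (s • y + b) (s • y + b) u t =
        s ^ 3 * Psi T lam y y y u t + 3 * s ^ 2 * Psi T lam y y b u t +
        3 * s * Psi T lam y b b u t + Psi T lam b b b u t := by
      intro u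
      simp only [Psi_add1, Psi_add2, Psi_add3, Psi_smul1, Psi_smul2, Psi_smul3]
      rw [Psi_s12 T lam b y y u, Psi_s23 T lam y b y u, Psi_s12 T lam b y b u,
        Psi_s23 T lam b b y u, Psi_s12 T lam b y b u]
      ring
    intro u
    have hom0 : Psi T lam y y y om t ≠ 0 := by rw [k0]; norm_num
    obtain ⟨α, hα⟩ := exists_comb4 (hindep om hom0) u
    have hα' : u = α 0 • y + α 1 • b + α 2 • m + α 3 • om := hα
    rw [hα', Psi_add4, Psi_add4, Psi_add4, Psi_smul4, Psi_smul4, Psi_smul4, Psi_smul4]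
    have f0 : Psi T lam (s • y + b) (s • y + b) (s • y + b) y t = 0 := by
      rw [ex, R1, Psi_s34 T lam y y b y, hb1, Psi_s34 T lam y b b y, Psi_s23 T lam y b y b, hb2,
        Psi_s34 T lam b b b y, Psi_s23 T lam b b y b, Psi_s12 T lam b y b b, hA3]
      ring
    have f1 : Psi T lam (s • y + b) (s • y + b) (s • y + b) b t = 0 := by
      rw [ex, hb1, hb2, hA3, hbbbb]; ring
    have f2 : Psi T lam (s • y + b) (s • y + b) (s • y + b) m t = 0 := by
      rw [ex, R2, hb3]; linear_combination hs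
    have f3 : Psi T lam (s • y + b) (s • y + b) (s • y + b) om t = 0 := by
      rw [ex, k0, k1, k2, k3]; linear_combination (-s) * hs
    rw [f0, f1, f2, f3]; ring
  have hzero : s • y + b = 0 := by
    refine hBPF _ fun w => ?_
    obtain ⟨dy, hdy, -⟩ := hsurj (-(Psi T lam y y y y w) / 4) 0
    obtain ⟨dm', hdm1', hdm2'⟩ := hsurj (-(3 * Psi T lam y y dy m t + Psi T lam y y y m w))
      (-(2 * Psi T lam y dy m m t + Psi T lam y y m m w) / 2)
    obtain ⟨D', hD1', hD2', hD3'⟩ := DL dy dm' w (by rw [hdy]; ring) (by rw [hdm1']; ring)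
      (by rw [hdm2']; ring)
    have e3' : (fun j => D' (t j)) = w := funext hD3'
    have h := congrArg D' (hp (s • y + b))
    rw [D_Psi, e3', map_zero] at h
    set q : Fin 4 → Ω := s • y + b with hq
    set dq : Fin 4 → Ω := fun j => D' (q j) with hdq
    rw [Psi_s12 T lam dq q q q, Psi_s23 T lam q dq q q, Psi_s34 T lam q q dq q, hp dq] at h
    linear_combination h
  have h1 : Psi T lam y y m (s • y + b) t = 1 := by
    rw [Psi_add4, Psi_smul4, Psi_s34 T lam y y m y, R2, hmb]; ring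
  have h0 : Psi T lam y y m (s • y + b) t = 0 := by
    rw [hzero]
    exact Psi_zero4 y y m t
  rw [h0] at h1
  exact one_ne_zero h1.symm

end Main

section Flag

variable {K : Type*} [Field K] {σ : Type*} [Fintype σ]

/-- flag data: the relations and the lifting property for derivations -/
structure FlagP (T : Ten K σ) (lam : Fin 4 → σ → K) {Ω : Type*} [Field Ω] [Algebra K Ω]
    (y m : Fin 4 → Ω) (t : σ → Ω) : Prop where
  R1 : Psi T lam y y y y t = 0
  R2 : Psi T lam y y y m t = 0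
  R3 : Psi T lam y y m m t = 0
  indep : ∀ α β γ : Ω, (∀ w : σ → Ω, α * Psi T lam y y y y w + β * Psi T lam y y y m w +
    γ * Psi T lam y y m m w = 0) → α = 0 ∧ β = 0 ∧ γ = 0
  DL : ∀ (dy dm : Fin 4 → Ω) (dt : σ → Ω),
      4 * Psi T lam y y y dy t + Psi T lam y y y y dt = 0 →
      3 * Psi T lam y y dy m t + Psi T lam y y y dm t + Psi T lam y y y m dt = 0 →
      2 * Psi T lam y dy m m t + 2 * Psi T lam y y m dm t + Psi T lam y y m m dt = 0 →
      ∃ D : Derivation K Ω Ω, (∀ i, D (y i) = dy i) ∧ (∀ i, D (m i) = dm i) ∧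
        ∀ i, D (t i) = dt i

/-- the statement PLANE for one field -/
def Plane (T : Ten K σ) (lam : Fin 4 → σ → K) (Ω : Type*) [Field Ω] [Algebra K Ω] : Prop :=
  ∀ (y : Fin 4 → Ω) (t : σ → Ω) (i₀ : Fin 4), Psi T lam y y y y t = 0 →
    Psi T lam y y y (Pi.single i₀ 1) t ≠ 0 →
    (∀ D : Derivation K Ω Ω, (∀ i, D (t i) = 0) → ∃ r : Ω, ∀ i,
      D (Psi T lam y y y (Pi.single i 1) t) = r * Psi T lam y y y (Pi.single i 1) t) →
    (∀ de : Fin 4 → Ω, Psi T lam y y y de t = 0 →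
      ∃ D : Derivation K Ω Ω, (∀ i, D (t i) = 0) ∧ ∀ i, D (y i) = de i) →
    (∃ e : σ → Ω, ∀ w : σ → Ω, ∃ (c : Ω) (D : Derivation K Ω Ω), ∀ i, D (t i) = w i - c * e i) →
    False

/-- the statement GAUSS for one field -/
def Gauss (T : Ten K σ) (lam : Fin 4 → σ → K) (Ω : Type*) [Field Ω] [Algebra K Ω] : Prop :=
  ∀ (y : Fin 4 → Ω) (t : σ → Ω) (i₀ : Fin 4), Psi T lam y y y y t = 0 →
    Psi T lam y y y (Pi.single i₀ 1) t ≠ 0 →
    (∀ D : Derivation K Ω Ω, (∀ i, D (t i) = 0) → ∃ r : Ω, ∀ i,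
      D (Psi T lam y y y (Pi.single i 1) t) = r * Psi T lam y y y (Pi.single i 1) t) →
    (∃ D : Derivation K Ω Ω, (∀ i, D (t i) = 0) ∧ ¬ ∃ c : Ω, ∀ i, D (y i) = c * y i) →
    (∀ w : σ → Ω, ∃ D : Derivation K Ω Ω, ∀ i, D (t i) = w i) →
    False

variable {T : Ten K σ} {lam : Fin 4 → σ → K} {Ω : Type*} [Field Ω] [Algebra K Ω]
  {y m : Fin 4 → Ω} {t : σ → Ω}

theorem ext_single {f g : (Fin 4 → Ω) → Ω} (hfa : ∀ u v, f (u + v) = f u + f v)
    (hfs : ∀ (r : Ω) v, f (r • v) = r * f v) (hga : ∀ u v, g (u + v) = g u + g v)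
    (hgs : ∀ (r : Ω) v, g (r • v) = r * g v) (h : ∀ i, f (Pi.single i 1) = g (Pi.single i 1))
    (u : Fin 4 → Ω) : f u = g u := by
  have hu : u = u 0 • Pi.single 0 1 + u 1 • Pi.single 1 1 + u 2 • Pi.single 2 1 +
      u 3 • Pi.single (M := fun _ => Ω) 3 1 := by
    funext i
    fin_cases i <;> simp
  rw [hu, hfa, hfa, hfa, hga, hga, hga, hfs, hfs, hfs, hfs, hgs, hgs, hgs, hgs, h, h, h, h]

theorem der_single (D : Derivation K Ω Ω) (i : Fin 4) :
    (fun j => D ((Pi.single i 1 : Fin 4 → Ω) j)) = 0 := by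
  funext j
  by_cases h : j = i
  · subst h; simp
  · simp [Pi.single_eq_of_ne h]

/-- the linear functional given by four vectors of the three-space -/
noncomputable def fnl (T : Ten K σ) (lam : Fin 4 → σ → K) (u₁ u₂ u₃ u₄ : Fin 4 → Ω) :
    Module.Dual Ω (σ → Ω) where
  toFun w := Psi T lam u₁ u₂ u₃ u₄ w
  map_add' v w := Psi_add5 T lam u₁ u₂ u₃ u₄ v w
  map_smul' r w := by rw [Psi_smul5]; rfl

/-- three independent functionals are jointly surjective -/
theorem surj3 {V : Type*} [AddCommGroup V] [Module Ω V] (f₀ f₁ f₂ : Module.Dual Ω V)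
    (h : ∀ α β γ : Ω, (∀ v, α * f₀ v + β * f₁ v + γ * f₂ v = 0) → α = 0 ∧ β = 0 ∧ γ = 0)
    (r₀ r₁ r₂ : Ω) : ∃ v : V, f₀ v = r₀ ∧ f₁ v = r₁ ∧ f₂ v = r₂ := by
  let Φ : V →ₗ[Ω] (Fin 3 → Ω) := LinearMap.pi ![f₀, f₁, f₂]
  have hsurj : LinearMap.range Φ = ⊤ := by
    by_contra hne
    obtain ⟨l, hl0, hl⟩ := Submodule.exists_le_ker_of_lt_top _ (lt_top_iff_ne_top.mpr hne)
    have h1 : ∀ v, l (Pi.single 0 1) * f₀ v + l (Pi.single 1 1) * f₁ v +
        l (Pi.single 2 1) * f₂ v = 0 := by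
      intro v
      have h2 : l (Φ v) = 0 := hl ⟨v, rfl⟩
      have h3 : Φ v = f₀ v • Pi.single 0 1 + f₁ v • Pi.single 1 1 + f₂ v • Pi.single 2 1 := by
        funext i
        fin_cases i <;> simp [Φ]
      rw [h3, map_add, map_add, map_smul, map_smul, map_smul, smul_eq_mul, smul_eq_mul,
        smul_eq_mul] at h2
      linear_combination h2
    obtain ⟨a, b, c⟩ := h _ _ _ h1
    apply hl0
    refine LinearMap.pi_ext' fun i => ?_
    ext
    fin_cases i
    · simpa using a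
    · simpa using b
    · simpa using c
  have hs : Function.Surjective Φ := LinearMap.range_eq_top.mp hsurj
  obtain ⟨v, hv⟩ := hs ![r₀, r₁, r₂]
  refine ⟨v, ?_, ?_, ?_⟩
  · simpa [Φ] using congrFun hv 0
  · simpa [Φ] using congrFun hv 1
  · simpa [Φ] using congrFun hv 2

theorem FlagP.surj (h : FlagP T lam y m t) (r₀ r₁ r₂ : Ω) : ∃ w : σ → Ω,
    Psi T lam y y y y w = r₀ ∧ Psi T lam y y y m w = r₁ ∧ Psi T lam y y m m w = r₂ :=
  surj3 (fnl T lam y y y y) (fnl T lam y y y m) (fnl T lam y y m m) h.indep r₀ r₁ r₂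

/-- every vector is `D y` for some derivation -/
theorem FlagP.exists_der (h : FlagP T lam y m t) (u : Fin 4 → Ω) :
    ∃ D : Derivation K Ω Ω, ∀ i, D (y i) = u i := by
  obtain ⟨w, h0, h1, h2⟩ := h.surj (-(4 * Psi T lam y y y u t)) (-(3 * Psi T lam y y u m t))
    (-(2 * Psi T lam y u m m t))
  obtain ⟨D, hD, -⟩ := h.DL u 0 w (by rw [h0]; ring) (by rw [h1, Psi_zero4]; ring)
    (by rw [h2, Psi_zero4]; ring)
  exact ⟨D, hD⟩

theorem four_in_three {V : Type*} [AddCommGroup V] [Module Ω V] (f : Fin 4 → V) (g : Fin 3 → V)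
    (h : ∀ i, f i ∈ Submodule.span Ω (Set.range g)) :
    ∃ c : Fin 4 → Ω, c ≠ 0 ∧ ∑ i, c i • f i = 0 := by
  by_contra hcon
  push Not at hcon
  have hli : LinearIndependent Ω f := by
    rw [Fintype.linearIndependent_iff]
    intro c hc
    by_contra hne
    exact hcon c (fun h0 => hne (fun i => by rw [h0]; rfl)) hc
  have h1 : LinearIndependent Ω (fun i => (⟨f i, h i⟩ : Submodule.span Ω (Set.range g))) := by
    apply LinearIndependent.of_comp (Submodule.span Ω (Set.range g)).subtype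
    exact hli
  have : Module.Finite Ω (Submodule.span Ω (Set.range g)) :=
    FiniteDimensional.span_of_finite Ω (Set.finite_range g)
  have h2 := h1.fintype_card_le_finrank
  have h3 := finrank_range_le_card (R := Ω) g
  rw [Set.finrank] at h3
  rw [Fintype.card_fin] at h2 h3
  omega

/-- the linear form `l` does not vanish -/
theorem FlagP.l_ne (h : FlagP T lam y m t)
    (imm : ∀ u : Fin 4 → Ω, (∀ w : σ → Ω, Psi T lam y y y u w = 0) → u = 0) :
    ∃ i, Psi T lam y y y (Pi.single i 1) t ≠ 0 := by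
  by_contra hcon
  push Not at hcon
  have hker : ∀ i, ∀ w : σ → Ω, Psi T lam y y y y w = 0 → Psi T lam y y y m w = 0 →
      Psi T lam y y m m w = 0 → Psi T lam y y y (Pi.single i 1) w = 0 := by
    intro i w h0 h1 h2
    obtain ⟨D, hD1, hD2, hD3⟩ := h.DL 0 0 w (by rw [h0, Psi_zero4]; ring)
      (by rw [h1, Psi_zero4, Psi_zero3]; ring) (by rw [h2, Psi_zero4, Psi_zero2]; ring)
    have e1 : (fun j => D (y j)) = 0 := funext hD1
    have e3 : (fun j => D (t j)) = w := funext hD3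
    have hh := congrArg D (hcon i)
    rw [D_Psi, e1, e3, map_zero, Psi_zero1, Psi_zero2, Psi_zero3, der_single, Psi_zero4] at hh
    linear_combination hh
  have hspan : ∀ i, fnl T lam y y y (Pi.single i 1) ∈ Submodule.span Ω (Set.range
      ![fnl T lam y y y y, fnl T lam y y y m, fnl T lam y y m m]) := by
    intro i
    refine mem_span_of_iInf_ker_le_ker fun w hw => ?_
    rw [Submodule.mem_iInf] at hw
    exact hker i w (hw 0) (hw 1) (hw 2)
  obtain ⟨c, hc0, hc⟩ := four_in_three _ _ hspan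
  apply hc0
  apply imm
  intro w
  have h1 : c 0 * Psi T lam y y y (Pi.single 0 1) w + c 1 * Psi T lam y y y (Pi.single 1 1) w +
      c 2 * Psi T lam y y y (Pi.single 2 1) w + c 3 * Psi T lam y y y (Pi.single 3 1) w = 0 := by
    have h2 := congrArg (fun f : Module.Dual Ω (σ → Ω) => f w) hc
    rw [Fin.sum_univ_four] at h2
    exact h2
  have hu : c = c 0 • Pi.single 0 1 + c 1 • Pi.single 1 1 + c 2 • Pi.single 2 1 +
      c 3 • Pi.single (M := fun _ => Ω) 3 1 := by
    funext i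
    fin_cases i <;> simp
  rw [hu, Psi_add4, Psi_add4, Psi_add4, Psi_smul4, Psi_smul4, Psi_smul4, Psi_smul4]
  exact h1

/-- the main claim -/
theorem FlagP.main [CharZero Ω] (h : FlagP T lam y m t) (hP : Plane T lam Ω) (hG : Gauss T lam Ω)
    (imm : ∀ u : Fin 4 → Ω, (∀ w : σ → Ω, Psi T lam y y y u w = 0) → u = 0) :
    ¬ ∃ rho : Ω, ∀ u, Psi T lam y y m u t = rho * Psi T lam y y y u t := by
  rintro ⟨rho, hrho⟩
  obtain ⟨i₀, hi₀⟩ := h.l_ne imm
  -- the quadric through `y`
  have hq : ∀ n : Fin 4 → Ω, Psi T lam y y y n t = 0 →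
      ∃ r : Ω, ∀ u, Psi T lam y y n u t = r * Psi T lam y y y u t := by
    intro n hn
    obtain ⟨D, hD1, hD2, hD3⟩ := h.DL 0 n 0 (by rw [Psi_zero4, Psi_zero5]; ring)
      (by rw [hn, Psi_zero3, Psi_zero5]; ring)
      (by rw [hrho, hn, Psi_zero2, Psi_zero5]; ring)
    have e1 : (fun j => D (y j)) = 0 := funext hD1
    have e2 : (fun j => D (m j)) = n := funext hD2
    have e3 : (fun j => D (t j)) = 0 := funext hD3
    refine ⟨D rho, ext_single (fun u v => Psi_add4 T lam u v _ _ _ _)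
      (fun r v => Psi_smul4 T lam r _ _ _ v _)
      (fun u v => by rw [Psi_add4]; ring) (fun r v => by rw [Psi_smul4]; ring) fun i => ?_⟩
    have h1 := congrArg D (hrho (Pi.single i 1))
    rw [D_Psi, e1, e2, e3, der_single, Psi_zero1, Psi_zero2, Psi_zero4, Psi_zero5,
      Derivation.leibniz, D_Psi, e1, e3, der_single, Psi_zero1, Psi_zero2, Psi_zero3, Psi_zero4,
      Psi_zero5] at h1
    simp only [smul_eq_mul] at h1
    linear_combination h1
  have h1 : ∀ D : Derivation K Ω Ω, (∀ i, D (t i) = 0) → ∃ r : Ω, ∀ i,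
      D (Psi T lam y y y (Pi.single i 1) t) = r * Psi T lam y y y (Pi.single i 1) t := by
    intro D hD
    have e3 : (fun j => D (t j)) = 0 := funext hD
    set de : Fin 4 → Ω := fun j => D (y j) with hde
    have hl : Psi T lam y y y de t = 0 := by
      have h2 := congrArg D h.R1
      rw [D_Psi, e3, ← hde, map_zero, Psi_zero5, Psi_s12 T lam de y y y,
        Psi_s23 T lam y de y y, Psi_s34 T lam y y de y] at h2
      linear_combination h2 / 4
    obtain ⟨r, hr⟩ := hq de hl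
    refine ⟨3 * r, fun i => ?_⟩
    rw [D_Psi, e3, ← hde, der_single, Psi_zero4, Psi_zero5, Psi_s12 T lam de y y,
      Psi_s23 T lam y de y, hr]
    ring
  obtain ⟨a, ha⟩ : ∃ a : Fin 4 → Ω, Psi T lam y y y a t = 1 :=
    ⟨(Psi T lam y y y (Pi.single i₀ 1) t)⁻¹ • Pi.single i₀ 1, by
      rw [Psi_smul4, inv_mul_cancel₀ hi₀]⟩
  by_cases hcase : ∃ rho' : Ω, ∀ u, Psi T lam y m m u t = rho' * Psi T lam y y y u t
  · obtain ⟨rho', hrho'⟩ := hcase
    refine hP y t i₀ h.R1 hi₀ h1 ?_ ?_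
    · intro de hde
      obtain ⟨D, hD1, hD2, hD3⟩ := h.DL de 0 0 (by rw [hde, Psi_zero5]; ring)
        (by rw [Psi_s34 T lam y y de m, hrho, hde, Psi_zero4, Psi_zero5]; ring)
        (by rw [Psi_s23 T lam y de m m, Psi_s34 T lam y m de m, hrho', hde, Psi_zero4,
          Psi_zero5]; ring)
      exact ⟨D, hD3, hD1⟩
    · obtain ⟨e, he0, he1, he2⟩ := h.surj 0 0 1
      refine ⟨e, fun w => ?_⟩
      set α : Ω := -(Psi T lam y y y y w) / 4 with hα
      set β : Ω := -(3 * rho * α + Psi T lam y y y m w) with hβ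
      set c : Ω := 2 * rho' * α + 2 * rho * β + Psi T lam y y m m w with hc
      obtain ⟨D, hD1, hD2, hD3⟩ := h.DL (α • a) (β • a) (w + (-c) • e)
        (by rw [Psi_smul4, ha, Psi_add5, Psi_smul5, he0, hα]; ring)
        (by rw [Psi_s34 T lam y y _ m, hrho, Psi_smul4, Psi_smul4, ha, Psi_add5, Psi_smul5, he1,
              hβ]; ring)
        (by rw [Psi_s23 T lam y _ m m, Psi_s34 T lam y m _ m, hrho', hrho, Psi_smul4, Psi_smul4,
              ha, Psi_add5, Psi_smul5, he2, hc]; ring)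
      refine ⟨c, D, fun i => ?_⟩
      rw [hD3, Pi.add_apply, Pi.smul_apply, smul_eq_mul]; ring
  · -- the two forms are independent
    obtain ⟨u0, hu0⟩ : ∃ u, Psi T lam y m m u t ≠ Psi T lam y m m a t * Psi T lam y y y u t := by
      by_contra hcon
      push Not at hcon
      exact hcase ⟨_, hcon⟩
    obtain ⟨b, hb1, hb2⟩ : ∃ b : Fin 4 → Ω, Psi T lam y y y b t = 0 ∧ Psi T lam y m m b t = 1 := by
      set r : Ω := Psi T lam y m m u0 t - Psi T lam y m m a t * Psi T lam y y y u0 t with hr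
      have hr0 : r ≠ 0 := sub_ne_zero.mpr hu0
      refine ⟨r⁻¹ • (u0 + (-(Psi T lam y y y u0 t)) • a), ?_, ?_⟩
      · rw [Psi_smul4, Psi_add4, Psi_smul4, ha]; ring
      · rw [Psi_smul4, Psi_add4, Psi_smul4]
        have : Psi T lam y m m u0 t + -(Psi T lam y y y u0 t) * Psi T lam y m m a t = r := by
          rw [hr]; ring
        rw [this, inv_mul_cancel₀ hr0]
    refine hG y t i₀ h.R1 hi₀ h1 ?_ ?_
    · -- a vector in the two kernels which is not a multiple of `y`
      obtain ⟨n, hn1, hn2, hn3⟩ : ∃ n : Fin 4 → Ω, Psi T lam y y y n t = 0 ∧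
          Psi T lam y m m n t = 0 ∧ ¬ ∃ c : Ω, ∀ i, n i = c * y i := by
        by_contra hcon
        push Not at hcon
        -- every projection to the common kernel is a multiple of `y`
        have hdep : ∀ u : Fin 4 → Ω, u ∈ Submodule.span Ω (Set.range ![y, a, b]) := by
          intro u
          obtain ⟨c, hc⟩ := hcon (u + (-(Psi T lam y y y u t)) • a +
            (-(Psi T lam y m m u t - Psi T lam y y y u t * Psi T lam y m m a t)) • b)
            (by rw [Psi_add4, Psi_add4, Psi_smul4, Psi_smul4, ha, hb1]; ring)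
            (by rw [Psi_add4, Psi_add4, Psi_smul4, Psi_smul4, hb2]; ring)
          rw [Submodule.mem_span_range_iff_exists_fun]
          refine ⟨![c, Psi T lam y y y u t,
            Psi T lam y m m u t - Psi T lam y y y u t * Psi T lam y m m a t], ?_⟩
          rw [Fin.sum_univ_three]
          funext i
          have h2 := hc i
          simp only [Pi.add_apply, Pi.smul_apply, smul_eq_mul] at h2
          simp only [Matrix.cons_val_zero, Matrix.cons_val_one, Matrix.cons_val_two,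
            Matrix.head_cons, Matrix.tail_cons, Matrix.cons_val, Pi.add_apply, Pi.smul_apply,
            smul_eq_mul]
          linear_combination -h2
        obtain ⟨c, hc0, hc⟩ := four_in_three (fun i : Fin 4 => (Pi.single i 1 : Fin 4 → Ω)) _
          (fun i => hdep _)
        apply hc0
        funext i
        have h2 := congrFun hc i
        rw [Fin.sum_univ_four] at h2
        fin_cases i
        · simpa using h2
        · simpa using h2
        · simpa using h2
        · simpa using h2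
      obtain ⟨D, hD1, hD2, hD3⟩ := h.DL n 0 0 (by rw [hn1, Psi_zero5]; ring)
        (by rw [Psi_s34 T lam y y n m, hrho, hn1, Psi_zero4, Psi_zero5]; ring)
        (by rw [Psi_s23 T lam y n m m, Psi_s34 T lam y m n m, hn2, Psi_zero4, Psi_zero5]; ring)
      refine ⟨D, hD3, ?_⟩
      rintro ⟨c, hc⟩
      exact hn3 ⟨c, fun i => by rw [← hD1 i]; exact hc i⟩
    · intro w
      set α : Ω := -(Psi T lam y y y y w) / 4 with hα
      set β : Ω := -(3 * rho * α + Psi T lam y y y m w) with hβ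
      set γ : Ω := -(2 * rho * β + Psi T lam y y m m w) / 2 - α * Psi T lam y m m a t with hγ
      obtain ⟨D, -, -, hD3⟩ := h.DL (α • a + γ • b) (β • a) w
        (by rw [Psi_add4, Psi_smul4, Psi_smul4, ha, hb1, hα]; ring)
        (by rw [Psi_s34 T lam y y _ m, hrho, Psi_add4, Psi_smul4, Psi_smul4, Psi_smul4, ha, hb1,
              hβ]; ring)
        (by rw [Psi_s23 T lam y _ m m, Psi_s34 T lam y m _ m, hrho, Psi_add4, Psi_smul4, Psi_smul4,
              Psi_smul4, ha, hb2, hγ]; ring)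
      exact ⟨D, hD3⟩

end Flag

end A67

end Pool.Agent.Work.PD5
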