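import Mathlib

/-!
Forms without common zeros: transfer between fields, reduction at valuations, and algebraicity of
the coordinates over the field generated by the values.
-/

namespace Pool.Agent.Work.PD5

open MvPolynomial

theorem aeval_smul_hom {L : Type*} [Field L] {τ : Type*} {R : Type*} [CommRing R] [Algebra L R]
    {p : MvPolynomial τ L} {d : ℕ} (hp : p.IsHomogeneous d) (c : R) (x : τ → R) :
    aeval (fun i => c * x i) p = c ^ d * aeval x p := by
  rw [aeval_def, aeval_def, eval₂_eq, eval₂_eq, Finset.mul_sum]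
  refine Finset.sum_congr rfl fun m hm => ?_
  have h1 : ∏ i ∈ m.support, (c * x i) ^ m i = c ^ d * ∏ i ∈ m.support, x i ^ m i := by
    simp only [mul_pow]
    rw [Finset.prod_mul_distrib, Finset.prod_pow_eq_pow_sum]
    congr 2
    have := hp (mem_support_iff.mp hm)
    rw [← this, Finsupp.weight_apply, Finsupp.sum]
    simp
  rw [h1]; ring

/-- forms over `L` whose only common zero over an algebraically closed field is the origin have the
same property over every field -/
theorem transfer {L : Type*} [Field L] {Ω : Type*} [Field Ω] [Algebra L Ω] [IsAlgClosed Ω]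
    {τ : Type*} [Finite τ] {ι : Type*} (p : ι → MvPolynomial τ L)
    (h : ∀ x : τ → Ω, (∀ i, aeval x (p i) = 0) → x = 0)
    {E : Type*} [Field E] [Algebra L E] (x : τ → E) (hx : ∀ i, aeval x (p i) = 0) : x = 0 := by
  funext j
  have h1 : (X j : MvPolynomial τ L) ∈ (Ideal.span (Set.range p)).radical := by
    rw [← vanishingIdeal_zeroLocus_eq_radical (K := Ω), mem_vanishingIdeal_iff]
    intro y hy
    rw [mem_zeroLocus_iff] at hy
    have h2 : y = 0 := h y fun i => hy (p i) (Ideal.subset_span ⟨i, rfl⟩)
    rw [h2, aeval_X]; rfl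
  obtain ⟨N, hN⟩ := h1
  have h3 : Ideal.span (Set.range p) ≤ RingHom.ker (aeval (R := L) x : MvPolynomial τ L →ₐ[L] E) := by
    rw [Ideal.span_le]
    rintro _ ⟨i, rfl⟩
    exact hx i
  have h4 := h3 hN
  rw [RingHom.mem_ker, map_pow, aeval_X] at h4
  simpa using eq_zero_of_pow_eq_zero h4

/-- a non zero vector over a valued field has a coordinate of maximal valuation -/
theorem exists_max_coord_v {Ω : Type*} [Field Ω] (V : ValuationSubring Ω) {τ : Type*} [Finite τ]
    (y : τ → Ω) (hy : y ≠ 0) : ∃ i, y i ≠ 0 ∧ ∀ j, y j / y i ∈ V := by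
  have hne : Nonempty τ := by
    by_contra h
    rw [not_nonempty_iff] at h
    exact hy (Subsingleton.elim _ _)
  obtain ⟨i, hi⟩ := Finite.exists_max (fun j => V.valuation (y j))
  have hyi : y i ≠ 0 := by
    intro h0
    apply hy
    funext j
    have := hi j
    rw [h0, map_zero, le_zero_iff, Valuation.zero_iff] at this
    exact this
  refine ⟨i, hyi, fun j => ?_⟩
  rw [← V.valuation_le_one_iff, map_div₀]
  exact div_le_one_of_le₀ (hi j) zero_le

/-- reduction: at a coordinate of maximal valuation the values of the forms cannot all be small -/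
theorem val_reduce {L : Type*} [Field L] {Ω : Type*} [Field Ω] [Algebra L Ω]
    {τ : Type*} {ι : Type*} (p : ι → MvPolynomial τ L) {d : ℕ} (hp : ∀ i, (p i).IsHomogeneous d)
    (V : ValuationSubring Ω) (hV : ∀ a : L, algebraMap L Ω a ∈ V)
    (htriv : ∀ [Algebra L (IsLocalRing.ResidueField V)] (x : τ → IsLocalRing.ResidueField V),
      (∀ i, aeval x (p i) = 0) → x = 0)
    (y : τ → Ω) (c : τ) (hc : y c ≠ 0) (hmax : ∀ j, y j / y c ∈ V) :
    ¬ ∀ i, V.valuation (aeval y (p i) / y c ^ d) < 1 := by
  intro hsmall
  let φ : L →+* V := (algebraMap L Ω).codRestrict V.toSubring hV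
  let _ : Algebra L V := φ.toAlgebra
  let _ : Algebra L (IsLocalRing.ResidueField V) := ((IsLocalRing.residue V).comp φ).toAlgebra
  have _ : IsScalarTower L V Ω := IsScalarTower.of_algebraMap_eq fun a => rfl
  let red : V →ₐ[L] IsLocalRing.ResidueField V :=
    { toRingHom := IsLocalRing.residue V, commutes' := fun a => rfl }
  let inc : V →ₐ[L] Ω := { toRingHom := algebraMap V Ω, commutes' := fun a => rfl }
  let s : τ → V := fun j => ⟨y j / y c, hmax j⟩
  have h1 : ∀ i, aeval (fun j => red (s j)) (p i) = 0 := by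
    intro i
    have h2 : aeval (fun j => red (s j)) (p i) = red (aeval s (p i)) := by
      rw [← comp_aeval_apply]
    rw [h2]
    have h3 : inc (aeval s (p i)) = aeval y (p i) / y c ^ d := by
      rw [comp_aeval_apply]
      have h4 : (fun j => inc (s j)) = fun j => (y c)⁻¹ * y j := by
        funext j
        show y j / y c = _
        field_simp
      rw [h4, aeval_smul_hom (hp i), inv_pow]
      field_simp
    have h5 : aeval s (p i) ∈ IsLocalRing.maximalIdeal V := by
      rw [V.valuation_lt_one_iff]
      have := hsmall i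
      rw [← h3] at this
      exact this
    exact (IsLocalRing.residue_eq_zero_iff _).mpr h5
  have h6 := htriv (fun j => red (s j)) h1
  have h7 : red (s c) = 0 := congrFun h6 c
  have h8 : s c = 1 := by
    apply Subtype.ext
    show y c / y c = 1
    exact div_self hc
  rw [h8, map_one] at h7
  exact one_ne_zero h7

/-- an element which is not algebraic over a subfield lies outside some valuation ring containing
the subfield -/
theorem exists_val_not_mem {Ω : Type*} [Field Ω] (L : Subfield Ω) (z : Ω) (hz : ¬ IsAlgebraic L z) :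
    ∃ V : ValuationSubring Ω, (∀ a ∈ L, a ∈ V) ∧ z ∉ V := by
  by_contra hcon
  push Not at hcon
  apply hz
  have h1 : z ∈ (⨅ V : {V : ValuationSubring Ω // (L : Set Ω) ⊆ V.toSubring}, V.1.toSubring) := by
    rw [Subring.mem_iInf]
    rintro ⟨V, hV⟩
    exact hcon V fun a ha => hV ha
  rw [iInf_valuationSubring_superset] at h1
  have h2 : IsIntegral (Subring.closure (L : Set Ω)) z := h1
  obtain ⟨q, hq, hq0⟩ := h2
  have hle : Subring.closure (L : Set Ω) ≤ L.toSubring := by
    rw [Subring.closure_le]; exact fun _ h => h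
  refine IsIntegral.isAlgebraic (R := L) ?_
  refine ⟨q.map (Subring.inclusion hle), hq.map _, ?_⟩
  rw [Polynomial.eval₂_map]
  exact hq0

/-- **Integrality**: if the forms `p i` of degree `d ≥ 1` have no common zero, then the coordinates
of `y` are algebraic over every subfield containing the values and the coefficients. -/
theorem coord_algebraic {K : Type*} [Field K] {Ω : Type*} [Field Ω] [Algebra K Ω]
    {τ : Type*} [Finite τ] {ι : Type*} (p : ι → MvPolynomial τ K) {d : ℕ} (hd : d ≠ 0)
    (hp : ∀ i, (p i).IsHomogeneous d)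
    (htriv : ∀ (V : ValuationSubring Ω) [Algebra K (IsLocalRing.ResidueField V)]
      (x : τ → IsLocalRing.ResidueField V), (∀ i, aeval x (p i) = 0) → x = 0)
    (y : τ → Ω) (L : Subfield Ω) (hK : ∀ a : K, algebraMap K Ω a ∈ L)
    (hL : ∀ i, aeval y (p i) ∈ L) (j : τ) : IsAlgebraic L (y j) := by
  by_contra hz
  obtain ⟨V, hV, hj⟩ := exists_val_not_mem L (y j) hz
  have hy0 : y ≠ 0 := by
    rintro rfl
    exact hj V.zero_mem
  obtain ⟨c, hc, hmax⟩ := exists_max_coord_v V y hy0
  refine val_reduce p hp V (fun a => hV _ (hK a)) (fun x => htriv V x) y c hc hmax ?_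
  intro i
  have h1 : 1 < V.valuation (y c) := by
    have h2 : ¬ V.valuation (y j) ≤ 1 := fun h => hj ((V.valuation_le_one_iff _).mp h)
    have h3 : V.valuation (y j) ≤ V.valuation (y c) := by
      have := (V.valuation_le_one_iff _).mpr (hmax j)
      rw [map_div₀] at this
      have hpos : 0 < V.valuation (y c) := by
        rw [zero_lt_iff]; exact (Valuation.ne_zero_iff _).mpr hc
      exact (div_le_one₀ hpos).mp this
    exact lt_of_lt_of_le (not_le.mp h2) h3
  have h4 : V.valuation (aeval y (p i)) ≤ 1 := (V.valuation_le_one_iff _).mpr (hV _ (hL i))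
  rw [map_div₀, map_pow]
  have h5 : 1 < V.valuation (y c) ^ d := one_lt_pow₀ h1 hd
  have hpos : 0 < V.valuation (y c) ^ d := lt_trans zero_lt_one h5
  rw [div_lt_one₀ hpos]
  exact lt_of_le_of_lt h4 h5

/-- **Gauss**: if the forms `p i` over `L` have no common zero and their values at `y` are
proportional to constants, with factor `G`, then the elements `G / y j ^ d` are algebraic over
`L`. -/
theorem gauss_algebraic {Ω : Type*} [Field Ω] (L : Subfield Ω)
    {τ : Type*} [Finite τ] {ι : Type*} (p : ι → MvPolynomial τ L) {d : ℕ}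
    (hp : ∀ i, (p i).IsHomogeneous d)
    (htriv : ∀ (V : ValuationSubring Ω) [Algebra L (IsLocalRing.ResidueField V)]
      (x : τ → IsLocalRing.ResidueField V), (∀ i, aeval x (p i) = 0) → x = 0)
    (y : τ → Ω) (r : ι → L) (G : Ω) (hr : ∀ i, aeval y (p i) = (r i : Ω) * G)
    (j : τ) (hj : y j ≠ 0) : IsAlgebraic L (G / y j ^ d) := by
  by_contra hz
  have hz' : ¬ IsAlgebraic L (G / y j ^ d)⁻¹ := fun h => hz (by simpa using h.inv)
  obtain ⟨V, hV, hx⟩ := exists_val_not_mem L _ hz'
  have hx1 : V.valuation (G / y j ^ d) < 1 := by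
    by_contra hcon
    apply hx
    rw [← V.valuation_le_one_iff, map_inv₀]
    exact inv_le_one_of_one_le₀ (not_lt.mp hcon)
  have hy0 : y ≠ 0 := by
    rintro rfl; exact hj rfl
  obtain ⟨c, hc, hmax⟩ := exists_max_coord_v V y hy0
  refine val_reduce p hp V (fun a => hV _ a.2) (fun x => htriv V x) y c hc hmax ?_
  intro i
  have h1 : aeval y (p i) / y c ^ d = (r i : Ω) * (G / y j ^ d) * (y j / y c) ^ d := by
    rw [hr i, div_pow]; field_simp
  rw [h1, map_mul, map_mul, map_pow]
  have h2 : V.valuation (r i : Ω) ≤ 1 := (V.valuation_le_one_iff _).mpr (hV _ (r i).2)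
  have h3 : V.valuation (y j / y c) ^ d ≤ 1 :=
    pow_le_one' ((V.valuation_le_one_iff _).mpr (hmax j)) d
  calc V.valuation (r i : Ω) * V.valuation (G / y j ^ d) * V.valuation (y j / y c) ^ d
      ≤ 1 * V.valuation (G / y j ^ d) * 1 := by gcongr
    _ = V.valuation (G / y j ^ d) := by rw [one_mul, mul_one]
    _ < 1 := hx1

end Pool.Agent.Work.PD5
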