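import Mathlib
import Pool.Agent.Work.MP_b62148_ag.Quintic.PsiQ
import Pool.Agent.Work.MP_b62148_ag.Quintic.ValQ

/-!
Derivations and constants; module A1 (immersion) of the theorem on quintics containing a
three-space.
-/

namespace Pool.Agent.Work.PD5

open MvPolynomial

universe u v w

section Kill

variable {K : Type*} [Field K] {Ω : Type*} [Field Ω] [Algebra K Ω]

/-- a derivation killing a subfield kills the elements algebraic over it -/
theorem der_algebraic [CharZero Ω] (D : Derivation K Ω Ω) (L : Subfield Ω)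
    (hD : ∀ a ∈ L, D a = 0) {x : Ω} (hx : IsAlgebraic L x) : D x = 0 := by
  have hadd : ∀ a b : Ω, D (a + b) = D a + D b := fun a b => map_add D a b
  let D' : Derivation L Ω Ω :=
    { toFun := fun a => D a
      map_add' := hadd
      map_smul' := by
        intro r a
        show D ((r : Ω) * a) = (r : Ω) * D a
        rw [Derivation.leibniz, hD _ r.2]; simp
      map_one_eq_zero' := Derivation.map_one_eq_zero D
      leibniz' := Derivation.leibniz D }
  have hint : IsIntegral L x := hx.isIntegral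
  have hsep : (minpoly L x).Separable := (minpoly.irreducible hint).separable
  have h1 : D' (Polynomial.aeval x (minpoly L x)) = 0 := by rw [minpoly.aeval, map_zero]
  rw [Derivation.map_aeval] at h1
  have h2 : Polynomial.aeval x (Polynomial.derivative (minpoly L x)) ≠ 0 :=
    hsep.aeval_derivative_ne_zero (minpoly.aeval L x)
  exact (smul_eq_zero.mp h1).resolve_left h2

theorem der_div (D : Derivation K Ω Ω) (a b : Ω) (hb : b ≠ 0) :
    D (a / b) * b ^ 2 = D a * b - a * D b := by
  have h1 : D a = D (a / b * b) := by rw [div_mul_cancel₀ _ hb]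
  rw [Derivation.leibniz, smul_eq_mul, smul_eq_mul] at h1
  rw [h1]
  field_simp
  ring

/-- the field of constants of a family of derivations -/
def constField (S : Set (Derivation K Ω Ω)) : Subfield Ω where
  carrier := {x | ∀ D ∈ S, D x = 0}
  mul_mem' := by
    intro a b ha hb D hD
    rw [Derivation.leibniz, ha D hD, hb D hD]; simp
  one_mem' := fun D _ => Derivation.map_one_eq_zero D
  add_mem' := by
    intro a b ha hb D hD
    rw [map_add, ha D hD, hb D hD, add_zero]
  zero_mem' := fun D _ => map_zero D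
  neg_mem' := by
    intro a ha D hD
    rw [map_neg, ha D hD, neg_zero]
  inv_mem' := by
    intro a ha D hD
    by_cases h0 : a = 0
    · rw [h0, inv_zero, map_zero]
    · have h1 : D (a⁻¹ * a) = 0 := by rw [inv_mul_cancel₀ h0, Derivation.map_one_eq_zero]
      rw [Derivation.leibniz, ha D hD, smul_zero, zero_add, smul_eq_mul] at h1
      exact (mul_eq_zero.mp h1).resolve_left h0

theorem mem_constField (S : Set (Derivation K Ω Ω)) (x : Ω) :
    x ∈ constField S ↔ ∀ D ∈ S, D x = 0 := Iff.rfl

end Kill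

section Poly

variable {K : Type*} [Field K] {σ : Type*} [Fintype σ] (T : Ten K σ) (lam : Fin 4 → σ → K)
variable {L : Type*} [Field L] [Algebra K L] {τ : Type*}

theorem Phi_isHomogeneous (v₁ v₂ v₃ v₄ v₅ : σ → MvPolynomial τ L) {d₁ d₂ d₃ d₄ d₅ : ℕ}
    (h₁ : ∀ i, (v₁ i).IsHomogeneous d₁) (h₂ : ∀ i, (v₂ i).IsHomogeneous d₂)
    (h₃ : ∀ i, (v₃ i).IsHomogeneous d₃) (h₄ : ∀ i, (v₄ i).IsHomogeneous d₄)
    (h₅ : ∀ i, (v₅ i).IsHomogeneous d₅) :
    (Phi T v₁ v₂ v₃ v₄ v₅).IsHomogeneous (d₁ + d₂ + d₃ + d₄ + d₅) := by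
  unfold Phi
  refine IsHomogeneous.sum _ _ _ fun i _ => IsHomogeneous.sum _ _ _ fun j _ =>
    IsHomogeneous.sum _ _ _ fun l _ => IsHomogeneous.sum _ _ _ fun m _ =>
    IsHomogeneous.sum _ _ _ fun n _ => ?_
  rw [IsScalarTower.algebraMap_apply K L (MvPolynomial τ L), algebraMap_eq]
  have h := (isHomogeneous_C τ (algebraMap K L (T.a i j l m n))).mul
    (((((h₁ i).mul (h₂ j)).mul (h₃ l)).mul (h₄ m)).mul (h₅ n))
  rwa [zero_add] at h

omit [Fintype σ] in
theorem emb_X_isHomogeneous (i : σ) :
    (emb lam (fun j => (X j : MvPolynomial (Fin 4) L)) i).IsHomogeneous 1 := by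
  rw [emb_apply]
  refine IsHomogeneous.sum _ _ _ fun j _ => ?_
  rw [IsScalarTower.algebraMap_apply K L (MvPolynomial (Fin 4) L), algebraMap_eq]
  have h := (isHomogeneous_X L j).mul (isHomogeneous_C (Fin 4) (algebraMap K L (lam j i)))
  exact h

omit [Fintype σ] in
theorem emb_C_isHomogeneous (u : Fin 4 → L) (i : σ) :
    (emb lam (fun j => (C (u j) : MvPolynomial (Fin 4) L)) i).IsHomogeneous 0 := by
  rw [emb_apply]
  refine IsHomogeneous.sum _ _ _ fun j _ => ?_
  rw [IsScalarTower.algebraMap_apply K L (MvPolynomial (Fin 4) L), algebraMap_eq, ← C_mul]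
  exact isHomogeneous_C _ _

/-- the quartic forms `Psi s s s s w` -/
noncomputable def qol4 (w : σ → L) : MvPolynomial (Fin 4) L :=
  Psi T lam (fun j => X j) (fun j => X j) (fun j => X j) (fun j => X j) (fun i => C (w i))

theorem qol4_hom (w : σ → L) : (qol4 T lam w).IsHomogeneous 4 := by
  have h := Phi_isHomogeneous T _ _ _ _ _ (emb_X_isHomogeneous (L := L) lam)
    (emb_X_isHomogeneous (L := L) lam) (emb_X_isHomogeneous (L := L) lam)
    (emb_X_isHomogeneous (L := L) lam) (fun i => isHomogeneous_C (Fin 4) (w i))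
  exact h

/-- the cubic forms `Psi s s s u t` -/
noncomputable def qol3 (u : Fin 4 → L) (t : σ → L) : MvPolynomial (Fin 4) L :=
  Psi T lam (fun j => X j) (fun j => X j) (fun j => X j) (fun j => C (u j)) (fun i => C (t i))

theorem qol3_hom (u : Fin 4 → L) (t : σ → L) : (qol3 T lam u t).IsHomogeneous 3 := by
  have h := Phi_isHomogeneous T _ _ _ _ _ (emb_X_isHomogeneous (L := L) lam)
    (emb_X_isHomogeneous (L := L) lam) (emb_X_isHomogeneous (L := L) lam)
    (emb_C_isHomogeneous (L := L) lam u) (fun i => isHomogeneous_C (Fin 4) (t i))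
  exact h

variable {E : Type*} [CommRing E] [Algebra K E] [Algebra L E] [IsScalarTower K L E]

theorem aeval_qol4 (w : σ → L) (s : Fin 4 → E) : aeval s (qol4 T lam w) =
    Psi T lam s s s s (fun i => algebraMap L E (w i)) := by
  have h := map_Psi T lam ((aeval (R := L) s).restrictScalars K)
    (fun j => X j) (fun j => X j) (fun j => X j) (fun j => X j) (fun i => C (w i))
  simp only [AlgHom.restrictScalars_apply, aeval_X, aeval_C] at h
  exact h

theorem aeval_qol3 (u : Fin 4 → L) (t : σ → L) (s : Fin 4 → E) : aeval s (qol3 T lam u t) =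
    Psi T lam s s s (fun j => algebraMap L E (u j)) (fun i => algebraMap L E (t i)) := by
  have h := map_Psi T lam ((aeval (R := L) s).restrictScalars K)
    (fun j => X j) (fun j => X j) (fun j => X j) (fun j => C (u j)) (fun i => C (t i))
  simp only [AlgHom.restrictScalars_apply, aeval_X, aeval_C] at h
  exact h

end Poly

section Lin

variable {K : Type*} [Field K] {σ : Type*} [Fintype σ] (T : Ten K σ) (lam : Fin 4 → σ → K)
variable {R : Type*} [CommRing R] [Algebra K R]

theorem Psi_zero4 (u₁ u₂ u₃ : Fin 4 → R) (w : σ → R) :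
    Psi T lam u₁ u₂ u₃ (0 : Fin 4 → R) w = 0 := by
  have := Psi_smul4 T lam (0 : R) u₁ u₂ u₃ (0 : Fin 4 → R) w
  simpa using this

theorem Psi_zero5 (u₁ u₂ u₃ u₄ : Fin 4 → R) :
    Psi T lam u₁ u₂ u₃ u₄ (0 : σ → R) = 0 := by
  have := Psi_smul5 T lam (0 : R) u₁ u₂ u₃ u₄ 0
  simpa using this

theorem Psi_sum4 {ι : Type*} (s : Finset ι) (c : ι → R) (u : ι → Fin 4 → R)
    (u₁ u₂ u₃ : Fin 4 → R) (w : σ → R) :
    Psi T lam u₁ u₂ u₃ (∑ i ∈ s, c i • u i) w = ∑ i ∈ s, c i * Psi T lam u₁ u₂ u₃ (u i) w := by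
  classical
  induction s using Finset.induction_on with
  | empty => simp [Psi_zero4]
  | insert a s ha ih => rw [Finset.sum_insert ha, Finset.sum_insert ha, Psi_add4, Psi_smul4, ih]

theorem Psi_eq_zero4 (u₁ u₂ u₃ : Fin 4 → R) (w : σ → R)
    (h : ∀ i, Psi T lam u₁ u₂ u₃ (Pi.single i 1) w = 0) (u : Fin 4 → R) :
    Psi T lam u₁ u₂ u₃ u w = 0 := by
  have hu : u = ∑ i, u i • (Pi.single i 1 : Fin 4 → R) := by
    funext j
    simp [Finset.sum_apply, Pi.single_apply]
  rw [hu, Psi_sum4]
  simp [h]

theorem algebraMap_single {τ A B : Type*} [DecidableEq τ] [CommRing A] [CommRing B] [Algebra A B]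
    (i : τ) : (fun j => algebraMap A B ((Pi.single i 1 : τ → A) j)) = (Pi.single i 1 : τ → B) := by
  funext j
  by_cases hij : j = i
  · subst hij; simp
  · rw [Pi.single_eq_of_ne hij, Pi.single_eq_of_ne hij, map_zero]

end Lin

section Main

variable {K : Type u} [Field K] [CharZero K] {σ : Type w} [Fintype σ] {T : Ten K σ}
  {lam : Fin 4 → σ → K}

/-- **A1**: the quartic map is an immersion at a generic point. -/
theorem imm (hb : Bpf T lam) {Ω : Type v} [Field Ω] [Algebra K Ω] (y : Fin 4 → Ω)
    (hy : ∀ u : Fin 4 → Ω, ∃ D : Derivation K Ω Ω, ∀ i, D (y i) = u i) (u : Fin 4 → Ω)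
    (hu : ∀ w : σ → Ω, Psi T lam y y y u w = 0) : u = 0 := by
  classical
  have _ : CharZero Ω := charZero_of_injective_algebraMap (algebraMap K Ω).injective
  let p : σ → MvPolynomial (Fin 4) K := fun j => qol4 T lam (Pi.single j 1)
  have hbase : ∀ {E : Type v} [Field E] [Algebra K E] (x : Fin 4 → E),
      (∀ i, aeval x (p i) = 0) → x = 0 := by
    intro E _ _ x hx
    apply hb.ext
    intro w
    rw [Psi_eq_sum]
    refine Finset.sum_eq_zero fun i _ => ?_
    have h := hx i
    rw [aeval_qol4, algebraMap_single] at h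
    rw [h, mul_zero]
  obtain ⟨D, hD⟩ := hy u
  let L : Subfield Ω := constField {D}
  have hkill : ∀ a ∈ L, D a = 0 := fun a ha => ha D rfl
  have hmem : ∀ i, aeval y (p i) ∈ L := by
    intro i
    rw [mem_constField]
    intro D' hD'
    rw [Set.mem_singleton_iff.mp hD', aeval_qol4, D_Psi]
    have e1 : (fun j => D (y j)) = u := funext hD
    have e2 : (fun j => D (algebraMap K Ω ((Pi.single i 1 : σ → K) j))) = 0 := by
      funext j; rw [Derivation.map_algebraMap]; rfl
    rw [e1, e2, Psi_zero5, Psi_s12 T lam u y y y, Psi_s23 T lam y u y y, Psi_s34 T lam y y u y, hu]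
    ring
  funext j
  have halg : IsAlgebraic L (y j) := by
    refine coord_algebraic p (by norm_num : (4 : ℕ) ≠ 0) (fun i => qol4_hom T lam _) ?_ y L ?_
      hmem j
    · intro V _ x hx
      exact hbase x hx
    · intro a
      rw [mem_constField]
      intro D' _
      exact Derivation.map_algebraMap D' a
  have := der_algebraic D L hkill halg
  rw [hD] at this
  simpa using this

end Main

end Pool.Agent.Work.PD5
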