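import Mathlib
import Pool.Agent.Work.MP_b62148_ag.Quintic.PsiQ
import Pool.Agent.Work.MP_b62148_ag.HS

/-!
T1, module A2: no plane of contact (quintic theorem, round two).
-/

namespace Pool.Agent.Work.PD5

open MvPolynomial

universe u v w

namespace PlaneQ

section Lin

variable {K : Type*} [Field K] {σ : Type*} [Fintype σ] (T : Ten K σ) (lam : Fin 4 → σ → K)
variable {R : Type*} [CommRing R] [Algebra K R]

/-- `Psi` as a linear form in the fourth variable -/
noncomputable def lin4 (u₁ u₂ u₃ : Fin 4 → R) (w : σ → R) : (Fin 4 → R) →ₗ[R] R where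
  toFun u := Psi T lam u₁ u₂ u₃ u w
  map_add' u v := Psi_add4 T lam u v u₁ u₂ u₃ w
  map_smul' c u := by rw [Psi_smul4]; rfl

theorem lin4_sum (f : (Fin 4 → R) →ₗ[R] R) (u : Fin 4 → R) :
    f u = ∑ i, u i * f (Pi.single i 1) := by
  conv_lhs => rw [pi_eq_sum_univ' u]
  rw [map_sum]
  refine Finset.sum_congr rfl fun i _ => ?_
  rw [map_smul, smul_eq_mul]

theorem Psi_sum4 (u₁ u₂ u₃ u : Fin 4 → R) (w : σ → R) :
    Psi T lam u₁ u₂ u₃ u w = ∑ i, u i * Psi T lam u₁ u₂ u₃ (Pi.single i 1) w :=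
  lin4_sum (lin4 T lam u₁ u₂ u₃ w) u

theorem Psi_zero5 (u₁ u₂ u₃ u₄ : Fin 4 → R) : Psi T lam u₁ u₂ u₃ u₄ 0 = 0 := by
  have := Psi_smul5 T lam (0 : R) u₁ u₂ u₃ u₄ 0
  rwa [zero_smul, zero_mul] at this

theorem Psi_zero4 (u₁ u₂ u₃ : Fin 4 → R) (w : σ → R) : Psi T lam u₁ u₂ u₃ 0 w = 0 := by
  have := Psi_smul4 T lam (0 : R) u₁ u₂ u₃ 0 w
  rwa [zero_smul, zero_mul] at this

theorem Psi_zero1 (u₁ u₂ u₃ : Fin 4 → R) (w : σ → R) : Psi T lam 0 u₁ u₂ u₃ w = 0 := by
  have := Psi_smul1 T lam (0 : R) 0 u₁ u₂ u₃ w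
  rwa [zero_smul, zero_mul] at this

/-- the auxiliary trilinear form -/
noncomputable def cc (t : σ → R) (r : R) (i i₀ : Fin 4) (u v w : Fin 4 → R) : R :=
  Psi T lam u v w (Pi.single i 1) t - r * Psi T lam u v w (Pi.single i₀ 1) t

theorem cc_s12 (t : σ → R) (r : R) (i i₀ : Fin 4) (u v w : Fin 4 → R) :
    cc T lam t r i i₀ u v w = cc T lam t r i i₀ v u w := by
  unfold cc
  rw [Psi_s12 T lam u v, Psi_s12 T lam u v]

theorem cc_s23 (t : σ → R) (r : R) (i i₀ : Fin 4) (u v w : Fin 4 → R) :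
    cc T lam t r i i₀ u v w = cc T lam t r i i₀ u w v := by
  unfold cc
  rw [Psi_s23 T lam u v, Psi_s23 T lam u v]

/-- the form is linear in the third variable -/
noncomputable def ccL (t : σ → R) (r : R) (i i₀ : Fin 4) (u v : Fin 4 → R) : (Fin 4 → R) →ₗ[R] R where
  toFun w := cc T lam t r i i₀ u v w
  map_add' a b := by
    unfold cc
    rw [Psi_add3, Psi_add3]
    ring
  map_smul' c a := by
    unfold cc
    rw [Psi_smul3, Psi_smul3, smul_eq_mul, RingHom.id_apply]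
    ring

theorem D_single (D : Derivation K R R) (i : Fin 4) :
    (fun j => D ((Pi.single i 1 : Fin 4 → R) j)) = 0 := by
  funext j
  by_cases h : j = i
  · subst h; simp
  · simp [Pi.single_eq_of_ne h]

theorem D_cc (D : Derivation K R R) (t : σ → R) (r : R) (i i₀ : Fin 4) (u v w : Fin 4 → R)
    (ht : ∀ j, D (t j) = 0) (hr : D r = 0) :
    D (cc T lam t r i i₀ u v w) = cc T lam t r i i₀ (fun j => D (u j)) v w +
      cc T lam t r i i₀ u (fun j => D (v j)) w + cc T lam t r i i₀ u v (fun j => D (w j)) := by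
  have ht' : (fun j => D (t j)) = 0 := funext ht
  unfold cc
  rw [map_sub, Derivation.leibniz, hr, D_Psi, D_Psi, D_single, D_single, ht', Psi_zero4,
    Psi_zero5, Psi_zero5]
  simp only [smul_eq_mul, mul_zero, add_zero]
  ring

end Lin

end PlaneQ

open PlaneQ in
/-- A2 -/
theorem plane_absurd {K : Type u} [Field K] [CharZero K] {σ : Type w} [Fintype σ] {T : Ten K σ}
    {lam : Fin 4 → σ → K} (hb : Bpf T lam) {Ω : Type v} [Field Ω] [IsAlgClosed Ω] [Algebra K Ω]
    (y : Fin 4 → Ω) (t : σ → Ω) (h0 : Psi T lam y y y y t = 0) (i₀ : Fin 4)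
    (hi : Psi T lam y y y (Pi.single i₀ 1) t ≠ 0)
    (h1 : ∀ D : Derivation K Ω Ω, (∀ j, D (t j) = 0) → ∃ ρ : Ω, ∀ i,
      D (Psi T lam y y y (Pi.single i 1) t) = ρ * Psi T lam y y y (Pi.single i 1) t)
    (h2 : ∀ δ : Fin 4 → Ω, Psi T lam y y y δ t = 0 →
      ∃ D : Derivation K Ω Ω, (∀ j, D (t j) = 0) ∧ ∀ i, D (y i) = δ i)
    (h3 : ∃ e : σ → Ω, ∀ w : σ → Ω, ∃ c : Ω, ∃ D : Derivation K Ω Ω, ∀ j,
      D (t j) = w j - c * e j) : False := by
  classical
  have hchar : CharZero Ω := charZero_of_injective_algebraMap (algebraMap K Ω).injective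
  set W : Fin 4 → Ω := fun i => Psi T lam y y y (Pi.single i 1) t with hW
  set G : Ω := W i₀ with hG
  have hG0 : G ≠ 0 := hi
  set r : Fin 4 → Ω := fun i => W i / G with hr
  have hrG : ∀ i, r i * G = W i := fun i => div_mul_cancel₀ _ hG0
  have hDr : ∀ D : Derivation K Ω Ω, (∀ j, D (t j) = 0) → ∀ i, D (r i) = 0 := by
    intro D hD i
    obtain ⟨ρ, hρ⟩ := h1 D hD
    have e1 := congrArg D (hrG i)
    rw [Derivation.leibniz, smul_eq_mul, smul_eq_mul] at e1
    have e2 : D G = ρ * G := hρ i₀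
    have e3 : D (W i) = ρ * W i := hρ i
    rw [e2, e3, ← hrG i] at e1
    have e4 : G * D (r i) = 0 := by linear_combination e1
    exact (mul_eq_zero.1 e4).resolve_left hG0
  set vk : Fin 4 → (Fin 4 → Ω) := fun k => Pi.single k 1 - r k • Pi.single i₀ 1 with hvk
  have hDv : ∀ D : Derivation K Ω Ω, (∀ j, D (t j) = 0) → ∀ k, (fun j => D (vk k j)) = 0 := by
    intro D hD k
    funext j
    have e1 := congrFun (D_single (K := K) D k) j
    have e2 := congrFun (D_single (K := K) D i₀) j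
    dsimp only [Pi.zero_apply] at e1 e2
    rw [hvk]
    dsimp only [Pi.sub_apply, Pi.smul_apply, smul_eq_mul, Pi.zero_apply]
    rw [map_sub, Derivation.leibniz, e1, e2, hDr D hD k]
    simp
  have hlv : ∀ k, Psi T lam y y y (vk k) t = 0 := by
    intro k
    have e1 : Psi T lam y y y (vk k) t = lin4 T lam y y y t (vk k) := rfl
    rw [e1, hvk, map_sub, map_smul]
    show W k - r k * G = 0
    rw [hrG, sub_self]
  have hDk : ∀ k, ∃ D : Derivation K Ω Ω, (∀ j, D (t j) = 0) ∧ (fun i => D (y i)) = vk k := by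
    intro k
    obtain ⟨D, hD1, hD2⟩ := h2 (vk k) (hlv k)
    exact ⟨D, hD1, funext hD2⟩
  -- the trilinear forms vanish on the plane
  have c0 : ∀ i, cc T lam t (r i) i i₀ y y y = 0 := by
    intro i
    show W i - r i * G = 0
    rw [hrG, sub_self]
  have c1 : ∀ i k, cc T lam t (r i) i i₀ y y (vk k) = 0 := by
    intro i k
    obtain ⟨D, hD1, hD2⟩ := hDk k
    have e1 := D_cc T lam D t (r i) i i₀ y y y hD1 (hDr D hD1 i)
    rw [c0 i, map_zero, hD2, cc_s12 T lam t (r i) i i₀ (vk k) y y, cc_s23 T lam t (r i) i i₀ y (vk k) y] at e1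
    have e2 : (3 : Ω) * cc T lam t (r i) i i₀ y y (vk k) = 0 := by linear_combination -e1
    exact (mul_eq_zero.1 e2).resolve_left (by norm_num)
  have c2 : ∀ i j k, cc T lam t (r i) i i₀ y (vk j) (vk k) = 0 := by
    intro i j k
    obtain ⟨D, hD1, hD2⟩ := hDk j
    have e1 := D_cc T lam D t (r i) i i₀ y y (vk k) hD1 (hDr D hD1 i)
    have e0 : cc T lam t (r i) i i₀ y y 0 = 0 := (ccL T lam t (r i) i i₀ y y).map_zero
    rw [c1 i k, map_zero, hD2, hDv D hD1 k, cc_s12 T lam t (r i) i i₀ (vk j) y (vk k), e0] at e1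
    have e2 : (2 : Ω) * cc T lam t (r i) i i₀ y (vk j) (vk k) = 0 := by linear_combination -e1
    exact (mul_eq_zero.1 e2).resolve_left (by norm_num)
  have c3 : ∀ i l j k, cc T lam t (r i) i i₀ (vk l) (vk j) (vk k) = 0 := by
    intro i l j k
    obtain ⟨D, hD1, hD2⟩ := hDk l
    have e1 := D_cc T lam D t (r i) i i₀ y (vk j) (vk k) hD1 (hDr D hD1 i)
    have e0 : cc T lam t (r i) i i₀ y (vk j) 0 = 0 := (ccL T lam t (r i) i i₀ y (vk j)).map_zero
    have e0' : cc T lam t (r i) i i₀ y 0 (vk k) = 0 := by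
      rw [cc_s23]
      exact (ccL T lam t (r i) i i₀ y (vk k)).map_zero
    rw [c2 i j k, map_zero, hD2, hDv D hD1 k, hDv D hD1 j, e0, e0'] at e1
    linear_combination -e1
  obtain ⟨e, he⟩ := h3
  -- a common zero
  let cst : (Fin 4 → Ω) → Fin 4 → MvPolynomial (Fin 4) Ω := fun u i => C (u i)
  let F : Fin 3 → MvPolynomial (Fin 4) Ω := ![∑ i, C (r i) * X i,
    Psi T lam (fun i => (X i : MvPolynomial (Fin 4) Ω)) (fun i => X i) (fun i => X i)
      (fun i => C ((Pi.single i₀ 1 : Fin 4 → Ω) i)) (fun j => C (t j)),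
    Psi T lam (fun i => (X i : MvPolynomial (Fin 4) Ω)) (fun i => X i) (fun i => X i)
      (fun i => X i) (fun j => C (e j))]
  have hev : ∀ s : Fin 4 → Ω, eval s (F 0) = ∑ i, r i * s i ∧
      eval s (F 1) = Psi T lam s s s (Pi.single i₀ 1) t ∧ eval s (F 2) = Psi T lam s s s s e := by
    intro s
    refine ⟨?_, ?_, ?_⟩
    · simp [F]
    · have := map_Psi T lam ((aeval s : MvPolynomial (Fin 4) Ω →ₐ[Ω] Ω).restrictScalars K)
        (fun i => (X i : MvPolynomial (Fin 4) Ω)) (fun i => X i) (fun i => X i)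
        (fun i => C ((Pi.single i₀ 1 : Fin 4 → Ω) i)) (fun j => C (t j))
      simpa [F, aeval_eq_eval] using this
    · have := map_Psi T lam ((aeval s : MvPolynomial (Fin 4) Ω →ₐ[Ω] Ω).restrictScalars K)
        (fun i => (X i : MvPolynomial (Fin 4) Ω)) (fun i => X i) (fun i => X i)
        (fun i => X i) (fun j => C (e j))
      simpa [F, aeval_eq_eval] using this
  obtain ⟨s, hs0, hs⟩ := PD.exists_common_zero (by norm_num : 3 < 4) F (by
    intro i
    obtain ⟨a1, a2, a3⟩ := hev 0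
    fin_cases i
    · exact a1.trans (by simp)
    · exact a2.trans (Psi_zero1 T lam _ _ _ _)
    · exact a3.trans (Psi_zero1 T lam _ _ _ _))
  obtain ⟨a1, a2, a3⟩ := hev s
  have s1 : ∑ i, r i * s i = 0 := a1.symm.trans (hs 0)
  have s2 : Psi T lam s s s (Pi.single i₀ 1) t = 0 := a2.symm.trans (hs 1)
  have s3 : Psi T lam s s s s e = 0 := a3.symm.trans (hs 2)
  have hsum : s = ∑ k, s k • vk k := by
    funext j
    rw [Finset.sum_apply]
    have e1 : ∀ k, (s k • vk k) j = s k * (Pi.single k (1 : Ω) : Fin 4 → Ω) j -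
        (r k * s k) * (Pi.single i₀ (1 : Ω) : Fin 4 → Ω) j := by
      intro k
      rw [hvk]
      dsimp only [Pi.sub_apply, Pi.smul_apply, smul_eq_mul]
      ring
    rw [Finset.sum_congr rfl fun k _ => e1 k, Finset.sum_sub_distrib, ← Finset.sum_mul, s1, zero_mul,
      sub_zero]
    simp [Pi.single_apply]
  have hlin : ∀ f : (Fin 4 → Ω) →ₗ[Ω] Ω, (∀ k, f (vk k) = 0) → f s = 0 := by
    intro f hf
    rw [hsum, map_sum]
    refine Finset.sum_eq_zero fun k _ => ?_
    rw [map_smul, hf, smul_zero]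
  have c4 : ∀ i j k, cc T lam t (r i) i i₀ (vk j) (vk k) s = 0 := fun i j k =>
    hlin (ccL T lam t (r i) i i₀ (vk j) (vk k)) fun l => c3 i j k l
  have c5 : ∀ i k, cc T lam t (r i) i i₀ (vk k) s s = 0 := fun i k =>
    hlin (ccL T lam t (r i) i i₀ (vk k) s) fun l => (cc_s23 T lam t (r i) i i₀ (vk k) s (vk l)).trans (c4 i k l)
  have c6 : ∀ i, cc T lam t (r i) i i₀ s s s = 0 := fun i =>
    hlin (ccL T lam t (r i) i i₀ s s) fun l => by
      show cc T lam t (r i) i i₀ s s (vk l) = 0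
      rw [cc_s23, cc_s12]
      exact c5 i l
  have c7 : ∀ i, Psi T lam s s s (Pi.single i 1) t = 0 := by
    intro i
    have e1 := c6 i
    unfold cc at e1
    rw [s2, mul_zero, sub_zero] at e1
    exact e1
  have c8 : ∀ u, Psi T lam s s s u t = 0 := by
    intro u
    rw [Psi_sum4]
    exact Finset.sum_eq_zero fun i _ => by rw [c7 i, mul_zero]
  refine hs0 (hb.ext s fun w => ?_)
  obtain ⟨c, D, hD⟩ := he w
  have e1 := D_Psi T lam D s s s s t
  rw [c8 s, map_zero] at e1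
  have e2 : Psi T lam (fun i => D (s i)) s s s t = 0 := by
    rw [Psi_s12, Psi_s23, Psi_s34]
    exact c8 _
  have e3 : Psi T lam s (fun i => D (s i)) s s t = 0 := by
    rw [Psi_s23, Psi_s34]
    exact c8 _
  have e4 : Psi T lam s s (fun i => D (s i)) s t = 0 := by
    rw [Psi_s34]
    exact c8 _
  rw [e2, e3, e4, c8] at e1
  have e5 : w = (fun i => D (t i)) + c • e := by
    funext j
    rw [Pi.add_apply, hD j, Pi.smul_apply, smul_eq_mul, sub_add_cancel]
  rw [e5, Psi_add5, Psi_smul5, s3, mul_zero, add_zero]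
  simpa using e1.symm

end Pool.Agent.Work.PD5
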