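import Mathlib
import Pool.Agent.Work.MP_b62148_ag.Quintic.FlagAux
import Pool.Agent.Work.MP_b62148_ag.Quintic.GenQ
import Pool.Agent.Work.MP_b62148_ag.Quintic.ImmQ
import Pool.Agent.Work.MP_b62148_ag.Quintic.PlaneQ

/-!
Module A5 of the quintic theorem, round two: independence of the three functionals of a generic
flag.
-/

namespace Pool.Agent.Work.PD5

open MvPolynomial

universe u v w

namespace A5

/-- a polynomial vanishing at a point whose coordinates are separated by derivations is zero -/
theorem poly_eq_zero {K : Type*} [Field K] [CharZero K] {Ω : Type*} [Field Ω] [Algebra K Ω]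
    {ι : Type*} [Fintype ι] [DecidableEq ι] (y : ι → Ω)
    (hy : ∀ i, ∃ D : Derivation K Ω Ω, ∀ j, D (y j) = if j = i then 1 else 0) :
    ∀ (n : ℕ) (P : MvPolynomial ι K), P.totalDegree ≤ n → aeval y P = 0 → P = 0 := by
  intro n
  induction n with
  | zero =>
    intro P hP h0
    obtain ⟨c, rfl⟩ : ∃ c, P = C c :=
      ⟨_, (totalDegree_eq_zero_iff_eq_C).mp (Nat.le_zero.mp hP)⟩
    rw [aeval_C] at h0
    rw [(map_eq_zero _).mp h0, C_0]
  | succ n ih =>
    intro P hP h0
    have h1 : ∀ i, pderiv i P = 0 := by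
      intro i
      obtain ⟨D, hD⟩ := hy i
      refine ih _ ?_ ?_
      · rw [totalDegree, Finset.sup_le_iff]
        intro d hd
        rw [mem_support_iff, coeff_pderiv] at hd
        have h3 : d + Finsupp.single i 1 ∈ P.support := by
          rw [mem_support_iff]; exact left_ne_zero_of_mul hd
        have h4 := le_totalDegree h3
        rw [Finsupp.sum_add_index' (by simp) (by simp)] at h4
        rw [Finsupp.sum_single_index rfl] at h4
        omega
      · have h2 := PD.derivation_aeval D y P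
        rw [h0, map_zero, Finset.sum_eq_single i] at h2
        · rw [hD i, if_pos rfl, mul_one] at h2; exact h2.symm
        · intro j _ hj; rw [hD j, if_neg hj, mul_zero]
        · simp
    have h2 : P = C (coeff 0 P) := by
      ext d
      rw [coeff_C]
      by_cases hd : 0 = d
      · rw [if_pos hd, hd]
      · rw [if_neg hd]
        obtain ⟨i, hi⟩ : ∃ i, d i ≠ 0 := by
          by_contra hcon
          push Not at hcon
          exact hd (Finsupp.ext hcon).symm
        have h3 := coeff_pderiv (i := i) P (d - Finsupp.single i 1)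
        rw [h1 i, coeff_zero, tsub_add_cancel_of_le (by
          rw [Finsupp.single_le_iff]; omega)] at h3
        refine (mul_eq_zero.mp h3.symm).resolve_right ?_
        exact Nat.cast_add_one_ne_zero _
    rw [h2, aeval_C] at h0
    rw [h2, (map_eq_zero _).mp h0, C_0]

/-- the minors of the three functionals as polynomials in `y` and `m` -/
noncomputable def minor {K : Type*} [Field K] {σ : Type*} [Fintype σ] [DecidableEq σ]
    (T : Ten K σ) (lam : Fin 4 → σ → K) {R : Type*} [CommRing R] [Algebra K R]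
    (y m : Fin 4 → R) (j : Fin 3 → σ) : Matrix (Fin 3) (Fin 3) R :=
  Matrix.of fun a b => ![Psi T lam y y y y (Pi.single (j b) 1), Psi T lam y y y m (Pi.single (j b) 1),
    Psi T lam y y m m (Pi.single (j b) 1)] a

theorem map_minor {K : Type*} [Field K] {σ : Type*} [Fintype σ] [DecidableEq σ]
    (T : Ten K σ) (lam : Fin 4 → σ → K) {R S : Type*} [CommRing R] [Algebra K R] [CommRing S]
    [Algebra K S] (g : R →ₐ[K] S) (y m : Fin 4 → R) (j : Fin 3 → σ) :
    g (minor T lam y m j).det = (minor T lam (fun i => g (y i)) (fun i => g (m i)) j).det := by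
  have hs : ∀ i, (fun l => g ((Pi.single i 1 : σ → R) l)) = Pi.single i 1 := by
    intro i; funext l
    by_cases h : l = i
    · subst h; simp
    · simp [Pi.single_eq_of_ne h]
  rw [AlgHom.map_det]
  congr 1
  ext a b
  fin_cases a <;> simp [minor, map_Psi, hs]

variable {K : Type u} [Field K] [CharZero K] {σ : Type w} [Fintype σ] {T : Ten K σ}
  {lam : Fin 4 → σ → K}

/-- if the three functionals are dependent at a generic pair, they are dependent at every pair -/
theorem minor_zero [DecidableEq σ] {Ω : Type v} [Field Ω] [Algebra K Ω] (y m : Fin 4 → Ω)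
    (hym : ∀ u v : Fin 4 → Ω,
      ∃ D : Derivation K Ω Ω, (∀ i, D (y i) = u i) ∧ ∀ i, D (m i) = v i)
    (j : Fin 3 → σ) (h : (minor T lam y m j).det = 0) {R : Type*} [CommRing R] [Algebra K R]
    (y' m' : Fin 4 → R) : (minor T lam y' m' j).det = 0 := by
  have h1 : (minor T lam (fun i => (X (Sum.inl i) : MvPolynomial (Fin 4 ⊕ Fin 4) K))
      (fun i => X (Sum.inr i)) j).det = 0 := by
    refine poly_eq_zero (Sum.elim y m) ?_ _ _ le_rfl ?_
    · rintro (i | i)
      · obtain ⟨D, hD1, hD2⟩ := hym (Pi.single i 1) 0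
        refine ⟨D, ?_⟩
        rintro (l | l)
        · simp [hD1, Pi.single_apply]
        · simp [hD2]
      · obtain ⟨D, hD1, hD2⟩ := hym 0 (Pi.single i 1)
        refine ⟨D, ?_⟩
        rintro (l | l)
        · simp [hD1]
        · simp [hD2, Pi.single_apply]
    · rw [map_minor]
      simpa using h
  have h2 := congrArg (aeval (Sum.elim y' m')) h1
  rw [map_minor, map_zero] at h2
  simpa using h2

/-- vanishing of all minors gives a relation -/
theorem rel_of_minor [DecidableEq σ] {Ω : Type v} [Field Ω] [Algebra K Ω] (y m : Fin 4 → Ω)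
    (h : ∀ j, (minor T lam y m j).det = 0) : ∃ α β γ : Ω, (α ≠ 0 ∨ β ≠ 0 ∨ γ ≠ 0) ∧
      ∀ w : σ → Ω, α * Psi T lam y y y y w + β * Psi T lam y y y m w +
        γ * Psi T lam y y m m w = 0 := by
  by_contra hcon
  push Not at hcon
  have hind : ∀ α β γ : Ω, (∀ w : σ → Ω, α * Psi T lam y y y y w + β * Psi T lam y y y m w +
        γ * Psi T lam y y m m w = 0) → α = 0 ∧ β = 0 ∧ γ = 0 := by
    intro α β γ hw
    by_contra hne
    obtain ⟨w, hw'⟩ := hcon α β γ (by tauto)
    exact hw' (hw w)
  let v : σ → (Fin 3 → Ω) := fun i => ![Psi T lam y y y y (Pi.single i 1),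
    Psi T lam y y y m (Pi.single i 1), Psi T lam y y m m (Pi.single i 1)]
  have htop : Submodule.span Ω (Set.range v) = ⊤ := by
    rw [Submodule.eq_top_iff']
    intro x
    obtain ⟨w, h0, h1, h2⟩ := A67.surj3 (A67.fnl T lam y y y y) (A67.fnl T lam y y y m)
      (A67.fnl T lam y y m m) hind (x 0) (x 1) (x 2)
    rw [Submodule.mem_span_range_iff_exists_fun]
    refine ⟨w, ?_⟩
    have e0 : Psi T lam y y y y w = x 0 := h0
    have e1 : Psi T lam y y y m w = x 1 := h1
    have e2 : Psi T lam y y m m w = x 2 := h2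
    rw [Psi_eq_sum] at e0 e1 e2
    funext a
    rw [Finset.sum_apply]
    fin_cases a
    · exact e0
    · exact e1
    · exact e2
  obtain ⟨κ, a, ha, hsp, hli⟩ := exists_linearIndependent' Ω v
  have : Finite κ := Finite.of_injective a ha
  have : Fintype κ := Fintype.ofFinite κ
  let b : Module.Basis κ Ω (Fin 3 → Ω) := Module.Basis.mk hli (by rw [hsp, htop])
  have hcard : Fintype.card κ = 3 := by
    rw [← Module.finrank_eq_card_basis b, Module.finrank_fin_fun]
  let e : Fin 3 ≃ κ := (Fintype.equivFinOfCardEq hcard).symm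
  have h1 : LinearIndependent Ω (minor T lam y m (a ∘ e)).col := by
    have h2 := hli.comp e e.injective
    have h3 : (minor T lam y m (a ∘ e)).col = (v ∘ a) ∘ e := by
      funext l i
      rfl
    rw [h3]; exact h2
  rw [Matrix.linearIndependent_cols_iff_isUnit, Matrix.isUnit_iff_isUnit_det, h (a ∘ e)] at h1
  exact not_isUnit_zero h1

/-- the contradiction in the second generic field -/
theorem yt_absurd (hb : Bpf T lam) {Ω : Type v} [Field Ω] [IsAlgClosed Ω] [Algebra K Ω]
    (y : Fin 4 → Ω) (t : σ → Ω) (h0 : Psi T lam y y y y t = 0)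
    (dl : ∀ (dy : Fin 4 → Ω) (dt : σ → Ω), 4 * Psi T lam y y y dy t + Psi T lam y y y y dt = 0 →
        ∃ D : Derivation K Ω Ω, (∀ i, D (y i) = dy i) ∧ ∀ j, D (t j) = dt j)
    (hrel : ∀ m : Fin 4 → Ω, ∃ α β γ : Ω, (α ≠ 0 ∨ β ≠ 0 ∨ γ ≠ 0) ∧
      ∀ w : σ → Ω, α * Psi T lam y y y y w + β * Psi T lam y y y m w +
        γ * Psi T lam y y m m w = 0) : False := by
  have hchar : CharZero Ω := charZero_of_injective_algebraMap (algebraMap K Ω).injective
  have hy0 : y ≠ 0 := by
    rintro rfl
    obtain ⟨D, hD, -⟩ := dl (Pi.single 0 1) 0 (by rw [A67.Psi_zero1, A67.Psi_zero1]; ring)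
    have := hD 0
    simp at this
  -- every vector is `D y`
  obtain ⟨w0, hw0⟩ : ∃ w : σ → Ω, Psi T lam y y y y w = 1 := by
    obtain ⟨w, hw⟩ : ∃ w : σ → Ω, Psi T lam y y y y w ≠ 0 := by
      by_contra hcon
      push Not at hcon
      exact hy0 (hb.ext y hcon)
    exact ⟨(Psi T lam y y y y w)⁻¹ • w, by rw [Psi_smul5, inv_mul_cancel₀ hw]⟩
  have hall : ∀ u : Fin 4 → Ω, ∃ D : Derivation K Ω Ω, ∀ i, D (y i) = u i := by
    intro u
    obtain ⟨D, hD, -⟩ := dl u ((-(4 * Psi T lam y y y u t)) • w0) (by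
      rw [Psi_smul5, hw0]; ring)
    exact ⟨D, hD⟩
  have himm : ∀ u : Fin 4 → Ω, (∀ w : σ → Ω, Psi T lam y y y u w = 0) → u = 0 :=
    fun u hu => imm hb y hall u hu
  -- `l` does not vanish
  obtain ⟨i₀, hi₀⟩ : ∃ i, Psi T lam y y y (Pi.single i 1) t ≠ 0 := by
    by_contra hcon
    push Not at hcon
    have hker : ∀ i, ∀ w : σ → Ω, Psi T lam y y y y w = 0 →
        Psi T lam y y y (Pi.single i 1) w = 0 := by
      intro i w h1
      obtain ⟨D, hD1, hD3⟩ := dl 0 w (by rw [h1, A67.Psi_zero4]; ring)
      have e1 : (fun j => D (y j)) = 0 := funext hD1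
      have e3 : (fun j => D (t j)) = w := funext hD3
      have hh := congrArg D (hcon i)
      rw [D_Psi, e1, e3, map_zero, A67.Psi_zero1, A67.Psi_zero2, A67.Psi_zero3, A67.der_single,
        A67.Psi_zero4] at hh
      linear_combination hh
    have hmul : ∀ i, ∃ c : Ω, ∀ w : σ → Ω, Psi T lam y y y (Pi.single i 1) w =
        c * Psi T lam y y y y w := by
      intro i
      refine ⟨Psi T lam y y y (Pi.single i 1) w0, fun w => ?_⟩
      have h1 := hker i (w + (-(Psi T lam y y y y w)) • w0) (by
        rw [Psi_add5, Psi_smul5, hw0]; ring)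
      rw [Psi_add5, Psi_smul5] at h1
      linear_combination h1
    obtain ⟨c0, hc0⟩ := hmul 0
    obtain ⟨c1, hc1⟩ := hmul 1
    have h2 : c1 • (Pi.single 0 1 : Fin 4 → Ω) + (-c0) • Pi.single 1 1 = 0 := himm _ (fun w => by
      rw [Psi_add4, Psi_smul4, Psi_smul4, hc0, hc1]; ring)
    have h3 : c0 = 0 := by simpa using congrFun h2 1
    have h4 : (Pi.single 0 1 : Fin 4 → Ω) = 0 := himm _ (fun w => by rw [hc0, h3]; ring)
    have h5 := congrFun h4 0
    simp at h5
  obtain ⟨a, ha⟩ : ∃ a : Fin 4 → Ω, Psi T lam y y y a t = 1 :=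
    ⟨(Psi T lam y y y (Pi.single i₀ 1) t)⁻¹ • Pi.single i₀ 1, by
      rw [Psi_smul4, inv_mul_cancel₀ hi₀]⟩
  -- the quadric vanishes on the kernel of `l`
  have hq1 : ∀ n : Fin 4 → Ω, Psi T lam y y y n t = 0 → Psi T lam y y n n t = 0 := by
    intro n hn
    by_cases hny : ∃ c : Ω, n = c • y
    · obtain ⟨c, rfl⟩ := hny
      rw [Psi_smul3, Psi_smul4, h0]; ring
    · obtain ⟨α, β, γ, hne, hw⟩ := hrel n
      have hγ : γ ≠ 0 := by
        rintro rfl
        have h1 : α • y + β • n = 0 := himm _ (fun w => by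
          rw [Psi_add4, Psi_smul4, Psi_smul4]
          have := hw w
          linear_combination this)
        have hβ : β = 0 := by
          by_contra hβ
          apply hny
          refine ⟨-(β⁻¹ * α), ?_⟩
          have h2 : n = β⁻¹ • (β • n) := by rw [smul_smul, inv_mul_cancel₀ hβ, one_smul]
          have h3 : β • n = (-α) • y := by
            rw [neg_smul]; exact eq_neg_of_add_eq_zero_right h1
          rw [h2, h3, smul_smul]
          congr 1
          ring
        rw [hβ, zero_smul, add_zero] at h1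
        have hα : α = 0 := (smul_eq_zero.mp h1).resolve_right hy0
        rcases hne with h | h | h
        · exact h hα
        · exact h hβ
        · exact h rfl
      have h1 := hw t
      rw [h0, hn] at h1
      have h2 : γ * Psi T lam y y n n t = 0 := by linear_combination h1
      exact (mul_eq_zero.mp h2).resolve_left hγ
  have hq2 : ∀ n n' : Fin 4 → Ω, Psi T lam y y y n t = 0 → Psi T lam y y y n' t = 0 →
      Psi T lam y y n n' t = 0 := by
    intro n n' hn hn'
    have h1 := hq1 (n + n') (by rw [Psi_add4, hn, hn', add_zero])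
    rw [Psi_add3, Psi_add4, Psi_add4, hq1 n hn, hq1 n' hn', Psi_s34 T lam y y n' n] at h1
    linear_combination h1 / 2
  have hq3 : ∀ n u : Fin 4 → Ω, Psi T lam y y y n t = 0 →
      Psi T lam y y n u t = Psi T lam y y n a t * Psi T lam y y y u t := by
    intro n u hn
    have h1 := hq2 n (u + (-(Psi T lam y y y u t)) • a) hn (by
      rw [Psi_add4, Psi_smul4, ha]; ring)
    rw [Psi_add4, Psi_smul4] at h1
    linear_combination h1
  refine plane_absurd hb y t h0 i₀ hi₀ ?_ ?_ ⟨0, ?_⟩
  · intro D hD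
    have e3 : (fun j => D (t j)) = 0 := funext hD
    set de : Fin 4 → Ω := fun j => D (y j) with hde
    have hl : Psi T lam y y y de t = 0 := by
      have h2 := congrArg D h0
      rw [D_Psi, e3, ← hde, map_zero, A67.Psi_zero5, Psi_s12 T lam de y y y,
        Psi_s23 T lam y de y y, Psi_s34 T lam y y de y] at h2
      linear_combination h2 / 4
    refine ⟨3 * Psi T lam y y de a t, fun i => ?_⟩
    rw [D_Psi, e3, ← hde, A67.der_single, A67.Psi_zero4, A67.Psi_zero5, Psi_s12 T lam de y y,
      Psi_s23 T lam y de y, hq3 de _ hl]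
    ring
  · intro de hde
    obtain ⟨D, hD1, hD3⟩ := dl de 0 (by rw [hde, A67.Psi_zero5]; ring)
    exact ⟨D, hD3, hD1⟩
  · intro w
    obtain ⟨D, -, hD3⟩ := dl ((-(Psi T lam y y y y w) / 4) • a) w (by
      rw [Psi_smul4, ha]; ring)
    exact ⟨0, D, fun j => by rw [hD3]; simp⟩

end A5

open A5 in
/-- **A5**: the three functionals of a generic pair are independent -/
theorem good {K : Type u} [Field K] [CharZero K] {σ : Type w} [Fintype σ] {T : Ten K σ}
    {lam : Fin 4 → σ → K} (hb : Bpf T lam) {Ω : Type v} [Field Ω] [Algebra K Ω]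
    (y m : Fin 4 → Ω)
    (hym : ∀ u v : Fin 4 → Ω,
      ∃ D : Derivation K Ω Ω, (∀ i, D (y i) = u i) ∧ ∀ i, D (m i) = v i) :
    ∀ α β γ : Ω, (∀ w : σ → Ω, α * Psi T lam y y y y w + β * Psi T lam y y y m w +
      γ * Psi T lam y y m m w = 0) → α = 0 ∧ β = 0 ∧ γ = 0 := by
  classical
  by_contra hcon
  push Not at hcon
  obtain ⟨α, β, γ, hw, hne⟩ := hcon
  have hdet : ∀ j, (minor T lam y m j).det = 0 := by
    intro j
    rw [← Matrix.exists_vecMul_eq_zero_iff]
    refine ⟨![α, β, γ], ?_, ?_⟩
    · intro h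
      have h1 : α = 0 := by simpa using congrFun h 0
      have h2 : β = 0 := by simpa using congrFun h 1
      have h3 : γ = 0 := by simpa using congrFun h 2
      exact hne h1 h2 h3
    · funext b
      rw [Matrix.vecMul, dotProduct, Fin.sum_univ_three]
      have := hw (Pi.single (j b) 1)
      simpa [minor] using this
  obtain ⟨Ω₂, _, _, _, y', t, h0, dl⟩ := exists_yt hb
  exact yt_absurd hb y' t h0 dl fun m' =>
    rel_of_minor y' m' fun j => minor_zero y m hym j (hdet j) y' m'

end Pool.Agent.Work.PD5
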