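import Mathlib
import Pool.Agent.Work.MP_b62148_ag.Quintic.FlagExQ
import Pool.Agent.Work.MP_b62148_ag.Quintic.GoodQ

/-!
Existence of a generic flag (module A4, last step).
-/

namespace Pool.Agent.Work.PD5

universe u w

variable {K : Type u} [Field K] [CharZero K] {σ : Type w} [Fintype σ] {T : Ten K σ}
  {lam : Fin 4 → σ → K}

/-- A4 existence of a generic flag -/
theorem exists_flag (hb : Bpf T lam) : ∃ (Ω : Type (max u w)) (_ : Field Ω) (_ : Algebra K Ω)
    (_ : IsAlgClosed Ω), Nonempty (Flag T lam Ω) :=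
  exists_flag_of (fun y m h => good hb y m h)

end Pool.Agent.Work.PD5
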