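import Mathlib
import Pool.Agent.Work.MP_b62148_ag.Quintic.FlagQ

/-!
Change of frame for good configurations.
-/

namespace Pool.Agent.Work.PD5

variable {K : Type*} [Field K] {σ : Type*} [Fintype σ] {Ω : Type*} [Field Ω] [Algebra K Ω]

theorem comb_emb (lam : Fin 4 → σ → K) (c : Fin 4 → Fin 4 → Ω) (s : Fin 4 → Ω) :
    comb (fun i => emb lam (c i)) s =
      comb (fun j i => algebraMap K Ω (lam j i)) (fun j => ∑ i, s i * c i j) := by
  funext x
  simp only [comb, emb_apply, Finset.mul_sum, Finset.sum_mul]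
  rw [Finset.sum_comm]
  refine Finset.sum_congr rfl fun j _ => Finset.sum_congr rfl fun i _ => by ring

theorem config_change (T : Ten K σ) (lam : Fin 4 → σ → K) (c : Fin 4 → Fin 4 → Ω)
    (Cf : Config T (fun i => emb lam (c i))) :
    Nonempty (Config T (fun j i => algebraMap K Ω (lam j i))) := by
  refine ⟨⟨fun j => ∑ i, Cf.sy i * c i j, fun j => ∑ i, Cf.sm i * c i j,
    fun j => ∑ i, Cf.sa i * c i j, Cf.z, Cf.x, ?_, ?_, ?_, ?_, ?_, Cf.c6, ?_, ?_, ?_, ?_, ?_, ?_⟩⟩
  · simpa only [comb_emb] using Cf.c1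
  · simpa only [comb_emb] using Cf.c2
  · simpa only [comb_emb] using Cf.c3
  · simpa only [comb_emb] using Cf.c4
  · simpa only [comb_emb] using Cf.c5
  · simpa only [comb_emb] using Cf.n1
  · simpa only [comb_emb] using Cf.n2
  · simpa only [comb_emb] using Cf.n3
  · simpa only [comb_emb] using Cf.n4
  · intro r₁ r₂ r₃
    obtain ⟨s, h1, h2, h3⟩ := Cf.t1 r₁ r₂ r₃
    simp only [comb_emb] at h1 h2 h3
    exact ⟨_, h1, h2, h3⟩
  · intro r₁ r₂
    obtain ⟨s, h1, h2⟩ := Cf.t2 r₁ r₂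
    simp only [comb_emb] at h1 h2
    exact ⟨_, h1, h2⟩

theorem Iso.emb {T : Ten K σ} {lam : Fin 4 → σ → K} (h : Iso T lam) (c : Fin 4 → Fin 4 → Ω) :
    Iso T (fun i => emb lam (c i)) := by
  have h1 : Iso T (fun j i => algebraMap K Ω (lam j i)) := by
    intro i j l m n
    have h2 := h i j l m n
    have h3 := map_Phi T (Algebra.ofId K Ω) (lam i) (lam j) (lam l) (lam m) (lam n)
    rw [h2, map_zero] at h3
    exact h3.symm
  intro i j l m n
  exact h1.comb _ _ _ _ _

end Pool.Agent.Work.PD5
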