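import Mathlib
import Pool.Agent.Work.MP_b62148_ag.ExistLine
import Pool.Agent.Work.MP_b62148_ag.Quintic.TensorF
import Pool.Agent.Work.MP_b62148_ag.Quintic.ParamQ

/-!
Module M7 of the quintic theorem: the five linear forms attached to a line through the generic point
of a smooth quintic hypersurface are linearly independent.
-/

namespace Pool.Agent.Work.PD5

namespace FQ

/-- five functionals, stable under the shift modulo the first one, without a relation given by a
point of the rational normal curve, are independent -/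
theorem indep_of_shift {E V : Type*} [Field E] [IsAlgClosed E] [AddCommGroup V] [Module E V]
    (c : Fin 5 → V →ₗ[E] E)
    (hstep : ∀ v, c 0 v = 0 → ∃ w, c 1 v = -c 0 w ∧ c 2 v = -c 1 w ∧ c 3 v = -c 2 w ∧
      c 4 v = -c 3 w ∧ c 4 w = 0)
    (hnz : ∀ t : E, ∃ v, c 0 v + t * c 1 v + t ^ 2 * c 2 v + t ^ 3 * c 3 v + t ^ 4 * c 4 v ≠ 0)
    (htop : ∃ v, c 4 v ≠ 0) (α : Fin 5 → E) (hα : ∀ v, ∑ i, α i * c i v = 0) : α = 0 := by
  classical
  -- the space of relations
  let A : Submodule E (Fin 5 → E) :=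
    { carrier := {β | ∀ v, ∑ i, β i * c i v = 0}
      add_mem' := by
        intro a b ha hb v
        simp only [Set.mem_ofPred_eq] at ha hb
        simp only [Pi.add_apply, add_mul, Finset.sum_add_distrib, ha v, hb v, add_zero]
      zero_mem' := by intro v; simp
      smul_mem' := by
        intro r a ha v
        simp only [Set.mem_ofPred_eq] at ha
        simp only [Pi.smul_apply, smul_eq_mul, mul_assoc, ← Finset.mul_sum, ha v, mul_zero] }
  have hAmem : ∀ β : Fin 5 → E, β ∈ A ↔ ∀ v, ∑ i, β i * c i v = 0 := fun β => Iff.rfl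
  obtain ⟨v₀, hv₀⟩ := hnz 0
  have hv₀' : c 0 v₀ ≠ 0 := by
    intro h
    apply hv₀
    rw [h]; ring
  obtain ⟨v₁, hv₁⟩ : ∃ v₁, c 0 v₁ = 1 := ⟨(c 0 v₀)⁻¹ • v₀, by
    rw [map_smul, smul_eq_mul, inv_mul_cancel₀ hv₀']⟩
  -- the shift operator
  let la : (Fin 5 → E) → E := fun β => β 0 * c 1 v₁ + β 1 * c 2 v₁ + β 2 * c 3 v₁ + β 3 * c 4 v₁
  let sh : (Fin 5 → E) →ₗ[E] (Fin 5 → E) :=
    { toFun := fun β => ![-la β, β 0, β 1, β 2, β 3]
      map_add' := by
        intro a b
        ext i
        fin_cases i <;> simp [la] <;> ring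
      map_smul' := by
        intro r a
        ext i
        fin_cases i <;> simp [la] <;> ring }
  have hsh : ∀ β : Fin 5 → E, β ∈ A → sh β ∈ A := by
    intro β hβ
    rw [hAmem] at hβ ⊢
    intro v
    have h1 : ∀ v, ∑ i, sh β i * c i v =
        -la β * c 0 v + β 0 * c 1 v + β 1 * c 2 v + β 2 * c 3 v + β 3 * c 4 v := by
      intro v
      rw [Fin.sum_univ_five]
      rfl
    rw [h1]
    obtain ⟨w, w1, w2, w3, w4, w5⟩ := hstep (v - (c 0 v) • v₁) (by
      rw [map_sub, map_smul, smul_eq_mul, hv₁]; ring)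
    have h2 := hβ w
    rw [Fin.sum_univ_five] at h2
    simp only [map_sub, map_smul, smul_eq_mul] at w1 w2 w3 w4
    simp only [la]
    linear_combination -h2 + β 0 * w1 + β 1 * w2 + β 2 * w3 + β 3 * w4 + β 4 * w5
  by_contra hne
  have hαA : α ∈ A := (hAmem α).mpr hα
  let T : A →ₗ[E] A := sh.restrict hsh
  have hnt : Nontrivial A := ⟨⟨⟨α, hαA⟩, 0, fun h => hne (by
    have := congrArg Subtype.val h
    simpa using this)⟩⟩
  obtain ⟨μ, hμ⟩ := Module.End.exists_eigenvalue T
  obtain ⟨β, hβ⟩ := hμ.exists_hasEigenvector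
  have hβ1 : sh (β : Fin 5 → E) = μ • (β : Fin 5 → E) := by
    have := congrArg Subtype.val hβ.apply_eq_smul
    simpa [T] using this
  have hβ0 : (β : Fin 5 → E) ≠ 0 := fun h => hβ.2 (Subtype.ext h)
  have e1 : (β : Fin 5 → E) 0 = μ * (β : Fin 5 → E) 1 := congrFun hβ1 1
  have e2 : (β : Fin 5 → E) 1 = μ * (β : Fin 5 → E) 2 := congrFun hβ1 2
  have e3 : (β : Fin 5 → E) 2 = μ * (β : Fin 5 → E) 3 := congrFun hβ1 3
  have e4 : (β : Fin 5 → E) 3 = μ * (β : Fin 5 → E) 4 := congrFun hβ1 4
  have hrel := (hAmem _).mp β.2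
  have hb4 : (β : Fin 5 → E) 4 ≠ 0 := by
    intro h
    apply hβ0
    ext i
    rw [h, mul_zero] at e4
    rw [e4, mul_zero] at e3
    rw [e3, mul_zero] at e2
    rw [e2, mul_zero] at e1
    fin_cases i
    · exact e1
    · exact e2
    · exact e3
    · exact e4
    · exact h
  by_cases hμ0 : μ = 0
  · obtain ⟨v, hv⟩ := htop
    apply hv
    have := hrel v
    rw [Fin.sum_univ_five, e1, e2, e3, e4, hμ0] at this
    have h2 : (β : Fin 5 → E) 4 * c 4 v = 0 := by linear_combination this
    exact (mul_eq_zero.mp h2).resolve_left hb4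
  · obtain ⟨v, hv⟩ := hnz μ⁻¹
    apply hv
    have := hrel v
    rw [Fin.sum_univ_five, e1, e2, e3, e4] at this
    have h2 : (β : Fin 5 → E) 4 * μ ^ 4 * (c 0 v + μ⁻¹ * c 1 v + μ⁻¹ ^ 2 * c 2 v + μ⁻¹ ^ 3 * c 3 v +
        μ⁻¹ ^ 4 * c 4 v) = 0 := by
      field_simp
      linear_combination this
    exact (mul_eq_zero.mp h2).resolve_left (mul_ne_zero hb4 (pow_ne_zero 4 hμ0))

section Der

variable {k : Type*} [Field k] {σ : Type*} [Fintype σ] {E : Type*} [Field E] [Algebra k E]

theorem derivation_Phi (T : Ten k σ) (D : Derivation k E E) (v₁ v₂ v₃ v₄ v₅ : σ → E) :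
    D (Phi T v₁ v₂ v₃ v₄ v₅) =
      Phi T (fun i => D (v₁ i)) v₂ v₃ v₄ v₅ + Phi T v₁ (fun i => D (v₂ i)) v₃ v₄ v₅ +
      Phi T v₁ v₂ (fun i => D (v₃ i)) v₄ v₅ + Phi T v₁ v₂ v₃ (fun i => D (v₄ i)) v₅ +
      Phi T v₁ v₂ v₃ v₄ (fun i => D (v₅ i)) := by
  unfold Phi
  simp only [map_sum, ← Finset.sum_add_distrib]
  refine Finset.sum_congr rfl fun i _ => Finset.sum_congr rfl fun j _ =>
    Finset.sum_congr rfl fun l _ => Finset.sum_congr rfl fun m _ => Finset.sum_congr rfl fun n _ => ?_
  simp only [Derivation.leibniz, Derivation.map_algebraMap, smul_eq_mul]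
  ring

end Der

end FQ

section Free

variable {k : Type*} [Field k] {σ : Type*} [Fintype σ]

theorem free_line [CharZero k] (g : MvPolynomial σ k) (hg5 : g.IsHomogeneous 5)
    (hs : PD.SmoothForm g) [hp : (Ideal.span {g}).IsPrime] (T : Ten k σ) (hT : IsTen g T)
    (m : σ → PD.EE g) (hm : ∀ s t : PD.EE g, s • PD.eta g + t • m = 0 → s = 0 ∧ t = 0)
    (hline : ∀ s t : PD.EE g, Phi T (s • PD.eta g + t • m) (s • PD.eta g + t • m)
      (s • PD.eta g + t • m) (s • PD.eta g + t • m) (s • PD.eta g + t • m) = 0) :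
    ∀ α : Fin 5 → PD.EE g,
      (∀ v : σ → PD.EE g, α 0 * Phi T (PD.eta g) (PD.eta g) (PD.eta g) (PD.eta g) v +
        α 1 * Phi T (PD.eta g) (PD.eta g) (PD.eta g) m v +
        α 2 * Phi T (PD.eta g) (PD.eta g) m m v + α 3 * Phi T (PD.eta g) m m m v +
        α 4 * Phi T m m m m v = 0) → α = 0 := by
  classical
  intro α hα
  set y : σ → PD.EE g := PD.eta g with hy
  -- coefficients along the line
  have hl : ∀ t : PD.EE g, Phi T y y y y y + 5 * t * Phi T y y y y m + 10 * t ^ 2 * Phi T y y y m m +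
      10 * t ^ 3 * Phi T y y m m m + 5 * t ^ 4 * Phi T y m m m m + t ^ 5 * Phi T m m m m m = 0 := by
    intro t
    have := hline 1 t
    rw [Phi_line] at this
    linear_combination this
  have hl5 : Phi T m m m m m = 0 := by
    have := hline 0 1
    rw [Phi_line] at this
    linear_combination this
  have hl0 : Phi T y y y y y = 0 := by
    linear_combination hl 0
  have p1 := hl 1
  have p2 := hl (-1)
  have p3 := hl 2
  have p4 := hl (-2)
  rw [hl0, hl5] at p1 p2 p3 p4
  have hl1 : Phi T y y y y m = 0 := by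
    have h : (60 : PD.EE g) * Phi T y y y y m = 0 := by
      linear_combination 8 * p1 - 8 * p2 - p3 + p4
    have h60 : (60 : PD.EE g) ≠ 0 := by norm_num
    exact (mul_eq_zero.mp h).resolve_left h60
  have hl2 : Phi T y y y m m = 0 := by
    have h : (240 : PD.EE g) * Phi T y y y m m = 0 := by
      linear_combination 16 * p1 + 16 * p2 - p3 - p4
    have h0 : (240 : PD.EE g) ≠ 0 := by norm_num
    exact (mul_eq_zero.mp h).resolve_left h0
  have hl3 : Phi T y y m m m = 0 := by
    have h : (20 : PD.EE g) * Phi T y y m m m = 0 := by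
      rw [hl1] at p1 p2
      linear_combination p1 - p2
    have h0 : (20 : PD.EE g) ≠ 0 := by norm_num
    exact (mul_eq_zero.mp h).resolve_left h0
  have hl4 : Phi T y m m m m = 0 := by
    have h : (120 : PD.EE g) * Phi T y m m m m = 0 := by
      linear_combination p3 + p4 - 4 * p1 - 4 * p2
    have h0 : (120 : PD.EE g) ≠ 0 := by norm_num
    exact (mul_eq_zero.mp h).resolve_left h0
  clear p1 p2 p3 p4 hl
  -- the functionals
  let lin : (σ → PD.EE g) → (σ → PD.EE g) → (σ → PD.EE g) → (σ → PD.EE g) →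
      ((σ → PD.EE g) →ₗ[PD.EE g] PD.EE g) := fun a b c d =>
    { toFun := fun v => Phi T a b c d v
      map_add' := fun u v => Phi_add5 T u v a b c d
      map_smul' := fun r v => by
        rw [Phi_smul5]; rfl }
  let c : Fin 5 → (σ → PD.EE g) →ₗ[PD.EE g] PD.EE g :=
    ![lin y y y y, (4 : PD.EE g) • lin y y y m, (6 : PD.EE g) • lin y y m m,
      (4 : PD.EE g) • lin y m m m, lin m m m m]
  have hc0 : ∀ v, c 0 v = Phi T y y y y v := fun v => rfl
  have hc1 : ∀ v, c 1 v = 4 * Phi T y y y m v := fun v => rfl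
  have hc2 : ∀ v, c 2 v = 6 * Phi T y y m m v := fun v => rfl
  have hc3 : ∀ v, c 3 v = 4 * Phi T y m m m v := fun v => rfl
  have hc4 : ∀ v, c 4 v = Phi T m m m m v := fun v => rfl
  -- nonvanishing of the gradient
  have hgrad : ∀ x : σ → PD.EE g, x ≠ 0 → ∃ v, Phi T x x x x v ≠ 0 := by
    intro x hx
    by_contra hcon
    push Not at hcon
    apply hx
    refine hs.ext x ?_
    intro i
    have h1 := hT.grad x (Pi.single i (1 : PD.EE g))
    rw [hcon, mul_zero] at h1
    rw [Finset.sum_eq_single i] at h1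
    · simpa using h1
    · intro j _ hj
      rw [Pi.single_eq_of_ne hj, mul_zero]
    · intro h
      exact absurd (Finset.mem_univ i) h
  have hstep : ∀ v, c 0 v = 0 → ∃ w, c 1 v = -c 0 w ∧ c 2 v = -c 1 w ∧ c 3 v = -c 2 w ∧
      c 4 v = -c 3 w ∧ c 4 w = 0 := by
    intro v hv
    rw [hc0] at hv
    obtain ⟨D, hD⟩ := PD.exists_tangent_derivation g v (by
      rw [hT.grad, ← hy, hv, mul_zero])
    have hDy : (fun i => D (y i)) = v := funext hD
    refine ⟨fun i => D (m i), ?_⟩
    set w : σ → PD.EE g := fun i => D (m i) with hw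
    have q1 := congrArg D hl1
    have q2 := congrArg D hl2
    have q3 := congrArg D hl3
    have q4 := congrArg D hl4
    have q5 := congrArg D hl5
    rw [FQ.derivation_Phi, map_zero] at q1 q2 q3 q4 q5
    rw [hDy, ← hw] at q1 q2 q3 q4
    rw [← hw] at q5
    simp only [hc0, hc1, hc2, hc3, hc4]
    -- move the new vector to the last slot
    have s1 : ∀ a b d e x : σ → PD.EE g, Phi T x a b d e = Phi T a b d e x := fun a b d e x => by
      rw [Phi_s12, Phi_s23, Phi_s34, Phi_s45]
    have s2 : ∀ a b d e x : σ → PD.EE g, Phi T a x b d e = Phi T a b d e x := fun a b d e x => by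
      rw [Phi_s23, Phi_s34, Phi_s45]
    have s3 : ∀ a b d e x : σ → PD.EE g, Phi T a b x d e = Phi T a b d e x := fun a b d e x => by
      rw [Phi_s34, Phi_s45]
    rw [s1 y y y m v, s2 y y y m v, s3 y y y m v, Phi_s45 T y y y v m] at q1
    rw [s1 y y m m v, s2 y y m m v, s3 y y m m v, Phi_s45 T y y y w m] at q2
    rw [s1 y m m m v, s2 y m m m v, s3 y y m m w, Phi_s45 T y y m w m] at q3
    rw [s1 m m m m v, s2 y m m m w, s3 y m m m w, Phi_s45 T y m m w m] at q4
    rw [s1 m m m m w, s2 m m m m w, s3 m m m m w, Phi_s45 T m m m w m] at q5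
    have h5 : (5 : PD.EE g) * Phi T m m m m w = 0 := by linear_combination q5
    have h50 : (5 : PD.EE g) ≠ 0 := by norm_num
    refine ⟨by linear_combination q1, by linear_combination 2 * q2, by linear_combination 2 * q3,
      by linear_combination q4, (mul_eq_zero.mp h5).resolve_left h50⟩
  have hnz : ∀ t : PD.EE g, ∃ v, c 0 v + t * c 1 v + t ^ 2 * c 2 v + t ^ 3 * c 3 v +
      t ^ 4 * c 4 v ≠ 0 := by
    intro t
    have hx : y + t • m ≠ 0 := by
      intro h
      have := (hm 1 t (by rw [one_smul]; exact h)).1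
      exact one_ne_zero this
    obtain ⟨v, hv⟩ := hgrad _ hx
    refine ⟨v, ?_⟩
    intro h
    apply hv
    simp only [hc0, hc1, hc2, hc3, hc4] at h
    simp only [Phi_add1, Phi_add2, Phi_add3, Phi_add4, Phi_smul1, Phi_smul2, Phi_smul3,
      Phi_smul4]
    have e1 : Phi T m y y y v = Phi T y y y m v := by rw [Phi_s12, Phi_s23, Phi_s34]
    have e2 : Phi T y m y y v = Phi T y y y m v := by rw [Phi_s23, Phi_s34]
    have e3 : Phi T y y m y v = Phi T y y y m v := by rw [Phi_s34]
    have f1 : Phi T y m y m v = Phi T y y m m v := by rw [Phi_s23]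
    have f2 : Phi T y m m y v = Phi T y y m m v := by rw [Phi_s34, f1]
    have f3 : Phi T m y y m v = Phi T y y m m v := by rw [Phi_s12, f1]
    have f4 : Phi T m y m y v = Phi T y y m m v := by rw [Phi_s34, f3]
    have f5 : Phi T m m y y v = Phi T y y m m v := by rw [Phi_s23, f4]
    have g1 : Phi T m y m m v = Phi T y m m m v := by rw [Phi_s12]
    have g2 : Phi T m m y m v = Phi T y m m m v := by rw [Phi_s23, g1]
    have g3 : Phi T m m m y v = Phi T y m m m v := by rw [Phi_s34, g2]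
    rw [e1, e2, e3, f1, f2, f3, f4, f5, g1, g2, g3]
    linear_combination h
  have htop : ∃ v, c 4 v ≠ 0 := by
    have hx : m ≠ 0 := by
      intro h
      have := (hm 0 1 (by rw [h]; simp)).2
      exact one_ne_zero this
    exact hgrad m hx
  have key := FQ.indep_of_shift c hstep hnz htop ![α 0, α 1 / 4, α 2 / 6, α 3 / 4, α 4] (by
    intro v
    rw [Fin.sum_univ_five]
    show α 0 * c 0 v + α 1 / 4 * c 1 v + α 2 / 6 * c 2 v + α 3 / 4 * c 3 v + α 4 * c 4 v = 0
    rw [hc0, hc1, hc2, hc3, hc4]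
    linear_combination hα v)
  have k0 : α 0 = 0 := congrFun key 0
  have k1 : α 1 / 4 = 0 := congrFun key 1
  have k2 : α 2 / 6 = 0 := congrFun key 2
  have k3 : α 3 / 4 = 0 := congrFun key 3
  have k4 : α 4 = 0 := congrFun key 4
  have k1' : α 1 = 0 := by linear_combination 4 * k1
  have k2' : α 2 = 0 := by linear_combination 6 * k2
  have k3' : α 3 = 0 := by linear_combination 4 * k3
  ext i
  fin_cases i
  · exact k0
  · exact k1'
  · exact k2'
  · exact k3'
  · exact k4

end Free

end Pool.Agent.Work.PD5
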