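import Mathlib
import Pool.Agent.Work.MP_b62148_ag.HS

/-!
Module M6 of the quintic theorem: linear algebra of a net of quadratic forms.
-/

namespace Pool.Agent.Work.PD5

namespace KQ

section Basic

variable {K : Type*} [Field K] {Z : Type*} [AddCommGroup Z] [Module K Z]

/-- independent functionals take arbitrary values -/
theorem exists_eval {n : ℕ} (f : Fin n → Module.Dual K Z) (hf : LinearIndependent K f)
    (x : Fin n → K) : ∃ z : Z, ∀ i, f i z = x i := by
  classical
  let φ : Z →ₗ[K] (Fin n → K) := LinearMap.pi f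
  have hsurj : LinearMap.range φ = ⊤ := by
    by_contra hne
    obtain ⟨g, hg0, hg⟩ := Submodule.exists_le_ker_of_lt_top (LinearMap.range φ)
      (lt_of_le_of_ne le_top hne)
    apply hg0
    have h1 : ∑ i, g (Pi.single i 1) • f i = 0 := by
      ext z
      have h2 : g (φ z) = 0 := hg ⟨z, rfl⟩
      rw [LinearMap.pi_apply_eq_sum_univ g (φ z)] at h2
      simp only [LinearMap.coe_sum, Finset.sum_apply, LinearMap.smul_apply, smul_eq_mul,
        LinearMap.zero_apply]
      rw [← h2]
      refine Finset.sum_congr rfl fun i _ => ?_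
      rw [smul_eq_mul, mul_comm]
      congr 2
      funext j
      by_cases hij : i = j
      · subst hij; simp
      · rw [if_neg hij, Pi.single_eq_of_ne (Ne.symm hij)]
    have h3 := Fintype.linearIndependent_iff.mp hf _ h1
    refine LinearMap.pi_ext' fun i => LinearMap.ext_ring ?_
    simpa using h3 i
  have hx : x ∈ LinearMap.range φ := by rw [hsurj]; trivial
  obtain ⟨z, hz⟩ := hx
  exact ⟨z, fun i => congrFun hz i⟩

/-- values of `q` on an independent family -/
theorem exists_eval_q {n : ℕ} (q : (Fin 3 → K) →ₗ[K] Module.Dual K Z)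
    (hq : ∀ m, q m = 0 → m = 0) (v : Fin n → Fin 3 → K) (hv : LinearIndependent K v)
    (x : Fin n → K) : ∃ z : Z, ∀ i, q (v i) z = x i := by
  refine exists_eval (fun i => q (v i)) ?_ x
  refine hv.map' q ?_
  rw [LinearMap.ker_eq_bot']
  exact hq

/-- no net is degenerate on the kernels: first case -/
theorem caseA [CharZero K] (q : (Fin 3 → K) →ₗ[K] Module.Dual K Z)
    (c : (Fin 3 → K) →ₗ[K] (Fin 3 → K) →ₗ[K] Module.Dual K Z) (hc : ∀ u v, c u v = c v u)
    (hfree : ∀ m : Fin 3 → K, m ≠ 0 → ∀ α β : K, α • q m + β • c m m = 0 → α = 0 ∧ β = 0)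
    (H : ∀ (z : Z) (b n : Fin 3 → K), q b z = 0 → q n z = 0 → c b b z * c n n z = (c b n z) ^ 2)
    (z₀ : Z) (hz₀ : ∀ m, q m z₀ = 0) : ∀ b n, c b n z₀ = 0 := by
  classical
  have hq : ∀ m, q m = 0 → m = 0 := by
    intro m hm
    by_contra hne
    have := (hfree m hne 1 0 (by rw [hm]; simp)).1
    exact one_ne_zero this
  -- it is enough to treat the diagonal
  suffices hdiag : ∀ b, c b b z₀ = 0 by
    intro b n
    have h1 := hdiag (b + n)
    simp only [map_add, LinearMap.add_apply] at h1
    rw [hdiag b, hdiag n, hc n b] at h1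
    have h2 : (2 : K) * c b n z₀ = 0 := by linear_combination h1
    exact (mul_eq_zero.mp h2).resolve_left two_ne_zero
  intro b
  by_contra hb
  let ℓ : (Fin 3 → K) →ₗ[K] K :=
    { toFun := fun n => c b n z₀
      map_add' := fun x y => by rw [map_add]; rfl
      map_smul' := fun r x => by rw [map_smul]; rfl }
  have hℓ : ∀ n, ℓ n = c b n z₀ := fun n => rfl
  have hker : 1 < Module.finrank K (LinearMap.ker ℓ) := by
    have h1 := LinearMap.finrank_range_add_finrank_ker ℓ
    have h2 : Module.finrank K (LinearMap.range ℓ) ≤ 1 := by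
      have := Submodule.finrank_le (LinearMap.range ℓ)
      rwa [Module.finrank_self] at this
    rw [Module.finrank_fintype_fun_eq_card, Fintype.card_fin] at h1
    omega
  have hnt : Nontrivial (LinearMap.ker ℓ) := Module.nontrivial_of_finrank_pos (R := K) (by omega)
  obtain ⟨k, hk0⟩ := exists_ne (0 : LinearMap.ker ℓ)
  obtain ⟨k', hkk'⟩ := exists_linearIndependent_pair_of_one_lt_finrank hker hk0
  have hkl : c b k z₀ = 0 := k.2
  have hkl' : c b k' z₀ = 0 := k'.2
  have hkne : (k : Fin 3 → K) ≠ 0 := fun h => hk0 (Subtype.ext h)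
  -- the three vectors are independent
  have hind : LinearIndependent K ![(k : Fin 3 → K), (k' : Fin 3 → K), b] := by
    rw [Fintype.linearIndependent_iff]
    intro g hg
    rw [Fin.sum_univ_three] at hg
    change g 0 • (k : Fin 3 → K) + g 1 • (k' : Fin 3 → K) + g 2 • b = 0 at hg
    have h1 := congrArg ℓ hg
    rw [map_add, map_add, map_smul, map_smul, map_smul, map_zero, hℓ, hℓ, hℓ, hkl, hkl'] at h1
    have hg2 : g 2 = 0 := by
      have : g 2 * c b b z₀ = 0 := by
        simpa using h1
      exact (mul_eq_zero.mp this).resolve_right hb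
    rw [hg2, zero_smul, add_zero] at hg
    have h2 : g 0 • k + g 1 • k' = 0 := Subtype.ext hg
    obtain ⟨h3, h4⟩ := LinearIndependent.pair_iff.mp hkk' _ _ h2
    intro i
    fin_cases i
    · exact h3
    · exact h4
    · exact hg2
  -- rank one at z₀
  have hkk : c k k z₀ = 0 := by
    have h1 := H z₀ b k (hz₀ _) (hz₀ _)
    rw [hkl] at h1
    have h2 : c b b z₀ * c k k z₀ = 0 := by rw [h1]; ring
    exact (mul_eq_zero.mp h2).resolve_left hb
  have key : ∀ (z : Z) (n : Fin 3 → K), q k z = 0 → q n z = 0 → c b n z₀ ≠ 0 → c k k z = 0 := by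
    intro z n hkz hnz hn
    have hnn : c n n z₀ ≠ 0 := by
      intro h
      apply hn
      have h1 := H z₀ b n (hz₀ _) (hz₀ _)
      rw [h, mul_zero] at h1
      exact pow_eq_zero_iff (two_ne_zero) |>.mp h1.symm
    have hkn : c k n z₀ = 0 := by
      have h1 := H z₀ k n (hz₀ _) (hz₀ _)
      rw [hkk, zero_mul] at h1
      exact pow_eq_zero_iff (two_ne_zero) |>.mp h1.symm
    have h1 := H z k n hkz hnz
    have h2 := H (z + z₀) k n (by rw [map_add, hkz, hz₀, add_zero]) (by
      rw [map_add, hnz, hz₀, add_zero])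
    simp only [map_add, hkk, hkn, add_zero] at h2
    have h3 : c k k z * c n n z₀ = 0 := by linear_combination h2 - h1
    exact (mul_eq_zero.mp h3).resolve_right hnn
  have key2 : ∀ z : Z, q k z = 0 → c k k z = 0 := by
    intro z hz
    obtain ⟨w, hw⟩ := exists_eval_q q hq _ hind ![0, -q b z, q b z]
    have w0 : q k w = 0 := hw 0
    have w1 : q k' w = -q b z := hw 1
    have w2 : q b w = q b z := hw 2
    have h1 := key w (b + k') w0 (by rw [map_add, LinearMap.add_apply, w1, w2]; ring) (by
      rw [map_add, LinearMap.add_apply, hkl', add_zero]; exact hb)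
    have h2 := key (z - w) b (by rw [map_sub, hz, w0, sub_zero]) (by
      rw [map_sub, w2, sub_self]) hb
    rw [map_sub, h1, sub_zero] at h2
    exact h2
  have hk1 : LinearIndependent K ![(k : Fin 3 → K)] := by
    rw [Fintype.linearIndependent_iff]
    intro g hg i
    rw [Fin.sum_univ_one] at hg
    change g 0 • (k : Fin 3 → K) = 0 at hg
    fin_cases i
    exact (smul_eq_zero.mp hg).resolve_right hkne
  obtain ⟨z₁, hz₁⟩ := exists_eval_q q hq _ hk1 ![1]
  have hz₁' : q k z₁ = 1 := hz₁ 0
  have h4 := (hfree k hkne (c k k z₁) (-1) (by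
    ext z
    have h5 := key2 (z - q k z • z₁) (by
      rw [map_sub, map_smul, hz₁', smul_eq_mul, mul_one, sub_self])
    rw [map_sub, map_smul, smul_eq_mul] at h5
    simp only [LinearMap.add_apply, LinearMap.smul_apply, smul_eq_mul, LinearMap.zero_apply]
    linear_combination -h5)).2
  exact absurd h4 (by norm_num)

end Basic

section CaseB

variable {K : Type*} [Field K] [IsAlgClosed K]

open MvPolynomial in
/-- a nonzero vector `p` such that `p`, `γ p`, `γ (γ p)` are dependent -/
theorem exists_dep (β : Fin 3 → Fin 3 → Fin 3 → K) :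
    ∃ p : Fin 3 → K, p ≠ 0 ∧ (Matrix.of ![p, (fun i => ∑ j, ∑ l, β j l i * p j * p l),
      (fun i => ∑ j, ∑ l, β j l i * (∑ j', ∑ l', β j' l' j * p j' * p l') *
        (∑ j', ∑ l', β j' l' l * p j' * p l'))]).det = 0 := by
  classical
  let G : MvPolynomial (Fin 3) K := (Matrix.of ![(fun i => X i : Fin 3 → MvPolynomial (Fin 3) K),
    (fun i => ∑ j, ∑ l, C (β j l i) * X j * X l),
    (fun i => ∑ j, ∑ l, C (β j l i) * (∑ j', ∑ l', C (β j' l' j) * X j' * X l') *
        (∑ j', ∑ l', C (β j' l' l) * X j' * X l'))]).det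
  have hG : ∀ p : Fin 3 → K, eval p G = (Matrix.of ![p, (fun i => ∑ j, ∑ l, β j l i * p j * p l),
      (fun i => ∑ j, ∑ l, β j l i * (∑ j', ∑ l', β j' l' j * p j' * p l') *
        (∑ j', ∑ l', β j' l' l * p j' * p l'))]).det := by
    intro p
    simp only [G]
    rw [RingHom.map_det]
    congr 1
    ext i j
    fin_cases i <;> simp
  obtain ⟨x, hx0, hx⟩ := PD.exists_common_zero (n := 3) (m := 1) (by norm_num) (fun _ => G) (by
    intro _
    rw [hG]
    exact Matrix.det_eq_zero_of_row_eq_zero 0 (fun j => rfl))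
  exact ⟨x, hx0, by rw [← hG]; exact hx 0⟩

variable {Z : Type*} [AddCommGroup Z] [Module K Z]

/-- no net is degenerate on the kernels: second case -/
theorem caseB [CharZero K] (q : (Fin 3 → K) →ₗ[K] Module.Dual K Z)
    (c : (Fin 3 → K) →ₗ[K] (Fin 3 → K) →ₗ[K] Module.Dual K Z) (hc : ∀ u v, c u v = c v u)
    (hfree : ∀ m : Fin 3 → K, m ≠ 0 → ∀ α β : K, α • q m + β • c m m = 0 → α = 0 ∧ β = 0)
    (H : ∀ (z : Z) (b n : Fin 3 → K), q b z = 0 → q n z = 0 → c b b z * c n n z = (c b n z) ^ 2)
    (hU : ∀ z₀ : Z, (∀ m, q m z₀ = 0) → ∀ b n, c b n z₀ = 0) : False := by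
  classical
  have hq : ∀ m, q m = 0 → m = 0 := by
    intro m hm
    by_contra hne
    have := (hfree m hne 1 0 (by rw [hm]; simp)).1
    exact one_ne_zero this
  -- dual vectors
  have hstd : LinearIndependent K (fun i : Fin 3 => (Pi.single i 1 : Fin 3 → K)) := by
    rw [Fintype.linearIndependent_iff]
    intro g hg i
    have := congrFun hg i
    simpa [Finset.sum_apply, Pi.single_apply] using this
  choose zd hzd using fun j : Fin 3 => exists_eval_q q hq _ hstd (Pi.single j 1)
  have hvec : ∀ (m : Fin 3 → K), m = ∑ i, m i • (Pi.single i 1 : Fin 3 → K) := by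
    intro m
    ext i
    simp [Finset.sum_apply, Pi.single_apply]
  have hdec : ∀ (m : Fin 3 → K) (z : Z), q m z = ∑ i, m i * q (Pi.single i 1) z := by
    intro m z
    conv_lhs => rw [hvec m]
    simp only [map_sum, map_smul, LinearMap.coe_sum, Finset.sum_apply, LinearMap.smul_apply,
      smul_eq_mul]
  have hcd : ∀ b n : Fin 3 → K, c b n = q (fun i => c b n (zd i)) := by
    intro b n
    ext z
    have h1 : ∀ m, q m (z - ∑ i, q (Pi.single i 1) z • zd i) = 0 := by
      intro m
      rw [map_sub, map_sum, hdec m z, sub_eq_zero]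
      simp only [map_smul, smul_eq_mul]
      simp only [hdec m, hzd, Pi.single_apply, mul_ite, mul_one, mul_zero, Finset.sum_ite_eq',
        Finset.mem_univ, if_true]
      exact Finset.sum_congr rfl fun i _ => mul_comm _ _
    have h2 := hU _ h1 b n
    rw [map_sub, map_sum, sub_eq_zero] at h2
    rw [h2, hdec]
    simp only [map_smul, smul_eq_mul]
    exact Finset.sum_congr rfl fun i _ => mul_comm _ _
  have hquad : ∀ (v : Fin 3 → K) (z : Z), c v v z =
      ∑ j, ∑ l, c (Pi.single j 1) (Pi.single l 1) z * v j * v l := by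
    intro v z
    conv_lhs => rw [hvec v]
    simp only [map_sum, map_smul, LinearMap.coe_sum, Finset.sum_apply, LinearMap.smul_apply,
      smul_eq_mul, Finset.mul_sum]
    rw [Finset.sum_comm]
    refine Finset.sum_congr rfl fun i _ => Finset.sum_congr rfl fun j _ => ?_
    ring
  obtain ⟨p, hp0, hdet⟩ := exists_dep (fun j l i => c (Pi.single j 1) (Pi.single l 1) (zd i))
  simp only [← hquad] at hdet
  set r : Fin 3 → K := fun i => c p p (zd i) with hr
  have hcpp : c p p = q r := hcd p p
  have hpr : ∀ x y : K, x • p + y • r = 0 → x = 0 ∧ y = 0 := by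
    intro x y h
    refine hfree p hp0 x y ?_
    rw [hcpp, ← map_smul, ← map_smul, ← map_add, h, map_zero]
  obtain ⟨g, hg0, hg⟩ := Matrix.exists_vecMul_eq_zero_iff.mpr hdet
  have hg' : g 0 • p + g 1 • r + g 2 • (fun i => c r r (zd i)) = 0 := by
    ext i
    have := congrFun hg i
    simpa [Matrix.vecMul, dotProduct, Fin.sum_univ_three] using this
  have hg2 : g 2 ≠ 0 := by
    intro h
    rw [h, zero_smul, add_zero] at hg'
    obtain ⟨h1, h2⟩ := hpr _ _ hg'
    apply hg0
    ext i
    fin_cases i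
    · exact h1
    · exact h2
    · exact h
  -- c r r is a combination of q p and q r
  obtain ⟨α₀, β₀, hrr⟩ : ∃ α₀ β₀ : K, c r r = α₀ • q p + β₀ • q r := by
    refine ⟨-(g 0 / g 2), -(g 1 / g 2), ?_⟩
    have h1 := congrArg q hg'
    rw [map_add, map_add, map_smul, map_smul, map_smul, map_zero, ← hcd r r] at h1
    ext z
    have h2 := congrArg (fun f => f z) h1
    simp only [LinearMap.add_apply, LinearMap.smul_apply, smul_eq_mul, LinearMap.zero_apply] at h2 ⊢
    field_simp
    linear_combination h2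
  -- c p r is a combination of q p and q r
  obtain ⟨a, b, hprr⟩ : ∃ a b : K, c p r = a • q p + b • q r := by
    set s : Fin 3 → K := fun i => c p r (zd i) with hs
    have hcpr : c p r = q s := hcd p r
    by_cases hind : LinearIndependent K ![p, r, s]
    · exfalso
      obtain ⟨z, hz⟩ := exists_eval_q q hq _ hind ![0, 0, 1]
      have z0 : q p z = 0 := hz 0
      have z1 : q r z = 0 := hz 1
      have z2 : q s z = 1 := hz 2
      have h1 := H z p r z0 z1
      rw [hcpp, z1, zero_mul, hcpr, z2] at h1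
      norm_num at h1
    · rw [Fintype.not_linearIndependent_iff] at hind
      obtain ⟨h, hh, i, hi⟩ := hind
      rw [Fin.sum_univ_three] at hh
      change h 0 • p + h 1 • r + h 2 • s = 0 at hh
      have hh2 : h 2 ≠ 0 := by
        intro h0
        rw [h0, zero_smul, add_zero] at hh
        obtain ⟨h1, h2⟩ := hpr _ _ hh
        apply hi
        fin_cases i
        · exact h1
        · exact h2
        · exact h0
      refine ⟨-(h 0 / h 2), -(h 1 / h 2), ?_⟩
      have h1 := congrArg q hh
      rw [map_add, map_add, map_smul, map_smul, map_smul, map_zero, ← hcpr] at h1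
      ext z
      have h2 := congrArg (fun f => f z) h1
      simp only [LinearMap.add_apply, LinearMap.smul_apply, smul_eq_mul, LinearMap.zero_apply]
        at h2 ⊢
      field_simp
      linear_combination h2
  -- a fixed line
  obtain ⟨t, ht⟩ : ∃ t : K, t ^ 3 + 2 * b * t ^ 2 + (β₀ - 2 * a) * t - α₀ = 0 := by
    let P : Polynomial K := Polynomial.X ^ 3 + Polynomial.C (2 * b) * Polynomial.X ^ 2 +
      Polynomial.C (β₀ - 2 * a) * Polynomial.X - Polynomial.C α₀
    have hP : P.degree = 3 := by
      simp only [P]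
      compute_degree!
    obtain ⟨t, ht⟩ := IsAlgClosed.exists_root P (by rw [hP]; norm_num)
    refine ⟨t, ?_⟩
    have := ht.eq_zero
    simpa [P] using this
  have hv0 : t • p + r ≠ 0 := by
    intro h
    have := (hpr t 1 (by rw [one_smul]; exact h)).2
    exact one_ne_zero this
  have h4 := (hfree (t • p + r) hv0 (t ^ 2 + 2 * t * b + β₀) (-1) (by
    ext z
    simp only [map_add, map_smul, LinearMap.add_apply, LinearMap.smul_apply, smul_eq_mul,
      LinearMap.zero_apply, hc r p, hprr, hrr, hcpp]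
    linear_combination q p z * ht)).2
  exact absurd h4 (by norm_num)

end CaseB

end KQ

/-- a net of quadratic forms: `q` linear, `c` symmetric bilinear with values in the dual of `Z` -/
theorem K3 {K : Type*} [Field K] [IsAlgClosed K] [CharZero K] {Z : Type*} [AddCommGroup Z]
    [Module K Z] (q : (Fin 3 → K) →ₗ[K] Module.Dual K Z)
    (c : (Fin 3 → K) →ₗ[K] (Fin 3 → K) →ₗ[K] Module.Dual K Z) (hc : ∀ u v, c u v = c v u)
    (hfree : ∀ m : Fin 3 → K, m ≠ 0 → ∀ α β : K, α • q m + β • c m m = 0 → α = 0 ∧ β = 0) :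
    ∃ (z : Z) (b n : Fin 3 → K), q b z = 0 ∧ q n z = 0 ∧ c b b z * c n n z ≠ (c b n z) ^ 2 := by
  by_contra hcon
  push Not at hcon
  exact KQ.caseB q c hc hfree hcon (fun z₀ hz₀ => KQ.caseA q c hc hfree hcon z₀ hz₀)

namespace KQ

/-- a nonzero polynomial over an infinite field has a nonzero value -/
theorem exists_nonroot {K : Type*} [Field K] [Infinite K] (P : Polynomial K) (hP : P ≠ 0) :
    ∃ t, P.eval t ≠ 0 := by
  by_contra hcon
  push Not at hcon
  exact hP (Polynomial.funext fun t => by rw [hcon, Polynomial.eval_zero])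

/-- an isotropic vector and a conjugate vector in a nondegenerate plane -/
theorem exists_isotropic {K : Type*} [Field K] [IsAlgClosed K] {Z : Type*}
    [AddCommGroup Z] [Module K Z] (q : (Fin 3 → K) →ₗ[K] Module.Dual K Z)
    (c : (Fin 3 → K) →ₗ[K] (Fin 3 → K) →ₗ[K] Module.Dual K Z) (hc : ∀ u v, c u v = c v u)
    (z : Z) (b₀ n₀ : Fin 3 → K) (h1 : q b₀ z = 0) (h2 : q n₀ z = 0)
    (h3 : c b₀ b₀ z * c n₀ n₀ z ≠ (c b₀ n₀ z) ^ 2) :
    ∃ b n : Fin 3 → K, q b z = 0 ∧ q n z = 0 ∧ c b b z = 0 ∧ c b n z ≠ 0 := by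
  by_cases hA : c b₀ b₀ z = 0
  · refine ⟨b₀, n₀, h1, h2, hA, ?_⟩
    intro h
    apply h3
    rw [hA, h]; ring
  · obtain ⟨s, hs⟩ := IsAlgClosed.exists_pow_nat_eq
      ((c b₀ n₀ z) ^ 2 - c b₀ b₀ z * c n₀ n₀ z) (n := 2) (by norm_num)
    have hs0 : s ≠ 0 := by
      intro h
      apply h3
      rw [h] at hs
      linear_combination hs
    set t : K := (s - c b₀ n₀ z) / c b₀ b₀ z with ht
    have htA : t * c b₀ b₀ z = s - c b₀ n₀ z := by
      rw [ht]; field_simp
    refine ⟨t • b₀ + n₀, b₀, ?_, h1, ?_, ?_⟩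
    · simp only [map_add, map_smul, LinearMap.add_apply, LinearMap.smul_apply, h1, h2]
      simp
    · simp only [map_add, map_smul, LinearMap.add_apply, LinearMap.smul_apply, smul_eq_mul,
        hc n₀ b₀]
      have h4 : c b₀ b₀ z * (t * (t * c b₀ b₀ z) + c b₀ n₀ z * t + (t * c b₀ n₀ z + c n₀ n₀ z)) =
          0 := by
        have h5 : (t * c b₀ b₀ z) ^ 2 + 2 * (t * c b₀ b₀ z) * c b₀ n₀ z +
          c b₀ b₀ z * c n₀ n₀ z = 0 := by
          rw [htA]; linear_combination hs
        linear_combination h5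
      have h6 := (mul_eq_zero.mp h4).resolve_left hA
      linear_combination h6
    · simp only [map_add, map_smul, LinearMap.add_apply, LinearMap.smul_apply, smul_eq_mul,
        hc n₀ b₀]
      rw [htA]
      intro h
      apply hs0
      linear_combination h

end KQ

/-- leading data for the net -/
theorem K3lead {K : Type*} [Field K] [IsAlgClosed K] [CharZero K] {Z : Type*} [AddCommGroup Z]
    [Module K Z] (q : (Fin 3 → K) →ₗ[K] Module.Dual K Z)
    (c : (Fin 3 → K) →ₗ[K] (Fin 3 → K) →ₗ[K] Module.Dual K Z) (hc : ∀ u v, c u v = c v u)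
    (e : (Fin 3 → K) → Module.Dual K Z)
    (hfree : ∀ m : Fin 3 → K, m ≠ 0 → ∀ α β γ : K, α • q m + β • c m m + γ • e m = 0 →
      α = 0 ∧ β = 0 ∧ γ = 0) :
    ∃ (z : Z) (b m a : Fin 3 → K), q b z = 0 ∧ q m z = 0 ∧ c b b z = 0 ∧ c m m z = 0 ∧
      c b m z ≠ 0 ∧ e b z ≠ 0 ∧ q a z ≠ 0 := by
  classical
  have hfree' : ∀ m : Fin 3 → K, m ≠ 0 → ∀ α β : K, α • q m + β • c m m = 0 → α = 0 ∧ β = 0 := by
    intro m hm α β h
    obtain ⟨h1, h2, -⟩ := hfree m hm α β 0 (by rw [h]; simp)
    exact ⟨h1, h2⟩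
  have hq : ∀ m, q m = 0 → m = 0 := by
    intro m hm
    by_contra hne
    have := (hfree' m hne 1 0 (by rw [hm]; simp)).1
    exact one_ne_zero this
  obtain ⟨z₀, b₀, n₀, hb₀, hn₀, hdisc⟩ := K3 q c hc hfree'
  have hbn : ∀ s t : K, s • b₀ + t • n₀ = 0 → s = 0 ∧ t = 0 := by
    intro s t h
    have h1 := congrArg (fun v => c v b₀ z₀) h
    have h2 := congrArg (fun v => c v n₀ z₀) h
    simp only [map_add, map_smul, LinearMap.add_apply, LinearMap.smul_apply, smul_eq_mul,
      map_zero, LinearMap.zero_apply, hc n₀ b₀] at h1 h2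
    have hd : c b₀ b₀ z₀ * c n₀ n₀ z₀ - (c b₀ n₀ z₀) ^ 2 ≠ 0 := sub_ne_zero.mpr hdisc
    constructor
    · have : s * (c b₀ b₀ z₀ * c n₀ n₀ z₀ - (c b₀ n₀ z₀) ^ 2) = 0 := by
        linear_combination c n₀ n₀ z₀ * h1 - c b₀ n₀ z₀ * h2
      exact (mul_eq_zero.mp this).resolve_right hd
    · have : t * (c b₀ b₀ z₀ * c n₀ n₀ z₀ - (c b₀ n₀ z₀) ^ 2) = 0 := by
        linear_combination c b₀ b₀ z₀ * h2 - c b₀ n₀ z₀ * h1
      exact (mul_eq_zero.mp this).resolve_right hd
  -- a third vector
  obtain ⟨h, hh⟩ : ∃ h : Fin 3 → K, h ∉ Submodule.span K (Set.range ![b₀, n₀]) := by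
    by_contra hcon
    push Not at hcon
    have h1 : Submodule.span K (Set.range ![b₀, n₀]) = ⊤ := by
      rw [eq_top_iff]; exact fun x _ => hcon x
    have h2 := finrank_range_le_card (R := K) ![b₀, n₀]
    rw [Set.finrank, h1, finrank_top, Module.finrank_fintype_fun_eq_card, Fintype.card_fin,
      Fintype.card_fin] at h2
    omega
  have hind : LinearIndependent K ![b₀, n₀, h] := by
    rw [Fintype.linearIndependent_iff]
    intro g hg
    rw [Fin.sum_univ_three] at hg
    change g 0 • b₀ + g 1 • n₀ + g 2 • h = 0 at hg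
    have hg2 : g 2 = 0 := by
      by_contra hne
      apply hh
      have h1 : h = (-(g 0 / g 2)) • b₀ + (-(g 1 / g 2)) • n₀ := by
        ext i
        have := congrFun hg i
        simp only [Pi.add_apply, Pi.smul_apply, smul_eq_mul, Pi.zero_apply] at this ⊢
        field_simp
        linear_combination this
      rw [h1]
      exact Submodule.add_mem _ (Submodule.smul_mem _ _ (Submodule.subset_span ⟨0, rfl⟩))
        (Submodule.smul_mem _ _ (Submodule.subset_span ⟨1, rfl⟩))
    rw [hg2, zero_smul, add_zero] at hg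
    obtain ⟨h1, h2⟩ := hbn _ _ hg
    intro i
    fin_cases i
    · exact h1
    · exact h2
    · exact hg2
  obtain ⟨z₁, hz₁⟩ := KQ.exists_eval_q q hq _ hind ![0, 0, 1]
  have z10 : q b₀ z₁ = 0 := hz₁ 0
  have z11 : q n₀ z₁ = 0 := hz₁ 1
  have z12 : q h z₁ = 1 := hz₁ 2
  -- a point with `q h ≠ 0`
  obtain ⟨z, hzb, hzn, hzh, hzd⟩ : ∃ z : Z, q b₀ z = 0 ∧ q n₀ z = 0 ∧ q h z ≠ 0 ∧
      c b₀ b₀ z * c n₀ n₀ z ≠ (c b₀ n₀ z) ^ 2 := by
    let D : Polynomial K :=
      (Polynomial.C (c b₀ b₀ z₀) + Polynomial.C (c b₀ b₀ z₁) * Polynomial.X) *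
      (Polynomial.C (c n₀ n₀ z₀) + Polynomial.C (c n₀ n₀ z₁) * Polynomial.X) -
      (Polynomial.C (c b₀ n₀ z₀) + Polynomial.C (c b₀ n₀ z₁) * Polynomial.X) ^ 2
    let L : Polynomial K := Polynomial.C (q h z₀) + Polynomial.C 1 * Polynomial.X
    have hD : D ≠ 0 := by
      intro h0
      have := congrArg (Polynomial.eval 0) h0
      simp only [D, Polynomial.eval_sub, Polynomial.eval_mul, Polynomial.eval_add,
        Polynomial.eval_C, Polynomial.eval_X, Polynomial.eval_pow, Polynomial.eval_zero] at this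
      apply hdisc
      linear_combination this
    have hL : L ≠ 0 := by
      intro h0
      have := congrArg (fun P => Polynomial.coeff P 1) h0
      simp [L] at this
    obtain ⟨τ, hτ⟩ := KQ.exists_nonroot (D * L) (mul_ne_zero hD hL)
    rw [Polynomial.eval_mul] at hτ
    refine ⟨z₀ + τ • z₁, ?_, ?_, ?_, ?_⟩
    · rw [map_add, map_smul, hb₀, z10]; simp
    · rw [map_add, map_smul, hn₀, z11]; simp
    · rw [map_add, map_smul, z12]
      intro h0
      apply right_ne_zero_of_mul hτ
      simp only [L, Polynomial.eval_add, Polynomial.eval_mul, Polynomial.eval_C,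
        Polynomial.eval_X]
      rw [smul_eq_mul] at h0
      linear_combination h0
    · simp only [map_add, map_smul, smul_eq_mul]
      intro h0
      apply left_ne_zero_of_mul hτ
      simp only [D, Polynomial.eval_sub, Polynomial.eval_mul, Polynomial.eval_add,
        Polynomial.eval_C, Polynomial.eval_X, Polynomial.eval_pow]
      linear_combination h0
  obtain ⟨b, n, hb, hn, hbb, hbn'⟩ := KQ.exists_isotropic q c hc z b₀ n₀ hzb hzn hzd
  have hbne : b ≠ 0 := by
    intro h0
    apply hbn'
    rw [h0]; simp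
  -- a direction for `e b`
  have hind2 : LinearIndependent K ![q b, c b b, e b] := by
    rw [Fintype.linearIndependent_iff]
    intro g hg
    rw [Fin.sum_univ_three] at hg
    obtain ⟨h1, h2, h3⟩ := hfree b hbne (g 0) (g 1) (g 2) hg
    intro i
    fin_cases i
    · exact h1
    · exact h2
    · exact h3
  obtain ⟨z₂, hz₂⟩ := KQ.exists_eval _ hind2 ![0, 0, 1]
  have z20 : q b z₂ = 0 := hz₂ 0
  have z21 : c b b z₂ = 0 := hz₂ 1
  have z22 : e b z₂ = 1 := hz₂ 2
  let E1 : Polynomial K := Polynomial.C (e b z) + Polynomial.C 1 * Polynomial.X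
  let Q1 : Polynomial K := Polynomial.C (q h z) + Polynomial.C (q h z₂) * Polynomial.X
  let B1 : Polynomial K := Q1 * (Polynomial.C (c b n z) + Polynomial.C (c b n z₂) * Polynomial.X) -
    (Polynomial.C (q n z) + Polynomial.C (q n z₂) * Polynomial.X) *
      (Polynomial.C (c b h z) + Polynomial.C (c b h z₂) * Polynomial.X)
  have hE1 : E1 ≠ 0 := by
    intro h0
    have := congrArg (fun P => Polynomial.coeff P 1) h0
    simp [E1] at this
  have hQ1 : Q1 ≠ 0 := by
    intro h0
    have := congrArg (Polynomial.eval 0) h0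
    simp only [Q1, Polynomial.eval_add, Polynomial.eval_mul, Polynomial.eval_C,
      Polynomial.eval_X, Polynomial.eval_zero, mul_zero, add_zero] at this
    exact hzh this
  have hB1 : B1 ≠ 0 := by
    intro h0
    have := congrArg (Polynomial.eval 0) h0
    simp only [B1, Q1, Polynomial.eval_sub, Polynomial.eval_add, Polynomial.eval_mul,
      Polynomial.eval_C, Polynomial.eval_X, Polynomial.eval_zero, mul_zero, add_zero, hn,
      zero_mul, sub_zero] at this
    exact mul_ne_zero hzh hbn' this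
  obtain ⟨t, ht⟩ := KQ.exists_nonroot (E1 * (Q1 * B1)) (mul_ne_zero hE1 (mul_ne_zero hQ1 hB1))
  rw [Polynomial.eval_mul, Polynomial.eval_mul] at ht
  have htE := left_ne_zero_of_mul ht
  have htQ := left_ne_zero_of_mul (right_ne_zero_of_mul ht)
  have htB := right_ne_zero_of_mul (right_ne_zero_of_mul ht)
  set zt : Z := z + t • z₂ with hzt
  have fE : Polynomial.eval t E1 = e b zt := by
    simp only [E1, hzt, Polynomial.eval_add, Polynomial.eval_mul, Polynomial.eval_C,
      Polynomial.eval_X, map_add, map_smul, z22, smul_eq_mul]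
    ring
  have fQ : Polynomial.eval t Q1 = q h zt := by
    simp only [Q1, hzt, Polynomial.eval_add, Polynomial.eval_mul, Polynomial.eval_C,
      Polynomial.eval_X, map_add, map_smul, smul_eq_mul]
    ring
  have fB : Polynomial.eval t B1 = q h zt * c b n zt - q n zt * c b h zt := by
    simp only [B1, Polynomial.eval_sub, Polynomial.eval_mul, fQ]
    simp only [hzt, Polynomial.eval_add, Polynomial.eval_mul, Polynomial.eval_C,
      Polynomial.eval_X, map_add, map_smul, smul_eq_mul]
    ring
  rw [fE] at htE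
  rw [fQ] at htQ
  rw [fB] at htB
  have hbt : q b zt = 0 := by rw [hzt, map_add, map_smul, hb, z20]; simp
  have hbbt : c b b zt = 0 := by rw [hzt, map_add, map_smul, hbb, z21]; simp
  set nt : Fin 3 → K := q h zt • n - q n zt • h with hnt
  have hbnt : c b nt zt = q h zt * c b n zt - q n zt * c b h zt := by
    rw [hnt, map_sub, map_smul, map_smul, LinearMap.sub_apply, LinearMap.smul_apply,
      LinearMap.smul_apply, smul_eq_mul, smul_eq_mul]
  rw [← hbnt] at htB
  have hqnt : q nt zt = 0 := by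
    rw [hnt, map_sub, map_smul, map_smul, LinearMap.sub_apply, LinearMap.smul_apply,
      LinearMap.smul_apply, smul_eq_mul, smul_eq_mul]
    ring
  refine ⟨zt, b, nt - (c nt nt zt / (2 * c b nt zt)) • b, h, hbt, ?_, hbbt, ?_, ?_, htE, htQ⟩
  · rw [map_sub, map_smul, LinearMap.sub_apply, LinearMap.smul_apply, hqnt, hbt]; simp
  · simp only [map_sub, map_smul, LinearMap.sub_apply, LinearMap.smul_apply, smul_eq_mul,
      hc nt b, hbbt]
    field_simp
    ring
  · rw [map_sub, map_smul, LinearMap.sub_apply, LinearMap.smul_apply, hbbt, smul_zero, sub_zero]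
    exact htB

end Pool.Agent.Work.PD5
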