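import Mathlib
import Pool.Agent.Work.MP_b62148_ag.Quintic.K3
import Pool.Agent.Work.MP_b62148_ag.Quintic.FreeQ
import Pool.Agent.Work.MP_b62148_ag.Quintic.ParamQ

/-!
Leading data at the generic point of a smooth quintic.
-/

namespace Pool.Agent.Work.PD5

open MvPolynomial

section Lin

variable {k : Type*} [Field k] {σ : Type*} [Fintype σ] {K : Type*} [Field K] [Algebra k K]

/-- the linear form with four arguments fixed -/
noncomputable def linF (T : Ten k σ) (v₁ v₂ v₃ v₄ : σ → K) : Module.Dual K (σ → K) where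
  toFun v := Phi T v₁ v₂ v₃ v₄ v
  map_add' u v := Phi_add5 T u v v₁ v₂ v₃ v₄
  map_smul' r v := by
    rw [Phi_smul5, smul_eq_mul]; rfl

theorem linF_apply (T : Ten k σ) (v₁ v₂ v₃ v₄ v : σ → K) :
    linF T v₁ v₂ v₃ v₄ v = Phi T v₁ v₂ v₃ v₄ v := rfl

/-- combinations of the last three vectors -/
noncomputable def combB (lam : Fin 4 → σ → K) : (Fin 3 → K) →ₗ[K] (σ → K) where
  toFun m := comb lam ![0, m 0, m 1, m 2]
  map_add' u v := by
    funext i
    simp only [comb, Fin.sum_univ_four, Pi.add_apply, Matrix.cons_val_zero, Matrix.cons_val_one,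
      Matrix.cons_val_two, Matrix.cons_val_three, Matrix.head_cons, Matrix.tail_cons,
      Matrix.cons_val]
    ring
  map_smul' r v := by
    funext i
    simp only [comb, Fin.sum_univ_four, Pi.smul_apply, smul_eq_mul, Matrix.cons_val_zero,
      Matrix.cons_val_one, Matrix.cons_val_two, Matrix.cons_val_three, Matrix.head_cons,
      Matrix.tail_cons, Matrix.cons_val, RingHom.id_apply]
    ring

theorem combB_apply (lam : Fin 4 → σ → K) (m : Fin 3 → K) :
    combB lam m = comb lam ![0, m 0, m 1, m 2] := rfl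

theorem comb_first (lam : Fin 4 → σ → K) : comb lam ![1, 0, 0, 0] = lam 0 := by
  funext i
  simp [comb, Fin.sum_univ_four]

theorem comb_line (lam : Fin 4 → σ → K) (m : Fin 3 → K) (s t : K) :
    s • lam 0 + t • combB lam m = comb lam ![s, t * m 0, t * m 1, t * m 2] := by
  funext i
  simp only [comb, combB_apply, Fin.sum_univ_four, Pi.add_apply, Pi.smul_apply, smul_eq_mul,
    Matrix.cons_val_zero, Matrix.cons_val_one, Matrix.cons_val_two, Matrix.cons_val_three,
    Matrix.head_cons, Matrix.tail_cons, Matrix.cons_val]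
  ring

theorem line_indep {lam : Fin 4 → σ → K} (hl : LinearIndependent K lam) {m : Fin 3 → K}
    (hm : m ≠ 0) (s t : K) (h : s • lam 0 + t • combB lam m = 0) : s = 0 ∧ t = 0 := by
  rw [comb_line, comb_eq] at h
  have h1 := Fintype.linearIndependent_iff.mp hl _ h
  have e0 : s = 0 := by simpa using h1 0
  have e1 : t * m 0 = 0 := by simpa using h1 1
  have e2 : t * m 1 = 0 := by simpa using h1 2
  have e3 : t * m 2 = 0 := by simpa using h1 3
  refine ⟨e0, ?_⟩
  by_contra ht
  apply hm
  funext i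
  fin_cases i
  · simpa [ht] using e1
  · simpa [ht] using e2
  · simpa [ht] using e3

theorem functional_mul {V : Type*} [AddCommGroup V] [Module K V] (f h : Module.Dual K V)
    (hz : ∀ v, f v = 0 → h v = 0) : ∃ δ : K, ∀ v, h v = δ * f v := by
  by_cases hf : ∃ v₀, f v₀ ≠ 0
  · obtain ⟨v₀, hv₀⟩ := hf
    refine ⟨h v₀ / f v₀, fun v => ?_⟩
    have h1 := hz (f v₀ • v - f v • v₀) (by
      rw [map_sub, map_smul, map_smul, smul_eq_mul, smul_eq_mul]; ring)
    rw [map_sub, map_smul, map_smul, smul_eq_mul, smul_eq_mul] at h1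
    field_simp
    linear_combination h1
  · push Not at hf
    exact ⟨0, fun v => by rw [hz v (hf v)]; ring⟩

/-- three independent functionals are separated by three vectors -/
theorem exists_det_ne_zero {V : Type*} [AddCommGroup V] [Module K V] (f₀ f₁ f₂ : Module.Dual K V)
    (h : ∀ α β γ : K, (∀ v, α * f₀ v + β * f₁ v + γ * f₂ v = 0) → α = 0 ∧ β = 0 ∧ γ = 0) :
    ∃ z₁ z₂ z₃ : V, Matrix.det !![f₀ z₁, f₀ z₂, f₀ z₃; f₁ z₁, f₁ z₂, f₁ z₃; f₂ z₁, f₂ z₂, f₂ z₃] ≠ 0 := by
  let Φ : V →ₗ[K] (Fin 3 → K) := LinearMap.pi ![f₀, f₁, f₂]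
  have hsurj : LinearMap.range Φ = ⊤ := by
    by_contra hne
    obtain ⟨l, hl0, hl⟩ := Submodule.exists_le_ker_of_lt_top _ (lt_top_iff_ne_top.mpr hne)
    have h1 : ∀ v, l (Pi.single 0 1) * f₀ v + l (Pi.single 1 1) * f₁ v +
        l (Pi.single 2 1) * f₂ v = 0 := by
      intro v
      have h2 : l (Φ v) = 0 := hl ⟨v, rfl⟩
      have h3 : Φ v = f₀ v • Pi.single 0 1 + f₁ v • Pi.single 1 1 + f₂ v • Pi.single 2 1 := by
        funext i
        fin_cases i <;> simp [Φ]
      rw [h3, map_add, map_add, map_smul, map_smul, map_smul, smul_eq_mul, smul_eq_mul,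
        smul_eq_mul] at h2
      linear_combination h2
    obtain ⟨a, b, c⟩ := h _ _ _ h1
    apply hl0
    refine LinearMap.pi_ext' fun i => ?_
    ext
    fin_cases i
    · simpa using a
    · simpa using b
    · simpa using c
  have hs : Function.Surjective Φ := LinearMap.range_eq_top.mp hsurj
  obtain ⟨z₁, hz₁⟩ := hs (Pi.single 0 1)
  obtain ⟨z₂, hz₂⟩ := hs (Pi.single 1 1)
  obtain ⟨z₃, hz₃⟩ := hs (Pi.single 2 1)
  refine ⟨z₁, z₂, z₃, ?_⟩
  have g : ∀ (z : V) (i : Fin 3), Φ z = Pi.single i 1 → f₀ z = Pi.single (M := fun _ => K) i 1 0 ∧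
      f₁ z = Pi.single (M := fun _ => K) i 1 1 ∧ f₂ z = Pi.single (M := fun _ => K) i 1 2 := by
    intro z i hz
    refine ⟨?_, ?_, ?_⟩
    · rw [← hz]; simp [Φ]
    · rw [← hz]; simp [Φ]
    · rw [← hz]; simp [Φ]
  obtain ⟨a1, a2, a3⟩ := g z₁ 0 hz₁
  obtain ⟨b1, b2, b3⟩ := g z₂ 1 hz₂
  obtain ⟨c1, c2, c3⟩ := g z₃ 2 hz₃
  rw [a1, a2, a3, b1, b2, b3, c1, c2, c3, Matrix.det_fin_three]
  simp

end Lin

section Gen

variable {k : Type*} [Field k] {σ : Type*} [Fintype σ]

/-- leading data at the generic point -/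
theorem leading_generic [CharZero k] (g : MvPolynomial σ k) (hg5 : g.IsHomogeneous 5)
    (hs : PD.SmoothForm g) [hp : (Ideal.span {g}).IsPrime] (T : Ten k σ) (hT : IsTen g T)
    (hP3 : ∃ lam : Fin 4 → σ → PD.EE g, lam 0 = PD.eta g ∧ LinearIndependent (PD.EE g) lam ∧
      Iso T lam) :
    Leading T (PD.EE g) := by
  obtain ⟨lam, hlam0, hli, hiso⟩ := hP3
  have hfree0 : ∀ m : Fin 3 → PD.EE g, m ≠ 0 → ∀ α : Fin 5 → PD.EE g,
      (∀ v : σ → PD.EE g, α 0 * Phi T (lam 0) (lam 0) (lam 0) (lam 0) v +
        α 1 * Phi T (lam 0) (lam 0) (lam 0) (combB lam m) v +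
        α 2 * Phi T (lam 0) (lam 0) (combB lam m) (combB lam m) v +
        α 3 * Phi T (lam 0) (combB lam m) (combB lam m) (combB lam m) v +
        α 4 * Phi T (combB lam m) (combB lam m) (combB lam m) (combB lam m) v = 0) → α = 0 := by
    intro m hm α hα
    refine free_line g hg5 hs T hT (combB lam m) ?_ ?_ α ?_
    · intro s t hst
      rw [← hlam0] at hst
      exact line_indep hli hm s t hst
    · intro s t
      rw [← hlam0, comb_line]
      exact hiso.comb _ _ _ _ _
    · rw [← hlam0]; exact hα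
  let Z : Submodule (PD.EE g) (σ → PD.EE g) :=
    LinearMap.ker (linF T (lam 0) (lam 0) (lam 0) (lam 0))
  let q : (Fin 3 → PD.EE g) →ₗ[PD.EE g] Module.Dual (PD.EE g) Z :=
    { toFun := fun m => (linF T (lam 0) (lam 0) (lam 0) (combB lam m)).comp Z.subtype
      map_add' := by
        intro u v; ext z
        simp only [LinearMap.comp_apply, LinearMap.add_apply, linF_apply, map_add, Phi_add4]
      map_smul' := by
        intro r v; ext z
        simp only [LinearMap.comp_apply, LinearMap.smul_apply, linF_apply, map_smul, Phi_smul4,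
          RingHom.id_apply, smul_eq_mul] }
  let c : (Fin 3 → PD.EE g) →ₗ[PD.EE g] (Fin 3 → PD.EE g) →ₗ[PD.EE g] Module.Dual (PD.EE g) Z :=
    LinearMap.mk₂ (PD.EE g)
      (fun u v => (linF T (lam 0) (lam 0) (combB lam u) (combB lam v)).comp Z.subtype)
      (by
        intro u u' v; ext z
        simp only [LinearMap.comp_apply, LinearMap.add_apply, linF_apply, map_add, Phi_add3])
      (by
        intro r u v; ext z
        simp only [LinearMap.comp_apply, LinearMap.smul_apply, linF_apply, map_smul, Phi_smul3,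
          smul_eq_mul])
      (by
        intro u u' v; ext z
        simp only [LinearMap.comp_apply, LinearMap.add_apply, linF_apply, map_add, Phi_add4])
      (by
        intro r u v; ext z
        simp only [LinearMap.comp_apply, LinearMap.smul_apply, linF_apply, map_smul, Phi_smul4,
          smul_eq_mul])
  let e : (Fin 3 → PD.EE g) → Module.Dual (PD.EE g) Z := fun m =>
    (linF T (lam 0) (combB lam m) (combB lam m) (combB lam m)).comp Z.subtype
  have hq : ∀ m (z : Z), q m z = Phi T (lam 0) (lam 0) (lam 0) (combB lam m) z := fun m z => rfl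
  have hc : ∀ u v (z : Z), c u v z = Phi T (lam 0) (lam 0) (combB lam u) (combB lam v) z :=
    fun u v z => rfl
  have he : ∀ m (z : Z), e m z = Phi T (lam 0) (combB lam m) (combB lam m) (combB lam m) z :=
    fun m z => rfl
  have hcs : ∀ u v, c u v = c v u := by
    intro u v; ext z
    rw [hc, hc, Phi_s34]
  obtain ⟨z, b, m, a, h1, h2, h3, h4, h5, h6, h7⟩ := K3lead q c hcs e (by
    intro m hm α β γ hrel
    obtain ⟨δ, hδ⟩ := functional_mul (linF T (lam 0) (lam 0) (lam 0) (lam 0))
      (α • linF T (lam 0) (lam 0) (lam 0) (combB lam m) +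
        β • linF T (lam 0) (lam 0) (combB lam m) (combB lam m) +
        γ • linF T (lam 0) (combB lam m) (combB lam m) (combB lam m)) (by
        intro v hv
        have h := congrArg (fun f : Module.Dual (PD.EE g) Z => f ⟨v, hv⟩) hrel
        simpa [q, c, e] using h)
    have h := hfree0 m hm ![-δ, α, β, γ, 0] (by
      intro v
      have := hδ v
      simp only [LinearMap.add_apply, LinearMap.smul_apply, linF_apply, smul_eq_mul] at this
      simp only [Matrix.cons_val_zero, Matrix.cons_val_one, Matrix.cons_val_two,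
        Matrix.cons_val_three, Matrix.cons_val_four, Matrix.head_cons, Matrix.tail_cons,
        Matrix.cons_val]
      linear_combination this)
    exact ⟨by simpa using congrFun h 1, by simpa using congrFun h 2, by simpa using congrFun h 3⟩)
  have hm0 : m ≠ 0 := by
    rintro rfl
    apply h5
    rw [map_zero]; rfl
  have hZ : Phi T (lam 0) (lam 0) (lam 0) (lam 0) z.1 = 0 := z.2
  obtain ⟨z₁, z₂, z₃, hdet⟩ := exists_det_ne_zero (linF T (lam 0) (lam 0) (lam 0) (lam 0))
    (linF T (lam 0) (lam 0) (lam 0) (combB lam m))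
    (linF T (lam 0) (lam 0) (combB lam m) (combB lam m)) (by
      intro α β γ hv
      have h := hfree0 m hm0 ![α, β, γ, 0, 0] (by
        intro v
        have := hv v
        simp only [linF_apply] at this
        simp only [Matrix.cons_val_zero, Matrix.cons_val_one, Matrix.cons_val_two,
          Matrix.cons_val_three, Matrix.cons_val_four, Matrix.head_cons, Matrix.tail_cons,
          Matrix.cons_val]
        linear_combination this)
      exact ⟨by simpa using congrFun h 0, by simpa using congrFun h 1,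
        by simpa using congrFun h 2⟩)
  refine ⟨![lam 0, combB lam b, combB lam m, combB lam a], z.1, z₁, z₂, z₃, ?_, hZ, ?_, ?_, ?_, ?_,
    ?_, ?_, ?_, hdet⟩
  · let S : Fin 4 → Fin 4 → PD.EE g := ![![1, 0, 0, 0], ![0, b 0, b 1, b 2], ![0, m 0, m 1, m 2],
      ![0, a 0, a 1, a 2]]
    have hS : ∀ i : Fin 4, (![lam 0, combB lam b, combB lam m, combB lam a] : Fin 4 → σ → PD.EE g) i
        = comb lam (S i) := by
      intro i
      fin_cases i
      · exact (comb_first lam).symm
      · rfl
      · rfl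
      · rfl
    intro i j l m' n
    rw [hS, hS, hS, hS, hS]
    exact hiso.comb _ _ _ _ _
  · exact h1
  · exact h2
  · exact h3
  · exact h4
  · exact h5
  · exact h6
  · exact h7

end Gen

end Pool.Agent.Work.PD5
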