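import Mathlib
import Pool.Agent.Work.MP_b62148_ag.Quintic.ImmQ

/-!
Module A3 (Gauss) of the theorem on quintics containing a three-space.
-/

namespace Pool.Agent.Work.PD5

open MvPolynomial

universe u v w

variable {K : Type u} [Field K] [CharZero K] {σ : Type w} [Fintype σ] {T : Ten K σ}
  {lam : Fin 4 → σ → K}

/-- **A3 (Gauss)** -/
theorem gauss_absurd (hb : Bpf T lam) {Ω : Type v} [Field Ω] [IsAlgClosed Ω] [Algebra K Ω]
    (y : Fin 4 → Ω) (t : σ → Ω) (_h0 : Psi T lam y y y y t = 0) (i₀ : Fin 4)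
    (hi : Psi T lam y y y (Pi.single i₀ 1) t ≠ 0)
    (h1 : ∀ D : Derivation K Ω Ω, (∀ j, D (t j) = 0) → ∃ ρ : Ω, ∀ i,
      D (Psi T lam y y y (Pi.single i 1) t) = ρ * Psi T lam y y y (Pi.single i 1) t)
    (h2 : ∃ D : Derivation K Ω Ω, (∀ j, D (t j) = 0) ∧ ¬ ∃ θ : Ω, ∀ i, D (y i) = θ * y i)
    (h3 : ∀ w : σ → Ω, ∃ D : Derivation K Ω Ω, ∀ j, D (t j) = w j) : False := by
  classical
  have _ : CharZero Ω := charZero_of_injective_algebraMap (algebraMap K Ω).injective
  let L : Subfield Ω := constField {D : Derivation K Ω Ω | ∀ i, D (t i) = 0}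
  have hK : ∀ a : K, algebraMap K Ω a ∈ L := by
    intro a D _
    exact Derivation.map_algebraMap D a
  let _ : Algebra K L := ((algebraMap K Ω).codRestrict L.toSubring hK).toAlgebra
  have _ : IsScalarTower K L Ω := IsScalarTower.of_algebraMap_eq fun a => rfl
  have ht : ∀ i, t i ∈ L := fun i D hD => hD i
  set G : Ω := Psi T lam y y y (Pi.single i₀ 1) t with hG
  have hr : ∀ i, Psi T lam y y y (Pi.single i 1) t / G ∈ L := by
    intro i D hD
    obtain ⟨ρ, hρ⟩ := h1 D hD
    have h := der_div D (Psi T lam y y y (Pi.single i 1) t) G hi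
    rw [hρ i, hG, hρ i₀, ← hG] at h
    have h' : D (Psi T lam y y y (Pi.single i 1) t / G) * G ^ 2 = 0 := by
      rw [h]; ring
    exact (mul_eq_zero.mp h').resolve_right (pow_ne_zero 2 hi)
  let t' : σ → L := fun i => ⟨t i, ht i⟩
  let p : Fin 4 → MvPolynomial (Fin 4) L := fun i => qol3 T lam (Pi.single i 1) t'
  have haev : ∀ (s : Fin 4 → Ω) (i : Fin 4),
      aeval s (p i) = Psi T lam s s s (Pi.single i 1) t := by
    intro s i
    rw [aeval_qol3, algebraMap_single]
    rfl
  have hbase : ∀ x : Fin 4 → Ω, (∀ i, aeval x (p i) = 0) → x = 0 := by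
    intro x hx
    have hx' : ∀ u, Psi T lam x x x u t = 0 :=
      Psi_eq_zero4 T lam x x x t fun i => by rw [← haev]; exact hx i
    apply hb.ext
    intro w
    obtain ⟨D, hD⟩ := h3 w
    have h := congrArg D (hx' x)
    rw [D_Psi, map_zero] at h
    have e : (fun i => D (t i)) = w := funext hD
    set dx : Fin 4 → Ω := fun j => D (x j) with hdx
    rw [e, Psi_s12 T lam dx x x x, Psi_s23 T lam x dx x x, Psi_s34 T lam x x dx x, hx' dx] at h
    linear_combination h
  obtain ⟨D, hDt, hDy⟩ := h2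
  have hkill : ∀ a ∈ L, D a = 0 := fun a ha => ha D hDt
  have hx : ∀ j, y j ≠ 0 → D (G / y j ^ 3) = 0 := by
    intro j hj
    refine der_algebraic D L hkill ?_
    refine gauss_algebraic L p (fun i => qol3_hom T lam _ _) ?_ y
      (fun i => ⟨Psi T lam y y y (Pi.single i 1) t / G, hr i⟩) G ?_ j hj
    · intro V _ x hx
      exact transfer p hbase x hx
    · intro i
      rw [haev]
      show _ = Psi T lam y y y (Pi.single i 1) t / G * G
      rw [div_mul_cancel₀ _ hi]
  apply hDy
  refine ⟨D G / (3 * G), ?_⟩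
  intro j
  by_cases hj : y j = 0
  · rw [hj, map_zero, mul_zero]
  · have h := der_div D G (y j ^ 3) (pow_ne_zero 3 hj)
    rw [hx j hj, Derivation.leibniz_pow] at h
    have h3' : (3 : Ω) ≠ 0 := by norm_num
    have h4 : y j ^ 2 * (D G * y j - 3 * G * D (y j)) = 0 := by
      have e : ((3 : ℕ) • y j ^ (3 - 1) • D (y j) : Ω) = 3 * y j ^ 2 * D (y j) := by
        rw [smul_eq_mul, nsmul_eq_mul]; norm_num; ring
      rw [e] at h
      linear_combination -h
    have h5 := (mul_eq_zero.mp h4).resolve_left (pow_ne_zero 2 hj)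
    field_simp
    linear_combination -h5

end Pool.Agent.Work.PD5
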