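import Mathlib
import Pool.Agent.Work.MP_b62148_ag.Quintic.ImmQ
import Pool.Agent.Work.MP_b62148_ag.Quintic.PlaneQ
import Pool.Agent.Work.MP_b62148_ag.Quintic.GaussQ
import Pool.Agent.Work.MP_b62148_ag.Quintic.FlagAux

/-!
Module A6 of the quintic theorem, round two: the main claim.
-/

namespace Pool.Agent.Work.PD5

universe u v w

variable {K : Type u} [Field K] [CharZero K] {σ : Type w} [Fintype σ] {T : Ten K σ}
  {lam : Fin 4 → σ → K}

variable {Ω : Type v} [Field Ω] [Algebra K Ω]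

omit [CharZero K] in
theorem Flag.toP (G : Flag T lam Ω) : A67.FlagP T lam G.y G.m G.t :=
  ⟨G.r1, G.r2, G.r3, G.ind, G.dl⟩

theorem flag_imm (hb : Bpf T lam) (G : Flag T lam Ω) (u : Fin 4 → Ω)
    (hu : ∀ w : σ → Ω, Psi T lam G.y G.y G.y u w = 0) : u = 0 :=
  imm hb G.y G.toP.exists_der u hu

theorem flag_nonzero (hb : Bpf T lam) (G : Flag T lam Ω) :
    ∃ i : Fin 4, Psi T lam G.y G.y G.y (Pi.single i 1) G.t ≠ 0 :=
  G.toP.l_ne (flag_imm hb G)

/-- the main claim for a generic flag -/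
theorem main_claim [IsAlgClosed Ω] (hb : Bpf T lam) (G : Flag T lam Ω) :
    ¬ ∃ ρ : Ω, ∀ u : Fin 4 → Ω, Psi T lam G.y G.y G.m u G.t =
      ρ * Psi T lam G.y G.y G.y u G.t := by
  have : CharZero Ω := charZero_of_injective_algebraMap (algebraMap K Ω).injective
  refine G.toP.main ?_ ?_ (flag_imm hb G)
  · intro y t i₀ h0 hi h1 h2 h3
    exact plane_absurd hb y t h0 i₀ hi h1 h2 h3
  · intro y t i₀ h0 hi h1 h2 h3
    exact gauss_absurd hb y t h0 i₀ hi h1 h2 h3

end Pool.Agent.Work.PD5
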