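import Mathlib
import Pool.Agent.Work.MP_b62148_ag.Quintic.MainClaimQ
import Pool.Agent.Work.MP_b62148_ag.Quintic.LeadQ

/-!
Module A7 of the quintic theorem, round two: leading data from a generic flag.
-/

namespace Pool.Agent.Work.PD5

universe u v w

variable {K : Type u} [Field K] [CharZero K] {σ : Type w} [Fintype σ] {T : Ten K σ}
  {lam : Fin 4 → σ → K}

/-- a generic flag gives leading data for a frame of the three-space -/
theorem lead_of_flag {Ω : Type v} [Field Ω] [IsAlgClosed Ω] [Algebra K Ω] (hb : Bpf T lam)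
    (G : Flag T lam Ω) : ∃ c : Fin 4 → Fin 4 → Ω, LeadAt T (fun i => emb lam (c i)) := by
  have : CharZero Ω := charZero_of_injective_algebraMap (algebraMap K Ω).injective
  obtain ⟨i, hi⟩ := flag_nonzero hb G
  obtain ⟨b, a, h1, h2, h3, h4, h5⟩ := A67.leading_A7 G.y G.m G.t (fun s hs => hb.ext s hs)
    G.r1 G.r2 G.r3 G.dl ⟨_, hi⟩ (main_claim hb G)
  obtain ⟨z₁, z₂, z₃, hdet⟩ := exists_det_ne_zero
    (linF T (emb lam G.y) (emb lam G.y) (emb lam G.y) (emb lam G.y))
    (linF T (emb lam G.y) (emb lam G.y) (emb lam G.y) (emb lam G.m))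
    (linF T (emb lam G.y) (emb lam G.y) (emb lam G.m) (emb lam G.m)) (by
      intro α β γ hv
      exact G.ind α β γ hv)
  refine ⟨![G.y, b, G.m, a], G.t, z₁, z₂, z₃, G.r1, h1, G.r2, h2, G.r3, h3, h4, h5, hdet⟩

end Pool.Agent.Work.PD5
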