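import Mathlib
import Pool.Agent.Work.MP_b62148_ag.Quintic.Defs
import Pool.Agent.Work.MP_b62148_ag.Quintic.ParamQ

/-!
The differential of the parametrisation at a good configuration is onto the tangent space.
-/

namespace Pool.Agent.Work.PD5

open MvPolynomial

variable {k : Type*} [Field k] {σ : Type*} [Fintype σ]

/-- polynomials in the 12 + 4 N parameters -/
noncomputable def Ppoly {L : Type*} [Field L] [Algebra k L] (T : Ten k σ) (lam : Fin 4 → σ → L) :
    σ → MvPolynomial ((Fin 3 × Fin 4) ⊕ (Fin 4 × σ)) L :=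
  par T (comb (fun j i => C (lam j i)) fun j => X (Sum.inl (0, j)))
    (comb (fun j i => C (lam j i)) fun j => X (Sum.inl (1, j)))
    (comb (fun j i => C (lam j i)) fun j => X (Sum.inl (2, j)))
    (fun j i => X (Sum.inr (j.castSucc, i))) (fun i => X (Sum.inr (3, i)))

section Eval

variable {L : Type*} [Field L] [Algebra k L]

omit [Fintype σ] in
theorem map_comb {R S : Type*} [CommRing R] [CommRing S] (g : R →+* S) (lam : Fin 4 → σ → R)
    (s : Fin 4 → R) (i : σ) :
    g (comb lam s i) = comb (fun j i => g (lam j i)) (fun j => g (s j)) i := by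
  simp only [comb, map_sum, map_mul]

theorem aeval_Ppoly {R : Type*} [CommRing R] [Algebra k R] [Algebra L R] [IsScalarTower k L R]
    (T : Ten k σ) (lam : Fin 4 → σ → L) (t : (Fin 3 × Fin 4) ⊕ (Fin 4 × σ) → R) (i : σ) :
    aeval t (Ppoly T lam i) =
      par T (comb (fun j i => algebraMap L R (lam j i)) fun j => t (Sum.inl (0, j)))
        (comb (fun j i => algebraMap L R (lam j i)) fun j => t (Sum.inl (1, j)))
        (comb (fun j i => algebraMap L R (lam j i)) fun j => t (Sum.inl (2, j)))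
        (fun j i => t (Sum.inr (j.castSucc, i))) (fun i => t (Sum.inr (3, i))) i := by
  let g : MvPolynomial ((Fin 3 × Fin 4) ⊕ (Fin 4 × σ)) L →ₐ[k] R := (aeval t).restrictScalars k
  have h := map_par T g (comb (fun j i => C (lam j i)) fun j => X (Sum.inl (0, j)))
    (comb (fun j i => C (lam j i)) fun j => X (Sum.inl (1, j)))
    (comb (fun j i => C (lam j i)) fun j => X (Sum.inl (2, j)))
    (fun j i => X (Sum.inr (j.castSucc, i))) (fun i => X (Sum.inr (3, i))) i
  have hg : ∀ p, g p = aeval t p := fun p => rfl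
  have hc : ∀ a : Fin 3, (fun i => g (comb (fun j i => C (lam j i))
      (fun j => X (Sum.inl (a, j))) i)) =
      comb (fun j i => algebraMap L R (lam j i)) fun j => t (Sum.inl (a, j)) := by
    intro a
    funext i
    simp only [comb, map_sum, map_mul, hg, aeval_X, aeval_C]
  rw [hc 0, hc 1, hc 2] at h
  simp only [hg, aeval_X] at h
  exact h

end Eval

section Dual

open TrivSqZeroExt

variable {E : Type*} [Field E] [Algebra k E]

/-- a vector over the dual numbers -/
def dv (v w : σ → E) : σ → DualNumber E := fun i => inl (v i) + inr (w i)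

theorem aeval_dual {L : Type*} [Field L] [Algebra L E] {τ : Type*} [Fintype τ] (t₀ t' : τ → E)
    (p : MvPolynomial τ L) :
    aeval (fun l => (inl (t₀ l) + inr (t' l) : DualNumber E)) p =
      inl (aeval t₀ p) + inr (∑ l, aeval t₀ (pderiv l p) * t' l) := by
  classical
  induction p using MvPolynomial.induction_on with
  | C a =>
    simp only [aeval_C, pderiv_C, map_zero, zero_mul, Finset.sum_const_zero, inr_zero, add_zero]
    rfl
  | add p q hp hq =>
    simp only [map_add, hp, hq, add_mul, Finset.sum_add_distrib, inl_add, inr_add]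
    ring
  | mul_X p i hp =>
    have h1 : ∑ l, aeval t₀ (pderiv l (p * X i)) * t' l =
        (∑ l, aeval t₀ (pderiv l p) * t' l) * t₀ i + aeval t₀ p * t' i := by
      simp only [Derivation.leibniz, map_add, smul_eq_mul, map_mul, aeval_X, pderiv_X, add_mul,
        Finset.sum_add_distrib]
      rw [add_comm]
      congr 1
      · rw [Finset.sum_mul]
        refine Finset.sum_congr rfl fun l _ => ?_
        ring
      · rw [Finset.sum_eq_single i]
        · simp
        · intro j _ hj
          rw [Pi.single_eq_of_ne hj.symm]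
          simp
        · simp
    rw [h1]
    simp only [map_mul, hp, aeval_X]
    ext
    · simp
    · simp [mul_comm]

theorem Phi_dual (T : Ten k σ) (v₁ v₂ v₃ v₄ v₅ w₁ w₂ w₃ w₄ w₅ : σ → E) :
    Phi T (dv v₁ w₁) (dv v₂ w₂) (dv v₃ w₃) (dv v₄ w₄) (dv v₅ w₅) =
      inl (Phi T v₁ v₂ v₃ v₄ v₅) + inr (Phi T w₁ v₂ v₃ v₄ v₅ + Phi T v₁ w₂ v₃ v₄ v₅ +
        Phi T v₁ v₂ w₃ v₄ v₅ + Phi T v₁ v₂ v₃ w₄ v₅ + Phi T v₁ v₂ v₃ v₄ w₅) := by
  have h : ∀ v w : σ → E, dv v w = (fun i => inlAlgHom k E E (v i)) +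
      (inr 1 : DualNumber E) • (fun i => inlAlgHom k E E (w i)) := by
    intro v w
    funext i
    simp only [dv, Pi.add_apply, Pi.smul_apply, smul_eq_mul, inlAlgHom_apply]
    congr 1
    ext <;> simp
  have hm : ∀ a b c d e : σ → E, Phi T (fun i => inlAlgHom k E E (a i))
      (fun i => inlAlgHom k E E (b i)) (fun i => inlAlgHom k E E (c i))
      (fun i => inlAlgHom k E E (d i)) (fun i => inlAlgHom k E E (e i)) =
      (inl (Phi T a b c d e) : DualNumber E) := by
    intro a b c d e
    rw [← map_Phi]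
    rfl
  simp only [h, Phi_add1, Phi_add2, Phi_add3, Phi_add4, Phi_add5, Phi_smul1, Phi_smul2, Phi_smul3,
    Phi_smul4, Phi_smul5, hm]
  ext
  · simp
  · simp

section Tangent

variable (T : Ten k σ)

/-- the constant in `par_eq` -/
noncomputable def rr {R : Type*} [CommRing R] [Algebra k R] (y m a : σ → R) (z : Fin 3 → σ → R)
    (x : σ → R) : R :=
  5 * (3 * Phi T y y m x x * (-2 * (mat T y m z).det ^ 2 * Phi T y y y a x) ^ 3) ^ 5 *
    Phi T y x x x x

theorem par_dual (y m a : σ → E) (z : Fin 3 → σ → E) (x y' m' h : σ → E)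
    (c1 : Phi T y y y y x = 0) (c2 : Phi T y y y m x = 0) (c3 : Phi T y y y x x = 0)
    (c4 : Phi T y y m m x = 0) (c5 : Phi T y y x x x = 0) (c6 : Phi T x x x x x = 0)
    (d1 : 4 * Phi T y y y y' x + Phi T y y y y h = 0)
    (d2 : 3 * Phi T y y y' m x + Phi T y y y m' x + Phi T y y y m h = 0)
    (d3 : 3 * Phi T y y y' x x + 2 * Phi T y y y x h = 0)
    (d4 : 2 * Phi T y y' m m x + 2 * Phi T y y m m' x + Phi T y y m m h = 0)
    (d5 : 2 * Phi T y y' x x x + 3 * Phi T y y x x h = 0)
    (d6 : Phi T x x x x h = 0) :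
    par T (dv y y') (dv m m') (dv a 0) (fun j => dv (z j) 0) (dv x h) =
      rr T (dv y y') (dv m m') (dv a 0) (fun j => dv (z j) 0) (dv x h) • dv x h := by
  unfold rr
  apply par_eq
  · rw [Phi_dual, c1]
    have : Phi T y' y y y x + Phi T y y' y y x + Phi T y y y' y x + Phi T y y y y' x +
        Phi T y y y y h = 0 := by
      rw [Phi_s12 T y' y y y x, Phi_s23 T y y' y y x, Phi_s34 T y y y' y x]
      linear_combination d1
    rw [this]; simp
  · rw [Phi_dual, c2]
    have : Phi T y' y y m x + Phi T y y' y m x + Phi T y y y' m x + Phi T y y y m' x +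
        Phi T y y y m h = 0 := by
      rw [Phi_s12 T y' y y m x, Phi_s23 T y y' y m x]
      linear_combination d2
    rw [this]; simp
  · rw [Phi_dual, c3]
    have : Phi T y' y y x x + Phi T y y' y x x + Phi T y y y' x x + Phi T y y y h x +
        Phi T y y y x h = 0 := by
      rw [Phi_s12 T y' y y x x, Phi_s23 T y y' y x x, Phi_s45 T y y y h x]
      linear_combination d3
    rw [this]; simp
  · rw [Phi_dual, c4]
    have : Phi T y' y m m x + Phi T y y' m m x + Phi T y y m' m x + Phi T y y m m' x +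
        Phi T y y m m h = 0 := by
      rw [Phi_s12 T y' y m m x, Phi_s34 T y y m' m x]
      linear_combination d4
    rw [this]; simp
  · rw [Phi_dual, c5]
    have : Phi T y' y x x x + Phi T y y' x x x + Phi T y y h x x + Phi T y y x h x +
        Phi T y y x x h = 0 := by
      rw [Phi_s12 T y' y x x x, Phi_s34 T y y h x x, Phi_s45 T y y x h x]
      linear_combination d5
    rw [this]; simp
  · rw [Phi_dual, c6]
    have : Phi T h x x x x + Phi T x h x x x + Phi T x x h x x + Phi T x x x h x +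
        Phi T x x x x h = 0 := by
      rw [Phi_s12 T h x x x x, Phi_s23 T x h x x x, Phi_s34 T x x h x x, Phi_s45 T x x x h x]
      linear_combination 5 * d6
    rw [this]; simp

theorem map_rr {R S : Type*} [CommRing R] [Algebra k R] [CommRing S] [Algebra k S] (g : R →ₐ[k] S)
    (y m a : σ → R) (z : Fin 3 → σ → R) (x : σ → R) :
    g (rr T y m a z x) = rr T (fun i => g (y i)) (fun i => g (m i)) (fun i => g (a i))
      (fun j i => g (z j i)) (fun i => g (x i)) := by
  have hdet : g (mat T y m z).det = (mat T (fun i => g (y i)) (fun i => g (m i))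
      (fun j i => g (z j i))).det := by
    rw [← map_mat]
    exact (RingHom.map_det (g : R →+* S) (mat T y m z))
  unfold rr
  rw [← hdet]
  have h5 : g 5 = 5 := map_ofNat g 5
  have h3 : g 3 = 3 := map_ofNat g 3
  have h2 : g (-2) = -2 := by rw [map_neg, map_ofNat]
  rw [map_mul, map_mul, map_pow, map_mul, map_mul, map_pow, map_mul, map_mul, map_pow, h5, h3, h2]
  rw [map_Phi, map_Phi, map_Phi]

theorem fst_rr (y m a : σ → E) (z : Fin 3 → σ → E) (x y' m' a' h : σ → E)
    (z' : Fin 3 → σ → E) :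
    fst (rr T (dv y y') (dv m m') (dv a a') (fun j => dv (z j) (z' j)) (dv x h)) =
      rr T y m a z x := by
  have hf : ∀ v w : σ → E, (fun i => fstHom k E E (dv v w i)) = v := by
    intro v w; funext i; simp [dv]
  have e : ∀ d : DualNumber E, fst d = fstHom k E E d := fun d => rfl
  have hz : (fun (j : Fin 3) i => fstHom k E E (dv (z j) (z' j) i)) = z := by
    funext j i; simp [dv]
  rw [e, map_rr, hz]
  simp only [hf]

/-- scaling the point -/
theorem par_scale (y m a : σ → E) (z : Fin 3 → σ → E) (x : σ → E)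
    (c1 : Phi T y y y y x = 0) (c2 : Phi T y y y m x = 0) (c3 : Phi T y y y x x = 0)
    (c4 : Phi T y y m m x = 0) (c5 : Phi T y y x x x = 0) (c6 : Phi T x x x x x = 0) (i : σ) :
    snd (par T (dv y 0) (dv m 0) (dv a 0) (fun j => dv (z j) 0) (dv x x) i) =
      30 * rr T y m a z x * x i := by
  have hx : dv x x = ((inl 1 + inr 1 : DualNumber E)) • dv x 0 := by
    funext i
    simp only [dv, Pi.smul_apply, smul_eq_mul]
    ext <;> simp
  have h0 : ∀ v : σ → E, (dv v 0) = fun i => inlAlgHom k E E (v i) := by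
    intro v; funext i; simp [dv]
  have hp : ∀ a b c d e : σ → E, Phi T (dv a 0) (dv b 0) (dv c 0) (dv d 0) (dv e 0) =
      (inl (Phi T a b c d e) : DualNumber E) := by
    intro a b c d e
    simp only [h0]
    rw [← map_Phi]
    rfl
  set δ : DualNumber E := inl 1 + inr 1 with hδ
  have hpar := par_eq T (dv y 0) (dv m 0) (dv a 0) (fun j => dv (z j) 0) (δ • dv x 0)
    (by rw [Phi_smul5, hp, c1]; simp) (by rw [Phi_smul5, hp, c2]; simp)
    (by rw [Phi_smul5, Phi_smul4, hp, c3]; simp) (by rw [Phi_smul5, hp, c4]; simp)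
    (by rw [Phi_smul5, Phi_smul4, Phi_smul3, hp, c5]; simp)
    (by rw [Phi_smul5, Phi_smul4, Phi_smul3, Phi_smul2, Phi_smul1, hp, c6]; simp)
  rw [hx, hpar]
  have hr : (5 * (3 * Phi T (dv y 0) (dv y 0) (dv m 0) (δ • dv x 0) (δ • dv x 0) *
      (-2 * (mat T (dv y 0) (dv m 0) (fun j => dv (z j) 0)).det ^ 2 *
        Phi T (dv y 0) (dv y 0) (dv y 0) (dv a 0) (δ • dv x 0)) ^ 3) ^ 5 *
        Phi T (dv y 0) (δ • dv x 0) (δ • dv x 0) (δ • dv x 0) (δ • dv x 0)) =
      δ ^ 29 * inl (rr T y m a z x) := by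
    have hrr : (inl (rr T y m a z x) : DualNumber E) = rr T (dv y 0) (dv m 0) (dv a 0)
        (fun j => dv (z j) 0) (dv x 0) := by
      have := map_rr T (inlAlgHom k E E) y m a z x
      simp only [h0]
      exact this
    rw [hrr]
    unfold rr
    simp only [Phi_smul2, Phi_smul3, Phi_smul4, Phi_smul5]
    ring
  rw [hr]
  have hδ29 : δ ^ 30 = inl 1 + inr 30 := by
    have : ∀ n : ℕ, δ ^ n = inl 1 + inr (n : E) := by
      intro n
      induction n with
      | zero => simp
      | succ n ih =>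
        rw [pow_succ, ih, hδ]
        ext
        · simp
        · simp [add_comm]
    exact_mod_cast this 30
  have : (δ ^ 29 * inl (rr T y m a z x)) • δ • dv x 0 = fun i => δ ^ 30 * inl (rr T y m a z x * x i) := by
    funext i
    simp only [Pi.smul_apply, smul_eq_mul, dv, Pi.zero_apply, inr_zero, add_zero, inl_mul]
    ring
  rw [this, hδ29]
  simp
  ring

end Tangent

omit [Fintype σ] in
theorem comb_dual {L : Type*} [Field L] [Algebra L E] (lam : Fin 4 → σ → L) (s s' : Fin 4 → E) :
    comb (fun j i => algebraMap L (DualNumber E) (lam j i)) (fun j => inl (s j) + inr (s' j)) =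
      dv (comb (fun j i => algebraMap L E (lam j i)) s)
        (comb (fun j i => algebraMap L E (lam j i)) s') := by
  funext i
  have h : ∀ a : L, algebraMap L (DualNumber E) a = inl (algebraMap L E a) := fun a => rfl
  simp only [comb, dv, h]
  ext
  · rw [fst_sum]
    simp
  · rw [snd_sum]
    simp [mul_comm]

end Dual

section Main

open TrivSqZeroExt

theorem tangent_aux {L E : Type*} [Field L] [Algebra k L] [Field E] [Algebra k E] [Algebra L E]
    [IsScalarTower k L E] [CharZero L] (T : Ten k σ) (lam : Fin 4 → σ → L)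
    (lamE : Fin 4 → σ → E) (hlamE : lamE = fun j i => algebraMap L E (lam j i))
    (sy sm sa : Fin 4 → E) (z : Fin 3 → σ → E) (x : σ → E)
    (c1 : Phi T (comb lamE sy) (comb lamE sy) (comb lamE sy) (comb lamE sy) x = 0)
    (c2 : Phi T (comb lamE sy) (comb lamE sy) (comb lamE sy) (comb lamE sm) x = 0)
    (c3 : Phi T (comb lamE sy) (comb lamE sy) (comb lamE sy) x x = 0)
    (c4 : Phi T (comb lamE sy) (comb lamE sy) (comb lamE sm) (comb lamE sm) x = 0)
    (c5 : Phi T (comb lamE sy) (comb lamE sy) x x x = 0)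
    (c6 : Phi T x x x x x = 0)
    (n1 : Phi T (comb lamE sy) (comb lamE sy) (comb lamE sy) (comb lamE sa) x ≠ 0)
    (n2 : Phi T (comb lamE sy) (comb lamE sy) (comb lamE sm) x x ≠ 0)
    (n3 : Phi T (comb lamE sy) x x x x ≠ 0)
    (n4 : (mat T (comb lamE sy) (comb lamE sm) z).det ≠ 0)
    (t1 : ∀ r₁ r₂ r₃ : E, ∃ s : Fin 4 → E,
      Phi T (comb lamE sy) (comb lamE sy) (comb lamE sy) (comb lamE s) x = r₁ ∧
      Phi T (comb lamE sy) (comb lamE sy) (comb lamE s) x x = r₂ ∧
      Phi T (comb lamE sy) (comb lamE s) x x x = r₃)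
    (t2 : ∀ r₁ r₂ : E, ∃ s : Fin 4 → E,
      Phi T (comb lamE sy) (comb lamE sy) (comb lamE sy) (comb lamE s) x = r₁ ∧
      Phi T (comb lamE sy) (comb lamE sy) (comb lamE sm) (comb lamE s) x = r₂) :
    ∃ t₀ : (Fin 3 × Fin 4) ⊕ (Fin 4 × σ) → E, ∃ r : E, r ≠ 0 ∧
      (fun j => aeval t₀ (Ppoly T lam j)) = r • x ∧
      ∀ h : σ → E, Phi T x x x x h = 0 →
        ∃ t' : (Fin 3 × Fin 4) ⊕ (Fin 4 × σ) → E,
          ∀ j, ∑ l, aeval t₀ (pderiv l (Ppoly T lam j)) * t' l = h j := by
  classical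
  have hE : CharZero E := charZero_of_injective_algebraMap (algebraMap L E).injective
  have htow : IsScalarTower k L (DualNumber E) := by
    refine IsScalarTower.of_algebraMap_eq fun a => ?_
    show (inl (algebraMap k E a) : DualNumber E) = inl (algebraMap L E (algebraMap k L a))
    rw [← IsScalarTower.algebraMap_apply]
  set y := comb lamE sy with hy
  set m := comb lamE sm with hm
  set a := comb lamE sa with ha
  -- the parameters
  let mk : (Fin 4 → E) → (Fin 4 → E) → (Fin 4 → E) → (Fin 3 → σ → E) → (σ → E) →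
      ((Fin 3 × Fin 4) ⊕ (Fin 4 × σ) → E) := fun p q r z om =>
    Sum.elim (fun c => ![p, q, r] c.1 c.2)
      (fun c => if hc : c.1.val < 3 then z ⟨c.1.val, hc⟩ c.2 else om c.2)
  have mk0 : ∀ p q r z om j, mk p q r z om (Sum.inl (0, j)) = p j := fun _ _ _ _ _ _ => rfl
  have mk1 : ∀ p q r z om j, mk p q r z om (Sum.inl (1, j)) = q j := fun _ _ _ _ _ _ => rfl
  have mk2 : ∀ p q r z om j, mk p q r z om (Sum.inl (2, j)) = r j := fun _ _ _ _ _ _ => rfl
  have mk3 : ∀ p q r z om (j : Fin 3) i, mk p q r z om (Sum.inr (j.castSucc, i)) = z j i := by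
    intro p q r z om j i
    simp [mk]
  have mk4 : ∀ p q r z om i, mk p q r z om (Sum.inr (3, i)) = om i := by
    intro p q r z om i
    simp [mk]
  have hr0 : rr T y m a z x ≠ 0 := by
    unfold rr
    have h2 : (-2 : E) ≠ 0 := by norm_num
    have h3 : (3 : E) ≠ 0 := by norm_num
    have h5 : (5 : E) ≠ 0 := by norm_num
    exact mul_ne_zero (mul_ne_zero h5 (pow_ne_zero _ (mul_ne_zero (mul_ne_zero h3 n2)
      (pow_ne_zero _ (mul_ne_zero (mul_ne_zero h2 (pow_ne_zero _ n4)) n1))))) n3
  set r := rr T y m a z x with hr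
  set t₀ := mk sy sm sa z x with ht₀
  have key : ∀ (s s' : Fin 4 → E) (om' : σ → E) (i : σ),
      ∑ l, aeval t₀ (pderiv l (Ppoly T lam i)) * (mk s s' 0 0 om') l =
        snd (par T (dv y (comb lamE s)) (dv m (comb lamE s')) (dv a 0) (fun j => dv (z j) 0)
          (dv x om') i) := by
    intro s s' om' i
    have h1 := aeval_dual t₀ (mk s s' 0 0 om') (Ppoly T lam i)
    have h2 := congrArg snd h1
    rw [snd_add, snd_inl, snd_inr, zero_add] at h2
    rw [← h2, aeval_Ppoly]
    have e0 : (fun j => (inl (t₀ (Sum.inl (0, j))) + inr (mk s s' 0 0 om' (Sum.inl (0, j))) :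
        DualNumber E)) = fun j => inl (sy j) + inr (s j) := rfl
    have e1 : (fun j => (inl (t₀ (Sum.inl (1, j))) + inr (mk s s' 0 0 om' (Sum.inl (1, j))) :
        DualNumber E)) = fun j => inl (sm j) + inr (s' j) := rfl
    have e2 : (fun j => (inl (t₀ (Sum.inl (2, j))) + inr (mk s s' 0 0 om' (Sum.inl (2, j))) :
        DualNumber E)) = fun j => inl (sa j) + inr ((0 : Fin 4 → E) j) := rfl
    have e3 : (fun (j : Fin 3) (i : σ) => (inl (t₀ (Sum.inr (j.castSucc, i))) +
        inr (mk s s' 0 0 om' (Sum.inr (j.castSucc, i))) : DualNumber E)) = fun j => dv (z j) 0 := by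
      funext j i
      rw [ht₀, mk3, mk3]
      rfl
    have e4 : (fun (i : σ) => (inl (t₀ (Sum.inr (3, i))) +
        inr (mk s s' 0 0 om' (Sum.inr (3, i))) : DualNumber E)) = dv x om' := by
      funext i
      rw [ht₀, mk4, mk4]
      rfl
    rw [e0, e1, e2, e3, e4, comb_dual, comb_dual, comb_dual, hy, hm, ha, hlamE]
    have e5 : comb (fun j i => algebraMap L E (lam j i)) (0 : Fin 4 → E) = 0 := by
      funext i; simp [comb]
    rw [e5]
  refine ⟨t₀, r, hr0, ?_, ?_⟩
  · funext i
    rw [aeval_Ppoly]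
    have e3 : (fun (j : Fin 3) (i : σ) => t₀ (Sum.inr (j.castSucc, i))) = z := by
      funext j i
      rw [ht₀, mk3]
    have e4 : (fun (i : σ) => t₀ (Sum.inr (3, i))) = x := by
      funext i
      rw [ht₀, mk4]
    rw [e3, e4]
    have := congrFun (par_eq T y m a z x c1 c2 c3 c4 c5 c6) i
    rw [hy, hm, ha, hlamE] at this
    rw [hr, hy, hm, ha, hlamE]
    exact this
  · intro h hh
    -- first order deformation of `y`
    obtain ⟨s, s1, s3, s5⟩ := t1 (-(Phi T y y y y h) / 4) (-(2 * Phi T y y y x h) / 3)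
      (-(3 * Phi T y y x x h) / 2)
    set y' := comb lamE s with hy'
    obtain ⟨s', s2, s4⟩ := t2 (-(3 * Phi T y y y' m x + Phi T y y y m h))
      (-(2 * Phi T y y' m m x + Phi T y y m m h) / 2)
    set m' := comb lamE s' with hm'
    have hd := par_dual T y m a z x y' m' h c1 c2 c3 c4 c5 c6
      (by rw [s1]; ring) (by rw [s2]; ring) (by rw [s3]; ring) (by rw [s4]; ring)
      (by rw [s5]; ring) hh
    set q := snd (rr T (dv y y') (dv m m') (dv a 0) (fun j => dv (z j) 0) (dv x h)) with hq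
    have hfst : fst (rr T (dv y y') (dv m m') (dv a 0) (fun j => dv (z j) 0) (dv x h)) = r :=
      fst_rr T y m a z x y' m' 0 h 0
    have k1 : ∀ i, ∑ l, aeval t₀ (pderiv l (Ppoly T lam i)) * (mk s s' 0 0 h) l =
        r * h i + q * x i := by
      intro i
      rw [key, hd, Pi.smul_apply, smul_eq_mul, snd_mul, hfst, ← hq]
      simp [dv, mul_comm]
    have k2 : ∀ i, ∑ l, aeval t₀ (pderiv l (Ppoly T lam i)) * (mk 0 0 0 0 x) l =
        30 * r * x i := by
      intro i
      rw [key]
      have e5 : comb lamE (0 : Fin 4 → E) = 0 := by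
        funext i; simp [comb]
      rw [e5]
      exact par_scale T y m a z x c1 c2 c3 c4 c5 c6 i
    refine ⟨fun l => r⁻¹ * mk s s' 0 0 h l - (q * (30 * r * r)⁻¹) * mk 0 0 0 0 x l, ?_⟩
    intro i
    have e : ∑ l, aeval t₀ (pderiv l (Ppoly T lam i)) *
        (r⁻¹ * mk s s' 0 0 h l - (q * (30 * r * r)⁻¹) * mk 0 0 0 0 x l) =
        r⁻¹ * (∑ l, aeval t₀ (pderiv l (Ppoly T lam i)) * (mk s s' 0 0 h) l) -
        (q * (30 * r * r)⁻¹) * ∑ l, aeval t₀ (pderiv l (Ppoly T lam i)) * (mk 0 0 0 0 x) l := by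
      rw [Finset.mul_sum, Finset.mul_sum, ← Finset.sum_sub_distrib]
      refine Finset.sum_congr rfl fun l _ => ?_
      ring
    rw [e, k1, k2]
    field_simp
    ring

theorem tangent {L E : Type*} [Field L] [Algebra k L] [Field E] [Algebra k E] [Algebra L E]
    [IsScalarTower k L E] [CharZero L] (T : Ten k σ) (lam : Fin 4 → σ → L)
    (Cf : Config T (fun j i => algebraMap L E (lam j i))) :
    ∃ t₀ : (Fin 3 × Fin 4) ⊕ (Fin 4 × σ) → E, ∃ r : E, r ≠ 0 ∧
      (fun j => aeval t₀ (Ppoly T lam j)) = r • Cf.x ∧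
      ∀ h : σ → E, Phi T Cf.x Cf.x Cf.x Cf.x h = 0 →
        ∃ t' : (Fin 3 × Fin 4) ⊕ (Fin 4 × σ) → E,
          ∀ j, ∑ l, aeval t₀ (pderiv l (Ppoly T lam j)) * t' l = h j :=
  tangent_aux T lam _ rfl Cf.sy Cf.sm Cf.sa Cf.z Cf.x Cf.c1 Cf.c2 Cf.c3 Cf.c4 Cf.c5 Cf.c6 Cf.n1
    Cf.n2 Cf.n3 Cf.n4 Cf.t1 Cf.t2

end Main

end Pool.Agent.Work.PD5
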