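import Mathlib
import Pool.Agent.Work.MP_b62148_ag.Quintic.LeadFlagQ
import Pool.Agent.Work.MP_b62148_ag.Quintic.ConfigAtQ
import Pool.Agent.Work.MP_b62148_ag.Quintic.ExistsFlagQ
import Pool.Agent.Work.MP_b62148_ag.Quintic.ExistAnyQ
import Pool.Agent.Work.MP_b62148_ag.Quintic.FrameQ
import Pool.Agent.Work.MP_b62148_ag.Quintic.DensityQ
import Pool.Agent.Work.MP_b62148_ag.Quintic.IrredQ
import Pool.Agent.Work.MP_b62148_ag.Quintic.TangentQ
import Pool.Agent.Work.MP_b62148_ag.Quintic.SpecialQ
import Pool.Agent.Work.MP_b62148_ag.Quintic.SharpQ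

/-!
Assembly of round two: every smooth quintic containing a three-space defined over the base field is
unirational over the base field.
-/

namespace Pool.Agent.Work.PD5

open MvPolynomial

universe u w

theorem aeval_alg' {k : Type*} [Field k] {σ : Type*} {L : Type*} [Field L] [Algebra k L] {R : Type*}
    [CommRing R] [Algebra k R] [Algebra L R] [IsScalarTower k L R] (F : MvPolynomial σ k)
    (x : σ → R) : aeval x (map (algebraMap k L) F) = aeval x F := by
  rw [aeval_map_algebraMap]

/-- the parametrisation is unirational over the field of definition of the three-space -/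
theorem space_param {K : Type u} [Field K] [CharZero K] {σ : Type w} [Fintype σ]
    (F : MvPolynomial σ K) (hF : F.IsHomogeneous 5) (hs : PD.SmoothForm F)
    (hcard : 3 ≤ Fintype.card σ) (T : Ten K σ) (hT : IsTen F T) (lam : Fin 4 → σ → K)
    (hl : LinearIndependent K lam) (hiso : Iso T lam) :
    aeval (Ppoly T lam) F = 0 ∧
      ∀ G : MvPolynomial σ K, aeval (Ppoly T lam) G = 0 → F ∣ G := by
  classical
  have hirr : Irreducible F := irreducible_of_smooth F hF hs hcard
  have hb : Bpf T lam := bpf_of_smooth hT hs hl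
  have hP0 : aeval (Ppoly T lam) F = 0 := by
    rw [hT.aeval_eq]
    have hiso2 : Iso T (fun j i =>
        (C (lam j i) : MvPolynomial ((Fin 3 × Fin 4) ⊕ (Fin 4 × σ)) K)) := by
      intro i j l m n
      have h := hiso i j l m n
      have h2 := map_Phi T (Algebra.ofId K (MvPolynomial ((Fin 3 × Fin 4) ⊕ (Fin 4 × σ)) K))
        (lam i) (lam j) (lam l) (lam m) (lam n)
      rw [h, map_zero] at h2
      exact h2.symm
    exact par_mem T _ hiso2 _ _ _ _ _
  refine ⟨hP0, ?_⟩
  obtain ⟨Ω, i1, i2, i3, ⟨G⟩⟩ := exists_flag hb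
  have i4 : CharZero Ω := charZero_of_injective_algebraMap (algebraMap K Ω).injective
  obtain ⟨c, hc⟩ := lead_of_flag hb G
  obtain ⟨Cf0⟩ := config_at T (fun i => emb lam (c i)) (hiso.emb c) hc
  obtain ⟨Cf⟩ := config_change T lam c Cf0
  obtain ⟨t₀, r, hr, hx, htan⟩ := tangent (L := K) (E := Ω) T lam Cf
  refine density (E := Ω) _ hirr (Ppoly T lam) hP0 t₀ ?_ ?_
  · rw [hx]
    by_contra hcon
    push Not at hcon
    have h1 := hT.grad (r • Cf.x) (comb (fun j i => algebraMap K Ω (lam j i)) Cf.sy)
    have h2 : ∑ i, aeval (r • Cf.x) (pderiv i F) * (comb (fun j i => algebraMap K Ω (lam j i))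
        Cf.sy) i = 0 := by
      refine Finset.sum_eq_zero fun i _ => ?_
      rw [hcon i, zero_mul]
    rw [h2, Phi_smul1, Phi_smul2, Phi_smul3, Phi_smul4] at h1
    have h3 : Phi T Cf.x Cf.x Cf.x Cf.x (comb (fun j i => algebraMap K Ω (lam j i)) Cf.sy) ≠ 0 := by
      intro h0
      apply Cf.n3
      rw [Phi_s12, Phi_s23, Phi_s34, Phi_s45]; exact h0
    have h5 : (5 : Ω) ≠ 0 := by norm_num
    have := mul_ne_zero h5 (mul_ne_zero hr (mul_ne_zero hr (mul_ne_zero hr (mul_ne_zero hr h3))))
    exact this h1.symm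
  · intro h hh
    rw [hx] at hh
    apply htan
    have h1 := hT.grad (r • Cf.x) h
    rw [hh, Phi_smul1, Phi_smul2, Phi_smul3, Phi_smul4] at h1
    have h5 : (5 : Ω) ≠ 0 := by norm_num
    by_contra h0
    have := mul_ne_zero h5 (mul_ne_zero hr (mul_ne_zero hr (mul_ne_zero hr (mul_ne_zero hr h0))))
    exact this h1.symm

/-- unirationality over the base field, in `m` variables, and density of points -/
theorem space_final {K : Type u} [Field K] [CharZero K] {σ : Type w} [Fintype σ]
    (F : MvPolynomial σ K) (hF : F.IsHomogeneous 5) (hs : PD.SmoothForm F)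
    (hcard : 3 ≤ Fintype.card σ) (T : Ten K σ) (hT : IsTen F T) (lam : Fin 4 → σ → K)
    (hl : LinearIndependent K lam) (hiso : Iso T lam) :
    (∃ (m : ℕ) (P : σ → MvPolynomial (Fin m) K), aeval P F = 0 ∧
      ∀ G : MvPolynomial σ K, aeval P G = 0 → F ∣ G) ∧
    ∀ G : MvPolynomial σ K, (∀ x : σ → K, eval x F = 0 → eval x G = 0) → F ∣ G := by
  obtain ⟨hP, hdom⟩ := space_param F hF hs hcard T hT lam hl hiso
  refine ⟨?_, ?_⟩
  · let e := Fintype.equivFin ((Fin 3 × Fin 4) ⊕ (Fin 4 × σ))
    have h1 : ∀ Q : MvPolynomial σ K, aeval (fun i => rename e (Ppoly T lam i)) Q =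
        rename e (aeval (Ppoly T lam) Q) := by
      intro Q
      rw [← AlgHom.comp_apply]
      congr 1
      apply MvPolynomial.algHom_ext
      intro i; simp
    refine ⟨_, fun i => rename e (Ppoly T lam i), ?_, ?_⟩
    · rw [h1, hP, map_zero]
    · intro G hG
      apply hdom
      rw [h1] at hG
      exact rename_injective e e.injective (by rw [hG, map_zero])
  · intro G hG
    apply hdom
    apply MvPolynomial.funext
    intro t
    rw [map_zero]
    have h1 : ∀ Q : MvPolynomial σ K, eval t (aeval (Ppoly T lam) Q) =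
        eval (fun i => eval t (Ppoly T lam i)) Q := by
      intro Q
      have : ((aeval t : MvPolynomial _ K →ₐ[K] K).comp (aeval (Ppoly T lam))) =
          aeval (fun i => eval t (Ppoly T lam i)) := by
        apply MvPolynomial.algHom_ext
        intro i; simp [MvPolynomial.aeval_eq_eval]
      have := congrArg (fun f => f Q) this
      simpa [MvPolynomial.aeval_eq_eval] using this
    rw [h1]
    apply hG
    rw [← h1, hP, map_zero]

/-- all smooth quintics in the range of three-spaces -/
theorem potential_final {k : Type u} [Field k] [CharZero k] {σ : Type w} [Fintype σ]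
    (F : MvPolynomial σ k) (hF : F.IsHomogeneous 5) (hs : PD.SmoothForm F)
    (hcard : 18 ≤ Fintype.card σ) :
    ∃ L : IntermediateField k (AlgebraicClosure k), FiniteDimensional k L ∧
      (∃ (m : ℕ) (P : σ → MvPolynomial (Fin m) L),
        aeval P (map (algebraMap k L) F) = 0 ∧
        ∀ G : MvPolynomial σ L, aeval P G = 0 → map (algebraMap k L) F ∣ G) ∧
      ∀ G : MvPolynomial σ L, (∀ x : σ → L, eval x (map (algebraMap k L) F) = 0 → eval x G = 0) →
        map (algebraMap k L) F ∣ G := by
  classical
  obtain ⟨T, hT⟩ := exists_isTen F hF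
  obtain ⟨lam, hli, hiso⟩ := exists_P3_any (E := AlgebraicClosure k) T hcard
  obtain ⟨L, hL, lam', hiso', hlam'⟩ := descend_lam T lam hiso
  have hFL : (map (algebraMap k L) F).IsHomogeneous 5 := hF.map _
  have hsL : PD.SmoothForm (map (algebraMap k L) F) := smooth_map F hs
  have hT' : IsTen (map (algebraMap k L) F) (T.bc L) := by
    unfold IsTen
    conv_lhs => rw [hT]
    simp only [map_sum, map_mul, map_C, map_X]
    rfl
  have hli' : LinearIndependent L lam' := by
    have h1 : LinearIndependent (AlgebraicClosure k)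
        (fun j => algebraMap L (AlgebraicClosure k) ∘ lam' j) := by
      have : (fun j => algebraMap L (AlgebraicClosure k) ∘ lam' j) = lam := hlam'
      rw [this]; exact hli
    exact linearIndependent_algebraMap_comp_iff.mp h1
  have hiso2 : Iso (T.bc L) lam' := hiso'
  refine ⟨L, hL, ?_⟩
  exact space_final (map (algebraMap k L) F) hFL hsL (by omega) (T.bc L) hT' lam' hli' hiso2

end Pool.Agent.Work.PD5
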