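import Mathlib
import Pool.Agent.Work.MP_b62148_ag.Quintic.MainT
import Pool.Agent.Work.MP_b62148_ag.Quintic.PolQ

/-!
Quintic hypersurfaces which contain a three-space along which they are smooth.
-/

namespace Pool.Agent.Work.PD5

open MvPolynomial

universe u w

/-- the partial derivatives have no common zero in the span of the vectors except the origin -/
def Along {k : Type*} [Field k] {σ : Type*} (F : MvPolynomial σ k) {E : Type*} [Field E] [Algebra k E]
    {d : ℕ} (v : Fin d → σ → E) : Prop :=
  ∀ s : Fin d → E, (∀ i, aeval (fun j => ∑ a, s a * v a j) (pderiv i F) = 0) → s = 0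

theorem irreducible_of_along {k : Type*} [Field k] {σ : Type*} (F : MvPolynomial σ k)
    (hF : F.IsHomogeneous 5) {d : ℕ} (hd : 3 ≤ d) (v : Fin d → σ → AlgebraicClosure k)
    (hs : Along F v) : Irreducible F := by
  classical
  have hF0 : F ≠ 0 := by
    rintro rfl
    have := hs (fun _ => 1) (fun i => by simp)
    have h1 := congrFun this ⟨0, by omega⟩
    simp at h1
  have hc0 : coeff 0 F = 0 := hF.coeff_eq_zero (by simp)
  refine ⟨?_, ?_⟩
  · intro hu
    rw [isUnit_iff_totalDegree_of_isReduced, hc0] at hu
    exact not_isUnit_zero hu.1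
  · intro a b hab
    by_cases ha : coeff 0 a = 0
    · by_cases hb : coeff 0 b = 0
      · exfalso
        let Kb := AlgebraicClosure k
        let R : MvPolynomial σ k → MvPolynomial (Fin d) Kb := fun p =>
          aeval (fun j => ∑ t, X t * C (v t j)) p
        let G : Fin 2 → MvPolynomial (Fin d) Kb := ![R a, R b]
        have hval : ∀ (p : MvPolynomial σ k) (x : Fin d → Kb),
            eval x (R p) = aeval (fun j => ∑ t, x t * v t j) p := by
          intro p x
          have h1 : ((MvPolynomial.aeval x : MvPolynomial (Fin d) Kb →ₐ[Kb] Kb).restrictScalars k).comp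
              (aeval (fun j => ∑ t, X t * C (v t j)) : MvPolynomial σ k →ₐ[k] MvPolynomial (Fin d) Kb)
              = aeval (fun j => ∑ t, x t * v t j) := by
            apply MvPolynomial.algHom_ext
            intro i
            simp
          have h2 := DFunLike.congr_fun h1 p
          rw [← h2, ← MvPolynomial.aeval_eq_eval]
          rfl
        have hz : ∀ p : MvPolynomial σ k, coeff 0 p = 0 → eval 0 (R p) = 0 := by
          intro p hp
          rw [hval]
          have : (fun j => ∑ t, (0 : Fin d → Kb) t * v t j) = (0 : σ → Kb) := by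
            funext j; simp
          rw [this, aeval_zero, constantCoeff_eq, hp, map_zero]
        obtain ⟨x, hx0, hx⟩ := PD.exists_common_zero (m := 2) (by omega) G (by
          intro i
          fin_cases i
          · exact hz a ha
          · exact hz b hb)
        have hxa : aeval (fun j => ∑ t, x t * v t j) a = 0 := by
          rw [← hval]; exact hx 0
        have hxb : aeval (fun j => ∑ t, x t * v t j) b = 0 := by
          rw [← hval]; exact hx 1
        exact hx0 (hs x (fun i => by
          rw [hab, pderiv_mul, map_add, map_mul, map_mul, hxa, hxb, zero_mul, mul_zero, add_zero]))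
      · right
        exact isUnit_of_coeff_ne_zero hF hF0 (by rw [hab, mul_comm]) hb
    · left
      exact isUnit_of_coeff_ne_zero hF hF0 hab ha

theorem bpf_of_along {K : Type*} [Field K] [CharZero K] {σ : Type*} [Fintype σ]
    {F : MvPolynomial σ K} {T : Ten K σ} {lam : Fin 4 → σ → K} (hT : IsTen F T)
    (hs : Along F (fun j i => algebraMap K (AlgebraicClosure K) (lam j i))) : Bpf T lam := by
  classical
  intro s h
  apply hs
  intro i
  have h1 := hT.grad (emb lam s) (Pi.single i (1 : AlgebraicClosure K))
  have h2 : Phi T (emb lam s) (emb lam s) (emb lam s) (emb lam s) (Pi.single i 1) = 0 := h _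
  rw [h2, mul_zero, Finset.sum_eq_single i] at h1
  · have h3 : aeval (emb lam s) (pderiv i F) = 0 := by simpa using h1
    exact h3
  · intro j _ hj; rw [Pi.single_eq_of_ne hj, mul_zero]
  · simp

/-- the parametrisation is unirational over the field of definition of the three-space -/
theorem along_param {K : Type u} [Field K] [CharZero K] {σ : Type w} [Fintype σ]
    (F : MvPolynomial σ K) (hirr : Irreducible F)
    (T : Ten K σ) (hT : IsTen F T) (lam : Fin 4 → σ → K)
    (hb : Bpf T lam) (hiso : Iso T lam) :
    aeval (Ppoly T lam) F = 0 ∧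
      ∀ G : MvPolynomial σ K, aeval (Ppoly T lam) G = 0 → F ∣ G := by
  classical
  have hP0 : aeval (Ppoly T lam) F = 0 := by
    rw [hT.aeval_eq]
    have hiso2 : Iso T (fun j i =>
        (C (lam j i) : MvPolynomial ((Fin 3 × Fin 4) ⊕ (Fin 4 × σ)) K)) := by
      intro i j l m n
      have h := hiso i j l m n
      have h2 := map_Phi T (Algebra.ofId K (MvPolynomial ((Fin 3 × Fin 4) ⊕ (Fin 4 × σ)) K))
        (lam i) (lam j) (lam l) (lam m) (lam n)
      rw [h, map_zero] at h2
      exact h2.symm
    exact par_mem T _ hiso2 _ _ _ _ _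
  refine ⟨hP0, ?_⟩
  obtain ⟨Ω, i1, i2, i3, ⟨G⟩⟩ := exists_flag hb
  have i4 : CharZero Ω := charZero_of_injective_algebraMap (algebraMap K Ω).injective
  obtain ⟨c, hc⟩ := lead_of_flag hb G
  obtain ⟨Cf0⟩ := config_at T (fun i => emb lam (c i)) (hiso.emb c) hc
  obtain ⟨Cf⟩ := config_change T lam c Cf0
  obtain ⟨t₀, r, hr, hx, htan⟩ := tangent (L := K) (E := Ω) T lam Cf
  refine density (E := Ω) _ hirr (Ppoly T lam) hP0 t₀ ?_ ?_
  · rw [hx]
    by_contra hcon
    push Not at hcon
    have h1 := hT.grad (r • Cf.x) (comb (fun j i => algebraMap K Ω (lam j i)) Cf.sy)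
    have h2 : ∑ i, aeval (r • Cf.x) (pderiv i F) * (comb (fun j i => algebraMap K Ω (lam j i))
        Cf.sy) i = 0 := by
      refine Finset.sum_eq_zero fun i _ => ?_
      rw [hcon i, zero_mul]
    rw [h2, Phi_smul1, Phi_smul2, Phi_smul3, Phi_smul4] at h1
    have h3 : Phi T Cf.x Cf.x Cf.x Cf.x (comb (fun j i => algebraMap K Ω (lam j i)) Cf.sy) ≠ 0 := by
      intro h0
      apply Cf.n3
      rw [Phi_s12, Phi_s23, Phi_s34, Phi_s45]; exact h0
    have h5 : (5 : Ω) ≠ 0 := by norm_num
    have := mul_ne_zero h5 (mul_ne_zero hr (mul_ne_zero hr (mul_ne_zero hr (mul_ne_zero hr h3))))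
    exact this h1.symm
  · intro h hh
    rw [hx] at hh
    apply htan
    have h1 := hT.grad (r • Cf.x) h
    rw [hh, Phi_smul1, Phi_smul2, Phi_smul3, Phi_smul4] at h1
    have h5 : (5 : Ω) ≠ 0 := by norm_num
    by_contra h0
    have := mul_ne_zero h5 (mul_ne_zero hr (mul_ne_zero hr (mul_ne_zero hr (mul_ne_zero hr h0))))
    exact this h1.symm

/-- unirationality over the base field, in `m` variables, and density of points -/
theorem along_final_ten {K : Type u} [Field K] [CharZero K] {σ : Type w} [Fintype σ]
    (F : MvPolynomial σ K) (hF : F.IsHomogeneous 5) (T : Ten K σ) (hT : IsTen F T)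
    (lam : Fin 4 → σ → K)
    (hs : Along F (fun j i => algebraMap K (AlgebraicClosure K) (lam j i))) (hiso : Iso T lam) :
    (∃ (m : ℕ) (P : σ → MvPolynomial (Fin m) K), aeval P F = 0 ∧
      ∀ G : MvPolynomial σ K, aeval P G = 0 → F ∣ G) ∧
    ∀ G : MvPolynomial σ K, (∀ x : σ → K, eval x F = 0 → eval x G = 0) → F ∣ G := by
  obtain ⟨hP, hdom⟩ := along_param F (irreducible_of_along F hF (by norm_num) _ hs) T hT lam
    (bpf_of_along hT hs) hiso
  refine ⟨?_, ?_⟩
  · let e := Fintype.equivFin ((Fin 3 × Fin 4) ⊕ (Fin 4 × σ))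
    have h1 : ∀ Q : MvPolynomial σ K, aeval (fun i => rename e (Ppoly T lam i)) Q =
        rename e (aeval (Ppoly T lam) Q) := by
      intro Q
      rw [← AlgHom.comp_apply]
      congr 1
      apply MvPolynomial.algHom_ext
      intro i; simp
    refine ⟨_, fun i => rename e (Ppoly T lam i), ?_, ?_⟩
    · rw [h1, hP, map_zero]
    · intro G hG
      apply hdom
      rw [h1] at hG
      exact rename_injective e e.injective (by rw [hG, map_zero])
  · intro G hG
    apply hdom
    apply MvPolynomial.funext
    intro t
    rw [map_zero]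
    have h1 : ∀ Q : MvPolynomial σ K, eval t (aeval (Ppoly T lam) Q) =
        eval (fun i => eval t (Ppoly T lam i)) Q := by
      intro Q
      have : ((aeval t : MvPolynomial _ K →ₐ[K] K).comp (aeval (Ppoly T lam))) =
          aeval (fun i => eval t (Ppoly T lam i)) := by
        apply MvPolynomial.algHom_ext
        intro i; simp [MvPolynomial.aeval_eq_eval]
      have := congrArg (fun f => f Q) this
      simpa [MvPolynomial.aeval_eq_eval] using this
    rw [h1]
    apply hG
    rw [← h1, hP, map_zero]

/-- a quintic hypersurface containing a three-space over the base field, smooth along it -/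
theorem along_result {K : Type u} [Field K] [CharZero K] {σ : Type w} [Fintype σ]
    (F : MvPolynomial σ K) (hF : F.IsHomogeneous 5) (lam : Fin 4 → σ → K)
    (h0 : ∀ s : Fin 4 → K, eval (fun i => ∑ j, s j * lam j i) F = 0)
    (hs : Along F (fun j i => algebraMap K (AlgebraicClosure K) (lam j i))) :
    (∃ (m : ℕ) (P : σ → MvPolynomial (Fin m) K), aeval P F = 0 ∧
      ∀ G : MvPolynomial σ K, aeval P G = 0 → F ∣ G) ∧
    ∀ G : MvPolynomial σ K, (∀ x : σ → K, eval x F = 0 → eval x G = 0) → F ∣ G := by
  obtain ⟨T, hT⟩ := exists_isTen F hF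
  refine along_final_ten F hF T hT lam hs ?_
  apply iso_of_vanish
  intro s
  rw [← hT.aeval_eq, aeval_eq_eval]
  exact h0 s

/-- a three-space in a linear section of dimension 17 -/
theorem exists_P3_form {k : Type*} [Field k] {σ : Type*} [CharZero k]
    (F : MvPolynomial σ k) (hF : F.IsHomogeneous 5) (v : Fin 18 → σ → AlgebraicClosure k) :
    ∃ mu : Fin 4 → Fin 18 → AlgebraicClosure k, LinearIndependent (AlgebraicClosure k) mu ∧
      ∀ s : Fin 4 → AlgebraicClosure k,
        aeval (comb (fun j i => ∑ a, mu j a * v a i) s) F = 0 := by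
  classical
  let F' : MvPolynomial (Fin 18) (AlgebraicClosure k) := aeval (fun j => ∑ t, X t * C (v t j)) F
  have hF' : F'.IsHomogeneous 5 := by
    have h1 := hF.aeval (R := k) (S := (AlgebraicClosure k)) (τ := Fin 18)
      (fun j => ∑ t, X t * C (v t j)) (n := 1) ?_
    · simpa using h1
    · intro j
      refine IsHomogeneous.sum _ _ _ fun t _ => ?_
      exact (isHomogeneous_X _ t).mul (isHomogeneous_C _ _)
  have hval : ∀ x : Fin 18 → (AlgebraicClosure k),
      eval x F' = aeval (fun j => ∑ t, x t * v t j) F := by
    intro x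
    have h1 : ((MvPolynomial.aeval x : MvPolynomial (Fin 18) (AlgebraicClosure k)
        →ₐ[(AlgebraicClosure k)] (AlgebraicClosure k)).restrictScalars k).comp
        (aeval (fun j => ∑ t, X t * C (v t j)) :
          MvPolynomial σ k →ₐ[k] MvPolynomial (Fin 18) (AlgebraicClosure k))
        = aeval (fun j => ∑ t, x t * v t j) := by
      apply MvPolynomial.algHom_ext
      intro i
      simp
    have h2 := DFunLike.congr_fun h1 F
    rw [← h2, ← MvPolynomial.aeval_eq_eval]
    rfl
  obtain ⟨T', hT'⟩ := exists_isTen F' hF'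
  obtain ⟨mu, hmu, hiso⟩ := exists_P3_any (E := (AlgebraicClosure k)) T' (by simp)
  refine ⟨mu, hmu, ?_⟩
  intro s
  have h1 := hiso.emb (Ω := (AlgebraicClosure k)) (fun _ => s) 0 0 0 0 0
  rw [← hT'.aeval_eq, aeval_eq_eval] at h1
  have h2 := hval (emb mu s)
  have h3 : (fun j => ∑ t, emb mu s t * v t j) = comb (fun j i => ∑ a, mu j a * v a i) s := by
    funext j
    simp only [emb_apply, comb, Algebra.algebraMap_self, RingHom.id_apply]
    simp only [Finset.sum_mul, Finset.mul_sum]
    rw [Finset.sum_comm]
    refine Finset.sum_congr rfl fun a _ => Finset.sum_congr rfl fun b _ => by ring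
  rw [h3] at h2
  rw [← h2]
  exact h1

/-- a three-space in a linear section of dimension 17, tensor form -/
theorem exists_P3_in {k : Type*} [Field k] {σ : Type*} [Fintype σ] (T : Ten k σ)
    [CharZero k] (F : MvPolynomial σ k) (hF : F.IsHomogeneous 5) (hT : IsTen F T)
    (v : Fin 18 → σ → AlgebraicClosure k) :
    ∃ mu : Fin 4 → Fin 18 → AlgebraicClosure k, LinearIndependent (AlgebraicClosure k) mu ∧
      Iso T (fun j i => ∑ a, mu j a * v a i) := by
  obtain ⟨mu, hmu, key⟩ := exists_P3_form F hF v
  refine ⟨mu, hmu, ?_⟩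
  apply iso_of_vanish (E := (AlgebraicClosure k))
  intro s
  rw [← hT.aeval_eq]
  exact key s

/-- a quintic hypersurface containing a three-space over the base field, smooth along it -/
theorem along_final {K : Type u} [Field K] [CharZero K] {σ : Type w} [Fintype σ]
    (F : MvPolynomial σ K) (hF : F.IsHomogeneous 5) (e : Fin 4 → σ → K)
    (_hl : LinearIndependent K e)
    (hiso : ∀ s : Fin 4 → K, aeval (fun l => ∑ j, s j * e j l) F = 0)
    (hsm : ∀ s : Fin 4 → AlgebraicClosure K, s ≠ 0 → ∃ l,
      aeval (fun i => ∑ j, s j * algebraMap K (AlgebraicClosure K) (e j i)) (pderiv l F) ≠ 0) :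
    (∃ (m : ℕ) (P : σ → MvPolynomial (Fin m) K), aeval P F = 0 ∧
      ∀ G : MvPolynomial σ K, aeval P G = 0 → F ∣ G) ∧
    ∀ G : MvPolynomial σ K, (∀ x : σ → K, eval x F = 0 → eval x G = 0) → F ∣ G := by
  refine along_result F hF e (fun s => ?_) ?_
  · rw [← aeval_eq_eval]
    exact hiso s
  · intro s h
    by_contra h0
    obtain ⟨l, hl⟩ := hsm s h0
    exact hl (h l)

/-- a three-space of a quintic hypersurface inside a given linear space of projective dimension at
least 17 -/
theorem exists_along {k : Type*} [Field k] [CharZero k] {σ : Type*} [Fintype σ]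
    (F : MvPolynomial σ k) (hF : F.IsHomogeneous 5)
    (V : Submodule (AlgebraicClosure k) (σ → AlgebraicClosure k))
    (hV : 18 ≤ Module.finrank (AlgebraicClosure k) V) :
    ∃ e : Fin 4 → σ → AlgebraicClosure k, LinearIndependent (AlgebraicClosure k) e ∧
      (∀ j, e j ∈ V) ∧
      ∀ s : Fin 4 → AlgebraicClosure k, aeval (fun l => ∑ j, s j * e j l) F = 0 := by
  classical
  let b := Module.finBasis (AlgebraicClosure k) V
  let v : Fin 18 → σ → AlgebraicClosure k := fun a => (b (Fin.castLE hV a) : σ → AlgebraicClosure k)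
  have hv : LinearIndependent (AlgebraicClosure k) v := by
    have h1 : LinearIndependent (AlgebraicClosure k)
        (fun i => (b i : σ → AlgebraicClosure k)) :=
      b.linearIndependent.map' V.subtype (Submodule.ker_subtype V)
    exact h1.comp _ (Fin.castLE_injective hV)
  obtain ⟨mu, hmu, key⟩ := exists_P3_form F hF v
  refine ⟨fun j i => ∑ a, mu j a * v a i, ?_, ?_, fun s => key s⟩
  · rw [Fintype.linearIndependent_iff] at hmu hv ⊢
    intro g hg
    apply hmu g
    funext a
    have h1 := hv (fun a => ∑ j, g j * mu j a) (by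
      funext i
      have h2 := congrFun hg i
      simp only [Finset.sum_apply, Pi.smul_apply, smul_eq_mul, Finset.mul_sum, Pi.zero_apply,
        Finset.sum_mul] at h2 ⊢
      rw [Finset.sum_comm, ← h2]
      refine Finset.sum_congr rfl fun a _ => Finset.sum_congr rfl fun b _ => by ring) a
    simpa [Finset.sum_apply] using h1
  · intro j
    have h1 : (fun i => ∑ a, mu j a * v a i) = ∑ a, mu j a • v a := by
      funext i; simp [Finset.sum_apply]
    show (fun i => ∑ a, mu j a * v a i) ∈ V
    rw [h1]
    exact Submodule.sum_mem _ fun a _ => Submodule.smul_mem _ _ (b (Fin.castLE hV a)).2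

/-- potential unirationality and density when the singular locus has codimension at least 18 -/
theorem codim_result {k : Type u} [Field k] [CharZero k] {σ : Type w} [Fintype σ]
    (F : MvPolynomial σ k) (hF : F.IsHomogeneous 5) (v : Fin 18 → σ → AlgebraicClosure k)
    (hv : Along F v) :
    ∃ L : IntermediateField k (AlgebraicClosure k), FiniteDimensional k L ∧
      (∃ (m : ℕ) (P : σ → MvPolynomial (Fin m) L),
        aeval P (map (algebraMap k L) F) = 0 ∧
        ∀ G : MvPolynomial σ L, aeval P G = 0 → map (algebraMap k L) F ∣ G) ∧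
      ∀ G : MvPolynomial σ L, (∀ x : σ → L, eval x (map (algebraMap k L) F) = 0 → eval x G = 0) →
        map (algebraMap k L) F ∣ G := by
  classical
  obtain ⟨T, hT⟩ := exists_isTen F hF
  obtain ⟨mu, hmu, hiso⟩ := exists_P3_in T F hF hT v
  obtain ⟨L, hL, lam', hiso', hlam'⟩ := descend_lam T _ hiso
  have hFL : (map (algebraMap k L) F).IsHomogeneous 5 := hF.map _
  have hT' : IsTen (map (algebraMap k L) F) (T.bc L) := by
    unfold IsTen
    conv_lhs => rw [hT]
    simp only [map_sum, map_mul, map_C, map_X]
    rfl
  have hiso2 : Iso (T.bc L) lam' := hiso'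
  have hs : Along (map (algebraMap k L) F)
      (fun j i => algebraMap L (AlgebraicClosure L) (lam' j i)) := by
    intro s hs
    let φ : AlgebraicClosure L →ₐ[L] AlgebraicClosure k := IsAlgClosed.lift
    have h1 : ∀ i, aeval (fun j => ∑ a, φ (s a) * algebraMap L (AlgebraicClosure k) (lam' a j))
        (pderiv i F) = 0 := by
      intro i
      have h2 := congrArg φ (hs i)
      rw [map_zero, pderiv_map, aeval_map_algebraMap] at h2
      have h3 : φ (aeval (fun j => ∑ a, s a * algebraMap L (AlgebraicClosure L) (lam' a j))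
          (pderiv i F)) = aeval (fun j => φ (∑ a, s a * algebraMap L (AlgebraicClosure L)
            (lam' a j))) (pderiv i F) := by
        have h4 : ((φ.restrictScalars k).comp
            (aeval (fun j => ∑ a, s a * algebraMap L (AlgebraicClosure L) (lam' a j)) :
              MvPolynomial σ k →ₐ[k] AlgebraicClosure L)) =
            aeval (fun j => φ (∑ a, s a * algebraMap L (AlgebraicClosure L) (lam' a j))) := by
          apply MvPolynomial.algHom_ext
          intro i
          simp
        exact congrArg (fun f => f (pderiv i F)) h4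
      rw [h3] at h2
      simpa [map_sum, map_mul] using h2
    have h5 : (fun a => ∑ j, φ (s j) * mu j a) = 0 := by
      apply hv
      intro i
      rw [← h1 i]
      congr 1
      congr 1
      funext j
      have h6 : ∀ a, algebraMap L (AlgebraicClosure k) (lam' a j) = ∑ b, mu a b * v b j := by
        intro a
        exact congrFun (congrFun hlam' a) j
      simp only [h6, Finset.sum_mul, Finset.mul_sum]
      rw [Finset.sum_comm]
      refine Finset.sum_congr rfl fun a _ => Finset.sum_congr rfl fun b _ => by ring
    rw [Fintype.linearIndependent_iff] at hmu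
    have h7 := hmu (fun j => φ (s j)) (by
      funext a
      have := congrFun h5 a
      simpa using this)
    funext j
    have h8 := h7 j
    exact (map_eq_zero_iff φ φ.toRingHom.injective).mp h8
  exact ⟨L, hL, along_final_ten (map (algebraMap k L) F) hFL (T.bc L) hT' lam' hs hiso2⟩

end Pool.Agent.Work.PD5
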