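import Mathlib
import Pool.Agent.Work.MP_b62148_ag.Quintic.Defs

/-!
Leading data in a flag field (module A7).
-/

namespace Pool.Agent.Work.PD5

namespace A7

section Psi

variable {K : Type*} [Field K] {σ : Type*} [Fintype σ] (T : Ten K σ) (lam : Fin 4 → σ → K)
variable {R : Type*} [CommRing R] [Algebra K R]

/-- embedding of the three-space -/
noncomputable def emb (u : Fin 4 → R) : σ → R := fun i => ∑ j, u j * algebraMap K R (lam j i)

theorem emb_add (u v : Fin 4 → R) : emb lam (u + v) = emb lam u + emb lam v := by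
  funext i; simp [emb, add_mul, Finset.sum_add_distrib]

theorem emb_smul (r : R) (v : Fin 4 → R) : emb lam (r • v) = r • emb lam v := by
  funext i; simp [emb, mul_assoc, Finset.mul_sum]

/-- the form -/
noncomputable def Psi (u₁ u₂ u₃ u₄ : Fin 4 → R) (w : σ → R) : R :=
  Phi T (emb lam u₁) (emb lam u₂) (emb lam u₃) (emb lam u₄) w

theorem Psi_s12 (u₁ u₂ u₃ u₄ : Fin 4 → R) (w : σ → R) :
    Psi T lam u₁ u₂ u₃ u₄ w = Psi T lam u₂ u₁ u₃ u₄ w := Phi_s12 T _ _ _ _ _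

theorem Psi_s23 (u₁ u₂ u₃ u₄ : Fin 4 → R) (w : σ → R) :
    Psi T lam u₁ u₂ u₃ u₄ w = Psi T lam u₁ u₃ u₂ u₄ w := Phi_s23 T _ _ _ _ _

theorem Psi_s34 (u₁ u₂ u₃ u₄ : Fin 4 → R) (w : σ → R) :
    Psi T lam u₁ u₂ u₃ u₄ w = Psi T lam u₁ u₂ u₄ u₃ w := Phi_s34 T _ _ _ _ _

theorem Psi_add4 (u v u₁ u₂ u₃ : Fin 4 → R) (w : σ → R) :
    Psi T lam u₁ u₂ u₃ (u + v) w = Psi T lam u₁ u₂ u₃ u w + Psi T lam u₁ u₂ u₃ v w := by
  unfold Psi; rw [emb_add, Phi_add4]

theorem Psi_smul4 (r : R) (v u₁ u₂ u₃ : Fin 4 → R) (w : σ → R) :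
    Psi T lam u₁ u₂ u₃ (r • v) w = r * Psi T lam u₁ u₂ u₃ v w := by
  unfold Psi; rw [emb_smul, Phi_smul4]

theorem Psi_add3 (u v u₁ u₂ u₃ : Fin 4 → R) (w : σ → R) :
    Psi T lam u₁ u₂ (u + v) u₃ w = Psi T lam u₁ u₂ u u₃ w + Psi T lam u₁ u₂ v u₃ w := by
  unfold Psi; rw [emb_add, Phi_add3]

theorem Psi_smul3 (r : R) (v u₁ u₂ u₃ : Fin 4 → R) (w : σ → R) :
    Psi T lam u₁ u₂ (r • v) u₃ w = r * Psi T lam u₁ u₂ v u₃ w := by
  unfold Psi; rw [emb_smul, Phi_smul3]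

theorem Psi_add2 (u v u₁ u₂ u₃ : Fin 4 → R) (w : σ → R) :
    Psi T lam u₁ (u + v) u₂ u₃ w = Psi T lam u₁ u u₂ u₃ w + Psi T lam u₁ v u₂ u₃ w := by
  unfold Psi; rw [emb_add, Phi_add2]

theorem Psi_smul2 (r : R) (v u₁ u₂ u₃ : Fin 4 → R) (w : σ → R) :
    Psi T lam u₁ (r • v) u₂ u₃ w = r * Psi T lam u₁ v u₂ u₃ w := by
  unfold Psi; rw [emb_smul, Phi_smul2]

theorem Psi_add1 (u v u₁ u₂ u₃ : Fin 4 → R) (w : σ → R) :
    Psi T lam (u + v) u₁ u₂ u₃ w = Psi T lam u u₁ u₂ u₃ w + Psi T lam v u₁ u₂ u₃ w := by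
  unfold Psi; rw [emb_add, Phi_add1]

theorem Psi_smul1 (r : R) (v u₁ u₂ u₃ : Fin 4 → R) (w : σ → R) :
    Psi T lam (r • v) u₁ u₂ u₃ w = r * Psi T lam v u₁ u₂ u₃ w := by
  unfold Psi; rw [emb_smul, Phi_smul1]

theorem Psi_add5 (u₁ u₂ u₃ u₄ : Fin 4 → R) (v w : σ → R) :
    Psi T lam u₁ u₂ u₃ u₄ (v + w) = Psi T lam u₁ u₂ u₃ u₄ v + Psi T lam u₁ u₂ u₃ u₄ w := by
  unfold Psi; rw [Phi_add5]

theorem Psi_smul5 (r : R) (u₁ u₂ u₃ u₄ : Fin 4 → R) (w : σ → R) :
    Psi T lam u₁ u₂ u₃ u₄ (r • w) = r * Psi T lam u₁ u₂ u₃ u₄ w := by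
  unfold Psi; rw [Phi_smul5]

theorem Psi_zero5 (u₁ u₂ u₃ u₄ : Fin 4 → R) :
    Psi T lam u₁ u₂ u₃ u₄ (0 : σ → R) = 0 := by
  have := Psi_smul5 T lam (0 : R) u₁ u₂ u₃ u₄ 0
  simpa using this

end Psi

section Der

variable {K : Type*} [Field K] {σ : Type*} [Fintype σ] (T : Ten K σ) (lam : Fin 4 → σ → K)
variable {R : Type*} [CommRing R] [Algebra K R]

theorem der_Phi (D : Derivation K R R) (v₁ v₂ v₃ v₄ v₅ : σ → R) :
    D (Phi T v₁ v₂ v₃ v₄ v₅) =
      Phi T (fun i => D (v₁ i)) v₂ v₃ v₄ v₅ + Phi T v₁ (fun i => D (v₂ i)) v₃ v₄ v₅ +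
      Phi T v₁ v₂ (fun i => D (v₃ i)) v₄ v₅ + Phi T v₁ v₂ v₃ (fun i => D (v₄ i)) v₅ +
      Phi T v₁ v₂ v₃ v₄ (fun i => D (v₅ i)) := by
  unfold Phi
  simp only [map_sum, ← Finset.sum_add_distrib]
  refine Finset.sum_congr rfl fun i _ => Finset.sum_congr rfl fun j _ =>
    Finset.sum_congr rfl fun l _ => Finset.sum_congr rfl fun m _ => Finset.sum_congr rfl fun n _ => ?_
  simp only [Derivation.leibniz, Derivation.map_algebraMap, smul_eq_mul]
  ring

theorem der_emb (D : Derivation K R R) (u : Fin 4 → R) :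
    (fun i => D (emb lam u i)) = emb lam (fun j => D (u j)) := by
  funext i
  unfold emb
  rw [map_sum]
  refine Finset.sum_congr rfl fun j _ => ?_
  rw [Derivation.leibniz, Derivation.map_algebraMap]
  simp [mul_comm]

theorem der_Psi (D : Derivation K R R) (u₁ u₂ u₃ u₄ : Fin 4 → R) (w : σ → R) :
    D (Psi T lam u₁ u₂ u₃ u₄ w) =
      Psi T lam (fun j => D (u₁ j)) u₂ u₃ u₄ w + Psi T lam u₁ (fun j => D (u₂ j)) u₃ u₄ w +
      Psi T lam u₁ u₂ (fun j => D (u₃ j)) u₄ w + Psi T lam u₁ u₂ u₃ (fun j => D (u₄ j)) w +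
      Psi T lam u₁ u₂ u₃ u₄ (fun i => D (w i)) := by
  unfold Psi
  rw [der_Phi, der_emb, der_emb, der_emb, der_emb]

end Der

section Main

variable {K : Type*} [Field K] {σ : Type*} [Fintype σ] {T : Ten K σ} {lam : Fin 4 → σ → K}
variable {Ω : Type*} [Field Ω] [Algebra K Ω]

theorem exists_comb4 {v : Fin 4 → (Fin 4 → Ω)} (h : LinearIndependent Ω v) (c : Fin 4 → Ω) :
    ∃ α : Fin 4 → Ω, c = α 0 • v 0 + α 1 • v 1 + α 2 • v 2 + α 3 • v 3 := by
  have h1 : Submodule.span Ω (Set.range v) = ⊤ := h.span_eq_top_of_card_eq_finrank (by simp)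
  have h2 : c ∈ Submodule.span Ω (Set.range v) := by rw [h1]; trivial
  obtain ⟨α, hα⟩ := (Submodule.mem_span_range_iff_exists_fun Ω).mp h2
  refine ⟨α, ?_⟩
  rw [← hα, Fin.sum_univ_four]

theorem leading_A7 [IsAlgClosed Ω] [CharZero Ω] (y m : Fin 4 → Ω) (t : σ → Ω)
    (hBPF : ∀ s : Fin 4 → Ω, (∀ w : σ → Ω, Psi T lam s s s s w = 0) → s = 0)
    (R1 : Psi T lam y y y y t = 0) (R2 : Psi T lam y y y m t = 0) (R3 : Psi T lam y y m m t = 0)
    (DL : ∀ (dy dm : Fin 4 → Ω) (dt : σ → Ω),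
      4 * Psi T lam y y y dy t + Psi T lam y y y y dt = 0 →
      3 * Psi T lam y y dy m t + Psi T lam y y y dm t + Psi T lam y y y m dt = 0 →
      2 * Psi T lam y dy m m t + 2 * Psi T lam y y m dm t + Psi T lam y y m m dt = 0 →
      ∃ D : Derivation K Ω Ω, (∀ i, D (y i) = dy i) ∧ (∀ i, D (m i) = dm i) ∧
        ∀ i, D (t i) = dt i)
    (hl : ∃ u, Psi T lam y y y u t ≠ 0)
    (hA6 : ¬ ∃ rho : Ω, ∀ u, Psi T lam y y m u t = rho * Psi T lam y y y u t) :
    ∃ b a : Fin 4 → Ω, Psi T lam y y y b t = 0 ∧ Psi T lam y y b b t = 0 ∧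
      Psi T lam y y b m t ≠ 0 ∧ Psi T lam y b b b t ≠ 0 ∧ Psi T lam y y y a t ≠ 0 := by
  obtain ⟨a0, ha0⟩ := hl
  obtain ⟨u0, hu0⟩ : ∃ u, Psi T lam y y m u t ≠
      (Psi T lam y y m a0 t / Psi T lam y y y a0 t) * Psi T lam y y y u t := by
    by_contra h
    push Not at h
    exact hA6 ⟨_, h⟩
  -- the vector n
  obtain ⟨n, hn1, hn2⟩ : ∃ n : Fin 4 → Ω, Psi T lam y y y n t = 0 ∧ Psi T lam y y m n t = 1 := by
    set r : Ω := Psi T lam y y m u0 t -
      (Psi T lam y y m a0 t / Psi T lam y y y a0 t) * Psi T lam y y y u0 t with hr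
    have hr0 : r ≠ 0 := sub_ne_zero.mpr hu0
    refine ⟨r⁻¹ • (u0 + (-(Psi T lam y y y u0 t / Psi T lam y y y a0 t)) • a0), ?_, ?_⟩
    · rw [Psi_smul4, Psi_add4, Psi_smul4]
      field_simp
      ring
    · rw [Psi_smul4, Psi_add4, Psi_smul4]
      have : Psi T lam y y m u0 t +
          -(Psi T lam y y y u0 t / Psi T lam y y y a0 t) * Psi T lam y y m a0 t = r := by
        rw [hr]; ring
      rw [this, inv_mul_cancel₀ hr0]
  obtain ⟨a, ha⟩ : ∃ a : Fin 4 → Ω, Psi T lam y y y a t = 1 :=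
    ⟨(Psi T lam y y y a0 t)⁻¹ • a0, by rw [Psi_smul4, inv_mul_cancel₀ ha0]⟩
  have hsurj : ∀ r₁ r₂ : Ω, ∃ u : Fin 4 → Ω, Psi T lam y y y u t = r₁ ∧ Psi T lam y y m u t = r₂ := by
    intro r₁ r₂
    refine ⟨r₁ • a + (r₂ - r₁ * Psi T lam y y m a t) • n, ?_, ?_⟩
    · rw [Psi_add4, Psi_smul4, Psi_smul4, ha, hn1]; ring
    · rw [Psi_add4, Psi_smul4, Psi_smul4, hn2]; ring
  have hy : y ≠ 0 := by
    rintro rfl
    have : Psi T lam (0 : Fin 4 → Ω) 0 0 a t = 0 := by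
      have := Psi_smul1 T lam (0 : Ω) (0 : Fin 4 → Ω) 0 0 a t
      simpa using this
    rw [this] at ha
    exact one_ne_zero ha.symm
  -- the vector b
  obtain ⟨b, hb1, hb2, hb3⟩ : ∃ b : Fin 4 → Ω, Psi T lam y y y b t = 0 ∧
      Psi T lam y y b b t = 0 ∧ Psi T lam y y b m t = 1 := by
    have hnm : Psi T lam y y n m t = 1 := by rw [Psi_s34]; exact hn2
    refine ⟨n + (-(Psi T lam y y n n t / 2)) • m, ?_, ?_, ?_⟩
    · rw [Psi_add4, Psi_smul4, hn1, R2]; ring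
    · rw [Psi_add4, Psi_smul4, Psi_add3, Psi_add3, Psi_smul3, Psi_smul3, hn2, hnm, R3]; ring
    · rw [Psi_add3, Psi_smul3, hnm, R3]; ring
  have hmb : Psi T lam y y m b t = 1 := by rw [Psi_s34]; exact hb3
  have hindep : ∀ a' : Fin 4 → Ω, Psi T lam y y y a' t ≠ 0 →
      LinearIndependent Ω ![y, b, m, a'] := by
    intro a' ha'
    rw [Fintype.linearIndependent_iff]
    intro g hg
    rw [Fin.sum_univ_four] at hg
    have hg' : g 0 • y + g 1 • b + g 2 • m + g 3 • a' = 0 := hg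
    have z4 : ∀ u₁ u₂ u₃ : Fin 4 → Ω, Psi T lam u₁ u₂ u₃ (0 : Fin 4 → Ω) t = 0 := by
      intro u₁ u₂ u₃
      have := Psi_smul4 T lam (0 : Ω) (0 : Fin 4 → Ω) u₁ u₂ u₃ t
      simpa using this
    have ex : ∀ u₁ u₂ u₃ : Fin 4 → Ω, g 0 * Psi T lam u₁ u₂ u₃ y t + g 1 * Psi T lam u₁ u₂ u₃ b t +
        g 2 * Psi T lam u₁ u₂ u₃ m t + g 3 * Psi T lam u₁ u₂ u₃ a' t = 0 := by
      intro u₁ u₂ u₃
      rw [← z4 u₁ u₂ u₃, ← hg', Psi_add4, Psi_add4, Psi_add4, Psi_smul4, Psi_smul4, Psi_smul4,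
        Psi_smul4]
    have g3 : g 3 = 0 := by
      have := ex y y y
      rw [R1, hb1, R2] at this
      have h : g 3 * Psi T lam y y y a' t = 0 := by linear_combination this
      exact (mul_eq_zero.mp h).resolve_right ha'
    have g2 : g 2 = 0 := by
      have := ex y y b
      rw [Psi_s34 T lam y y b y, hb1, hb2, hb3, g3] at this
      linear_combination this
    have g1 : g 1 = 0 := by
      have := ex y y m
      rw [Psi_s34 T lam y y m y, R2, hmb, R3, g3] at this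
      linear_combination this
    have g0 : g 0 = 0 := by
      rw [g1, g2, g3] at hg'
      simp only [zero_smul, add_zero] at hg'
      exact (smul_eq_zero.mp hg').resolve_right hy
    intro i
    fin_cases i
    · exact g0
    · exact g1
    · exact g2
    · exact g3
  refine ⟨b, a, hb1, hb2, by rw [hb3]; exact one_ne_zero, ?_, by rw [ha]; exact one_ne_zero⟩
  intro hA3
  -- first derivation
  have hbbbb : Psi T lam b b b b t = 0 := by
    obtain ⟨dm, hdm1, hdm2⟩ := hsurj (-3) (-(Psi T lam y b m m t))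
    obtain ⟨D, hD1, hD2, hD3⟩ := DL b dm 0 (by rw [hb1, Psi_zero5]; ring)
      (by rw [hb3, hdm1, Psi_zero5]; ring) (by rw [hdm2, Psi_zero5]; ring)
    have e1 : (fun j => D (y j)) = b := funext hD1
    have e2 : (fun j => D (m j)) = dm := funext hD2
    have e3 : (fun j => D (t j)) = 0 := funext hD3
    set c : Fin 4 → Ω := fun j => D (b j) with hc
    have k1 : Psi T lam y y y c t = 0 := by
      have h := congrArg D hb1
      rw [der_Psi, e1, e3, map_zero, Psi_zero5, ← hc] at h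
      rw [Psi_s12 T lam b y y b, Psi_s23 T lam y b y b, hb2] at h
      linear_combination h
    have k2 : Psi T lam y y b c t = 0 := by
      have h := congrArg D hb2
      rw [der_Psi, e1, e3, map_zero, Psi_zero5, ← hc] at h
      rw [Psi_s12 T lam b y b b, hA3, Psi_s34 T lam y y c b] at h
      linear_combination h / 2
    obtain ⟨α, hα⟩ := exists_comb4 (hindep a (by rw [ha]; exact one_ne_zero)) c
    have hα' : c = α 0 • y + α 1 • b + α 2 • m + α 3 • a := hα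
    have ex : ∀ u₁ u₂ u₃ : Fin 4 → Ω, Psi T lam u₁ u₂ u₃ c t =
        α 0 * Psi T lam u₁ u₂ u₃ y t + α 1 * Psi T lam u₁ u₂ u₃ b t +
        α 2 * Psi T lam u₁ u₂ u₃ m t + α 3 * Psi T lam u₁ u₂ u₃ a t := by
      intro u₁ u₂ u₃
      rw [hα', Psi_add4, Psi_add4, Psi_add4, Psi_smul4, Psi_smul4, Psi_smul4, Psi_smul4]
    have a3 : α 3 = 0 := by
      have := ex y y y
      rw [k1, R1, hb1, R2, ha] at this
      linear_combination -this
    have a2 : α 2 = 0 := by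
      have := ex y y b
      rw [k2, Psi_s34 T lam y y b y, hb1, hb2, hb3, a3] at this
      linear_combination -this
    have k3 : Psi T lam y b b c t = 0 := by
      rw [ex y b b, a2, a3, hA3, Psi_s34 T lam y b b y, Psi_s23 T lam y b y b, hb2]; ring
    have h := congrArg D hA3
    rw [der_Psi, e1, e3, map_zero, Psi_zero5, ← hc] at h
    rw [Psi_s23 T lam y c b b, Psi_s34 T lam y b c b, k3] at h
    linear_combination h
  -- second derivation
  obtain ⟨dm, hdm1, hdm2⟩ := hsurj 0 (-(Psi T lam y m m m t))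
  obtain ⟨D, hD1, hD2, hD3⟩ := DL m dm 0 (by rw [R2, Psi_zero5]; ring)
    (by rw [R3, hdm1, Psi_zero5]; ring) (by rw [hdm2, Psi_zero5]; ring)
  have e1 : (fun j => D (y j)) = m := funext hD1
  have e3 : (fun j => D (t j)) = 0 := funext hD3
  set om : Fin 4 → Ω := fun j => D (b j) with hom
  have k0 : Psi T lam y y y om t = -3 := by
    have h := congrArg D hb1
    rw [der_Psi, e1, e3, map_zero, Psi_zero5, ← hom] at h
    rw [Psi_s12 T lam m y y b, Psi_s23 T lam y m y b, hmb] at h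
    linear_combination h
  have k1 : Psi T lam y y b om t = -(Psi T lam y b b m t) := by
    have h := congrArg D hb2
    rw [der_Psi, e1, e3, map_zero, Psi_zero5, ← hom] at h
    rw [Psi_s12 T lam m y b b, Psi_s34 T lam y y om b, Psi_s23 T lam y m b b,
      Psi_s34 T lam y b m b] at h
    linear_combination h / 2
  have k2 : Psi T lam y b b om t = -(Psi T lam b b b m t) / 3 := by
    have h := congrArg D hA3
    rw [der_Psi, e1, e3, map_zero, Psi_zero5, ← hom] at h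
    rw [Psi_s23 T lam y om b b, Psi_s34 T lam y b om b, Psi_s12 T lam m b b b,
      Psi_s23 T lam b m b b, Psi_s34 T lam b b m b] at h
    linear_combination h / 3
  have k3 : Psi T lam b b b om t = 0 := by
    have h := congrArg D hbbbb
    rw [der_Psi, e3, map_zero, Psi_zero5, ← hom] at h
    rw [Psi_s12 T lam om b b b, Psi_s23 T lam b om b b, Psi_s34 T lam b b om b] at h
    linear_combination h / 4
  -- the root
  obtain ⟨s, hs⟩ : ∃ s : Ω, 3 * s ^ 2 + 3 * Psi T lam y b b m t * s + Psi T lam b b b m t = 0 := by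
    obtain ⟨s, hs⟩ := IsAlgClosed.exists_root
      (Polynomial.C (3 : Ω) * Polynomial.X ^ 2 + Polynomial.C (3 * Psi T lam y b b m t) *
        Polynomial.X + Polynomial.C (Psi T lam b b b m t)) (by
        rw [Polynomial.degree_quadratic (by norm_num : (3 : Ω) ≠ 0)]
        norm_num)
    refine ⟨s, ?_⟩
    simpa [Polynomial.IsRoot] using hs
  -- the singular point
  have hp : ∀ u : Fin 4 → Ω, Psi T lam (s • y + b) (s • y + b) (s • y + b) u t = 0 := by
    have ex : ∀ u : Fin 4 → Ω, Psi T lam (s • y + b) (s • y + b) (s • y + b) u t =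
        s ^ 3 * Psi T lam y y y u t + 3 * s ^ 2 * Psi T lam y y b u t +
        3 * s * Psi T lam y b b u t + Psi T lam b b b u t := by
      intro u
      simp only [Psi_add1, Psi_add2, Psi_add3, Psi_smul1, Psi_smul2, Psi_smul3]
      rw [Psi_s12 T lam b y y u, Psi_s23 T lam y b y u, Psi_s12 T lam b y b u,
        Psi_s23 T lam b b y u, Psi_s12 T lam b y b u]
      ring
    intro u
    have hom0 : Psi T lam y y y om t ≠ 0 := by rw [k0]; norm_num
    obtain ⟨α, hα⟩ := exists_comb4 (hindep om hom0) u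
    have hα' : u = α 0 • y + α 1 • b + α 2 • m + α 3 • om := hα
    rw [hα', Psi_add4, Psi_add4, Psi_add4, Psi_smul4, Psi_smul4, Psi_smul4, Psi_smul4]
    have f0 : Psi T lam (s • y + b) (s • y + b) (s • y + b) y t = 0 := by
      rw [ex, R1, Psi_s34 T lam y y b y, hb1, Psi_s34 T lam y b b y, Psi_s23 T lam y b y b, hb2,
        Psi_s34 T lam b b b y, Psi_s23 T lam b b y b, Psi_s12 T lam b y b b, hA3]
      ring
    have f1 : Psi T lam (s • y + b) (s • y + b) (s • y + b) b t = 0 := by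
      rw [ex, hb1, hb2, hA3, hbbbb]; ring
    have f2 : Psi T lam (s • y + b) (s • y + b) (s • y + b) m t = 0 := by
      rw [ex, R2, hb3]; linear_combination hs
    have f3 : Psi T lam (s • y + b) (s • y + b) (s • y + b) om t = 0 := by
      rw [ex, k0, k1, k2, k3]; linear_combination (-s) * hs
    rw [f0, f1, f2, f3]; ring
  have hzero : s • y + b = 0 := by
    refine hBPF _ fun w => ?_
    obtain ⟨dy, hdy, -⟩ := hsurj (-(Psi T lam y y y y w) / 4) 0
    obtain ⟨dm', hdm1', hdm2'⟩ := hsurj (-(3 * Psi T lam y y dy m t + Psi T lam y y y m w))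
      (-(2 * Psi T lam y dy m m t + Psi T lam y y m m w) / 2)
    obtain ⟨D', hD1', hD2', hD3'⟩ := DL dy dm' w (by rw [hdy]; ring) (by rw [hdm1']; ring)
      (by rw [hdm2']; ring)
    have e3' : (fun j => D' (t j)) = w := funext hD3'
    have h := congrArg D' (hp (s • y + b))
    rw [der_Psi, e3', map_zero] at h
    set q : Fin 4 → Ω := s • y + b with hq
    set dq : Fin 4 → Ω := fun j => D' (q j) with hdq
    rw [Psi_s12 T lam dq q q q, Psi_s23 T lam q dq q q, Psi_s34 T lam q q dq q, hp dq] at h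
    linear_combination h
  have h1 : Psi T lam y y m (s • y + b) t = 1 := by
    rw [Psi_add4, Psi_smul4, Psi_s34 T lam y y m y, R2, hmb]; ring
  have h0 : Psi T lam y y m (s • y + b) t = 0 := by
    rw [hzero]
    have := Psi_smul4 T lam (0 : Ω) (0 : Fin 4 → Ω) y y m t
    simpa using this
  rw [h0] at h1
  exact one_ne_zero h1.symm

end Main

end A7

end Pool.Agent.Work.PD5
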