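import Mathlib
import Pool.Agent.Work.MP_b62148_ag.Quintic.Defs
import Pool.Agent.Work.MP_b62148_ag.Quintic.ParamQ

/-!
A good configuration from a vector `w` satisfying the leading conditions.
-/

namespace Pool.Agent.Work.PD5

variable {k : Type*} [Field k] {σ : Type*} [Fintype σ]

section Expand

variable {R : Type*} [CommRing R] [Algebra k R] (T : Ten k σ)

theorem Phi_pow2 (p q r u v : σ → R) (s t : R) :
    Phi T p q r (s • u + t • v) (s • u + t • v) =
      s ^ 2 * Phi T p q r u u + 2 * s * t * Phi T p q r u v + t ^ 2 * Phi T p q r v v := by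
  simp only [Phi_add4, Phi_add5, Phi_smul4, Phi_smul5]
  rw [Phi_s45 T p q r v u]
  ring

theorem Phi_pow3 (p q u v : σ → R) (s t : R) :
    Phi T p q (s • u + t • v) (s • u + t • v) (s • u + t • v) =
      s ^ 3 * Phi T p q u u u + 3 * s ^ 2 * t * Phi T p q u u v + 3 * s * t ^ 2 * Phi T p q u v v +
        t ^ 3 * Phi T p q v v v := by
  simp only [Phi_add3, Phi_add4, Phi_add5, Phi_smul3, Phi_smul4, Phi_smul5]
  rw [Phi_s45 T p q u v u, Phi_s34 T p q v u u, Phi_s45 T p q u v u, Phi_s34 T p q v u v,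
    Phi_s45 T p q v v u, Phi_s34 T p q v u v]
  ring

theorem Phi_pow4 (p u v : σ → R) (s t : R) :
    Phi T p (s • u + t • v) (s • u + t • v) (s • u + t • v) (s • u + t • v) =
      s ^ 4 * Phi T p u u u u + 4 * s ^ 3 * t * Phi T p u u u v +
        6 * s ^ 2 * t ^ 2 * Phi T p u u v v + 4 * s * t ^ 3 * Phi T p u v v v +
        t ^ 4 * Phi T p v v v v := by
  have h : ∀ w : σ → R, Phi T p w (s • u + t • v) (s • u + t • v) (s • u + t • v) =
      s ^ 3 * Phi T p w u u u + 3 * s ^ 2 * t * Phi T p w u u v + 3 * s * t ^ 2 * Phi T p w u v v +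
        t ^ 3 * Phi T p w v v v := fun w => Phi_pow3 T p w u v s t
  rw [h, Phi_add2, Phi_add2, Phi_add2, Phi_add2, Phi_smul2, Phi_smul2, Phi_smul2, Phi_smul2,
    Phi_smul2, Phi_smul2, Phi_smul2, Phi_smul2]
  have e1 : Phi T p v u u u = Phi T p u u u v := by
    rw [Phi_s23, Phi_s34, Phi_s45]
  have e2 : Phi T p v u u v = Phi T p u u v v := by
    rw [Phi_s23, Phi_s34]
  have e3 : Phi T p v u v v = Phi T p u v v v := by
    rw [Phi_s23]
  rw [e1, e2, e3]
  ring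

end Expand

section W

variable {E : Type*} [Field E] [CharZero E] [Algebra k E] (T : Ten k σ)

omit [Fintype σ] [CharZero E] in
theorem comb_single (lam : Fin 4 → σ → E) (j : Fin 4) : comb lam (Pi.single j 1) = lam j := by
  funext i
  simp [comb, Pi.single_apply]

omit [Fintype σ] [CharZero E] in
theorem comb_three (lam : Fin 4 → σ → E) (p q r : E) :
    comb lam ![0, p, q, r] = p • lam 1 + q • lam 2 + r • lam 3 := by
  funext i
  simp [comb, Fin.sum_univ_four]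

/-- the three by three system -/
theorem solve3 (p F2a F2b F2m F3a F3b F3m r₁ r₂ r₃ : E) (hp : p ≠ 0)
    (hd : F2b * F3m - F2m * F3b ≠ 0) :
    ∃ s₁ s₂ s₃ : E, s₃ * p = r₁ ∧ s₁ * F2b + s₂ * F2m + s₃ * F2a = r₂ ∧
      s₁ * F3b + s₂ * F3m + s₃ * F3a = r₃ := by
  obtain ⟨I, hI⟩ : ∃ I : E, I * (F2b * F3m - F2m * F3b) = 1 := ⟨_, inv_mul_cancel₀ hd⟩
  refine ⟨I * ((r₂ - r₁ / p * F2a) * F3m - (r₃ - r₁ / p * F3a) * F2m),
    I * (F2b * (r₃ - r₁ / p * F3a) - F3b * (r₂ - r₁ / p * F2a)),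
    r₁ / p, ?_, ?_, ?_⟩
  · field_simp
  · linear_combination (r₂ - r₁ / p * F2a) * hI
  · linear_combination (r₃ - r₁ / p * F3a) * hI

theorem config_of_w (lam : Fin 4 → σ → E) (hiso : Iso T lam) (w : σ → E) (D τ : E)
    (zz : Fin 3 → σ → E) (hz : (mat T (lam 0) (lam 2) zz).det ≠ 0) (hτ : τ ≠ 0)
    (h1 : Phi T (lam 0) (lam 0) (lam 0) (lam 0) w = 0)
    (h2 : Phi T (lam 0) (lam 0) (lam 0) (lam 1) w = 0)
    (h3 : Phi T (lam 0) (lam 0) (lam 0) (lam 2) w = 0)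
    (h4 : Phi T (lam 0) (lam 0) (lam 0) w w = 0)
    (h5 : Phi T (lam 0) (lam 0) (lam 1) (lam 1) w = 0)
    (h6 : Phi T (lam 0) (lam 0) (lam 2) (lam 2) w = 0)
    (h7 : 3 * D * Phi T (lam 0) (lam 0) (lam 1) w w + τ * Phi T (lam 0) (lam 0) w w w = 0)
    (n1 : Phi T (lam 0) (lam 0) (lam 0) (lam 3) w ≠ 0)
    (n2 : Phi T (lam 0) (lam 0) (lam 1) (lam 2) w ≠ 0)
    (n3 : Phi T (lam 0) (D • lam 1 + τ • w) (D • lam 1 + τ • w) (D • lam 1 + τ • w)
      (D • lam 1 + τ • w) ≠ 0)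
    (n4 : Phi T (lam 0) (lam 0) (lam 2) (D • lam 1 + τ • w) (D • lam 1 + τ • w) ≠ 0)
    (n5 : Phi T (lam 0) (lam 0) (lam 1) (D • lam 1 + τ • w) (D • lam 1 + τ • w) *
        Phi T (lam 0) (lam 2) (D • lam 1 + τ • w) (D • lam 1 + τ • w) (D • lam 1 + τ • w) -
      Phi T (lam 0) (lam 0) (lam 2) (D • lam 1 + τ • w) (D • lam 1 + τ • w) *
        Phi T (lam 0) (lam 1) (D • lam 1 + τ • w) (D • lam 1 + τ • w) (D • lam 1 + τ • w) ≠ 0) :
    Nonempty (Config T lam) := by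
  set y := lam 0 with hy
  set b := lam 1 with hb
  set m := lam 2 with hm
  set a := lam 3 with ha
  set u := D • b + τ • w with hu
  -- vanishing on `Λ`
  have Lyyyyy : Phi T y y y y y = 0 := hiso 0 0 0 0 0
  have Lyyyyb : Phi T y y y y b = 0 := hiso 0 0 0 0 1
  have Lyyyym : Phi T y y y y m = 0 := hiso 0 0 0 0 2
  have Lyyyya : Phi T y y y y a = 0 := hiso 0 0 0 0 3
  have Lyyybb : Phi T y y y b b = 0 := hiso 0 0 0 1 1
  have Lyyymb : Phi T y y y m b = 0 := hiso 0 0 0 2 1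
  have Lyyyab : Phi T y y y a b = 0 := hiso 0 0 0 3 1
  have Lyybbb : Phi T y y b b b = 0 := hiso 0 0 1 1 1
  have Lyymmb : Phi T y y m m b = 0 := hiso 0 0 2 2 1
  have Lyymbb : Phi T y y m b b = 0 := hiso 0 0 2 1 1
  -- values at `u`
  have u1 : Phi T y y y y u = 0 := by
    rw [hu, Phi_add5, Phi_smul5, Phi_smul5, h1, Lyyyyb]; ring
  have u2 : Phi T y y y b u = 0 := by
    rw [hu, Phi_add5, Phi_smul5, Phi_smul5, h2, Lyyybb]; ring
  have u3 : Phi T y y y m u = 0 := by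
    rw [hu, Phi_add5, Phi_smul5, Phi_smul5, h3, Lyyymb]; ring
  have u4 : Phi T y y y a u = τ * Phi T y y y a w := by
    rw [hu, Phi_add5, Phi_smul5, Phi_smul5, Lyyyab]; ring
  have u5 : Phi T y y y u u = 0 := by
    rw [hu, Phi_pow2, Lyyybb, h2, h4]; ring
  have u6 : Phi T y y m m u = 0 := by
    rw [hu, Phi_add5, Phi_smul5, Phi_smul5, h6, Lyymmb]; ring
  have u7 : Phi T y y u u u = 0 := by
    rw [hu, Phi_pow3, Lyybbb, h5]
    linear_combination τ ^ 2 * h7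
  have u8 : Phi T y y b m u = τ * Phi T y y b m w := by
    rw [hu, Phi_add5, Phi_smul5, Phi_smul5, Phi_s34 T y y b m b, Lyymbb]; ring
  set A := 5 * Phi T y u u u u with hA
  set B := -Phi T u u u u u with hB
  have hA0 : A ≠ 0 := mul_ne_zero (by norm_num) n3
  set x := A • u + B • y with hx
  -- symmetric rearrangements
  have g1 : Phi T y y y y x = 0 := by
    rw [hx, Phi_add5, Phi_smul5, Phi_smul5, u1, Lyyyyy]; ring
  have g2 : Phi T y y y m x = 0 := by
    rw [hx, Phi_add5, Phi_smul5, Phi_smul5, u3, Phi_s45 T y y y m y, Lyyyym]; ring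
  have g2b : Phi T y y y b x = 0 := by
    rw [hx, Phi_add5, Phi_smul5, Phi_smul5, u2, Phi_s45 T y y y b y, Lyyyyb]; ring
  have g2a : Phi T y y y a x = A * (τ * Phi T y y y a w) := by
    rw [hx, Phi_add5, Phi_smul5, Phi_smul5, u4, Phi_s45 T y y y a y, Lyyyya]; ring
  have g3 : Phi T y y y x x = 0 := by
    rw [hx, Phi_pow2, u5, Phi_s45 T y y y u y, u1, Lyyyyy]; ring
  have g4 : Phi T y y m m x = 0 := by
    rw [hx, Phi_add5, Phi_smul5, Phi_smul5, u6, Phi_s45 T y y m m y, Phi_s34 T y y m y m,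
      hiso 0 0 0 2 2]
    ring
  have g5 : Phi T y y x x x = 0 := by
    rw [hx, Phi_pow3, u7, Phi_s45 T y y u u y, Phi_s34 T y y u y u, u5,
      Phi_s34 T y y u y y, Phi_s45 T y y y u y, u1, Lyyyyy]
    ring
  have g6 : Phi T x x x x x = 0 := by
    rw [hx, Phi_line]
    have e1 : Phi T u u u u y = Phi T y u u u u := by
      rw [Phi_s45, Phi_s34, Phi_s23, Phi_s12]
    have e2 : Phi T u u u y y = 0 := by
      rw [Phi_s34, Phi_s23, Phi_s12, Phi_s45, Phi_s34, Phi_s23, u7]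
    have e3 : Phi T u u y y y = 0 := by
      rw [Phi_s23, Phi_s12, Phi_s34, Phi_s23, Phi_s45, Phi_s34, u5]
    have e4 : Phi T u y y y y = 0 := by
      rw [Phi_s12, Phi_s23, Phi_s34, Phi_s45, u1]
    rw [e1, e2, e3, e4, Lyyyyy, hA, hB]
    ring
  have g7 : Phi T y y m x x = A ^ 2 * Phi T y y m u u := by
    rw [hx, Phi_pow2, Phi_s45 T y y m u y, Phi_s34 T y y m y u, u3, Phi_s34 T y y m y y,
      Phi_s45 T y y y m y, Lyyyym]
    ring
  have g8 : Phi T y y b x x = A ^ 2 * Phi T y y b u u := by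
    rw [hx, Phi_pow2, Phi_s45 T y y b u y, Phi_s34 T y y b y u, u2, Phi_s34 T y y b y y,
      Phi_s45 T y y y b y, Lyyyyb]
    ring
  have g9 : Phi T y x x x x = A ^ 4 * Phi T y u u u u := by
    rw [hx, Phi_pow4]
    have e1 : Phi T y u u u y = 0 := by
      rw [Phi_s45, Phi_s34, Phi_s23, u7]
    have e2 : Phi T y u u y y = 0 := by
      rw [Phi_s34, Phi_s23, Phi_s45, Phi_s34, u5]
    have e3 : Phi T y u y y y = 0 := by
      rw [Phi_s23, Phi_s34, Phi_s45, u1]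
    rw [e1, e2, e3, Lyyyyy]
    ring
  have g10 : ∀ v, Phi T y y y v u = 0 → Phi T y y y y v = 0 →
      Phi T y v x x x = A ^ 3 * Phi T y v u u u + 3 * A ^ 2 * B * Phi T y y v u u := by
    intro v hv1 hv2
    rw [hx, Phi_pow3]
    have e1 : Phi T y v u u y = Phi T y y v u u := by
      rw [Phi_s45, Phi_s34, Phi_s23]
    have e2 : Phi T y v u y y = 0 := by
      rw [Phi_s34, Phi_s23, Phi_s45, Phi_s34, hv1]
    have e3 : Phi T y v y y y = 0 := by
      rw [Phi_s23, Phi_s34, Phi_s45, hv2]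
    rw [e1, e2, e3]
    ring
  refine ⟨{ sy := Pi.single 0 1, sm := Pi.single 2 1, sa := Pi.single 3 1, z := zz, x := x, c1 := ?_, c2 := ?_, c3 := ?_, c4 := ?_, c5 := ?_, c6 := g6, n1 := ?_, n2 := ?_, n3 := ?_, n4 := ?_, t1 := ?_, t2 := ?_ }⟩
  all_goals simp only [comb_single, ← hy, ← hm, ← ha]
  · exact g1
  · exact g2
  · exact g3
  · exact g4
  · exact g5
  · rw [g2a]
    exact mul_ne_zero hA0 (mul_ne_zero hτ n1)
  · rw [g7]
    exact mul_ne_zero (pow_ne_zero _ hA0) n4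
  · rw [g9]
    exact mul_ne_zero (pow_ne_zero _ hA0) n3
  · exact hz
  · intro r₁ r₂ r₃
    obtain ⟨s₁, s₂, s₃, e1, e2, e3⟩ := solve3 (A * (τ * Phi T y y y a w)) (Phi T y y a x x)
      (Phi T y y b x x) (Phi T y y m x x) (Phi T y a x x x) (Phi T y b x x x) (Phi T y m x x x)
      r₁ r₂ r₃ (mul_ne_zero hA0 (mul_ne_zero hτ n1)) (by
        rw [g8, g7, g10 b u2 Lyyyyb, g10 m u3 Lyyyym]
        have : A ^ 2 * Phi T y y b u u * (A ^ 3 * Phi T y m u u u +
            3 * A ^ 2 * B * Phi T y y m u u) - A ^ 2 * Phi T y y m u u *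
            (A ^ 3 * Phi T y b u u u + 3 * A ^ 2 * B * Phi T y y b u u) =
            A ^ 5 * (Phi T y y b u u * Phi T y m u u u - Phi T y y m u u * Phi T y b u u u) := by
          ring
        rw [this]
        exact mul_ne_zero (pow_ne_zero _ hA0) n5)
    refine ⟨![0, s₁, s₂, s₃], ?_, ?_, ?_⟩
    · rw [comb_three, ← hb, ← hm, ← ha, Phi_add4, Phi_add4, Phi_smul4, Phi_smul4, Phi_smul4,
        g2b, g2, g2a]
      linear_combination e1
    · rw [comb_three, ← hb, ← hm, ← ha, Phi_add3, Phi_add3, Phi_smul3, Phi_smul3, Phi_smul3]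
      exact e2
    · rw [comb_three, ← hb, ← hm, ← ha, Phi_add2, Phi_add2, Phi_smul2, Phi_smul2, Phi_smul2]
      exact e3
  · intro r₁ r₂
    have k1 : Phi T y y m b x = A * (τ * Phi T y y b m w) := by
      rw [hx, Phi_add5, Phi_smul5, Phi_smul5, Phi_s34 T y y m b u, u8, Phi_s45 T y y m b y,
        Phi_s34 T y y m y b, Lyyymb]
      ring
    have k0 : A * (τ * Phi T y y b m w) ≠ 0 := mul_ne_zero hA0 (mul_ne_zero hτ n2)
    have k2 : A * (τ * Phi T y y y a w) ≠ 0 := mul_ne_zero hA0 (mul_ne_zero hτ n1)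
    refine ⟨![0, (r₂ - r₁ / (A * (τ * Phi T y y y a w)) * Phi T y y m a x) /
      (A * (τ * Phi T y y b m w)), 0, r₁ / (A * (τ * Phi T y y y a w))], ?_, ?_⟩
    · rw [comb_three, ← hb, ← hm, ← ha, Phi_add4, Phi_add4, Phi_smul4, Phi_smul4, Phi_smul4,
        g2b, g2, g2a, div_mul_cancel₀ _ k2]
      ring
    · rw [comb_three, ← hb, ← hm, ← ha, Phi_add4, Phi_add4, Phi_smul4, Phi_smul4, Phi_smul4, k1,
        div_mul_cancel₀ _ k0]
      ring

end W

end Pool.Agent.Work.PD5
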