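import Mathlib
import Pool.Agent.Work.MP_b62148_ag.Quintic.Defs
import Pool.Agent.Work.MP_b62148_ag.HS

/-!
M8: a projective three-space through every point of a quintic hypersurface (greedy bound).
-/

namespace Pool.Agent.Work.PD5

open MvPolynomial

variable {k : Type*} [Field k] {σ : Type*} [Fintype σ]

section Tuple

variable {R : Type*} [CommRing R] [Algebra k R]

/-- the 5-linear form on a tuple -/
noncomputable def PhiT (T : Ten k σ) (t : Fin 5 → σ → R) : R := Phi T (t 0) (t 1) (t 2) (t 3) (t 4)

theorem PhiT_perm (T : Ten k σ) (t : Fin 5 → σ → R) (π : Equiv.Perm (Fin 5)) :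
    PhiT T (t ∘ π) = PhiT T t := by
  have hmem : π ∈ Submonoid.closure
      (Set.range fun i : Fin 4 => Equiv.swap i.castSucc i.succ) := by
    rw [Equiv.Perm.mclosure_swap_castSucc_succ]
    exact Submonoid.mem_top π
  revert t
  induction hmem using Submonoid.closure_induction with
  | mem x hx =>
    obtain ⟨i, rfl⟩ := hx
    intro t
    fin_cases i
    · show Phi T (t 1) (t 0) (t 2) (t 3) (t 4) = Phi T (t 0) (t 1) (t 2) (t 3) (t 4)
      rw [Phi_s12]
    · show Phi T (t 0) (t 2) (t 1) (t 3) (t 4) = Phi T (t 0) (t 1) (t 2) (t 3) (t 4)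
      rw [Phi_s23]
    · show Phi T (t 0) (t 1) (t 3) (t 2) (t 4) = Phi T (t 0) (t 1) (t 2) (t 3) (t 4)
      rw [Phi_s34]
    · show Phi T (t 0) (t 1) (t 2) (t 4) (t 3) = Phi T (t 0) (t 1) (t 2) (t 3) (t 4)
      rw [Phi_s45]
  | one => intro t; rfl
  | mul x y _ _ hx hy =>
    intro t
    have : t ∘ (x * y : Equiv.Perm (Fin 5)) = (t ∘ x) ∘ y := rfl
    rw [this, hy, hx]

theorem PhiT_zero (T : Ten k σ) (t : Fin 5 → σ → R) (h : t 4 = 0) : PhiT T t = 0 := by
  unfold PhiT
  rw [h, ← zero_smul R (0 : σ → R), Phi_smul5, zero_mul]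

theorem map_PhiT (T : Ten k σ) {S : Type*} [CommRing S] [Algebra k S] (g : R →ₐ[k] S)
    (t : Fin 5 → σ → R) : g (PhiT T t) = PhiT T (fun j i => g (t j i)) :=
  map_Phi T g _ _ _ _ _

end Tuple

/-- one step of the greedy construction -/
theorem greedy_step {E : Type*} [Field E] [IsAlgClosed E] [Algebra k E] (T : Ten k σ) (r : ℕ)
    (hcard : Fintype.card {s : Fin 4 → Fin (r + 1) // Monotone s} + r < Fintype.card σ)
    (lam : Fin r → σ → E) (hli : LinearIndependent E lam)
    (hiso : ∀ s : Fin 5 → Fin r, PhiT T (lam ∘ s) = 0) :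
    ∃ w : σ → E, LinearIndependent E (Fin.snoc lam w : Fin (r + 1) → σ → E) ∧
      ∀ s : Fin 5 → Fin (r + 1), PhiT T ((Fin.snoc lam w : Fin (r + 1) → σ → E) ∘ s) = 0 := by
  classical
  obtain ⟨W, hW⟩ := Submodule.exists_isCompl (Submodule.span E (Set.range lam))
  have hr : Module.finrank E (Submodule.span E (Set.range lam)) = r := by
    rw [finrank_span_eq_card hli, Fintype.card_fin]
  have hW' : r + Module.finrank E W = Fintype.card σ := by
    have := Submodule.finrank_add_eq_of_isCompl hW
    rw [hr, Module.finrank_fintype_fun_eq_card] at this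
    exact this
  let b := Module.finBasis E W
  set n := Module.finrank E W with hn
  let I := {s : Fin 4 → Fin (r + 1) // Monotone s}
  -- the universal vector
  let u : Fin (r + 1) → σ → MvPolynomial (Fin n) E :=
    Fin.snoc (fun j i => C (lam j i)) (fun i => ∑ l, X l * C ((b l : σ → E) i))
  let vec : (Fin n → E) → σ → E := fun x i => ∑ l, x l * (b l : σ → E) i
  let full : (Fin 4 → Fin (r + 1)) → Fin 5 → Fin (r + 1) := fun s => Fin.snoc s (Fin.last r)
  let F : I → MvPolynomial (Fin n) E := fun s => PhiT T (u ∘ full s.1)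
  have heval : ∀ (s : I) (x : Fin n → E), eval x (F s) =
      PhiT T ((Fin.snoc lam (vec x) : Fin (r + 1) → σ → E) ∘ full s.1) := by
    intro s x
    have h := map_PhiT T ((aeval x : MvPolynomial (Fin n) E →ₐ[E] E).restrictScalars k)
      (u ∘ full s.1)
    have h2 : eval x (F s) = ((aeval x : MvPolynomial (Fin n) E →ₐ[E] E).restrictScalars k)
        (PhiT T (u ∘ full s.1)) := by
      simp [F, aeval_eq_eval]
    rw [h2, h]
    congr 1
    funext j i
    simp only [Function.comp]
    refine Fin.lastCases ?_ (fun q => ?_) (full s.1 j)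
    · simp only [u, Fin.snoc_last, vec]
      simp [aeval_eq_eval]
    · simp only [u, Fin.snoc_castSucc]
      simp
  let e : I ≃ Fin (Fintype.card I) := Fintype.equivFin I
  obtain ⟨x, hx0, hx⟩ := PD.exists_common_zero (K := E) (n := n) (m := Fintype.card I)
    (by have : Fintype.card I + r < Fintype.card σ := hcard
        omega) (fun i => F (e.symm i)) (by
      intro i
      rw [heval]
      apply PhiT_zero
      have h1 : full (e.symm i).1 4 = Fin.last r := by
        show (Fin.snoc (e.symm i).1 (Fin.last r) : Fin 5 → Fin (r + 1)) (Fin.last 4) = _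
        rw [Fin.snoc_last]
      simp only [Function.comp, h1, Fin.snoc_last, vec]
      funext i
      simp)
  have hx' : ∀ s : I, eval x (F s) = 0 := by
    intro s
    have := hx (e s)
    simpa using this
  have hvecW : vec x ∈ W := by
    have : vec x = ((∑ l, x l • b l : W) : σ → E) := by
      funext i
      simp [vec]
    rw [this]
    exact Submodule.coe_mem _
  have hvec0 : vec x ≠ 0 := by
    intro h0
    apply hx0
    have h1 : (∑ l, x l • b l : W) = 0 := by
      apply Subtype.ext
      have : vec x = ((∑ l, x l • b l : W) : σ → E) := by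
        funext i
        simp [vec]
      rw [← this, h0]
      rfl
    have h2 := Fintype.linearIndependent_iff.mp b.linearIndependent x h1
    funext l
    exact h2 l
  have hnot : vec x ∉ Submodule.span E (Set.range lam) := by
    intro hmem
    apply hvec0
    have := Submodule.disjoint_def.mp hW.disjoint (vec x) hmem hvecW
    exact this
  refine ⟨vec x, linearIndependent_finSnoc.mpr ⟨hli, hnot⟩, ?_⟩
  intro s
  rw [← PhiT_perm T _ (Tuple.sort s)]
  have hmono : Monotone (s ∘ Tuple.sort s) := Tuple.monotone_sort s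
  rw [Function.comp_assoc]
  generalize hs' : s ∘ Tuple.sort s = s' at hmono
  by_cases hlast : s' 4 = Fin.last r
  · let t : I := ⟨fun i => s' i.castSucc, fun i j hij => hmono (by simpa using hij)⟩
    have h := hx' t
    rw [heval] at h
    have hfull : full t.1 = s' := by
      funext j
      refine Fin.lastCases ?_ (fun q => ?_) j
      · simp only [full, Fin.snoc_last]
        exact hlast.symm
      · simp only [full, Fin.snoc_castSucc, t]
    rw [hfull] at h
    exact h
  · have hlt : ∀ i, s' i ≠ Fin.last r := by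
      intro i hi
      apply hlast
      have h4 : s' i ≤ s' 4 := hmono (by omega)
      rw [hi] at h4
      exact le_antisymm (Fin.le_last _) h4
    have hex : ∀ i, ∃ q : Fin r, q.castSucc = s' i := fun i => Fin.exists_castSucc_eq.mpr (hlt i)
    choose s'' hs'' using hex
    have : (Fin.snoc lam (vec x) : Fin (r + 1) → σ → E) ∘ s' = lam ∘ s'' := by
      funext j
      simp only [Function.comp]
      rw [← hs'' j, Fin.snoc_castSucc]
    rw [this]
    exact hiso s''

theorem card_mono1 : Fintype.card {s : Fin 4 → Fin (1 + 1) // Monotone s} = 5 := by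
  decide +kernel

theorem card_mono2 : Fintype.card {s : Fin 4 → Fin (2 + 1) // Monotone s} = 15 := by
  decide +kernel

theorem card_mono3 : Fintype.card {s : Fin 4 → Fin (3 + 1) // Monotone s} = 35 := by
  decide +kernel

/-- a projective three-space through every point of a quintic hypersurface (greedy bound) -/
theorem exists_P3 {E : Type*} [Field E] [IsAlgClosed E] [CharZero E] [Algebra k E] (T : Ten k σ)
    (hcard : 39 ≤ Fintype.card σ) (p : σ → E) (hp0 : p ≠ 0) (hp : Phi T p p p p p = 0) :
    ∃ lam : Fin 4 → σ → E, lam 0 = p ∧ LinearIndependent E lam ∧ Iso T lam := by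
  have h1 : LinearIndependent E (fun _ : Fin 1 => p) := by
    rw [Fintype.linearIndependent_iff]
    intro g hg i
    rw [Fin.sum_univ_one] at hg
    have := smul_eq_zero.mp hg
    rw [Fin.fin_one_eq_zero i]
    exact this.resolve_right hp0
  obtain ⟨w₁, hw₁, hs₁⟩ := greedy_step T 1 (by
    have := card_mono1
    simp only [Fintype.card_subtype] at this ⊢
    omega) (fun _ : Fin 1 => p) h1 (fun _ => hp)
  obtain ⟨w₂, hw₂, hs₂⟩ := greedy_step T 2 (by
    have := card_mono2
    simp only [Fintype.card_subtype] at this ⊢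
    omega) _ hw₁ hs₁
  obtain ⟨w₃, hw₃, hs₃⟩ := greedy_step T 3 (by
    have := card_mono3
    simp only [Fintype.card_subtype] at this ⊢
    omega) _ hw₂ hs₂
  refine ⟨_, ?_, hw₃, ?_⟩
  · rfl
  · intro i j l m n
    exact hs₃ ![i, j, l, m, n]

end Pool.Agent.Work.PD5
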