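import Mathlib
import Pool.Agent.Work.MP_b62148_ag.Quintic.PeelQ
import Pool.Agent.Work.MP_b62148_ag.Quintic.SharpQ

/-!
The sharp existence theorem for three-spaces on quintic hypersurfaces: through every point, over
an algebraically closed field of characteristic zero, as soon as there are 23 coordinates.
-/

namespace Pool.Agent.Work.PD5

open MvPolynomial

variable {k : Type*} [Field k] {σ : Type*} [Fintype σ]

/-- a projective three-space through every point of a quintic hypersurface in at least
twenty-three coordinates, in characteristic zero -/
theorem exists_P3_sharp {E : Type*} [Field E] [IsAlgClosed E] [CharZero E] [Algebra k E]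
    (T : Ten k σ) (hcard : 23 ≤ Fintype.card σ) (p : σ → E) (hp0 : p ≠ 0)
    (hp : Phi T p p p p p = 0) :
    ∃ lam : Fin 4 → σ → E, lam 0 = p ∧ LinearIndependent E lam ∧ Iso T lam := by
  obtain ⟨g, -, hg⟩ := Peel.exists_forms E (J := Fin 19) (by simp)
  exact exists_P3_sharp_of T g hg hcard p hp0 hp

end Pool.Agent.Work.PD5
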