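import Mathlib
import Pool.Agent.Work.MP_b62148_ag.Quintic.LeadQ
import Pool.Agent.Work.MP_b62148_ag.Quintic.ConfigQ
import Pool.Agent.Work.MP_b62148_ag.Quintic.TensorF
import Pool.Agent.Work.MP_b62148_ag.Quintic.DensityQ
import Pool.Agent.Work.MP_b62148_ag.Quintic.IrredQ
import Pool.Agent.Work.MP_b62148_ag.Quintic.SpecialQ
import Pool.Agent.Work.MP_b62148_ag.Quintic.TangentQ

/-!
Assembly: a smooth quintic all of whose points lie on three-spaces is potentially unirational.
-/

namespace Pool.Agent.Work.PD5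

open MvPolynomial

variable {k : Type*} [Field k] {σ : Type*} [Fintype σ]

theorem map_Phi' (T : Ten k σ) {R S : Type*} [CommRing R] [Algebra k R] [CommRing S] [Algebra k S]
    (g : R →ₐ[k] S) (v₁ v₂ v₃ v₄ v₅ : σ → R) :
    g (Phi T v₁ v₂ v₃ v₄ v₅) = Phi T (fun i => g (v₁ i)) (fun i => g (v₂ i)) (fun i => g (v₃ i))
      (fun i => g (v₄ i)) (fun i => g (v₅ i)) := by
  unfold Phi
  simp only [map_sum, map_mul, AlgHom.commutes]

/-- the value of a form over an extension -/
theorem aeval_map_alg {L : Type*} [Field L] [Algebra k L] {R : Type*} [CommRing R] [Algebra k R]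
    [Algebra L R] [IsScalarTower k L R] (F : MvPolynomial σ k) (x : σ → R) :
    aeval x (map (algebraMap k L) F) = aeval x F := by
  rw [aeval_map_algebraMap]

theorem pderiv_map_alg {L : Type*} [Field L] [Algebra k L] {R : Type*} [CommRing R] [Algebra k R]
    [Algebra L R] [IsScalarTower k L R] (F : MvPolynomial σ k) (x : σ → R) (i : σ) :
    aeval x (pderiv i (map (algebraMap k L) F)) = aeval x (pderiv i F) := by
  rw [pderiv_map, aeval_map_alg]

theorem main_of_P3 [CharZero k] (F : MvPolynomial σ k) (hF : F.IsHomogeneous 5)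
    (hs : PD.SmoothForm F) (hcard : 3 ≤ Fintype.card σ)
    (hP3 : ∀ (_ : (Ideal.span {F}).IsPrime) (T : Ten k σ),
      Phi T (PD.eta F) (PD.eta F) (PD.eta F) (PD.eta F) (PD.eta F) = 0 → PD.eta F ≠ 0 →
      ∃ lam : Fin 4 → σ → PD.EE F, lam 0 = PD.eta F ∧ LinearIndependent (PD.EE F) lam ∧
        Iso T lam) :
    ∃ L : IntermediateField k (AlgebraicClosure k), FiniteDimensional k L ∧
      (∃ P : σ → MvPolynomial ((Fin 3 × Fin 4) ⊕ (Fin 4 × σ)) L,
        aeval P (map (algebraMap k L) F) = 0 ∧
        ∀ G : MvPolynomial σ L, aeval P G = 0 → map (algebraMap k L) F ∣ G) := by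
  classical
  obtain ⟨T, hT⟩ := exists_isTen F hF
  have hirr : Irreducible F := irreducible_of_smooth F hF hs hcard
  have hp : (Ideal.span {F}).IsPrime :=
    (Ideal.span_singleton_prime hirr.ne_zero).mpr hirr.prime
  have heta : Phi T (PD.eta F) (PD.eta F) (PD.eta F) (PD.eta F) (PD.eta F) = 0 := by
    rw [← hT.aeval_eq]
    exact (PD.aeval_eta_eq_zero_iff F F).mpr dvd_rfl
  have heta0 : PD.eta F ≠ 0 := by
    intro h0
    have h1 : ∀ i : σ, F ∣ X i := fun i => by
      rw [← PD.aeval_eta_eq_zero_iff F, aeval_X, h0]; rfl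
    obtain ⟨i⟩ : Nonempty σ := by
      rw [← Fintype.card_pos_iff]; omega
    obtain ⟨q, hq⟩ := h1 i
    have hd : (X i : MvPolynomial σ k).totalDegree = 1 := totalDegree_X i
    have hq0 : q ≠ 0 := by
      rintro rfl
      rw [mul_zero] at hq
      exact X_ne_zero i hq
    rw [hq, totalDegree_mul_of_isDomain hirr.ne_zero hq0, hF.totalDegree hirr.ne_zero] at hd
    omega
  have hlead : Leading T (PD.EE F) := leading_generic F hF hs T hT (hP3 hp T heta heta0)
  have hlead2 : Leading T (AlgebraicClosure k) := leading_descend T hlead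
  obtain ⟨lam, hiso, ⟨Cf⟩⟩ := config_of_leading T hlead2
  obtain ⟨L, hL, lam', hiso', hlam'⟩ := descend_lam T lam hiso
  refine ⟨L, hL, Ppoly T lam', ?_, ?_⟩
  · rw [aeval_map_alg, hT.aeval_eq]
    have hiso2 : Iso T (fun j i => (C (lam' j i) : MvPolynomial ((Fin 3 × Fin 4) ⊕ (Fin 4 × σ)) L)) := by
      intro i j l m n
      have h := hiso' i j l m n
      have h2 := map_Phi' T (IsScalarTower.toAlgHom k L
        (MvPolynomial ((Fin 3 × Fin 4) ⊕ (Fin 4 × σ)) L)) (lam' i) (lam' j) (lam' l) (lam' m) (lam' n)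
      rw [h, map_zero] at h2
      exact h2.symm
    exact par_mem T _ hiso2 _ _ _ _ _
  · have hsL : PD.SmoothForm (map (algebraMap k L) F) := smooth_map F hs
    have hFL : (map (algebraMap k L) F).IsHomogeneous 5 := hF.map _
    have hirrL : Irreducible (map (algebraMap k L) F) :=
      irreducible_of_smooth _ hFL hsL hcard
    subst hlam'
    obtain ⟨t₀, r, hr, hx, htan⟩ := tangent (L := L) (E := AlgebraicClosure k) T lam' Cf
    refine density (E := AlgebraicClosure k) _ hirrL (Ppoly T lam') ?_ t₀ ?_ ?_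
    · rw [aeval_map_alg, hT.aeval_eq]
      have hiso2 : Iso T (fun j i =>
          (C (lam' j i) : MvPolynomial ((Fin 3 × Fin 4) ⊕ (Fin 4 × σ)) L)) := by
        intro i j l m n
        have h := hiso' i j l m n
        have h2 := map_Phi' T (IsScalarTower.toAlgHom k L
          (MvPolynomial ((Fin 3 × Fin 4) ⊕ (Fin 4 × σ)) L)) (lam' i) (lam' j) (lam' l) (lam' m)
          (lam' n)
        rw [h, map_zero] at h2
        exact h2.symm
      exact par_mem T _ hiso2 _ _ _ _ _
    · rw [hx]
      by_contra hcon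
      push Not at hcon
      have h1 := hT.grad (r • Cf.x) (comb (fun j i => algebraMap L (AlgebraicClosure k) (lam' j i))
        Cf.sy)
      have h2 : ∑ i, aeval (r • Cf.x) (pderiv i F) * (comb (fun j i => algebraMap L
          (AlgebraicClosure k) (lam' j i)) Cf.sy) i = 0 := by
        refine Finset.sum_eq_zero fun i _ => ?_
        rw [← pderiv_map_alg (L := L), hcon i, zero_mul]
      rw [h2, Phi_smul1, Phi_smul2, Phi_smul3, Phi_smul4] at h1
      have h3 : Phi T Cf.x Cf.x Cf.x Cf.x (comb (fun j i => algebraMap L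
          (AlgebraicClosure k) (lam' j i)) Cf.sy) ≠ 0 := by
        intro h0
        apply Cf.n3
        rw [Phi_s12, Phi_s23, Phi_s34, Phi_s45]; exact h0
      have h5 : (5 : AlgebraicClosure k) ≠ 0 := by norm_num
      have := mul_ne_zero h5 (mul_ne_zero hr (mul_ne_zero hr (mul_ne_zero hr (mul_ne_zero hr h3))))
      exact this h1.symm
    · intro h hh
      rw [hx] at hh
      apply htan
      have h1 := hT.grad (r • Cf.x) h
      have h2 : ∑ i, aeval (r • Cf.x) (pderiv i F) * h i = 0 := by
        rw [← hh]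
        refine Finset.sum_congr rfl fun i _ => ?_
        rw [← pderiv_map_alg (L := L)]
      rw [h2, Phi_smul1, Phi_smul2, Phi_smul3, Phi_smul4] at h1
      have h5 : (5 : AlgebraicClosure k) ≠ 0 := by norm_num
      by_contra h0
      have := mul_ne_zero h5 (mul_ne_zero hr (mul_ne_zero hr (mul_ne_zero hr (mul_ne_zero hr h0))))
      exact this h1.symm

/-- final form -/
theorem main_final [CharZero k] (F : MvPolynomial σ k) (hF : F.IsHomogeneous 5)
    (hs : PD.SmoothForm F) (hcard : 3 ≤ Fintype.card σ)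
    (hP3 : ∀ (_ : (Ideal.span {F}).IsPrime) (T : Ten k σ),
      Phi T (PD.eta F) (PD.eta F) (PD.eta F) (PD.eta F) (PD.eta F) = 0 → PD.eta F ≠ 0 →
      ∃ lam : Fin 4 → σ → PD.EE F, lam 0 = PD.eta F ∧ LinearIndependent (PD.EE F) lam ∧
        Iso T lam) :
    ∃ L : IntermediateField k (AlgebraicClosure k), FiniteDimensional k L ∧
      (∃ (m : ℕ) (P : σ → MvPolynomial (Fin m) L),
        aeval P (map (algebraMap k L) F) = 0 ∧
        ∀ G : MvPolynomial σ L, aeval P G = 0 → map (algebraMap k L) F ∣ G) ∧
      ∀ G : MvPolynomial σ L, (∀ x : σ → L, eval x (map (algebraMap k L) F) = 0 → eval x G = 0) →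
        map (algebraMap k L) F ∣ G := by
  obtain ⟨L, hL, P, hP, hdom⟩ := main_of_P3 F hF hs hcard hP3
  refine ⟨L, hL, ?_, ?_⟩
  · let e := Fintype.equivFin ((Fin 3 × Fin 4) ⊕ (Fin 4 × σ))
    refine ⟨_, fun i => rename e (P i), ?_, ?_⟩
    · have h1 : aeval (fun i => rename e (P i)) (map (algebraMap k L) F) =
          rename e (aeval P (map (algebraMap k L) F)) := by
        rw [← AlgHom.comp_apply]
        congr 1
        apply MvPolynomial.algHom_ext
        intro i; simp
      rw [h1, hP, map_zero]
    · intro G hG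
      apply hdom
      have h1 : aeval (fun i => rename e (P i)) G = rename e (aeval P G) := by
        rw [← AlgHom.comp_apply]
        congr 1
        apply MvPolynomial.algHom_ext
        intro i; simp
      rw [h1] at hG
      exact rename_injective e e.injective (by rw [hG, map_zero])
  · intro G hG
    apply hdom
    have : Infinite L := inferInstance
    apply MvPolynomial.funext
    intro t
    rw [map_zero]
    have h1 : ∀ Q : MvPolynomial σ L, eval t (aeval P Q) = eval (fun i => eval t (P i)) Q := by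
      intro Q
      have : ((aeval t : MvPolynomial _ L →ₐ[L] L).comp (aeval P)) =
          aeval (fun i => eval t (P i)) := by
        apply MvPolynomial.algHom_ext
        intro i; simp [MvPolynomial.aeval_eq_eval]
      have := congrArg (fun f => f Q) this
      simpa [MvPolynomial.aeval_eq_eval] using this
    rw [h1]
    apply hG
    rw [← h1, hP, map_zero]

end Pool.Agent.Work.PD5
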