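import Mathlib
import Pool.Agent.Work.MP_b62148_ag.Polar

/-!
Saturation of a subspace with respect to a valuation ring: a four-dimensional subspace of `K^σ`
containing a non-zero vector of `E^σ` has a basis consisting of integral vectors, the first one being
the given vector, whose residues are linearly independent.
-/

namespace Pool.Agent.Work.PD5

section Sat

variable {K : Type*} [Field K] {σ : Type*}

/-- elimination of the pivot coordinates -/
theorem exists_elim {n : ℕ} (w : Fin n → σ → K) (c : Fin n → σ) (h1 : ∀ j, w j (c j) ≠ 0)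
    (h0 : ∀ j l, l < j → w j (c l) = 0) (v : σ → K) :
    ∃ u ∈ Submodule.span K (Set.range w), ∀ l, v (c l) = u (c l) := by
  induction n with
  | zero => exact ⟨0, Submodule.zero_mem _, fun l => l.elim0⟩
  | succ n ih =>
    obtain ⟨u, hu, hv⟩ := ih (fun j => w j.castSucc) (fun j => c j.castSucc) (fun j => h1 _)
      (fun j l hjl => h0 _ _ (Fin.castSucc_lt_castSucc_iff.mpr hjl))
    have hsub : Submodule.span K (Set.range fun j : Fin n => w j.castSucc) ≤
        Submodule.span K (Set.range w) := by
      apply Submodule.span_mono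
      rintro _ ⟨j, rfl⟩
      exact ⟨j.castSucc, rfl⟩
    refine ⟨u + ((v (c (Fin.last n)) - u (c (Fin.last n))) / w (Fin.last n) (c (Fin.last n))) •
      w (Fin.last n), ?_, ?_⟩
    · exact Submodule.add_mem _ (hsub hu)
        (Submodule.smul_mem _ _ (Submodule.subset_span ⟨Fin.last n, rfl⟩))
    · intro l
      refine Fin.lastCases ?_ (fun l' => ?_) l
      · simp only [Pi.add_apply, Pi.smul_apply, smul_eq_mul]
        rw [div_mul_cancel₀ _ (h1 (Fin.last n))]
        ring
      · simp only [Pi.add_apply, Pi.smul_apply, smul_eq_mul]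
        rw [h0 (Fin.last n) l'.castSucc (Fin.castSucc_lt_last l'), mul_zero, add_zero]
        exact hv l'

/-- a triangular integral basis of a subspace with invertible pivots -/
theorem exists_pivot [Finite σ] (V : ValuationSubring K) {n : ℕ} (Λ : Fin (n + 1) → σ → K)
    (hli : LinearIndependent K Λ) (c0 : σ) (hV0 : ∀ i, Λ 0 i ∈ V) (hc0 : Λ 0 c0 ≠ 0)
    (hinv : (Λ 0 c0)⁻¹ ∈ V) :
    ∃ (w : Fin (n + 1) → σ → K) (c : Fin (n + 1) → σ), w 0 = Λ 0 ∧ (∀ j i, w j i ∈ V) ∧
      (∀ j, w j ∈ Submodule.span K (Set.range Λ)) ∧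
      (∀ j, w j (c j) ≠ 0 ∧ (w j (c j))⁻¹ ∈ V) ∧ (∀ j l, l < j → w j (c l) = 0) := by
  induction n with
  | zero =>
    refine ⟨fun _ => Λ 0, fun _ => c0, rfl, fun _ i => hV0 i, fun _ => Submodule.subset_span ⟨0, rfl⟩,
      fun _ => ⟨hc0, hinv⟩, fun j l hjl => ?_⟩
    omega
  | succ n ih =>
    obtain ⟨w, c, hw0, hwV, hwΛ, hpiv, htri⟩ := ih (fun j => Λ j.castSucc)
      (hli.comp _ (Fin.castSucc_injective _)) hV0 hc0 hinv
    obtain ⟨u, hu, hv⟩ := exists_elim w c (fun j => (hpiv j).1) htri (Λ (Fin.last (n + 1)))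
    have hsub1 : Submodule.span K (Set.range w) ≤
        Submodule.span K (Set.range fun j : Fin (n + 1) => Λ j.castSucc) := by
      rw [Submodule.span_le]
      rintro _ ⟨j, rfl⟩
      exact hwΛ j
    have hsub2 : Submodule.span K (Set.range fun j : Fin (n + 1) => Λ j.castSucc) ≤
        Submodule.span K (Set.range Λ) := by
      apply Submodule.span_mono
      rintro _ ⟨j, rfl⟩
      exact ⟨j.castSucc, rfl⟩
    have hne : Λ (Fin.last (n + 1)) - u ≠ 0 := by
      intro h
      rw [sub_eq_zero] at h
      have h2 : Λ (Fin.last (n + 1)) ∈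
          Submodule.span K (Set.range fun j : Fin (n + 1) => Λ j.castSucc) := by
        rw [h]; exact hsub1 hu
      have h3 := (linearIndependent_finSucc'.mp hli).2
      exact h3 h2
    obtain ⟨m, hm0, hm⟩ := Pool.Agent.Work.PD.exists_max_coord V _ hne
    set v : σ → K := Λ (Fin.last (n + 1)) - u with hvdef
    have hvc : ∀ l, v (c l) = 0 := by
      intro l
      rw [hvdef, Pi.sub_apply, hv l, sub_self]
    refine ⟨Fin.snoc w ((v m)⁻¹ • v), Fin.snoc c m, ?_, ?_, ?_, ?_, ?_⟩
    · have h0 : (0 : Fin (n + 1 + 1)) = Fin.castSucc 0 := rfl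
      rw [h0, Fin.snoc_castSucc]
      exact hw0
    · intro j
      refine Fin.lastCases ?_ (fun j' => ?_) j
      · rw [Fin.snoc_last]
        intro i
        rw [Pi.smul_apply, smul_eq_mul, mul_comm, ← div_eq_mul_inv]
        exact hm i
      · rw [Fin.snoc_castSucc]
        exact hwV j'
    · intro j
      refine Fin.lastCases ?_ (fun j' => ?_) j
      · rw [Fin.snoc_last]
        exact Submodule.smul_mem _ _ (Submodule.sub_mem _ (Submodule.subset_span ⟨_, rfl⟩)
          (hsub2 (hsub1 hu)))
      · rw [Fin.snoc_castSucc]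
        exact hsub2 (hwΛ j')
    · intro j
      refine Fin.lastCases ?_ (fun j' => ?_) j
      · rw [Fin.snoc_last, Fin.snoc_last, Pi.smul_apply, smul_eq_mul, inv_mul_cancel₀ hm0]
        exact ⟨one_ne_zero, by rw [inv_one]; exact V.one_mem⟩
      · rw [Fin.snoc_castSucc, Fin.snoc_castSucc]
        exact hpiv j'
    · intro j l
      refine Fin.lastCases ?_ (fun j' => ?_) j
      · refine Fin.lastCases ?_ (fun l' => ?_) l
        · intro h
          exact absurd h (lt_irrefl _)
        · intro _
          rw [Fin.snoc_last, Fin.snoc_castSucc, Pi.smul_apply, hvc l', smul_zero]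
      · refine Fin.lastCases ?_ (fun l' => ?_) l
        · intro h
          exact absurd h (not_lt.mpr (Fin.castSucc_lt_last j').le)
        · intro h
          rw [Fin.snoc_castSucc, Fin.snoc_castSucc]
          exact htri j' l' (Fin.castSucc_lt_castSucc_iff.mp h)

/-- a triangular family with non-zero pivots is linearly independent -/
theorem linearIndependent_of_pivot {n : ℕ} (w : Fin n → σ → K) (c : Fin n → σ)
    (h1 : ∀ j, w j (c j) ≠ 0) (h0 : ∀ j l, l < j → w j (c l) = 0) : LinearIndependent K w := by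
  rw [Fintype.linearIndependent_iff]
  intro g hg
  have key : ∀ (N : ℕ) (j : Fin n), j.val < N → g j = 0 := by
    intro N
    induction N with
    | zero => intro j hj; omega
    | succ N ih =>
      intro j hj
      have h2 := congrFun hg (c j)
      rw [Finset.sum_apply, Finset.sum_eq_single j] at h2
      · rw [Pi.smul_apply, smul_eq_mul, Pi.zero_apply] at h2
        exact (mul_eq_zero.mp h2).resolve_right (h1 j)
      · intro l _ hlj
        rcases lt_or_gt_of_ne hlj with h | h
        · rw [ih l (by have := Fin.lt_def.mp h; omega), zero_smul, Pi.zero_apply]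
        · rw [Pi.smul_apply, h0 l j h, smul_zero]
      · intro h
        exact absurd (Finset.mem_univ j) h
  intro j
  exact key (j.val + 1) j (Nat.lt_succ_self _)

end Sat

/-- Saturation: an integral basis, with independent residues, of a subspace of dimension four,
keeping the first vector when it is defined over the ground field. -/
theorem exists_saturated {E K : Type*} [Field E] [Field K] [Algebra E K] (V : ValuationSubring K)
    (hE : ∀ e : E, algebraMap E K e ∈ V) {σ : Type*} [Fintype σ] (p : σ → E) (hp : p ≠ 0)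
    (Λ : Fin 4 → σ → K) (h0 : Λ 0 = fun i => algebraMap E K (p i)) (hli : LinearIndependent K Λ) :
    ∃ w : Fin 4 → σ → V, (∀ i, (w 0 i : K) = algebraMap E K (p i)) ∧
      (∀ j, (fun i => (w j i : K)) ∈ Submodule.span K (Set.range Λ)) ∧
      LinearIndependent (IsLocalRing.ResidueField V) (fun j i => IsLocalRing.residue V (w j i)) := by
  obtain ⟨c0, hc0⟩ := Function.ne_iff.mp hp
  rw [Pi.zero_apply] at hc0
  obtain ⟨w, c, hw0, hwV, hwΛ, hpiv, htri⟩ := exists_pivot V Λ hli c0
    (fun i => by rw [h0]; exact hE _)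
    (by rw [h0]; exact (map_ne_zero _).mpr hc0)
    (by rw [h0]; show (algebraMap E K (p c0))⁻¹ ∈ V; rw [← map_inv₀]; exact hE _)
  refine ⟨fun j i => ⟨w j i, hwV j i⟩, fun i => ?_, hwΛ, ?_⟩
  · show w 0 i = _
    rw [hw0, h0]
  · apply linearIndependent_of_pivot _ c
    · intro j
      obtain ⟨h1, h2⟩ := hpiv j
      have hu : IsUnit (⟨w j (c j), hwV j (c j)⟩ : V) := by
        refine IsUnit.of_mul_eq_one (⟨(w j (c j))⁻¹, h2⟩ : V) ?_
        exact Subtype.ext (mul_inv_cancel₀ h1)
      exact (hu.map (IsLocalRing.residue V)).ne_zero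
    · intro j l hjl
      have h3 : (⟨w j (c l), hwV j (c l)⟩ : V) = 0 := Subtype.ext (htri j l hjl)
      show IsLocalRing.residue V (⟨w j (c l), hwV j (c l)⟩ : V) = 0
      rw [h3, map_zero]

end Pool.Agent.Work.PD5
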