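import Mathlib
import Pool.Agent.Work.MP_b62148_ag.Quintic.SharpQ
import Pool.Agent.Work.MP_b62148_ag.Quintic.PeelQ

/-!
A projective three-space through every point of a quintic hypersurface in projective space of
dimension at least 22.
-/

namespace Pool.Agent.Work.PD5

open MvPolynomial

theorem exists_P3_sharp {k : Type*} [Field k] {σ : Type*} [Fintype σ] {E : Type*} [Field E]
    [IsAlgClosed E] [CharZero E] [Algebra k E] (T : Ten k σ)
    (hcard : 23 ≤ Fintype.card σ) (p : σ → E) (hp0 : p ≠ 0) (hp : Phi T p p p p p = 0) :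
    ∃ lam : Fin 4 → σ → E, lam 0 = p ∧ LinearIndependent E lam ∧ Iso T lam :=
  exists_P3_sharp_of T (Peel.gq E) (Peel.peel E) (by omega) p hp0 hp

end Pool.Agent.Work.PD5
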